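import Pool.Agent.H53.QT.Chi

/-!
# Bilinear sums of quartic symbols (project QT)
-/

set_option autoImplicit false

namespace Pool.Agent.H53.QT

open Finset Pool.Agent.W262.RK Pool.Agent.W262.TW

/-! ## Elementary properties of the symbols -/

lemma Jr_abs_le (a : ℤ) (n : ℕ) : |Jr a n| ≤ 1 := by
  unfold Jr
  rcases jacobiSym.trichotomy a n with h | h | h <;> rw [h] <;> norm_num

lemma Jr_mul (a b : ℤ) (n : ℕ) : Jr (a * b) n = Jr a n * Jr b n := by
  unfold Jr
  rw [jacobiSym.mul_left]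
  push_cast
  rfl

lemma q4_norm_le (p : ℕ) (n : ℤ) : ‖q4 p n‖ ≤ 1 := by
  unfold q4
  split_ifs with h
  · set χ := h.choose
    have hord : orderOf χ = 4 := h.choose_spec
    by_cases hu : IsUnit (n : ZMod p)
    · obtain ⟨u, hu⟩ := hu
      have h1 : χ ^ 4 = 1 := by rw [← hord]; exact pow_orderOf_eq_one χ
      have h2 : χ (n : ZMod p) ^ 4 = 1 := by
        rw [← hu, ← MulChar.pow_apply_coe, h1, MulChar.one_apply_coe]
      exact (Complex.norm_eq_one_of_pow_eq_one h2 (by norm_num)).le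
    · rw [χ.map_nonunit hu]
      simp
  · simp

lemma sp_norm_le (e : ZMod 4) (p : ℕ) (n : ℤ) : ‖sp e p n‖ ≤ 1 := by
  unfold sp
  split_ifs
  · simp
  · rw [Complex.norm_real, Real.norm_eq_abs]
    exact Jr_abs_le n p
  · exact q4_norm_le p n
  · rw [RCLike.norm_conj]
    exact q4_norm_le p n

lemma sy_norm_le (e : ZMod 4) (m : ℕ) (n : ℤ) : ‖sy e m n‖ ≤ 1 := by
  unfold sy
  rw [norm_prod]
  exact prod_le_one (fun _ _ => norm_nonneg _) fun p _ => sp_norm_le e p n

/-- for odd `e` -/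
lemma sp_odd {e : ZMod 4} (he : e = 1 ∨ e = 3) {p : ℕ} (hp : p.Prime) (h4 : p % 4 = 1) :
    (∀ a b : ℤ, sp e p (a * b) = sp e p a * sp e p b) ∧
    (∀ a b : ℤ, (p : ℤ) ∣ a - b → sp e p a = sp e p b) ∧
    ∃ a : ℤ, ¬ (p : ℤ) ∣ a ∧ sp e p a ≠ 1 := by
  obtain ⟨h1, h2, _, _, a, ha, ha'⟩ := chi p hp h4
  rcases he with rfl | rfl
  · have hs : ∀ n, sp 1 p n = q4 p n := by
      intro n
      unfold sp
      rw [if_neg (by decide), if_neg (by decide), if_pos rfl]
    refine ⟨fun a b => by rw [hs, hs, hs, h1], fun a b hab => by rw [hs, hs, h2 a b hab],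
      a, ha, by rw [hs]; exact ha'⟩
  · have hs : ∀ n, sp 3 p n = (starRingEnd ℂ) (q4 p n) := by
      intro n
      unfold sp
      rw [if_neg (by decide), if_neg (by decide), if_neg (by decide)]
    refine ⟨fun a b => by rw [hs, hs, hs, h1, map_mul], fun a b hab => by rw [hs, hs, h2 a b hab],
      a, ha, ?_⟩
    rw [hs]
    intro h
    apply ha'
    have := congrArg (starRingEnd ℂ) h
    rwa [Complex.conj_conj, map_one] at this

lemma sy_mul {e : ZMod 4} (he : e = 1 ∨ e = 3) {m : ℕ}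
    (hm : ∀ p : ℕ, p.Prime → p ∣ m → p % 4 = 1) (a b : ℤ) :
    sy e m (a * b) = sy e m a * sy e m b := by
  unfold sy
  rw [← prod_mul_distrib]
  refine prod_congr rfl fun p hp => ?_
  have h := Nat.mem_primeFactors.1 hp
  exact (sp_odd he h.1 (hm p h.1 h.2.1)).1 a b

lemma sy_per {e : ZMod 4} (he : e = 1 ∨ e = 3) {m : ℕ}
    (hm : ∀ p : ℕ, p.Prime → p ∣ m → p % 4 = 1) (a b : ℤ) (hab : (m : ℤ) ∣ a - b) :
    sy e m a = sy e m b := by
  unfold sy
  refine prod_congr rfl fun p hp => ?_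
  have h := Nat.mem_primeFactors.1 hp
  exact (sp_odd he h.1 (hm p h.1 h.2.1)).2.1 a b
    ((Int.natCast_dvd_natCast.2 h.2.1).trans hab)

/-! ## Sums over periods -/

lemma period_zero {q : ℕ} (hq : 0 < q) (f : ℤ → ℂ) (hper : ∀ a b : ℤ, (q : ℤ) ∣ a - b → f a = f b)
    (t : ℤ) (ht : IsCoprime t (q : ℤ)) (ρ : ℂ) (hρ : ρ ≠ 1) (hf : ∀ n, f (t * n) = ρ * f n) :
    ∑ n ∈ range q, f (n : ℤ) = 0 := by
  haveI : NeZero q := ⟨hq.ne'⟩
  have hu : IsUnit (t : ZMod q) := by
    rw [ZMod.coe_int_isUnit_iff_isCoprime]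
    exact ht.symm
  obtain ⟨u, hu⟩ := hu
  set F : ZMod q → ℂ := fun x => f (x.val : ℤ) with hF
  have h1 : ∑ n ∈ range q, f (n : ℤ) = ∑ x : ZMod q, F x := by
    refine sum_bij' (fun n _ => (n : ZMod q)) (fun x _ => x.val) ?_ ?_ ?_ ?_ ?_
    · intro a _; exact mem_univ _
    · intro x _; exact mem_range.2 (ZMod.val_lt x)
    · intro a ha; exact ZMod.val_cast_of_lt (mem_range.1 ha)
    · intro x _; exact ZMod.natCast_zmod_val x
    · intro a ha
      simp only [hF]
      rw [ZMod.val_cast_of_lt (mem_range.1 ha)]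
  have h2 : ∑ x : ZMod q, F x = ∑ x : ZMod q, F (u * x) := by
    rw [← Equiv.sum_comp (Units.mulLeft u) F]
    rfl
  have h3 : ∀ x : ZMod q, F (u * x) = ρ * F x := by
    intro x
    simp only [hF]
    rw [← hf]
    apply hper
    rw [← ZMod.intCast_zmod_eq_zero_iff_dvd]
    push_cast
    rw [ZMod.natCast_zmod_val, ZMod.natCast_zmod_val, hu, sub_self]
  rw [h1]
  have h4 : ∑ x : ZMod q, F x = ρ * ∑ x : ZMod q, F x := by
    conv_lhs => rw [h2]
    rw [mul_sum]
    exact sum_congr rfl fun x _ => h3 x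
  have h5 : (1 - ρ) * ∑ x : ZMod q, F x = 0 := by linear_combination h4
  rcases mul_eq_zero.1 h5 with h | h
  · exact absurd (by linear_combination -h) hρ
  · exact h

lemma partial_sum {q : ℕ} (hq : 0 < q) (f : ℕ → ℂ) (hper : ∀ n, f (n + q) = f n)
    (hf : ∀ n, ‖f n‖ ≤ 1) (h0 : ∑ n ∈ range q, f n = 0) (N : ℕ) :
    ‖∑ n ∈ range N, f n‖ ≤ q := by
  have hfull : ∀ k : ℕ, ∑ n ∈ range (q * k), f n = 0 := by
    intro k
    induction k with
    | zero => simp
    | succ k ih =>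
      rw [Nat.mul_succ, sum_range_add, ih, zero_add]
      rw [← h0]
      refine sum_congr rfl fun n _ => ?_
      have : ∀ k : ℕ, f (q * k + n) = f n := by
        intro k
        induction k with
        | zero => simp
        | succ k ih2 =>
          rw [← ih2, ← hper (q * k + n)]
          congr 1
          ring
      exact this k
  have hN : N = q * (N / q) + N % q := (Nat.div_add_mod N q).symm
  have h1 : ∑ n ∈ range N, f n = ∑ n ∈ range (N % q), f (q * (N / q) + n) := by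
    conv_lhs => rw [hN]
    rw [sum_range_add, hfull, zero_add]
  rw [h1]
  refine (norm_sum_le _ _).trans ((sum_le_sum fun n _ => hf _).trans ?_)
  rw [sum_const, card_range, nsmul_eq_mul, mul_one]
  exact_mod_cast (Nat.mod_lt N hq).le

lemma ioc_sum {q : ℕ} (hq : 0 < q) (f : ℕ → ℂ) (hper : ∀ n, f (n + q) = f n)
    (hf : ∀ n, ‖f n‖ ≤ 1) (h0 : ∑ n ∈ range q, f n = 0) (A B : ℕ) :
    ‖∑ n ∈ Ioc A B, f n‖ ≤ 2 * q := by
  rcases le_or_gt B A with h | h
  · rw [Ioc_eq_empty (by omega), sum_empty, norm_zero]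
    positivity
  · have h1 : ∑ n ∈ Ioc A B, f n = ∑ n ∈ range (B + 1), f n - ∑ n ∈ range (A + 1), f n := by
      rw [← sum_range_add_sum_Ico f (show A + 1 ≤ B + 1 by omega), add_sub_cancel_left]
      refine sum_congr ?_ fun _ _ => rfl
      ext n
      rw [mem_Ioc, mem_Ico]
      omega
    rw [h1]
    refine (norm_sub_le _ _).trans ?_
    have h2 := partial_sum hq f hper hf h0 (B + 1)
    have h3 := partial_sum hq f hper hf h0 (A + 1)
    linarith

/-- the product of two symbols -/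
noncomputable def ff (e : ZMod 4) (m m' : ℕ) (n : ℤ) : ℂ := sy e m n * (starRingEnd ℂ) (sy e m' n)

lemma ff_norm (e : ZMod 4) (m m' : ℕ) (n : ℤ) : ‖ff e m m' n‖ ≤ 1 := by
  unfold ff
  rw [norm_mul, RCLike.norm_conj]
  exact mul_le_one₀ (sy_norm_le _ _ _) (norm_nonneg _) (sy_norm_le _ _ _)

lemma sum_ff_aux {e : ZMod 4} (he : e = 1 ∨ e = 3) {m m' : ℕ} (hm : Squarefree m)
    (hm' : Squarefree m') (h4 : ∀ p : ℕ, p.Prime → p ∣ m → p % 4 = 1)
    (h4' : ∀ p : ℕ, p.Prime → p ∣ m' → p % 4 = 1) {p : ℕ} (hp : p.Prime) (hpm : p ∣ m)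
    (hpm' : ¬ p ∣ m') : ∑ n ∈ range (m * m'), ff e m m' (n : ℤ) = 0 := by
  have hm0 : m ≠ 0 := hm.ne_zero
  have hm0' : m' ≠ 0 := hm'.ne_zero
  obtain ⟨r, hr⟩ := hpm
  have hcop : Nat.Coprime p (r * m') := by
    rw [Nat.Prime.coprime_iff_not_dvd hp]
    intro h
    rcases (Nat.Prime.dvd_mul hp).1 h with h | h
    · have : p * p ∣ m := by rw [hr]; exact Nat.mul_dvd_mul_left p h
      exact hp.one_lt.ne' (Nat.isUnit_iff.1 (hm p this))
    · exact hpm' h
  have h4p := h4 p hp ⟨r, hr⟩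
  obtain ⟨k1, k2, a, ha, ha1⟩ := sp_odd he hp h4p
  have hcopZ : IsCoprime (p : ℤ) ((r * m' : ℕ) : ℤ) := Nat.isCoprime_iff_coprime.2 hcop
  obtain ⟨u, v, huv⟩ := hcopZ
  -- t = a * v * (r m') + u * p
  set t : ℤ := a * (v * ((r * m' : ℕ) : ℤ)) + u * p with ht
  have ht1 : (p : ℤ) ∣ t - a := by
    refine ⟨u - a * u, ?_⟩
    rw [ht]
    linear_combination a * huv
  have ht2 : ((r * m' : ℕ) : ℤ) ∣ t - 1 := by
    refine ⟨a * v - v, ?_⟩
    rw [ht]
    linear_combination huv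
  have hq : (m * m' : ℕ) = p * (r * m') := by rw [hr]; ring
  have htc : IsCoprime t ((m * m' : ℕ) : ℤ) := by
    rw [hq]
    push_cast
    have c1 : IsCoprime t (p : ℤ) := by
      refine (Int.isCoprime_iff_gcd_eq_one.2 ?_)
      rw [Int.gcd_comm, ← Int.isCoprime_iff_gcd_eq_one]
      rw [(Nat.prime_iff_prime_int.1 hp).coprime_iff_not_dvd]
      intro h
      apply ha
      have := dvd_sub h ht1
      rwa [sub_sub_cancel] at this
    have c2 : IsCoprime t ((r : ℤ) * m') := by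
      obtain ⟨w, hw⟩ := ht2
      refine ⟨1, -w, ?_⟩
      push_cast at hw
      linear_combination hw
    exact c1.mul_right c2
  have hsm : sy e m t = sp e p a := by
    unfold sy
    have hmem : p ∈ m.primeFactors := Nat.mem_primeFactors.2 ⟨hp, ⟨r, hr⟩, hm0⟩
    rw [← mul_prod_erase _ _ hmem, k2 t a ht1]
    have : ∏ x ∈ m.primeFactors.erase p, sp e x t = 1 := by
      refine prod_eq_one fun x hx => ?_
      obtain ⟨hx1, hx2⟩ := mem_erase.1 hx
      have hx3 := Nat.mem_primeFactors.1 hx2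
      obtain ⟨j1, j2, -⟩ := sp_odd he hx3.1 (h4 x hx3.1 hx3.2.1)
      have hxr : x ∣ r := by
        have h := hx3.2.1
        rw [hr] at h
        rcases (Nat.Prime.dvd_mul hx3.1).1 h with h | h
        · exact absurd ((Nat.prime_dvd_prime_iff_eq hx3.1 hp).1 h) hx1
        · exact h
      have e1 : sp e x t = sp e x 1 := j2 t 1
        ((Int.natCast_dvd_natCast.2 (Dvd.dvd.mul_right hxr m' : x ∣ r * m')).trans ht2)
      have e2 : sp e x 1 = sp e x 1 * sp e x 1 := by
        conv_lhs => rw [show (1 : ℤ) = 1 * 1 by norm_num, j1]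
      have e3 : sp e x 1 ≠ 0 := by
        intro h0
        obtain ⟨_, _, a', _, _⟩ := sp_odd he hx3.1 (h4 x hx3.1 hx3.2.1)
        obtain ⟨-, -, -, c4, -⟩ := chi x hx3.1 (h4 x hx3.1 hx3.2.1)
        have hx1' : ¬ (x : ℤ) ∣ 1 := by
          intro h
          have := Int.natCast_dvd.1 h
          simp only [Int.natAbs_one, Nat.dvd_one] at this
          exact hx3.1.one_lt.ne' this
        have hn := (c4 1 hx1').2.2
        rcases he with rfl | rfl
        · unfold sp at h0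
          rw [if_neg (by decide), if_neg (by decide), if_pos rfl] at h0
          rw [h0] at hn
          simp at hn
        · unfold sp at h0
          rw [if_neg (by decide), if_neg (by decide), if_neg (by decide)] at h0
          have : q4 x 1 = 0 := by
            have := congrArg (starRingEnd ℂ) h0
            rwa [Complex.conj_conj, map_zero] at this
          rw [this] at hn
          simp at hn
      rw [e1]
      exact (mul_left_cancel₀ e3 (by rw [← e2, mul_one])).symm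
    rw [this, mul_one]
  have hsm' : sy e m' t = 1 := by
    have e1 : sy e m' t = sy e m' 1 := sy_per he h4' t 1
      ((Int.natCast_dvd_natCast.2 (Dvd.intro_left r rfl : m' ∣ r * m')).trans ht2)
    rw [e1]
    unfold sy
    refine prod_eq_one fun x hx => ?_
    have hx3 := Nat.mem_primeFactors.1 hx
    obtain ⟨j1, j2, -⟩ := sp_odd he hx3.1 (h4' x hx3.1 hx3.2.1)
    have e2 : sp e x 1 = sp e x 1 * sp e x 1 := by
      conv_lhs => rw [show (1 : ℤ) = 1 * 1 by norm_num, j1]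
    have e3 : sp e x 1 ≠ 0 := by
      intro h0
      obtain ⟨-, -, -, c4, -⟩ := chi x hx3.1 (h4' x hx3.1 hx3.2.1)
      have hx1' : ¬ (x : ℤ) ∣ 1 := by
        intro h
        have := Int.natCast_dvd.1 h
        simp only [Int.natAbs_one, Nat.dvd_one] at this
        exact hx3.1.one_lt.ne' this
      have hn := (c4 1 hx1').2.2
      rcases he with rfl | rfl
      · unfold sp at h0
        rw [if_neg (by decide), if_neg (by decide), if_pos rfl] at h0
        rw [h0] at hn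
        simp at hn
      · unfold sp at h0
        rw [if_neg (by decide), if_neg (by decide), if_neg (by decide)] at h0
        have : q4 x 1 = 0 := by
          have := congrArg (starRingEnd ℂ) h0
          rwa [Complex.conj_conj, map_zero] at this
        rw [this] at hn
        simp at hn
    exact (mul_left_cancel₀ e3 (by rw [← e2, mul_one])).symm
  refine period_zero (Nat.mul_pos (Nat.pos_of_ne_zero hm0) (Nat.pos_of_ne_zero hm0'))
    (ff e m m') ?_ t htc (sp e p a) ha1 ?_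
  · intro a b hab
    unfold ff
    rw [sy_per he h4 a b ((Int.natCast_dvd_natCast.2 (Nat.dvd_mul_right m m')).trans hab),
      sy_per he h4' a b ((Int.natCast_dvd_natCast.2 (Nat.dvd_mul_left m' m)).trans hab)]
  · intro n
    unfold ff
    rw [sy_mul he h4, sy_mul he h4', hsm, hsm']
    rw [one_mul]
    ring

lemma sum_ff {e : ZMod 4} (he : e = 1 ∨ e = 3) {m m' : ℕ} (hm : Squarefree m)
    (hm' : Squarefree m') (h4 : ∀ p : ℕ, p.Prime → p ∣ m → p % 4 = 1)
    (h4' : ∀ p : ℕ, p.Prime → p ∣ m' → p % 4 = 1) (hne : m ≠ m') :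
    ∑ n ∈ range (m * m'), ff e m m' (n : ℤ) = 0 := by
  have hex : ∃ p : ℕ, p.Prime ∧ ((p ∣ m ∧ ¬ p ∣ m') ∨ (p ∣ m' ∧ ¬ p ∣ m)) := by
    by_contra hcon
    push Not at hcon
    apply hne
    rw [← Nat.prod_primeFactors_of_squarefree hm, ← Nat.prod_primeFactors_of_squarefree hm']
    congr 1
    ext p
    simp only [Nat.mem_primeFactors, ne_eq, hm.ne_zero, not_false_eq_true, and_true, hm'.ne_zero]
    constructor
    · rintro ⟨h1, h2⟩
      exact ⟨h1, (hcon p h1).1 h2⟩
    · rintro ⟨h1, h2⟩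
      exact ⟨h1, (hcon p h1).2 h2⟩
  obtain ⟨p, hp, h | h⟩ := hex
  · exact sum_ff_aux he hm hm' h4 h4' hp h.1 h.2
  · have h1 := sum_ff_aux he hm' hm h4' h4 hp h.1 h.2
    have h2 := congrArg (starRingEnd ℂ) h1
    rw [map_sum, map_zero, mul_comm m' m] at h2
    rw [← h2]
    refine sum_congr rfl fun n _ => ?_
    unfold ff
    rw [map_mul, Complex.conj_conj, mul_comm]

lemma ioc_ff {e : ZMod 4} (he : e = 1 ∨ e = 3) {m m' : ℕ} (hm : Squarefree m)
    (hm' : Squarefree m') (h4 : ∀ p : ℕ, p.Prime → p ∣ m → p % 4 = 1)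
    (h4' : ∀ p : ℕ, p.Prime → p ∣ m' → p % 4 = 1) (hne : m ≠ m') (A B : ℕ) :
    ‖∑ n ∈ Ioc A B, ff e m m' (n : ℤ)‖ ≤ 2 * (m * m' : ℕ) := by
  refine ioc_sum (Nat.mul_pos (Nat.pos_of_ne_zero hm.ne_zero) (Nat.pos_of_ne_zero hm'.ne_zero))
    (fun n : ℕ => ff e m m' (n : ℤ)) ?_ (fun n => ff_norm e m m' n)
    (sum_ff he hm hm' h4 h4' hne) A B
  intro n
  unfold ff
  have d1 : (m : ℤ) ∣ ((n + m * m' : ℕ) : ℤ) - (n : ℤ) := by
    push_cast
    rw [add_sub_cancel_left]
    exact Dvd.intro _ rfl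
  have d2 : (m' : ℤ) ∣ ((n + m * m' : ℕ) : ℤ) - (n : ℤ) := by
    push_cast
    rw [add_sub_cancel_left]
    exact Dvd.intro_left _ rfl
  rw [sy_per he h4 _ _ d1, sy_per he h4' _ _ d2]


/-! ## The bilinear bound -/

lemma bil_aux {e : ZMod 4} (he : e = 1 ∨ e = 3) {M N V0 T : ℕ} (hV : 2 ≤ V0) (hMN : M ^ 4 ≤ N)
    (hT : 2 ≤ T) (α β : ℕ → ℂ) (hα : ∀ m, ‖α m‖ ≤ 1) (hβ : ∀ n, ‖β n‖ ≤ 1)
    (hα' : ∀ m, α m ≠ 0 → Squarefree m ∧ (∀ p : ℕ, p.Prime → p ∣ m → p % 4 = 1) ∧ m ≤ M)
    (hβ' : ∀ n, β n ≠ 0 → N < n) :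
    ‖∑ m ∈ Ioc V0 T, ∑ n ∈ (Ioc V0 T).filter (fun n => m * n ≤ T),
      α m * β n * sy e m (n : ℤ)‖ ^ 2 ≤ (T : ℝ) / V0 * (T * (3 + Real.log T)) := by
  classical
  set a : ℕ → ℕ → ℂ := fun m n => if m * n ≤ T then α m * sy e m (n : ℤ) else 0 with ha
  set G : ℕ → ℂ := fun n => ∑ m ∈ Ioc V0 T, a m n with hG
  set S : Finset ℕ := (Ioc V0 T).filter (fun n => N < n ∧ n ≤ T / V0) with hS
  -- rewriting of the sum
  have h1 : ∑ m ∈ Ioc V0 T, ∑ n ∈ (Ioc V0 T).filter (fun n => m * n ≤ T),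
      α m * β n * sy e m (n : ℤ) = ∑ n ∈ S, β n * G n := by
    have h2 : ∑ m ∈ Ioc V0 T, ∑ n ∈ (Ioc V0 T).filter (fun n => m * n ≤ T),
        α m * β n * sy e m (n : ℤ) = ∑ n ∈ Ioc V0 T, β n * G n := by
      simp_rw [sum_filter]
      rw [sum_comm]
      refine sum_congr rfl fun n _ => ?_
      rw [hG, mul_sum]
      refine sum_congr rfl fun m _ => ?_
      simp only [ha]
      split_ifs
      · ring
      · ring
    rw [h2]
    symm
    refine sum_subset (filter_subset _ _) fun n hn hn' => ?_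
    by_cases hb : β n = 0
    · rw [hb, zero_mul]
    · have hN := hβ' n hb
      have hnT : T / V0 < n := by
        by_contra hcon
        exact hn' (mem_filter.2 ⟨hn, hN, not_lt.1 hcon⟩)
      have hG0 : G n = 0 := by
        rw [hG]
        refine sum_eq_zero fun m hm => ?_
        simp only [ha]
        rw [if_neg]
        intro hmn
        rw [mem_Ioc] at hm
        have : n ≤ T / V0 := by
          rw [Nat.le_div_iff_mul_le (by omega)]
          calc n * V0 ≤ n * m := Nat.mul_le_mul_left n hm.1.le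
            _ = m * n := mul_comm _ _
            _ ≤ T := hmn
        omega
      rw [hG0, mul_zero]
  rw [h1]
  rcases S.eq_empty_or_nonempty with hE | hE
  · rw [hE, sum_empty, norm_zero]
    have h0 : 0 ≤ Real.log T := Real.log_natCast_nonneg T
    have h00 : 0 ≤ (T : ℝ) / V0 * (T * (3 + Real.log T)) := by positivity
    simpa using h00
  -- M ^ 4 ≤ T
  have hM4 : M ^ 4 ≤ T := by
    obtain ⟨n, hn⟩ := hE
    rw [hS, mem_filter, mem_Ioc] at hn
    omega
  have hcardS : (S.card : ℝ) ≤ (T : ℝ) / V0 := by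
    have h3 : S ⊆ Ioc 0 (T / V0) := by
      intro n hn
      rw [hS, mem_filter, mem_Ioc] at hn
      rw [mem_Ioc]
      omega
    have h4 := card_le_card h3
    rw [Nat.card_Ioc, Nat.sub_zero] at h4
    calc (S.card : ℝ) ≤ ((T / V0 : ℕ) : ℝ) := by exact_mod_cast h4
      _ ≤ (T : ℝ) / V0 := Nat.cast_div_le
  have hCS : ‖∑ n ∈ S, β n * G n‖ ^ 2 ≤ S.card * ∑ n ∈ S, ‖G n‖ ^ 2 := by
    have h3 : ‖∑ n ∈ S, β n * G n‖ ≤ ∑ n ∈ S, ‖G n‖ := by
      refine (norm_sum_le _ _).trans (sum_le_sum fun n _ => ?_)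
      rw [norm_mul]
      calc ‖β n‖ * ‖G n‖ ≤ 1 * ‖G n‖ := mul_le_mul_of_nonneg_right (hβ n) (norm_nonneg _)
        _ = _ := one_mul _
    calc ‖∑ n ∈ S, β n * G n‖ ^ 2 ≤ (∑ n ∈ S, ‖G n‖) ^ 2 :=
          pow_le_pow_left₀ (norm_nonneg _) h3 2
      _ ≤ _ := sq_sum_le_card_mul_sum_sq
  -- the quadratic form
  have hpair : ∀ m m' : ℕ, m ∈ Ioc V0 T → m' ∈ Ioc V0 T →
      ‖∑ n ∈ S, a m n * (starRingEnd ℂ) (a m' n)‖ ≤
        (if m = m' then (T : ℝ) / m else 0) +
          (if m ≤ M ∧ m' ≤ M then 2 * (M : ℝ) ^ 2 else 0) := by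
    intro m m' hm hm'
    rw [mem_Ioc] at hm hm'
    have hr0 : (0 : ℝ) ≤ (if m = m' then (T : ℝ) / m else 0) := by split_ifs <;> positivity
    have hr1 : (0 : ℝ) ≤ (if m ≤ M ∧ m' ≤ M then 2 * (M : ℝ) ^ 2 else 0) := by
      split_ifs <;> positivity
    by_cases h0 : α m = 0
    · have : ∀ n ∈ S, a m n * (starRingEnd ℂ) (a m' n) = 0 := by
        intro n _
        simp only [ha, h0]
        simp
      rw [sum_eq_zero this, norm_zero]
      linarith
    by_cases h0' : α m' = 0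
    · have : ∀ n ∈ S, a m n * (starRingEnd ℂ) (a m' n) = 0 := by
        intro n _
        simp only [ha, h0']
        simp
      rw [sum_eq_zero this, norm_zero]
      linarith
    obtain ⟨p1, p2, p3⟩ := hα' m h0
    obtain ⟨p1', p2', p3'⟩ := hα' m' h0'
    by_cases hmm : m = m'
    · subst hmm
      rw [if_pos rfl]
      have h5 : ‖∑ n ∈ S, a m n * (starRingEnd ℂ) (a m n)‖ ≤ (T : ℝ) / m := by
        have h6 : ∀ n ∈ S, ‖a m n * (starRingEnd ℂ) (a m n)‖ ≤
            if m * n ≤ T then (1 : ℝ) else 0 := by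
          intro n _
          simp only [ha]
          split_ifs
          · rw [norm_mul, RCLike.norm_conj, norm_mul]
            have := mul_le_one₀ (hα m) (norm_nonneg _) (sy_norm_le e m (n : ℤ))
            exact mul_le_one₀ this (by positivity) this
          · simp
        refine (norm_sum_le _ _).trans ((sum_le_sum h6).trans ?_)
        rw [← sum_filter, sum_const, nsmul_eq_mul, mul_one]
        have h7 : S.filter (fun n => m * n ≤ T) ⊆ Ioc 0 (T / m) := by
          intro n hn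
          rw [mem_filter, hS, mem_filter, mem_Ioc] at hn
          rw [mem_Ioc]
          refine ⟨by omega, ?_⟩
          rw [Nat.le_div_iff_mul_le (by omega), mul_comm]
          exact hn.2
        have h8 := card_le_card h7
        rw [Nat.card_Ioc, Nat.sub_zero] at h8
        calc ((S.filter (fun n => m * n ≤ T)).card : ℝ) ≤ ((T / m : ℕ) : ℝ) := by
              exact_mod_cast h8
          _ ≤ (T : ℝ) / m := Nat.cast_div_le
      linarith
    · rw [if_neg hmm, zero_add, if_pos ⟨p3, p3'⟩]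
      have h5 : ∑ n ∈ S, a m n * (starRingEnd ℂ) (a m' n) =
          α m * (starRingEnd ℂ) (α m') * ∑ n ∈ Ioc (max V0 N) (min (min T (T / V0))
            (min (T / m) (T / m'))), ff e m m' (n : ℤ) := by
        have h6 : ∀ n ∈ S, a m n * (starRingEnd ℂ) (a m' n) =
            if m * n ≤ T ∧ m' * n ≤ T then
              α m * (starRingEnd ℂ) (α m') * ff e m m' (n : ℤ) else 0 := by
          intro n _
          simp only [ha]
          by_cases q1 : m * n ≤ T
          · by_cases q2 : m' * n ≤ T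
            · rw [if_pos q1, if_pos q2, if_pos ⟨q1, q2⟩]
              unfold ff
              rw [map_mul]
              ring
            · have q3 : ¬ (m * n ≤ T ∧ m' * n ≤ T) := fun h => q2 h.2
              rw [if_neg q2, if_neg q3, map_zero, mul_zero]
          · have q3 : ¬ (m * n ≤ T ∧ m' * n ≤ T) := fun h => q1 h.1
            rw [if_neg q1, if_neg q3, zero_mul]
        rw [sum_congr rfl h6, ← sum_filter, mul_sum]
        refine sum_congr ?_ fun _ _ => rfl
        ext n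
        rw [mem_filter, hS, mem_filter, mem_Ioc, mem_Ioc]
        have q1 : n ≤ T / m ↔ m * n ≤ T := by
          rw [Nat.le_div_iff_mul_le (by omega), mul_comm]
        have q2 : n ≤ T / m' ↔ m' * n ≤ T := by
          rw [Nat.le_div_iff_mul_le (by omega), mul_comm]
        simp only [le_min_iff, max_lt_iff, q1, q2]
        tauto
      rw [h5, norm_mul, norm_mul, RCLike.norm_conj]
      have h7 := ioc_ff he p1 p1' p2 p2' hmm (max V0 N) (min (min T (T / V0))
            (min (T / m) (T / m')))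
      have h8 : ‖α m‖ * ‖α m'‖ ≤ 1 := mul_le_one₀ (hα m) (norm_nonneg _) (hα m')
      have h9 : (2 : ℝ) * ((m * m' : ℕ) : ℝ) ≤ 2 * (M : ℝ) ^ 2 := by
        have : m * m' ≤ M ^ 2 := by rw [pow_two]; exact Nat.mul_le_mul p3 p3'
        have h10 : ((m * m' : ℕ) : ℝ) ≤ (M : ℝ) ^ 2 := by exact_mod_cast this
        linarith
      calc ‖α m‖ * ‖α m'‖ * _ ≤ 1 * (2 * (M : ℝ) ^ 2) := by
            refine mul_le_mul h8 (h7.trans h9) (norm_nonneg _) (by norm_num)
        _ = _ := one_mul _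
  have hquad : ∑ n ∈ S, ‖G n‖ ^ 2 ≤ T * (3 + Real.log T) := by
    have h3 : ((∑ n ∈ S, ‖G n‖ ^ 2 : ℝ) : ℂ) =
        ∑ m ∈ Ioc V0 T, ∑ m' ∈ Ioc V0 T, ∑ n ∈ S, a m n * (starRingEnd ℂ) (a m' n) := by
      push_cast
      have h4 : ∀ n ∈ S, ((‖G n‖ : ℝ) : ℂ) ^ 2 =
          ∑ m ∈ Ioc V0 T, ∑ m' ∈ Ioc V0 T, a m n * (starRingEnd ℂ) (a m' n) := by
        intro n _
        rw [← Complex.mul_conj', hG]
        simp only
        rw [map_sum, sum_mul_sum]
      rw [sum_congr rfl h4, sum_comm]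
      refine sum_congr rfl fun m _ => ?_
      rw [sum_comm]
    have h5 : ∑ n ∈ S, ‖G n‖ ^ 2 = ‖((∑ n ∈ S, ‖G n‖ ^ 2 : ℝ) : ℂ)‖ := by
      rw [Complex.norm_real, Real.norm_of_nonneg (sum_nonneg fun n _ => by positivity)]
    rw [h5, h3]
    refine (norm_sum_le _ _).trans ?_
    refine (sum_le_sum fun m hm => (norm_sum_le _ _).trans
      (sum_le_sum fun m' hm' => hpair m m' hm hm')).trans ?_
    simp_rw [sum_add_distrib]
    have h6 : ∑ m ∈ Ioc V0 T, ∑ m' ∈ Ioc V0 T, (if m = m' then (T : ℝ) / m else 0) ≤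
        T * (1 + Real.log T) := by
      have h7 : ∀ m ∈ Ioc V0 T, ∑ m' ∈ Ioc V0 T, (if m = m' then (T : ℝ) / m else 0) =
          (T : ℝ) / m := by
        intro m hm
        rw [sum_ite_eq, if_pos hm]
      rw [sum_congr rfl h7]
      calc ∑ m ∈ Ioc V0 T, (T : ℝ) / m ≤ ∑ m ∈ Icc 1 T, (T : ℝ) / m := by
            refine sum_le_sum_of_subset_of_nonneg ?_ fun _ _ _ => by positivity
            intro m hm
            rw [mem_Ioc] at hm
            rw [mem_Icc]
            omega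
        _ = T * ∑ m ∈ Icc 1 T, 1 / (m : ℝ) := by
            rw [mul_sum]
            refine sum_congr rfl fun m _ => by ring
        _ ≤ T * (1 + Real.log T) := by
            refine mul_le_mul_of_nonneg_left ?_ (Nat.cast_nonneg _)
            have h3 := harmonic_le_one_add_log T
            rw [harmonic_eq_sum_Icc] at h3
            push_cast at h3
            simpa [one_div] using h3
    have h8 : ∑ m ∈ Ioc V0 T, ∑ m' ∈ Ioc V0 T,
        (if m ≤ M ∧ m' ≤ M then 2 * (M : ℝ) ^ 2 else (0 : ℝ)) ≤ 2 * (T : ℝ) := by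
      have h9 : ∑ m ∈ Ioc V0 T, ∑ m' ∈ Ioc V0 T,
          (if m ≤ M ∧ m' ≤ M then 2 * (M : ℝ) ^ 2 else 0) ≤
          ∑ m ∈ Ioc 0 M, ∑ m' ∈ Ioc 0 M, 2 * (M : ℝ) ^ 2 := by
        have e1 : ∀ m ∈ Ioc V0 T, ∑ m' ∈ Ioc V0 T,
            (if m ≤ M ∧ m' ≤ M then 2 * (M : ℝ) ^ 2 else 0) ≤
            if m ≤ M then ∑ m' ∈ Ioc 0 M, 2 * (M : ℝ) ^ 2 else 0 := by
          intro m _
          by_cases q : m ≤ M
          · rw [if_pos q, ← sum_filter]
            refine sum_le_sum_of_subset_of_nonneg ?_ fun _ _ _ => by positivity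
            intro m' hm'
            rw [mem_filter, mem_Ioc] at hm'
            rw [mem_Ioc]
            omega
          · rw [if_neg q]
            refine le_of_eq (sum_eq_zero fun m' _ => ?_)
            rw [if_neg (fun h => q h.1)]
        refine (sum_le_sum e1).trans ?_
        rw [← sum_filter]
        refine sum_le_sum_of_subset_of_nonneg ?_ fun _ _ _ => by positivity
        intro m hm
        rw [mem_filter, mem_Ioc] at hm
        rw [mem_Ioc]
        omega
      refine h9.trans ?_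
      rw [sum_const, sum_const, Nat.card_Ioc, nsmul_eq_mul, nsmul_eq_mul, Nat.sub_zero]
      have : (M : ℝ) ^ 4 ≤ T := by exact_mod_cast hM4
      calc (M : ℝ) * (M * (2 * (M : ℝ) ^ 2)) = 2 * (M : ℝ) ^ 4 := by ring
        _ ≤ 2 * (T : ℝ) := by linarith
    linarith
  calc ‖∑ n ∈ S, β n * G n‖ ^ 2 ≤ S.card * ∑ n ∈ S, ‖G n‖ ^ 2 := hCS
    _ ≤ (T : ℝ) / V0 * (T * (3 + Real.log T)) := by
        refine mul_le_mul hcardS hquad (sum_nonneg fun _ _ => by positivity) (by positivity)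

theorem bl4 : BL4 := by
  refine ⟨2, ?_⟩
  intro M N V0 e he hV hMN Y hY T hT hTY α β hα hβ hα' hβ'
  have h1 := bil_aux he hV hMN hT α β hα hβ hα' hβ'
  set S := ‖∑ m ∈ Ioc V0 T, ∑ n ∈ (Ioc V0 T).filter (fun n => m * n ≤ T),
      α m * β n * sy e m (n : ℤ)‖ with hS
  have hYr : (3 : ℝ) ≤ Y := by exact_mod_cast hY
  have hT0 : (2 : ℝ) ≤ T := by exact_mod_cast hT
  have hV0 : (2 : ℝ) ≤ V0 := by exact_mod_cast hV
  have hlY : 1 ≤ Real.log Y := by
    rw [Real.le_log_iff_exp_le (by linarith)]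
    have := Real.exp_one_lt_d9
    linarith
  have hlT : Real.log T ≤ Real.log Y :=
    Real.log_le_log (by linarith) (by exact_mod_cast hTY)
  have hS0 : 0 ≤ S := norm_nonneg _
  have hw0 : (0 : ℝ) < (V0 : ℝ) ^ (-(1 / 24 : ℝ)) := by positivity
  have hVw : (1 : ℝ) / V0 ≤ ((V0 : ℝ) ^ (-(1 / 24 : ℝ))) ^ 2 := by
    rw [← Real.rpow_natCast, ← Real.rpow_mul (by linarith), one_div, ← Real.rpow_neg_one]
    exact Real.rpow_le_rpow_of_exponent_le (by linarith) (by norm_num)
  have h2 : S ^ 2 ≤ (2 * Real.log Y * (V0 : ℝ) ^ (-(1 / 24 : ℝ)) * T) ^ 2 := by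
    refine h1.trans ?_
    have h3 : (3 : ℝ) + Real.log T ≤ 4 * Real.log Y ^ 2 := by nlinarith
    calc (T : ℝ) / V0 * (T * (3 + Real.log T)) = (T : ℝ) ^ 2 * (1 / V0) * (3 + Real.log T) := by
          ring
      _ ≤ (T : ℝ) ^ 2 * ((V0 : ℝ) ^ (-(1 / 24 : ℝ))) ^ 2 * (4 * Real.log Y ^ 2) := by
          have : 0 ≤ 3 + Real.log T := by
            have := Real.log_natCast_nonneg T
            linarith
          gcongr
      _ = _ := by ring
  exact abs_le_of_sq_le_sq' h2 (by positivity) |>.2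

end Pool.Agent.H53.QT
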