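import Pool.Agent.H53.QT.Defs

/-!
# The quartic characters (project QT)
-/

set_option autoImplicit false

namespace Pool.Agent.H53.QT

open Finset Pool.Agent.W262.RK Pool.Agent.W262.TW

lemma exists_chi {p : ℕ} (hp : p.Prime) (h4 : p % 4 = 1) :
    ∃ χ : MulChar (ZMod p) ℂ, orderOf χ = 4 := by
  haveI : Fact p.Prime := ⟨hp⟩
  refine MulChar.exists_mulChar_orderOf (ZMod p) (n := 4) ?_
    (Complex.isPrimitiveRoot_exp 4 (by norm_num))
  rw [ZMod.card]
  omega

theorem chi : CHI := by
  intro p hp h4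
  haveI : Fact p.Prime := ⟨hp⟩
  have hex := exists_chi hp h4
  set χ := hex.choose with hχ
  have hord : orderOf χ = 4 := hex.choose_spec
  have hq : ∀ n : ℤ, q4 p n = χ (n : ZMod p) := by
    intro n
    unfold q4
    rw [dif_pos hex]
  have hz : ∀ a : ℤ, (p : ℤ) ∣ a → (a : ZMod p) = 0 := fun a ha =>
    (ZMod.intCast_zmod_eq_zero_iff_dvd a p).2 ha
  have hnz : ∀ a : ℤ, ¬ (p : ℤ) ∣ a → (a : ZMod p) ≠ 0 := fun a ha h =>
    ha ((ZMod.intCast_zmod_eq_zero_iff_dvd a p).1 h)
  have h4' : ∀ x : ZMod p, x ≠ 0 → χ x ^ 4 = 1 := by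
    intro x hx
    have h1 : χ ^ 4 = 1 := by rw [← hord]; exact pow_orderOf_eq_one χ
    rw [← MulChar.pow_apply' χ (by norm_num) x, h1, MulChar.one_apply (IsUnit.mk0 x hx)]
  have hsq : ∀ x : ZMod p, x ≠ 0 → IsSquare x → χ x ^ 2 = 1 := by
    rintro x hx ⟨b, rfl⟩
    have hb : b ≠ 0 := by rintro rfl; simp at hx
    rw [map_mul, ← h4' b hb]
    ring
  have hne2 : ∃ x : ZMod p, x ≠ 0 ∧ χ x ^ 2 ≠ 1 := by
    by_contra hcon
    push Not at hcon
    have h2 : χ ^ 2 = 1 := by
      ext x
      rw [MulChar.pow_apply' χ (by norm_num), hcon _ x.ne_zero, MulChar.one_apply_coe]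
    have h3 := orderOf_dvd_of_pow_eq_one h2
    rw [hord] at h3
    exact absurd h3 (by norm_num)
  have hns : ∀ x : ZMod p, x ≠ 0 → ¬ IsSquare x → χ x ^ 2 = -1 := by
    intro x hx hxs
    have h1 : (χ x ^ 2 - 1) * (χ x ^ 2 + 1) = 0 := by
      linear_combination h4' x hx
    rcases mul_eq_zero.1 h1 with h | h
    · exfalso
      obtain ⟨c, hc, hc2⟩ := hne2
      apply hc2
      by_cases hcs : IsSquare c
      · exact hsq c hc hcs
      · have hcx : IsSquare (c * x) := by
          have hchar : ringChar (ZMod p) ≠ 2 := by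
            rw [ZMod.ringChar_zmod_n]
            omega
          have e1 := quadraticChar_neg_one_iff_not_isSquare (F := ZMod p) (a := c)
          have e2 := quadraticChar_neg_one_iff_not_isSquare (F := ZMod p) (a := x)
          have e3 : quadraticChar (ZMod p) (c * x) = 1 := by
            rw [map_mul, e1.2 hcs, e2.2 hxs]
            norm_num
          exact (quadraticChar_one_iff_isSquare (mul_ne_zero hc hx)).1 e3
        have h5 := hsq (c * x) (mul_ne_zero hc hx) hcx
        rw [map_mul, mul_pow] at h5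
        have h6 : χ x ^ 2 = 1 := by linear_combination h
        rw [h6, mul_one] at h5
        exact h5
    · linear_combination h
  refine ⟨fun a b => ?_, fun a b hab => ?_, fun a ha => ?_, fun a ha => ⟨?_, ?_, ?_⟩, ?_⟩
  · rw [hq, hq, hq]
    push_cast
    rw [map_mul]
  · rw [hq, hq]
    congr 1
    have := hz _ hab
    push_cast at this
    exact sub_eq_zero.1 this
  · rw [hq, hz a ha]
    exact MulChar.map_zero χ
  · rw [hq]
    have hx := hnz a ha
    unfold Jr
    rw [← jacobiSym.legendreSym.to_jacobiSym]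
    by_cases hs : IsSquare (a : ZMod p)
    · rw [hsq _ hx hs, (legendreSym.eq_one_iff p hx).2 hs]
      norm_num
    · rw [hns _ hx hs, (legendreSym.eq_neg_one_iff p).2 hs]
      norm_num
  · rw [hq]
    exact h4' _ (hnz a ha)
  · rw [hq]
    exact Complex.norm_eq_one_of_pow_eq_one (h4' _ (hnz a ha)) (by norm_num)
  · obtain ⟨x, hx, hx2⟩ := hne2
    refine ⟨(x.val : ℤ), fun h => ?_, fun h => ?_⟩
    · have := hz _ h
      push_cast at this
      rw [ZMod.natCast_zmod_val] at this
      exact hx this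
    · rw [hq] at h
      push_cast at h
      rw [ZMod.natCast_zmod_val] at h
      apply hx2
      rw [h]
      norm_num

end Pool.Agent.H53.QT
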