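import Pool.Agent.H53.QT.Mbd

/-! # The tuples with at least two large numbers (helper53) -/

set_option autoImplicit false

namespace Pool.Agent.H53.QT

open Finset Filter Pool.Agent.W262.RK Pool.Agent.W262.TW

lemma KK_norm (a b : Ix) (m n : ℕ) : ‖KK a b m n‖ ≤ 1 := by
  unfold KK
  split_ifs
  · simp
  · exact sy_norm_le _ _ _

lemma mc_norm {b : ℕ → ℂ} (hb : ∀ p, ‖b p‖ ≤ 1) (n : ℕ) : ‖mc b n‖ ≤ 1 := by
  unfold mc
  rw [norm_prod]
  exact prod_le_one (fun _ _ => norm_nonneg _) fun p _ => hb p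

lemma SK_norm {ι : Type} [Fintype ι] {K : ι → ι → ℕ → ℕ → ℂ} (hK : ∀ a c m n, ‖K a c m n‖ ≤ 1)
    (e : ι → ℕ) : ‖SK K e‖ ≤ 1 := by
  unfold SK
  rw [norm_prod]
  refine prod_le_one (fun _ _ => norm_nonneg _) fun a _ => ?_
  rw [norm_prod]
  exact prod_le_one (fun _ _ => norm_nonneg _) fun b _ => hK _ _ _ _

lemma term_norm (W N : ℕ) (κ : Fin 4 → ℤ) (c : Fin 4 → Fin 4 → ℤ) (e : Ix → ℕ) :
    ‖(∏ a, mc (bI W N κ c a) (e a)) * SK KK e‖ ≤ 1 := by
  rw [norm_mul, norm_prod]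
  refine mul_le_one₀ ?_ (norm_nonneg _) (SK_norm KK_norm e)
  exact prod_le_one (fun _ _ => norm_nonneg _) fun a _ => mc_norm (bI_norm W N κ c a) _

/-- counting the tuples with an entry in a set -/
lemma count_S {ι : Type} [Fintype ι] [DecidableEq ι] (X : ℕ) (hX : 1 ≤ X) (S : Finset ℕ)
    (T : Finset (ι → ℕ)) (h1 : ∀ e ∈ T, ∀ a, e a ∈ Icc 1 X)
    (h2 : ∀ e ∈ T, ∏ a, e a ≤ X) (h3 : ∀ e ∈ T, ∃ a, e a ∈ S) :
    (T.card : ℝ) ≤ Fintype.card ι * X * (∑ n ∈ S, 1 / (n : ℝ)) *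
      (1 + Real.log X) ^ Fintype.card ι := by
  classical
  have hX1 : (1 : ℝ) ≤ X := by exact_mod_cast hX
  have hlX : 0 ≤ Real.log X := Real.log_nonneg hX1
  have hsub : T ⊆ univ.biUnion (fun a : ι => T.filter (fun e => e a ∈ S)) := by
    intro e he
    obtain ⟨a, ha⟩ := h3 e he
    rw [mem_biUnion]
    exact ⟨a, mem_univ a, mem_filter.2 ⟨he, ha⟩⟩
  have hcard : (T.card : ℝ) ≤ ∑ a : ι, ((T.filter (fun e => e a ∈ S)).card : ℝ) := by
    have := (card_le_card hsub).trans card_biUnion_le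
    exact_mod_cast this
  have hh : ∑ n ∈ Icc 1 X, 1 / (n : ℝ) ≤ 1 + Real.log X := by
    have h := harmonic_le_one_add_log X
    rw [harmonic_eq_sum_Icc] at h
    push_cast at h
    simpa [one_div] using h
  have hone : ∀ a : ι, ((T.filter (fun e => e a ∈ S)).card : ℝ) ≤
      X * (∑ n ∈ S, 1 / (n : ℝ)) * (1 + Real.log X) ^ Fintype.card ι := by
    intro a
    have e1 : ((T.filter (fun e => e a ∈ S)).card : ℝ) ≤
        ∑ e ∈ T.filter (fun e => e a ∈ S), (X : ℝ) * ∏ b, (1 / (e b : ℝ)) := by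
      rw [card_eq_sum_ones]
      push_cast
      refine sum_le_sum fun e he => ?_
      rw [mem_filter] at he
      have p1 : (0 : ℝ) < ∏ b, (e b : ℝ) := prod_pos fun b _ => by
        have := (mem_Icc.1 (h1 e he.1 b)).1
        exact_mod_cast this
      have p2 : (∏ b, (e b : ℝ)) ≤ X := by
        have := h2 e he.1
        exact_mod_cast this
      have p3 : ∏ b, (1 / (e b : ℝ)) = 1 / ∏ b, (e b : ℝ) := by
        rw [prod_div_distrib, prod_const_one]
      rw [p3, mul_one_div, le_div_iff₀ p1]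
      linarith
    have e2 : ∑ e ∈ T.filter (fun e => e a ∈ S), (X : ℝ) * ∏ b, (1 / (e b : ℝ)) ≤
        ∑ e ∈ Fintype.piFinset (fun b => if b = a then S else Icc 1 X),
          (X : ℝ) * ∏ b, (1 / (e b : ℝ)) := by
      refine sum_le_sum_of_subset_of_nonneg ?_ fun e _ _ => by positivity
      intro e he
      rw [mem_filter] at he
      rw [Fintype.mem_piFinset]
      intro b
      split_ifs with hb
      · rw [hb]; exact he.2
      · exact h1 e he.1 b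
    have e3 : ∑ e ∈ Fintype.piFinset (fun b => if b = a then S else Icc 1 X),
        (X : ℝ) * ∏ b, (1 / (e b : ℝ)) =
        X * ∏ b, ∑ n ∈ (if b = a then S else Icc 1 X), 1 / (n : ℝ) := by
      rw [← mul_sum, prod_univ_sum]
    have e4 : ∏ b, ∑ n ∈ (if b = a then S else Icc 1 X), 1 / (n : ℝ) ≤
        (∑ n ∈ S, 1 / (n : ℝ)) * (1 + Real.log X) ^ Fintype.card ι := by
      rw [← mul_prod_erase univ _ (mem_univ a), if_pos rfl]
      refine mul_le_mul_of_nonneg_left ?_ (sum_nonneg fun _ _ => by positivity)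
      calc ∏ b ∈ univ.erase a, ∑ n ∈ (if b = a then S else Icc 1 X), 1 / (n : ℝ)
          ≤ ∏ b ∈ univ.erase a, (1 + Real.log X) := by
            refine prod_le_prod (fun _ _ => sum_nonneg fun _ _ => by positivity) fun b hb => ?_
            rw [if_neg (mem_erase.1 hb).1]
            exact hh
        _ = (1 + Real.log X) ^ (univ.erase a).card := by rw [prod_const]
        _ ≤ (1 + Real.log X) ^ Fintype.card ι := by
            refine pow_le_pow_right₀ (by linarith) ?_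
            calc (univ.erase a).card ≤ (univ : Finset ι).card := card_le_card (erase_subset _ _)
              _ = Fintype.card ι := card_univ
    calc ((T.filter (fun e => e a ∈ S)).card : ℝ)
        ≤ X * ∏ b, ∑ n ∈ (if b = a then S else Icc 1 X), 1 / (n : ℝ) := e1.trans (e2.trans e3.le)
      _ ≤ X * ((∑ n ∈ S, 1 / (n : ℝ)) * (1 + Real.log X) ^ Fintype.card ι) :=
          mul_le_mul_of_nonneg_left e4 (by linarith)
      _ = _ := by ring
  calc (T.card : ℝ) ≤ ∑ a : ι, ((T.filter (fun e => e a ∈ S)).card : ℝ) := hcard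
    _ ≤ ∑ _a : ι, (X * (∑ n ∈ S, 1 / (n : ℝ)) * (1 + Real.log X) ^ Fintype.card ι) :=
        sum_le_sum fun a _ => hone a
    _ = _ := by
        rw [sum_const, card_univ, nsmul_eq_mul]; ring

open Classical in
lemma mem_TP {ι I : Type} [Fintype ι] [DecidableEq ι] {g : ι → I} {P : ι → ℕ → Prop}
    {R : I → ℕ → Prop} {Y : ℕ} {e : ι → ℕ} :
    e ∈ TP g P R Y ↔ (∀ a, e a ∈ Icc 1 Y) ∧ (∀ a, P a (e a)) ∧
      (∀ a b, a ≠ b → (e a).Coprime (e b)) ∧ ∏ a, e a ≤ Y ∧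
      ∀ i, R i (∏ a ∈ univ.filter (fun a => g a = i), e a) := by
  unfold TP
  rw [mem_filter, Fintype.mem_piFinset]

lemma split_gen {ι I : Type} [Fintype ι] [DecidableEq ι] (g : ι → I) (P P' : ι → ℕ → Prop)
    (R : I → ℕ → Prop) (Y : ℕ) (f : (ι → ℕ) → ℂ) (B1 B2 : ℝ) (hPP : ∀ a n, P' a n → P a n)
    (hf : ∀ e, ‖f e‖ ≤ 1) (h1 : ‖∑ e ∈ TP g P' R Y, f e‖ ≤ B1)
    (h2 : ∀ T : Finset (ι → ℕ), (∀ e ∈ T, ∀ a, e a ∈ Icc 1 Y) → (∀ e ∈ T, ∏ a, e a ≤ Y) →
      (∀ e ∈ T, (∀ a, P a (e a)) ∧ (¬ ∀ a, P' a (e a)) ∧ f e ≠ 0) → (T.card : ℝ) ≤ B2) :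
    ‖∑ e ∈ TP g P R Y, f e‖ ≤ B1 + B2 := by
  classical
  have hsub : TP g P' R Y ⊆ TP g P R Y := by
    intro e he
    rw [mem_TP] at he ⊢
    exact ⟨he.1, fun a => hPP a _ (he.2.1 a), he.2.2⟩
  rw [← sum_sdiff hsub, add_comm]
  refine (norm_add_le _ _).trans (add_le_add h1 ?_)
  rw [← sum_filter_ne_zero]
  refine (norm_sum_le _ _).trans ?_
  refine (sum_le_sum fun e _ => hf e).trans ?_
  rw [sum_const, nsmul_eq_mul, mul_one]
  refine h2 _ ?_ ?_ ?_
  · intro e he a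
    rw [mem_filter, Finset.mem_sdiff, mem_TP] at he
    exact he.1.1.1 a
  · intro e he
    rw [mem_filter, Finset.mem_sdiff, mem_TP] at he
    exact he.1.1.2.2.2.1
  · intro e he
    rw [mem_filter, Finset.mem_sdiff, mem_TP, mem_TP] at he
    refine ⟨he.1.1.2.1, fun h => he.1.2 ⟨he.1.1.1, h, he.1.1.2.2⟩, he.2⟩

/-- the tuples with a large entry of class `0` -/
lemma rest_count (hS : SMTH) : ∃ C : ℝ, 0 ≤ C ∧ ∀ᶠ X : ℕ in atTop, ∀ (z : ℕ)
    (T : Finset (Ix → ℕ)), (∀ e ∈ T, ∀ a, e a ∈ Icc 1 X) → (∀ e ∈ T, ∏ a, e a ≤ X) →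
    (∀ e ∈ T, ∃ a, cI a = 0 ∧ PI z (WW X) (NN X) a (e a) ∧ MM X < e a) →
    (T.card : ℝ) ≤ C * X * (Real.log X) ^ (-(1 / 100 : ℝ)) := by
  have hcS := @count_S Ix _ _
  generalize Fintype.card Ix = m at hcS
  obtain ⟨C, hC⟩ := hS (m + 1)
  refine ⟨m * |C| * 2 ^ m, by positivity, ?_⟩
  filter_upwards [grow, tL.eventually (eventually_ge_atTop 1)] with X hX hL1 z T h1 h2 h3
  have hX3 := hX.1
  have hX1 : (0 : ℝ) < X := by
    have : 0 < X := by omega
    exact_mod_cast this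
  set L := Real.log (X : ℝ) with hL
  have hL0 : 0 < L := by linarith
  have e1 := hcS X (by omega) ((Icc 1 X).filter (fun n => Squarefree n ∧ MM X < n ∧
    ∀ p ∈ n.primeFactors, p ≤ WW X)) T h1 h2 (by
      intro e he
      obtain ⟨a, ha0, haP, haM⟩ := h3 e he
      refine ⟨a, mem_filter.2 ⟨h1 e he a, haP.1.1, haM, fun p hp => ?_⟩⟩
      have := haP.2 p (Nat.prime_of_mem_primeFactors hp) (Nat.dvd_of_mem_primeFactors hp)
      rw [ha0] at this
      exact (cl_zero this).1)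
  have e2 := hC X hX3
  have e3 : C / L ^ (m + 1) ≤ |C| / L ^ (m + 1) :=
    div_le_div_of_nonneg_right (le_abs_self C) (by positivity)
  have e4 : (1 + L) ^ m ≤ 2 ^ m * L ^ m := by
    rw [← mul_pow]
    exact pow_le_pow_left₀ (by linarith) (by linarith) _
  have e5 : L⁻¹ ≤ L ^ (-(1 / 100 : ℝ)) := by
    rw [← Real.rpow_neg_one]
    exact Real.rpow_le_rpow_of_exponent_le hL1 (by norm_num)
  calc (T.card : ℝ) ≤ _ := e1
    _ ≤ m * X * (|C| / L ^ (m + 1)) * (2 ^ m * L ^ m) := by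
        have q1 : (0 : ℝ) ≤ m * X := by positivity
        have q2 := e2.trans e3
        have q3 : (0 : ℝ) ≤ |C| / L ^ (m + 1) := by positivity
        exact mul_le_mul (mul_le_mul_of_nonneg_left q2 q1) e4 (by positivity)
          (mul_nonneg q1 q3)
    _ = m * |C| * 2 ^ m * X * L⁻¹ := by
        rw [pow_succ]
        field_simp
    _ ≤ _ := mul_le_mul_of_nonneg_left e5 (by positivity)

open Classical in
/-- the tuples with at least two large numbers -/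
lemma cn_bound (hCORE : CORE4) (hE : EXPA4) (hM : MERT4) (hS : SMTH) (z : ℕ) (hz : 2 ≤ z)
    (c : Fin 4 → Fin 4 → ℤ) (hc : ∀ i k, i ≠ k → ∀ p : ℕ, p.Prime → (p : ℤ) ∣ c i k → p ≤ z) :
    ∃ (B : ℕ) (C : ℝ), ∀ᶠ X : ℕ in atTop, ∃ V : ℕ, 1 ≤ V ∧ (V : ℝ) ≤ (Real.log X) ^ B ∧
    ∀ κ : Fin 4 → ℤ, (∀ k, ∀ p : ℕ, p.Prime → (p : ℤ) ∣ κ k → p ≤ z) →
    ∀ I : Finset (Fin 4), 2 ≤ I.card →
    (cn z X (WW X) (NN X) κ c (fun k n => if k ∈ I then V < n else n ≤ V) : ℝ) ≤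
      C * X * (Real.log X) ^ (-(1 / 100 : ℝ)) := by
  obtain ⟨C1, E, hLk⟩ := linkedI
  obtain ⟨B, hB⟩ := hCORE Ix (Fin 4) C1 E (1 / 400) (by norm_num)
  obtain ⟨C, hC⟩ := hB (B + 2)
  obtain ⟨C2, hC2, hMb⟩ := mbound hM z hz
  obtain ⟨C3, hC3, hrest⟩ := rest_count hS
  generalize Fintype.card Ix = m at hC
  refine ⟨(B + 2) * m, C * Real.exp C2 + C3, ?_⟩
  filter_upwards [hMb, grow, hrest, tL.eventually (eventually_ge_atTop 3)] with X hMbX hX hrX hL3
  obtain ⟨hX3, hW3, hN3, hWN, hNX, hMN, hllW, hllN, hll⟩ := hX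
  have hX1 : (0 : ℝ) < X := by
    have : 0 < X := by omega
    exact_mod_cast this
  set L := Real.log (X : ℝ) with hL
  have hL0 : 0 < L := by linarith
  set V0 : ℕ := ⌈L ^ B⌉₊ + 2 with hV0
  have hLB1 : (1 : ℝ) ≤ L ^ B := one_le_pow₀ (by linarith)
  have hV0ge : L ^ B ≤ V0 := by
    have := Nat.le_ceil (L ^ B)
    rw [hV0]; push_cast; linarith
  have hV0le : (V0 : ℝ) ≤ L ^ (B + 2) := by
    have h1 := Nat.ceil_lt_add_one (a := L ^ B) (by positivity)
    have h2 : L ^ (B + 2) = L ^ B * L ^ 2 := pow_add _ _ _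
    have h3 : (9 : ℝ) ≤ L ^ 2 := by nlinarith
    rw [h2, hV0]
    push_cast
    nlinarith
  have hV01 : 1 ≤ V0 ^ m := Nat.one_le_pow _ _ (by omega)
  refine ⟨V0 ^ m, hV01, ?_, ?_⟩
  · push_cast
    rw [pow_mul]
    exact pow_le_pow_left₀ (Nat.cast_nonneg _) hV0le _
  intro κ hκ I hI
  set V := V0 ^ m with hV
  set R : Fin 4 → ℕ → Prop := fun k n => if k ∈ I then V < n else n ≤ V with hR
  set W := WW X with hW
  set N := NN X with hN
  set M := MM X with hMM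
  -- the exponent
  have hcore := hC gI KK (PM z W N M) R z X V0 (bI W N κ c)
    (Real.exp ((1 - 1 / 80) * Real.log L + C2)) I LkI hz hX3 (by omega) hV0ge hV0le KK_norm
    (bI_norm W N κ c) (fun a n h => h.1.1)
    (fun a b h => hLk z W N M V0 X hz (by omega) hX3 hMN a b h)
    (by
      intro i hi n hn
      rw [hR] at hn
      simp only [if_pos hi] at hn
      exact hn)
    (by
      refine Real.one_le_exp ?_
      have : 0 ≤ (1 - 1 / 80) * Real.log L := mul_nonneg (by norm_num) hll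
      linarith)
    (by
      intro A hA hA2
      refine Real.exp_le_exp.2 (hMbX κ c A hA ?_)
      obtain ⟨i, hi, j, hj, hij⟩ := Finset.one_lt_card.1 (by omega : 1 < I.card)
      obtain ⟨a, ha, hai⟩ := hA2 i hi
      obtain ⟨b, hb, hbj⟩ := hA2 j hj
      exact ⟨a, ha, b, hb, by rw [hai, hbj]; exact hij⟩)
  have hexp : Real.exp ((1 - 1 / 80) * Real.log L + C2) = L ^ (1 - 1 / 80 : ℝ) * Real.exp C2 := by
    rw [Real.exp_add, Real.rpow_def_of_pos hL0, mul_comm (Real.log L)]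
  have hpow : L ^ ((1 / 400 : ℝ) - 1) * L ^ (1 - 1 / 80 : ℝ) = L ^ (-(1 / 100 : ℝ)) := by
    rw [← Real.rpow_add hL0]; norm_num
  have hmain : ‖∑ e ∈ TP gI (PM z W N M) R X, (∏ a, mc (bI W N κ c a) (e a)) * SK KK e‖ ≤
      C * Real.exp C2 * X * L ^ (-(1 / 100 : ℝ)) := by
    refine hcore.trans (le_of_eq ?_)
    rw [hexp, ← hpow]
    ring
  -- the expansion
  have hexpa := hE z X W N κ c R hz hκ hc
  have hfin : ((cn z X W N κ c R : ℝ)) = ‖(cn z X W N κ c R : ℂ)‖ := by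
    rw [Complex.norm_natCast]
  rw [hfin, hexpa]
  have hsum : (C * Real.exp C2 + C3) * X * L ^ (-(1 / 100 : ℝ)) =
    C * Real.exp C2 * X * L ^ (-(1 / 100 : ℝ)) + C3 * X * L ^ (-(1 / 100 : ℝ)) := by ring
  rw [hsum]
  refine split_gen gI (fun _ => Rg z) (PM z W N M) R X _ _ _ (fun a n h => h.1.1)
    (fun e => term_norm W N κ c e) hmain ?_
  intro T h1 h2 h3
  refine hrX z T h1 h2 ?_
  intro e he
  obtain ⟨q1, q2, q3⟩ := h3 e he
  have q4 : ∀ a, PI z W N a (e a) := by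
    intro a
    refine ⟨q1 a, fun p hp hpe => ?_⟩
    by_contra hpc
    apply q3
    have h6 : mc (bI W N κ c a) (e a) = 0 := by
      unfold mc
      refine prod_eq_zero (Nat.mem_primeFactors.2 ⟨hp, hpe, (q1 a).1.ne_zero⟩) ?_
      unfold bI
      rw [if_neg hpc]
    rw [prod_eq_zero (mem_univ a) h6, zero_mul]
  by_contra h4
  push Not at h4
  exact q2 fun a => ⟨q4 a, fun ha => h4 a ha (q4 a)⟩

end Pool.Agent.H53.QT
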