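import Pool.Agent.H53.QT.Defs

/-!
# Unlinked sets of indices (project QT)
-/

set_option autoImplicit false

namespace Pool.Agent.H53.QT

open Finset Pool.Agent.W262.RK Pool.Agent.W262.TW

lemma zm4 : ∀ x : ZMod 4, x = 0 ∨ x = 2 ∨ x = 1 ∨ x = 3 := by decide

lemma ex_kl : ∀ i j : Fin 4, i ≠ j → ∃ k l : Fin 4, k ≠ i ∧ k ≠ j ∧ l ≠ i ∧ l ≠ j ∧ k ≠ l ∧
    ∀ s, s = i ∨ s = j ∨ s = k ∨ s = l := by decide

lemma ex_u : ∀ i j k : Fin 4, i ≠ j → i ≠ k → j ≠ k → ∃ u : Fin 4, ∀ s, s = i ∨ s = j ∨ s = k ∨
    s = u := by decide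

lemma even_of {a : Ix} (h : cI a ≠ 0) (k : Fin 4) : eI a k = 0 ∨ eI a k = 2 := a.2.2.2 h k

lemma self_zero (a : Ix) : eI a (gI a) = 0 := a.2.1

lemma key {A : Finset Ix} (hA : ∀ a ∈ A, ∀ c ∈ A, ¬ LkI a c) {x a : Ix} (hx : x ∈ A) (ha : a ∈ A)
    (hne : gI x ≠ gI a) (hL : cI a = 2) : eI x (gI a) = eI a (gI x) := by
  have h1 := hA x hx a ha
  have ha2 : eI a (gI x) = 0 ∨ eI a (gI x) = 2 := even_of (by rw [hL]; decide) _
  have hx2 : eI x (gI a) = 0 ∨ eI x (gI a) = 2 := by
    by_cases hc : cI x = 0
    · rcases zm4 (eI x (gI a)) with h | h | h | h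
      · exact Or.inl h
      · exact Or.inr h
      · exact absurd ⟨hne, Or.inr (Or.inr ⟨hc, hL, Or.inl h⟩)⟩ h1
      · exact absurd ⟨hne, Or.inr (Or.inr ⟨hc, hL, Or.inr h⟩)⟩ h1
    · exact even_of hc _
  rcases ha2 with h2 | h2 <;> rcases hx2 with h3 | h3
  · rw [h2, h3]
  · exact absurd ⟨hne, Or.inl ⟨h3, h2⟩⟩ h1
  · exact absurd ⟨hne, Or.inr (Or.inl ⟨h3, h2⟩)⟩ h1
  · rw [h2, h3]

lemma det4 {x y : Ix} (hg : gI x = gI y) (hc : cI x = cI y) (u : Fin 4)
    (he : ∀ s, s ≠ u → eI x s = eI y s) : x = y := by
  have hs : ∑ k, eI x k = ∑ k, eI y k := by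
    have h1 : ∑ k, eI x k = 0 := x.2.2.1
    have h2 : ∑ k, eI y k = 0 := y.2.2.1
    rw [h1, h2]
  have hu : eI x u = eI y u := by
    rw [← add_sum_erase univ (eI x) (mem_univ u), ← add_sum_erase univ (eI y) (mem_univ u)] at hs
    have h3 : ∑ k ∈ univ.erase u, eI x k = ∑ k ∈ univ.erase u, eI y k :=
      sum_congr rfl fun k hk => he k (mem_erase.1 hk).1
    rw [h3] at hs
    exact add_right_cancel hs
  have hE : eI x = eI y := by
    funext s
    by_cases h : s = u
    · rw [h, hu]
    · exact he s h
  apply Subtype.ext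
  have h1 : x.1 = (gI x, eI x, cI x) := rfl
  have h2 : y.1 = (gI y, eI y, cI y) := rfl
  rw [h1, h2, hg, hE, hc]

theorem comb4 : COMB4 := by
  classical
  intro A hA htwo
  by_cases h2 : (A.filter (fun a => cI a = 2)).card ≤ 2
  · exact Or.inr h2
  left
  -- two large types
  have hex : ∃ x ∈ A, cI x = 2 ∧ ∃ y ∈ A, cI y = 2 ∧ gI x ≠ gI y := by
    by_contra hcon
    push Not at hcon
    apply h2
    have hne : (A.filter (fun a => cI a = 2)).Nonempty := by
      rw [← card_pos]
      omega
    obtain ⟨x0, hx0⟩ := hne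
    rw [mem_filter] at hx0
    have hty : ∀ y ∈ A, cI y = 2 → gI y = gI x0 := fun y hy hy2 =>
      (hcon x0 hx0.1 hx0.2 y hy hy2).symm
    obtain ⟨a, ha, c, hc, hac⟩ := htwo
    have hb : ∃ b ∈ A, gI b ≠ gI x0 := by
      by_cases h : gI a = gI x0
      · exact ⟨c, hc, fun h' => hac (h.trans h'.symm)⟩
      · exact ⟨a, ha, h⟩
    obtain ⟨b, hb, hbg⟩ := hb
    obtain ⟨k, l, hki, hkj, hli, hlj, hkl, hcov⟩ := ex_kl (gI x0) (gI b) (fun h => hbg h.symm)
    have hcard : (({0, 2} : Finset (ZMod 4))).card = 2 := by decide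
    refine le_trans (card_le_card_of_injOn (fun x => eI x k) ?_ ?_) hcard.le
    · intro x hx
      rw [mem_coe, mem_filter] at hx
      rw [mem_coe, mem_insert, mem_singleton]
      exact even_of (by rw [hx.2]; decide) k
    · intro x hx y hy hxy
      rw [mem_coe, mem_filter] at hx hy
      have gx := hty x hx.1 hx.2
      have gy := hty y hy.1 hy.2
      refine det4 (gx.trans gy.symm) (hx.2.trans hy.2.symm) l fun s hs => ?_
      rcases hcov s with h | h | h | h
      · rw [h]
        have e1 := self_zero x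
        have e2 := self_zero y
        rw [gx] at e1
        rw [gy] at e2
        rw [e1, e2]
      · rw [h]
        have e1 := key hA hb hx.1 (by rw [gx]; exact hbg) hx.2
        have e2 := key hA hb hy.1 (by rw [gy]; exact hbg) hy.2
        rw [gx] at e1
        rw [gy] at e2
        rw [← e1, ← e2]
      · rw [h]; exact hxy
      · exact absurd h hs
  obtain ⟨x, hx, hx2, y, hy, hy2, hxy⟩ := hex
  by_cases hthree : ∃ w ∈ A, cI w = 2 ∧ gI w ≠ gI x ∧ gI w ≠ gI y
  · -- three large types
    obtain ⟨w, hw, hw2, hwx, hwy⟩ := hthree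
    obtain ⟨u, hu⟩ := ex_u (gI x) (gI y) (gI w) hxy hwx.symm hwy.symm
    have hinj : ∀ c : Fin 3, (A.filter (fun a => cI a = c)).card ≤ 4 := by
      intro c
      have h4 : (univ : Finset (Fin 4)).card = 4 := by decide
      refine le_trans (card_le_card_of_injOn gI (fun a _ => by simp) ?_) h4.le
      intro a ha b hb hab
      rw [mem_coe, mem_filter] at ha hb
      refine det4 hab (ha.2.trans hb.2.symm) u fun s hs => ?_
      have hgen : ∀ v ∈ A, cI v = 2 → s = gI v → eI a s = eI b s := by
        intro v hv hv2 hsv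
        rw [hsv]
        by_cases h : gI a = gI v
        · rw [← h, self_zero, hab, self_zero]
        · rw [key hA ha.1 hv h hv2, key hA hb.1 hv (by rw [← hab]; exact h) hv2, hab]
      rcases hu s with h | h | h | h
      · exact hgen x hx hx2 h
      · exact hgen y hy hy2 h
      · exact hgen w hw hw2 h
      · exact absurd h hs
    exact ⟨(hinj 0).trans (by norm_num), hinj 1, hinj 2⟩
  · -- two large types
    push Not at hthree
    -- two different large indices of the same type
    have hdup : ∃ a ∈ A, ∃ b ∈ A, cI a = 2 ∧ cI b = 2 ∧ gI a = gI b ∧ a ≠ b := by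
      by_contra hcon
      push Not at hcon
      apply h2
      have hcard : (({gI x, gI y} : Finset (Fin 4))).card ≤ 2 := card_le_two
      refine le_trans (card_le_card_of_injOn gI ?_ ?_) hcard
      · intro a ha
        rw [mem_coe, mem_filter] at ha
        rw [mem_coe, mem_insert, mem_singleton]
        by_contra h
        push Not at h
        exact hthree a ha.1 ha.2 h.1 |> h.2
      · intro a ha b hb hab
        rw [mem_coe, mem_filter] at ha hb
        exact hcon a ha.1 b hb.1 ha.2 hb.2 hab
    -- only the two types occur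
    have honly : ∀ t ∈ A, gI t = gI x ∨ gI t = gI y := by
      obtain ⟨a, ha, b, hb, ha2, hb2, hab, hne⟩ := hdup
      have hag : gI a = gI x ∨ gI a = gI y := by
        by_contra h
        push Not at h
        exact h.2 (hthree a ha ha2 h.1)
      -- v: a large index of the other type
      have hv : ∃ v ∈ A, cI v = 2 ∧ gI v ≠ gI a ∧ ∀ s, (s = gI x ∨ s = gI y) ↔
          (s = gI a ∨ s = gI v) := by
        rcases hag with h | h
        · exact ⟨y, hy, hy2, by rw [h]; exact hxy.symm, fun s => by rw [h]⟩
        · exact ⟨x, hx, hx2, by rw [h]; exact hxy, fun s => by rw [h]; tauto⟩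
      obtain ⟨v, hv, hv2, hva, hs⟩ := hv
      intro t ht
      rw [hs]
      by_contra hcon
      push Not at hcon
      obtain ⟨ht1, ht2⟩ := hcon
      obtain ⟨k, l, hki, hkj, hli, hlj, hkl, hcov⟩ := ex_kl (gI a) (gI v) hva.symm
      -- the exponents of a and b at gI t agree
      have e1 := key hA ht ha ht1 ha2
      have e2 := key hA ht hb (by rw [← hab]; exact ht1) hb2
      rw [← hab] at e2
      have e3 : eI a (gI t) = eI b (gI t) := e1.symm.trans e2
      have e4 : eI a (gI v) = eI b (gI v) := by
        have f1 := key hA ha hv hva.symm hv2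
        have f2 := key hA hb hv (by rw [← hab]; exact hva.symm) hv2
        rw [f1, f2, hab]
      have e5 : eI a (gI a) = eI b (gI a) := by
        rw [self_zero, hab, self_zero]
      apply hne
      have htkl : gI t = k ∨ gI t = l := by
        rcases hcov (gI t) with h | h | h | h
        · exact absurd h ht1
        · exact absurd h ht2
        · exact Or.inl h
        · exact Or.inr h
      rcases htkl with h | h
      · refine det4 hab (ha2.trans hb2.symm) l fun s hsl => ?_
        rcases hcov s with h' | h' | h' | h'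
        · rw [h', e5]
        · rw [h', e4]
        · rw [h', ← h, e3]
        · exact absurd h' hsl
      · refine det4 hab (ha2.trans hb2.symm) k fun s hsl => ?_
        rcases hcov s with h' | h' | h' | h'
        · rw [h', e5]
        · rw [h', e4]
        · exact absurd h' hsl
        · rw [h', ← h, e3]
    obtain ⟨k, l, hki, hkj, hli, hlj, hkl, hcov⟩ := ex_kl (gI x) (gI y) hxy
    have hinj : ∀ c : Fin 3, Set.InjOn (fun a : Ix => (gI a, eI a k))
        ((A.filter (fun a => cI a = c) : Finset Ix) : Set Ix) := by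
      intro c a ha b hb hab
      rw [mem_coe, mem_filter] at ha hb
      have hab' : (gI a, eI a k) = (gI b, eI b k) := hab
      rw [Prod.mk.injEq] at hab'
      obtain ⟨hab1, hab2⟩ := hab'
      refine det4 hab1 (ha.2.trans hb.2.symm) l fun s hs => ?_
      have hgen : ∀ v ∈ A, cI v = 2 → s = gI v → eI a s = eI b s := by
        intro v hv hv2 hsv
        rw [hsv]
        by_cases h : gI a = gI v
        · rw [← h, self_zero, hab1, self_zero]
        · rw [key hA ha.1 hv h hv2, key hA hb.1 hv (by rw [← hab1]; exact h) hv2, hab1]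
      rcases hcov s with h | h | h | h
      · exact hgen x hx hx2 h
      · exact hgen y hy hy2 h
      · rw [h]; exact hab2
      · exact absurd h hs
    have hbig : (A.filter (fun a => cI a = 0)).card ≤ 8 := by
      have h8 : ((({gI x, gI y} : Finset (Fin 4)) ×ˢ (univ : Finset (ZMod 4)))).card ≤ 8 := by
        rw [card_product]
        have c1 : (({gI x, gI y} : Finset (Fin 4))).card ≤ 2 := card_le_two
        have c2 : (univ : Finset (ZMod 4)).card = 4 := by decide
        rw [c2]
        omega
      refine le_trans (card_le_card_of_injOn (fun a : Ix => (gI a, eI a k)) ?_ (hinj 0)) h8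
      intro a ha
      rw [mem_coe, mem_filter] at ha
      rw [mem_coe, mem_product]
      refine ⟨?_, mem_univ _⟩
      rw [mem_insert, mem_singleton]
      exact honly a ha.1
    have hsm : ∀ c : Fin 3, c ≠ 0 → (A.filter (fun a => cI a = c)).card ≤ 4 := by
      intro c hc
      have h4 : ((({gI x, gI y} : Finset (Fin 4)) ×ˢ ({0, 2} : Finset (ZMod 4)))).card ≤ 4 := by
        rw [card_product]
        have c1 : (({gI x, gI y} : Finset (Fin 4))).card ≤ 2 := card_le_two
        have c2 : (({0, 2} : Finset (ZMod 4))).card = 2 := by decide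
        rw [c2]
        omega
      refine le_trans (card_le_card_of_injOn (fun a : Ix => (gI a, eI a k)) ?_ (hinj c)) h4
      intro a ha
      rw [mem_coe, mem_filter] at ha
      rw [mem_coe, mem_product]
      refine ⟨?_, ?_⟩
      · rw [mem_insert, mem_singleton]
        exact honly a ha.1
      · rw [mem_insert, mem_singleton]
        exact even_of (by rw [ha.2]; exact hc) k
    exact ⟨hbig, hsm 1 (by decide), hsm 2 (by decide)⟩

end Pool.Agent.H53.QT
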