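import Pool.Agent.H53.QT.Link4
import Pool.Graph.R_seed8.W762.TW.Core
import Pool.Graph.R_seed8.W397.TW.Triv

/-!
# Project QT: linked variables
-/

set_option autoImplicit false

namespace Pool.Agent.H53.QT

open Finset Pool.Agent.W262.RK Pool.Agent.W262.TW

namespace Cr

theorem norm_mc (b : ℕ → ℂ) (n : ℕ) : ‖mc b n‖ = mf (fun p => ‖b p‖) n := by
  unfold mf mc
  rw [norm_prod]

open Classical in
theorem mem_TP {ι I : Type} [Fintype ι] [DecidableEq ι] (g : ι → I) (P : ι → ℕ → Prop)
    (R : I → ℕ → Prop) (Y : ℕ) (e : ι → ℕ) :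
    e ∈ TP g P R Y ↔ (e ∈ Fintype.piFinset (fun _ : ι => Icc 1 Y)) ∧ (∀ a, P a (e a)) ∧
      (∀ a b, a ≠ b → (e a).Coprime (e b)) ∧ ∏ a, e a ≤ Y ∧
      ∀ i, R i (∏ a ∈ univ.filter (fun a => g a = i), e a) := by
  unfold TP
  rw [Finset.mem_filter]

lemma SK_norm {ι : Type} [Fintype ι] {K : ι → ι → ℕ → ℕ → ℂ} (hK : ∀ a c m n, ‖K a c m n‖ ≤ 1)
    (e : ι → ℕ) : ‖SK K e‖ ≤ 1 := by
  unfold SK
  rw [norm_prod]
  refine prod_le_one (fun _ _ => norm_nonneg _) fun a _ => ?_
  rw [norm_prod]
  exact prod_le_one (fun _ _ => norm_nonneg _) fun b _ => hK _ _ _ _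

lemma Linked_mono {ι I : Type} {g : ι → I} {K : ι → ι → ℕ → ℕ → ℂ} {P : ι → ℕ → Prop}
    {V0 Y : ℕ} {B B' : ℝ} (hB : B ≤ B') {a c : ι} (h : Linked g K P V0 Y B a c) :
    Linked g K P V0 Y B' a c :=
  ⟨h.1, h.2.1, fun T hT hTY α β h1 h2 h3 h4 => (h.2.2 T hT hTY α β h1 h2 h3 h4).trans
    (mul_le_mul_of_nonneg_right hB (Nat.cast_nonneg _))⟩

end Cr

theorem core4 : CORE4 := by
  classical
  intro ι I _ _ C1 E ε hε
  obtain ⟨C2, hTriv⟩ := Pool.Agent.W397.TW.triv ι
  set n : ℕ := Fintype.card ι with hn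
  refine ⟨24 * (E + n + 1), fun B' => ?_⟩
  set C3 : ℝ := (1 + B' / (ε / (n + 1))) ^ n with hC3
  have hC30 : 0 ≤ C3 := by positivity
  refine ⟨2 ^ n * (|C1| * 2 ^ n + |C2| * C3), ?_⟩
  intro g K P R z Y V0 b M Ir Lk hz hY hV0 hVB hVB' hK hb hPR hLk hR hM hMA
  have hYr : (3 : ℝ) ≤ Y := by exact_mod_cast hY
  have hY0 : (0 : ℝ) < Y := by linarith
  have hlog : 1 ≤ Real.log Y := by
    rw [Real.le_log_iff_exp_le hY0]
    have := Real.exp_one_lt_d9
    linarith
  have hlog0 : 0 < Real.log Y := by linarith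
  have hV0r : (2 : ℝ) ≤ V0 := by exact_mod_cast hV0
  have hV00 : (0 : ℝ) < V0 := by linarith
  set W : ℝ := Y * (Real.log Y) ^ (ε - 1) * M with hW
  have hW0 : 0 ≤ W := by positivity
  -- the pieces
  have hpiece : ∀ A : Finset ι,
      ‖∑ e ∈ (TP g P R Y).filter (fun e => ∀ a, a ∈ A ↔ V0 < e a),
        (∏ a, mc (b a) (e a)) * SK K e‖ ≤ (|C1| * 2 ^ n + |C2| * C3) * W := by
    intro A
    by_cases hun : ∀ a ∈ A, ∀ c ∈ A, ¬ Lk a c
    · by_cases hI : ∀ i ∈ Ir, ∃ a ∈ A, g a = i
      · -- unlinked: the trivial bound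
        have hMM := hMA A hun hI
        have h3 : ‖∑ e ∈ (TP g P R Y).filter (fun e => ∀ a, a ∈ A ↔ V0 < e a),
            (∏ a, mc (b a) (e a)) * SK K e‖ ≤
            ∑ e ∈ (TT (fun a : ι => a) z Y 0).filter (fun e => ∀ a, a ∉ A → e a ≤ V0),
              ∏ a, mf (fun p => ‖b a p‖) (e a) := by
          refine (norm_sum_le _ _).trans ?_
          refine (Finset.sum_le_sum (g := fun e => ∏ a, mf (fun p => ‖b a p‖) (e a))
            fun e _ => ?_).trans ?_
          · rw [norm_mul, norm_prod]
            have h4 : ∏ a, ‖mc (b a) (e a)‖ = ∏ a, mf (fun p => ‖b a p‖) (e a) :=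
              Finset.prod_congr rfl fun a _ => Cr.norm_mc (b a) (e a)
            rw [h4]
            have h5 : 0 ≤ ∏ a, mf (fun p => ‖b a p‖) (e a) :=
              Finset.prod_nonneg fun a _ => Pool.Agent.W762.TW.mf_nonneg (fun p => norm_nonneg _) _
            calc (∏ a, mf (fun p => ‖b a p‖) (e a)) * ‖SK K e‖ ≤
                (∏ a, mf (fun p => ‖b a p‖) (e a)) * 1 :=
                  mul_le_mul_of_nonneg_left (Cr.SK_norm hK e) h5
              _ = _ := mul_one _
          · refine Finset.sum_le_sum_of_subset_of_nonneg ?_ fun e _ _ =>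
              Finset.prod_nonneg fun a _ => Pool.Agent.W762.TW.mf_nonneg (fun p => norm_nonneg _) _
            intro e he
            rw [Finset.mem_filter] at he ⊢
            obtain ⟨he1, he2⟩ := he
            rw [Cr.mem_TP] at he1
            rw [Pool.Agent.W762.TW.mem_TT]
            obtain ⟨h6, h7, h8, h9, _⟩ := he1
            refine ⟨⟨h6, fun a => hPR a _ (h7 a), h8, h9, fun i => ?_⟩, fun a ha => ?_⟩
            · refine Finset.prod_pos fun a _ => ?_
              have := Fintype.mem_piFinset.1 h6 a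
              rw [Finset.mem_Icc] at this
              omega
            · by_contra hcon
              exact ha ((he2 a).2 (not_le.1 hcon))
        have h4 := hTriv z Y V0 (fun a p => ‖b a p‖) A hY (by omega)
          (fun a p => ⟨norm_nonneg _, hb a p⟩)
        refine h3.trans (h4.trans ?_)
        have h5 : 0 ≤ Real.log V0 := Real.log_nonneg (by linarith)
        have h6 : Real.log V0 ≤ B' * Real.log (Real.log Y) := by
          rw [← Real.log_pow]
          exact Real.log_le_log hV00 hVB'
        have h7 : (1 + Real.log V0) ^ Fintype.card ι ≤ C3 * (Real.log Y) ^ ε := by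
          refine (pow_le_pow_left₀ (by linarith) (by linarith) _).trans
            (Pool.Agent.W762.TW.pow_log hε n B' hlog)
        have h8 : (Y : ℝ) / Real.log Y * (Real.log Y) ^ ε = Y * (Real.log Y) ^ (ε - 1) := by
          rw [Real.rpow_sub hlog0, Real.rpow_one]
          ring
        have h9 : 0 ≤ (Y : ℝ) / Real.log Y := by positivity
        calc C2 * (Y / Real.log Y) * (1 + Real.log V0) ^ Fintype.card ι *
              Real.exp (∑ p ∈ PS z Y, (∑ a ∈ A, ‖b a p‖) / p)
            ≤ |C2| * (Y / Real.log Y) * (C3 * (Real.log Y) ^ ε) * M := by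
              apply mul_le_mul _ hMM (Real.exp_pos _).le (by positivity)
              apply mul_le_mul _ h7 (by positivity) (by positivity)
              exact mul_le_mul_of_nonneg_right (le_abs_self _) h9
          _ = |C2| * C3 * W := by
              rw [hW, ← h8]
              ring
          _ ≤ (|C1| * 2 ^ n + |C2| * C3) * W := by
              nlinarith [mul_nonneg (mul_nonneg (abs_nonneg C1)
                (by positivity : (0 : ℝ) ≤ 2 ^ n)) hW0]
      · -- a group without large variables: impossible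
        push Not at hI
        obtain ⟨i, hiI, hi⟩ := hI
        have hempty : (TP g P R Y).filter (fun e => ∀ a, a ∈ A ↔ V0 < e a) = ∅ := by
          rw [Finset.eq_empty_iff_forall_notMem]
          intro e he
          rw [Finset.mem_filter] at he
          obtain ⟨he1, he2⟩ := he
          rw [Cr.mem_TP] at he1
          obtain ⟨_, _, _, _, h10⟩ := he1
          have h11 := hR i hiI _ (h10 i)
          have h12 : ∏ a ∈ univ.filter (fun a => g a = i), e a ≤ V0 ^ n := by
            calc ∏ a ∈ univ.filter (fun a => g a = i), e a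
                ≤ ∏ _a ∈ univ.filter (fun a => g a = i), V0 := by
                  refine Finset.prod_le_prod' fun a ha => ?_
                  rw [Finset.mem_filter] at ha
                  by_contra hcon
                  exact hi a ((he2 a).2 (not_le.1 hcon)) ha.2
              _ = V0 ^ (univ.filter (fun a => g a = i)).card := by rw [Finset.prod_const]
              _ ≤ V0 ^ n := Nat.pow_le_pow_right (by omega) (Finset.card_le_univ _)
          exact absurd h12 (not_le.2 h11)
        rw [hempty, Finset.sum_empty, norm_zero]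
        positivity
    · -- linked
      push Not at hun
      obtain ⟨a, ha, c, hc, hac⟩ := hun
      have hlkac := Cr.Linked_mono (B' := |C1| * (Real.log Y) ^ E * (V0 : ℝ) ^ (-(1 / 24 : ℝ)))
        (mul_le_mul_of_nonneg_right (mul_le_mul_of_nonneg_right (le_abs_self C1) (by positivity))
          (by positivity)) (hLk a c hac)
      have hlk := link4 ι I g K P R Y V0 b (|C1| * (Real.log Y) ^ E * (V0 : ℝ) ^ (-(1 / 24 : ℝ)))
        A a c hY hV0 (by positivity) hK hb ha hc hlkac
      refine (le_of_eq_of_le (by rfl) hlk).trans ?_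
      have h5 : (V0 : ℝ) ^ (-(1 / 24 : ℝ)) ≤ (Real.log Y) ^ (-((E : ℝ) + n + 1)) := by
        calc (V0 : ℝ) ^ (-(1 / 24 : ℝ)) ≤ ((Real.log Y) ^ (24 * (E + n + 1))) ^ (-(1 / 24 : ℝ)) :=
              Real.rpow_le_rpow_of_nonpos (by positivity) hVB (by norm_num)
          _ = (Real.log Y) ^ (-((E : ℝ) + n + 1)) := by
              rw [← Real.rpow_natCast, ← Real.rpow_mul hlog0.le]
              congr 1
              push_cast
              ring
      have h6 : (Real.log Y) ^ E * (Real.log Y) ^ n * (Real.log Y) ^ (-((E : ℝ) + n + 1)) =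
          (Real.log Y) ^ (-1 : ℝ) := by
        rw [← Real.rpow_natCast, ← Real.rpow_natCast, ← Real.rpow_add hlog0,
          ← Real.rpow_add hlog0]
        congr 1
        ring
      have h7 : (Real.log Y) ^ (-1 : ℝ) ≤ (Real.log Y) ^ (ε - 1) :=
        Real.rpow_le_rpow_of_exponent_le hlog (by linarith)
      calc |C1| * (Real.log Y) ^ E * (V0 : ℝ) ^ (-(1 / 24 : ℝ)) * (2 * Real.log Y) ^ n * Y
          ≤ |C1| * (Real.log Y) ^ E * (Real.log Y) ^ (-((E : ℝ) + n + 1)) *
              (2 * Real.log Y) ^ n * Y := by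
            refine mul_le_mul_of_nonneg_right (mul_le_mul_of_nonneg_right ?_ (by positivity)) hY0.le
            exact mul_le_mul_of_nonneg_left h5 (by positivity)
        _ = |C1| * 2 ^ n * (Y * (Real.log Y) ^ (-1 : ℝ)) := by
            rw [← h6, mul_pow]
            ring
        _ ≤ |C1| * 2 ^ n * (Y * (Real.log Y) ^ (ε - 1) * M) := by
            apply mul_le_mul_of_nonneg_left _ (by positivity)
            calc (Y : ℝ) * (Real.log Y) ^ (-1 : ℝ) ≤ Y * (Real.log Y) ^ (ε - 1) :=
                  mul_le_mul_of_nonneg_left h7 hY0.le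
              _ = Y * (Real.log Y) ^ (ε - 1) * 1 := (mul_one _).symm
              _ ≤ _ := mul_le_mul_of_nonneg_left hM (by positivity)
        _ ≤ (|C1| * 2 ^ n + |C2| * C3) * W := by
            rw [← hW]
            have : 0 ≤ |C2| * C3 * W := by positivity
            linarith
  -- the sum over the pieces
  have hsum : ∑ e ∈ TP g P R Y, (∏ a, mc (b a) (e a)) * SK K e =
      ∑ A : Finset ι, ∑ e ∈ (TP g P R Y).filter (fun e => ∀ a, a ∈ A ↔ V0 < e a),
        (∏ a, mc (b a) (e a)) * SK K e := by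
    rw [← Finset.sum_fiberwise (TP g P R Y)
      (fun e => univ.filter (fun a => V0 < e a))]
    refine Finset.sum_congr rfl fun A _ => ?_
    refine Finset.sum_congr (Finset.filter_congr fun e _ => ?_) fun _ _ => rfl
    rw [Finset.ext_iff]
    simp only [Finset.mem_filter, Finset.mem_univ, true_and]
    exact forall_congr' fun a => Iff.comm
  rw [hsum]
  calc ‖∑ A : Finset ι, ∑ e ∈ (TP g P R Y).filter (fun e => ∀ a, a ∈ A ↔ V0 < e a),
        (∏ a, mc (b a) (e a)) * SK K e‖
      ≤ ∑ A : Finset ι, ‖∑ e ∈ (TP g P R Y).filter (fun e => ∀ a, a ∈ A ↔ V0 < e a),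
        (∏ a, mc (b a) (e a)) * SK K e‖ := norm_sum_le _ _
    _ ≤ ∑ _A : Finset ι, (|C1| * 2 ^ n + |C2| * C3) * W := Finset.sum_le_sum fun A _ => hpiece A
    _ = 2 ^ n * (|C1| * 2 ^ n + |C2| * C3) * Y * (Real.log Y) ^ (ε - 1) * M := by
        rw [Finset.sum_const, Finset.card_univ, Fintype.card_finset, nsmul_eq_mul, hW]
        push_cast
        ring

end Pool.Agent.H53.QT
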