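import Mathlib
import Pool.Graph.R_seed8.W262.TW.Stm2

/-!
# Quartic twists `d y⁴ = L₁ L₂ L₃ L₄`: definitions (project QT, helper53)

`Rg`, `PS`, `Jr`, `EE`, `TT` are those of the library project TW.
-/

set_option autoImplicit false

namespace Pool.Agent.H53.QT

open Finset Pool.Agent.W262.RK Pool.Agent.W262.TW

/-! ## Characters -/

open Classical in
/-- a quartic character modulo the prime `p` (`p ≡ 1` modulo `4`) -/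
noncomputable def q4 (p : ℕ) (n : ℤ) : ℂ :=
  if h : ∃ χ : MulChar (ZMod p) ℂ, orderOf χ = 4 then h.choose (n : ZMod p) else 0

/-- the `e`-th power of the quartic character (`e = 2`: the Jacobi symbol) -/
noncomputable def sp (e : ZMod 4) (p : ℕ) (n : ℤ) : ℂ :=
  if e = 0 then 1 else if e = 2 then ((Jr n p : ℝ) : ℂ) else
    if e = 1 then q4 p n else (starRingEnd ℂ) (q4 p n)

/-- the product over the primes dividing `m` -/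
noncomputable def sy (e : ZMod 4) (m : ℕ) (n : ℤ) : ℂ := ∏ p ∈ m.primeFactors, sp e p n

/-! ## Tuples and sums -/

/-- the multiplicative function `∏_{p ∣ n} b p` -/
noncomputable def mc (b : ℕ → ℂ) (n : ℕ) : ℂ := ∏ p ∈ n.primeFactors, b p

open Classical in
/-- tuples of pairwise coprime numbers with product at most `Y`, with a condition on each entry and a
condition on the product over each group -/
noncomputable def TP {ι I : Type} [Fintype ι] [DecidableEq ι] (g : ι → I) (P : ι → ℕ → Prop)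
    (R : I → ℕ → Prop) (Y : ℕ) : Finset (ι → ℕ) :=
  (Fintype.piFinset (fun _ : ι => Icc 1 Y)).filter (fun e => (∀ a, P a (e a)) ∧
    (∀ a b, a ≠ b → (e a).Coprime (e b)) ∧ ∏ a, e a ≤ Y ∧
    ∀ i, R i (∏ a ∈ univ.filter (fun a => g a = i), e a))

/-- the product of the kernels -/
noncomputable def SK {ι : Type} [Fintype ι] (K : ι → ι → ℕ → ℕ → ℂ) (e : ι → ℕ) : ℂ :=
  ∏ a, ∏ b, K a b (e a) (e b)

/-- bilinear bound for the kernel `k` under a hyperbola -/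
def BIL (k : ℕ → ℕ → ℂ) (Pa Pb : ℕ → Prop) (V0 Y : ℕ) (B : ℝ) : Prop :=
  ∀ T : ℕ, 2 ≤ T → T ≤ Y → ∀ α β : ℕ → ℂ, (∀ m, ‖α m‖ ≤ 1) → (∀ n, ‖β n‖ ≤ 1) →
    (∀ m, α m ≠ 0 → Pa m) → (∀ n, β n ≠ 0 → Pb n) →
    ‖∑ m ∈ Ioc V0 T, ∑ n ∈ (Ioc V0 T).filter (fun n => m * n ≤ T), α m * β n * k m n‖ ≤ B * T

/-- `a` and `c` are linked -/
def Linked {ι I : Type} (g : ι → I) (K : ι → ι → ℕ → ℕ → ℂ) (P : ι → ℕ → Prop) (V0 Y : ℕ) (B : ℝ)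
    (a c : ι) : Prop :=
  g a ≠ g c ∧ (∀ m n, P a m → P c n → ¬ m.Coprime n → K a c m n * K c a n m = 0) ∧
    BIL (fun m n => K a c m n * K c a n m) (P a) (P c) V0 Y B

/-! ## The indices -/

/-- exponents -/
abbrev Ex := Fin 4 → ZMod 4

/-- the class of a prime: `0` small and split, `2` large, `1` others -/
def cl (W N p : ℕ) : Fin 3 := if p ≤ W ∧ p % 4 = 1 then 0 else if N < p then 2 else 1

/-- the indices `(i, e, c)` -/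
def valid (a : Fin 4 × Ex × Fin 3) : Prop :=
  a.2.1 a.1 = 0 ∧ ∑ k, a.2.1 k = 0 ∧ (a.2.2 ≠ 0 → ∀ k, a.2.1 k = 0 ∨ a.2.1 k = 2)

instance : DecidablePred valid := fun a => by unfold valid; infer_instance

/-- the indices -/
abbrev Ix := {a : Fin 4 × Ex × Fin 3 // valid a}

/-- the type of an index -/
def gI (a : Ix) : Fin 4 := a.1.1

/-- the exponents of an index -/
def eI (a : Ix) : Ex := a.1.2.1

/-- the class of an index -/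
def cI (a : Ix) : Fin 3 := a.1.2.2

/-- the kernels -/
noncomputable def KK (a b : Ix) (m n : ℕ) : ℂ :=
  if gI a = gI b then 1 else sy (eI a (gI b)) m (n : ℤ)

/-- the weights -/
noncomputable def wI (a : Ix) : ℝ := if cI a = 0 then 1 / 16 else 1 / 4

/-- the coefficients -/
noncomputable def bI (W N : ℕ) (κ : Fin 4 → ℤ) (c : Fin 4 → Fin 4 → ℤ) (a : Ix) (p : ℕ) : ℂ :=
  if cl W N p = cI a then ((wI a : ℝ) : ℂ) * ∏ k ∈ univ.erase (gI a),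
    (sp (eI a k) p (κ k) * (starRingEnd ℂ) (sp (eI a k) p (c (gI a) k))) else 0

/-- the condition on the entries of the tuples -/
def PI (z W N : ℕ) (a : Ix) (n : ℕ) : Prop :=
  Rg z n ∧ ∀ p : ℕ, p.Prime → p ∣ n → cl W N p = cI a

/-- the same with the bound `M` for the entries of class `0` -/
def PM (z W N M : ℕ) (a : Ix) (n : ℕ) : Prop := PI z W N a n ∧ (cI a = 0 → n ≤ M)

/-- linked indices -/
def LkI (a c : Ix) : Prop := gI a ≠ gI c ∧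
  ((eI a (gI c) = 2 ∧ eI c (gI a) = 0) ∨ (eI a (gI c) = 0 ∧ eI c (gI a) = 2) ∨
    (cI a = 0 ∧ cI c = 2 ∧ (eI a (gI c) = 1 ∨ eI a (gI c) = 3)))

instance : DecidableRel LkI := fun a c => by unfold LkI; infer_instance

/-! ## The conditions -/

/-- the quadratic condition at `p ∣ D i` -/
def C2 (c : Fin 4 → Fin 4 → ℤ) (s : Fin 4 → ℤ) (i : Fin 4) (p : ℕ) : Prop :=
  ∀ k l, k ≠ i → l ≠ i → Jr (s k) p * Jr (c i l) p = Jr (s l) p * Jr (c i k) p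

/-- the quartic condition at `p ∣ D i` -/
def C4 (c : Fin 4 → Fin 4 → ℤ) (s : Fin 4 → ℤ) (i : Fin 4) (p : ℕ) : Prop :=
  ∀ k l, k ≠ i → l ≠ i → q4 p (s k) * q4 p (c i l) = q4 p (s l) * q4 p (c i k)

/-- the condition used at `p ∣ D i` -/
def CD (W N : ℕ) (c : Fin 4 → Fin 4 → ℤ) (s : Fin 4 → ℤ) (i : Fin 4) (p : ℕ) : Prop :=
  if cl W N p = 0 then C4 c s i p else C2 c s i p

/-- the full condition at `p ∣ D i` -/
def CF (c : Fin 4 → Fin 4 → ℤ) (s : Fin 4 → ℤ) (i : Fin 4) (p : ℕ) : Prop :=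
  C2 c s i p ∧ (p % 4 = 1 → C4 c s i p)

/-- `a` and `b` differ by a rational fourth power -/
def F4 (a b : ℤ) : Prop := ∃ u v : ℤ, u ≠ 0 ∧ v ≠ 0 ∧ a * u ^ 4 = b * v ^ 4

/-- for every `i` the numbers `s k / c i k` (`k ≠ i`) are not all in the same class modulo fourth
powers -/
def NC4 (c : Fin 4 → Fin 4 → ℤ) (s : Fin 4 → ℤ) : Prop :=
  ∀ i, ∃ k l, k ≠ i ∧ l ≠ i ∧ ¬ F4 (s k * c i l) (s l * c i k)

/-- the tuples -/
def Tu (z Y : ℕ) (D : Fin 4 → ℕ) : Prop :=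
  (∀ i, D i ∈ Icc 1 Y) ∧ (∀ i, Rg z (D i)) ∧ (∀ i j, i ≠ j → (D i).Coprime (D j)) ∧ ∏ i, D i ≤ Y

open Classical in
/-- the number of the tuples with the conditions `CD` and conditions on the sizes -/
noncomputable def cn (z Y W N : ℕ) (κ : Fin 4 → ℤ) (c : Fin 4 → Fin 4 → ℤ)
    (R : Fin 4 → ℕ → Prop) : ℕ :=
  ((Fintype.piFinset (fun _ : Fin 4 => Icc 1 Y)).filter (fun D => Tu z Y D ∧ (∀ i, R i (D i)) ∧
    ∀ i, ∀ p ∈ (D i).primeFactors, CD W N c (fun k => κ k * D k) i p)).card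

open Classical in
/-- the number of the tuples with the conditions `CF` and `NC4` and conditions on the sizes -/
noncomputable def cF (z Y : ℕ) (κ : Fin 4 → ℤ) (c : Fin 4 → Fin 4 → ℤ)
    (R : Fin 4 → ℕ → Prop) : ℕ :=
  ((Fintype.piFinset (fun _ : Fin 4 => Icc 1 Y)).filter (fun D => Tu z Y D ∧ (∀ i, R i (D i)) ∧
    (∀ i, ∀ p ∈ (D i).primeFactors, CF c (fun k => κ k * D k) i p) ∧
    NC4 c (fun k => κ k * D k))).card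

/-- the integers `± n`, `n` a divisor of the cube of the primorial -/
def E4 (z : ℕ) : Finset ℤ :=
  ((primorial z) ^ 3).divisors.image (fun n : ℕ => (n : ℤ)) ∪
    ((primorial z) ^ 3).divisors.image (fun n : ℕ => -(n : ℤ))

/-- the determinants -/
def dt (α β : Fin 4 → ℤ) (i k : Fin 4) : ℤ := α i * β k - α k * β i

/-- the curve `d y⁴ = ∏ k, (α k x + β k w)` has a point of nonconstant type -/
def Bad (α β : Fin 4 → ℤ) (d : ℤ) : Prop := ∃ x w y : ℤ, IsCoprime x w ∧ y ≠ 0 ∧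
  d * y ^ 4 = ∏ k, (α k * x + β k * w) ∧ NC4 (dt α β) (fun k => α k * x + β k * w)

/-! ## Parameters -/

/-- the bound for the small primes -/
noncomputable def WW (X : ℕ) : ℕ := ⌊Real.exp ((Real.log X) ^ (1 / 20 : ℝ))⌋₊

/-- the bound for the variables of class `0` -/
noncomputable def MM (X : ℕ) : ℕ := ⌊Real.exp ((Real.log X) ^ (1 / 19 : ℝ))⌋₊

/-- the bound for the medium primes -/
noncomputable def NN (X : ℕ) : ℕ := ⌊Real.exp ((Real.log X) ^ (1 / 18 : ℝ))⌋₊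

/-! ## Statements of the parts -/

/-- CHI: the quartic characters -/
def CHI : Prop := ∀ p : ℕ, p.Prime → p % 4 = 1 →
  (∀ a b : ℤ, q4 p (a * b) = q4 p a * q4 p b) ∧ (∀ a b : ℤ, (p : ℤ) ∣ a - b → q4 p a = q4 p b) ∧
  (∀ a : ℤ, (p : ℤ) ∣ a → q4 p a = 0) ∧
  (∀ a : ℤ, ¬ (p : ℤ) ∣ a → q4 p a ^ 2 = ((Jr a p : ℝ) : ℂ) ∧ q4 p a ^ 4 = 1 ∧ ‖q4 p a‖ = 1) ∧
  ∃ a : ℤ, ¬ (p : ℤ) ∣ a ∧ q4 p a ≠ 1

/-- BL4: bilinear sums of quartic symbols, `m` small and `n` large -/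
def BL4 : Prop := ∃ C : ℝ, ∀ (M N V0 : ℕ) (e : ZMod 4), e = 1 ∨ e = 3 → 2 ≤ V0 → M ^ 4 ≤ N →
  ∀ Y : ℕ, 3 ≤ Y →
  BIL (fun m n => sy e m (n : ℤ))
    (fun m => Squarefree m ∧ (∀ p : ℕ, p.Prime → p ∣ m → p % 4 = 1) ∧ m ≤ M)
    (fun n => N < n) V0 Y (C * Real.log Y * (V0 : ℝ) ^ (-(1 / 24 : ℝ)))

/-- LINK4: the terms with two large linked variables -/
def LINK4 : Prop := ∀ (ι I : Type) [Fintype ι] [DecidableEq ι] (g : ι → I)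
  (K : ι → ι → ℕ → ℕ → ℂ) (P : ι → ℕ → Prop) (R : I → ℕ → Prop) (Y V0 : ℕ) (b : ι → ℕ → ℂ)
  (B : ℝ) (A : Finset ι) (a0 b0 : ι), 3 ≤ Y → 2 ≤ V0 → 0 ≤ B →
  (∀ a c m n, ‖K a c m n‖ ≤ 1) → (∀ a p, ‖b a p‖ ≤ 1) → a0 ∈ A → b0 ∈ A →
  Linked g K P V0 Y B a0 b0 →
  ‖∑ e ∈ (TP g P R Y).filter (fun e => ∀ a, a ∈ A ↔ V0 < e a),
    (∏ a, mc (b a) (e a)) * SK K e‖ ≤ B * (2 * Real.log Y) ^ (Fintype.card ι) * Y

/-- CORE4: linked variables -/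
def CORE4 : Prop := ∀ (ι I : Type) [Fintype ι] [DecidableEq ι] (C1 : ℝ) (E : ℕ) (ε : ℝ), 0 < ε →
  ∃ B : ℕ, ∀ B' : ℕ, ∃ C : ℝ, ∀ (g : ι → I) (K : ι → ι → ℕ → ℕ → ℂ) (P : ι → ℕ → Prop)
  (R : I → ℕ → Prop) (z Y V0 : ℕ) (b : ι → ℕ → ℂ) (M : ℝ) (Ir : Finset I) (Lk : ι → ι → Prop),
  2 ≤ z → 3 ≤ Y → 2 ≤ V0 → (Real.log Y) ^ B ≤ V0 → (V0 : ℝ) ≤ (Real.log Y) ^ B' →
  (∀ a c m n, ‖K a c m n‖ ≤ 1) → (∀ a p, ‖b a p‖ ≤ 1) → (∀ a n, P a n → Rg z n) →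
  (∀ a c, Lk a c →
    Linked g K P V0 Y (C1 * (Real.log Y) ^ E * (V0 : ℝ) ^ (-(1 / 24 : ℝ))) a c) →
  (∀ i ∈ Ir, ∀ n, R i n → V0 ^ Fintype.card ι < n) → 1 ≤ M →
  (∀ A : Finset ι, (∀ a ∈ A, ∀ c ∈ A, ¬ Lk a c) → (∀ i ∈ Ir, ∃ a ∈ A, g a = i) →
    Real.exp (∑ p ∈ PS z Y, (∑ a ∈ A, ‖b a p‖) / p) ≤ M) →
  ‖∑ e ∈ TP g P R Y, (∏ a, mc (b a) (e a)) * SK K e‖ ≤ C * Y * (Real.log Y) ^ (ε - 1) * M

/-- EXPA4: Fourier expansion of the conditions -/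
def EXPA4 : Prop := ∀ (z Y W N : ℕ) (κ : Fin 4 → ℤ) (c : Fin 4 → Fin 4 → ℤ)
  (R : Fin 4 → ℕ → Prop), 2 ≤ z → (∀ k, ∀ p : ℕ, p.Prime → (p : ℤ) ∣ κ k → p ≤ z) →
  (∀ i k, i ≠ k → ∀ p : ℕ, p.Prime → (p : ℤ) ∣ c i k → p ≤ z) →
  (cn z Y W N κ c R : ℂ) =
    ∑ e ∈ TP gI (fun _ => Rg z) R Y, (∏ a, mc (bI W N κ c a) (e a)) * SK KK e

/-- COMB4: unlinked sets in which two types occur -/
def COMB4 : Prop := ∀ A : Finset Ix, (∀ a ∈ A, ∀ c ∈ A, ¬ LkI a c) →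
  (∃ a ∈ A, ∃ c ∈ A, gI a ≠ gI c) →
  ((A.filter (fun a => cI a = 0)).card ≤ 8 ∧ (A.filter (fun a => cI a = 1)).card ≤ 4 ∧
    (A.filter (fun a => cI a = 2)).card ≤ 4) ∨ (A.filter (fun a => cI a = 2)).card ≤ 2

/-- MERT4: primes `≡ 1` and `≡ 3` modulo `4` -/
def MERT4 : Prop := ∀ z : ℕ, ∃ C : ℝ, ∀ y : ℕ, 3 ≤ y →
  |∑ p ∈ PS z y, Jr (-1) p / (p : ℝ)| ≤ C

/-- SMTH: smooth numbers -/
def SMTH : Prop := ∀ A : ℕ, ∃ C : ℝ, ∀ X : ℕ, 3 ≤ X →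
  ∑ n ∈ (Icc 1 X).filter (fun n => Squarefree n ∧ MM X < n ∧
    ∀ p ∈ n.primeFactors, p ≤ WW X), 1 / (n : ℝ) ≤ C / (Real.log X) ^ A

/-- REDS4: reduction of the twists with a point of nonconstant type to tuples -/
def REDS4 : Prop := ∀ α β : Fin 4 → ℤ, (∀ i k, i ≠ k → dt α β i k ≠ 0) →
  ∃ z0 : ℕ, ∀ z, z0 ≤ z → ∀ X : ℕ,
    {d : ℤ | d.natAbs ≤ X ∧ Squarefree d ∧ Bad α β d}.ncard ≤
      (EE z).card * ∑ κ ∈ Fintype.piFinset (fun _ : Fin 4 => E4 z),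
        cF z X κ (dt α β) (fun _ _ => True)

/-- ONE4: one large variable -/
def ONE4 : Prop := ∀ c : Fin 4 → Fin 4 → ℤ, (∀ i k, i ≠ k → c i k ≠ 0) →
  ∃ z0 : ℕ, ∀ z, z0 ≤ z → ∀ κ ∈ Fintype.piFinset (fun _ : Fin 4 => E4 z), ∀ B' : ℕ, ∃ C : ℝ,
  ∀ X V : ℕ, 3 ≤ X → 1 ≤ V → (V : ℝ) ≤ (Real.log X) ^ B' → ∀ i : Fin 4,
    (cF z X κ c (fun k n => k ≠ i → n ≤ V) : ℝ) ≤ C * X * (Real.log X) ^ (-(1 / 5 : ℝ))

/-- FINQ: the final estimate -/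
def FINQ : Prop := ∀ α β : Fin 4 → ℤ, (∀ i k, i ≠ k → dt α β i k ≠ 0) →
  ∃ C : ℝ, ∀ X : ℕ, 3 ≤ X →
    ({d : ℤ | d.natAbs ≤ X ∧ Squarefree d ∧ Bad α β d}.ncard : ℝ) ≤
      C * X * (Real.log X) ^ (-(1 / 100 : ℝ))

end Pool.Agent.H53.QT
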