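import Pool.Agent.H53.QT.Exq2

/-!
# Project QT: from squarefree `d` to all `d` (helper53)
-/

set_option autoImplicit false

namespace Pool.Agent.H53.QT

open Finset Filter Topology

namespace Dens

lemma ncard_eq (X : ℕ) (Q : ℤ → Prop) [DecidablePred Q] :
    {d : ℤ | d.natAbs ≤ X ∧ Q d}.ncard = ((Icc (-(X : ℤ)) X).filter Q).card := by
  rw [← Set.ncard_coe_finset]
  congr 1
  ext d
  rw [Set.mem_setOf_eq, coe_filter, Set.mem_setOf_eq, mem_Icc]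
  constructor
  · rintro ⟨h1, h2⟩; exact ⟨by omega, h2⟩
  · rintro ⟨h1, h2⟩; exact ⟨by omega, h2⟩

/-- every nonzero integer is a square times a squarefree integer -/
lemma decomp {d : ℤ} (hd : d ≠ 0) : ∃ (b : ℕ) (a : ℤ), 1 ≤ b ∧ Squarefree a ∧
    d = (b : ℤ) ^ 2 * a ∧ d.natAbs = b ^ 2 * a.natAbs := by
  obtain ⟨a, b, ha, hb, hab, hsq⟩ := Nat.sq_mul_squarefree_of_pos (Int.natAbs_pos.2 hd)
  rcases Int.natAbs_eq d with h | h
  · refine ⟨b, a, hb, Int.squarefree_natCast.2 hsq, ?_, ?_⟩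
    · rw [h, ← hab]; push_cast; ring
    · rw [← hab]; simp
  · refine ⟨b, -a, hb, ?_, ?_, ?_⟩
    · rw [← Int.squarefree_natAbs]; simpa using hsq
    · rw [h, ← hab]; push_cast; ring
    · rw [← hab]; simp

/-- from squarefree numbers to all numbers -/
lemma dens_gen (P : ℤ → Prop)
    (h : ∀ b : ℕ, 1 ≤ b → ∃ C : ℝ, ∀ X : ℕ, 3 ≤ X →
      ({a : ℤ | a.natAbs ≤ X ∧ Squarefree a ∧ P ((b : ℤ) ^ 2 * a)}.ncard : ℝ) ≤
        C * X * (Real.log X) ^ (-(1 / 100 : ℝ))) :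
    Tendsto (fun X : ℕ => ({d : ℤ | d.natAbs ≤ X ∧ d ≠ 0 ∧ P d}.ncard : ℝ) / X) atTop (𝓝 0) := by
  classical
  have h' : ∀ b : ℕ, ∃ C : ℝ, 1 ≤ b → ∀ X : ℕ, 3 ≤ X →
      ({a : ℤ | a.natAbs ≤ X ∧ Squarefree a ∧ P ((b : ℤ) ^ 2 * a)}.ncard : ℝ) ≤
        C * X * (Real.log X) ^ (-(1 / 100 : ℝ)) := by
    intro b
    by_cases hb : 1 ≤ b
    · obtain ⟨C, hC⟩ := h b hb
      exact ⟨C, fun _ => hC⟩
    · exact ⟨0, fun h => absurd h hb⟩
  choose C hC using h'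
  -- the main bound
  have hmain : ∀ T X : ℕ, 1 ≤ T → 3 ≤ X → T ≤ X →
      ({d : ℤ | d.natAbs ≤ X ∧ d ≠ 0 ∧ P d}.ncard : ℝ) ≤
        (∑ b ∈ Icc 1 T, C b) * (Real.log X) ^ (-(1 / 100 : ℝ)) * X + 2 / T * X := by
    intro T X hT hX hTX
    have hX0 : (0 : ℝ) ≤ X := Nat.cast_nonneg X
    have hsub : (Icc (-(X : ℤ)) X).filter (fun d => d ≠ 0 ∧ P d) ⊆
        ((Icc 1 T).biUnion fun b => ((Icc (-(X : ℤ)) X).filter (fun a => Squarefree a ∧
          P ((b : ℤ) ^ 2 * a))).image (fun a => (b : ℤ) ^ 2 * a)) ∪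
        ((Ioc T X).biUnion fun b => ((Icc (-((X / b ^ 2 : ℕ) : ℤ)) (X / b ^ 2 : ℕ)).erase 0).image
          (fun a => (b : ℤ) ^ 2 * a)) := by
      intro d hd
      rw [mem_filter, mem_Icc] at hd
      obtain ⟨hdX, hd0, hdP⟩ := hd
      obtain ⟨b, a, hb, hsq, hda, hna⟩ := decomp hd0
      have hdX' : b ^ 2 * a.natAbs ≤ X := by rw [← hna]; omega
      have hb2 : 1 ≤ b ^ 2 := Nat.one_le_pow _ _ hb
      have ha0 : a ≠ 0 := hsq.ne_zero
      have ha1 : 1 ≤ a.natAbs := Int.natAbs_pos.2 ha0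
      rw [mem_union, mem_biUnion, mem_biUnion]
      by_cases hbT : b ≤ T
      · left
        refine ⟨b, mem_Icc.2 ⟨hb, hbT⟩, mem_image.2 ⟨a, ?_, hda.symm⟩⟩
        have : a.natAbs ≤ X := le_trans (Nat.le_mul_of_pos_left _ hb2) hdX'
        rw [mem_filter, mem_Icc]
        exact ⟨by omega, hsq, by rw [← hda]; exact hdP⟩
      · right
        have hbX : b ≤ X := by
          calc b ≤ b ^ 2 := by nlinarith
            _ ≤ b ^ 2 * a.natAbs := Nat.le_mul_of_pos_right _ ha1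
            _ ≤ X := hdX'
        refine ⟨b, mem_Ioc.2 ⟨by omega, hbX⟩, mem_image.2 ⟨a, ?_, hda.symm⟩⟩
        have : a.natAbs ≤ X / b ^ 2 := by
          rw [Nat.le_div_iff_mul_le hb2, mul_comm]; exact hdX'
        rw [mem_erase, mem_Icc]
        exact ⟨ha0, by omega⟩
    have h1 := (card_le_card hsub).trans ((card_union_le _ _).trans
      (add_le_add card_biUnion_le card_biUnion_le))
    have h2 : ({d : ℤ | d.natAbs ≤ X ∧ d ≠ 0 ∧ P d}.ncard : ℝ) ≤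
        ∑ b ∈ Icc 1 T, ((((Icc (-(X : ℤ)) X).filter (fun a => Squarefree a ∧
          P ((b : ℤ) ^ 2 * a))).image (fun a => (b : ℤ) ^ 2 * a)).card : ℝ) +
        ∑ b ∈ Ioc T X, ((((Icc (-((X / b ^ 2 : ℕ) : ℤ)) (X / b ^ 2 : ℕ)).erase 0).image
          (fun a => (b : ℤ) ^ 2 * a)).card : ℝ) := by
      rw [ncard_eq X (fun d => d ≠ 0 ∧ P d)]
      exact_mod_cast h1
    refine h2.trans (add_le_add ?_ ?_)
    · rw [sum_mul, sum_mul]
      refine sum_le_sum fun b hb => ?_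
      rw [mem_Icc] at hb
      have h3 := hC b hb.1 X hX
      rw [ncard_eq X (fun a => Squarefree a ∧ P ((b : ℤ) ^ 2 * a))] at h3
      have h4 : ((((Icc (-(X : ℤ)) X).filter (fun a => Squarefree a ∧
          P ((b : ℤ) ^ 2 * a))).image (fun a => (b : ℤ) ^ 2 * a)).card : ℝ) ≤
          (((Icc (-(X : ℤ)) X).filter (fun a => Squarefree a ∧
          P ((b : ℤ) ^ 2 * a))).card : ℝ) := Nat.cast_le.2 card_image_le
      have h5 : C b * (X : ℝ) * (Real.log X) ^ (-(1 / 100 : ℝ)) =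
          C b * (Real.log X) ^ (-(1 / 100 : ℝ)) * X := by ring
      rw [h5] at h3
      exact h4.trans h3
    · calc ∑ b ∈ Ioc T X, ((((Icc (-((X / b ^ 2 : ℕ) : ℤ)) (X / b ^ 2 : ℕ)).erase 0).image
          (fun a => (b : ℤ) ^ 2 * a)).card : ℝ)
          ≤ ∑ b ∈ Ioc T X, (2 * X * ((b : ℝ) ^ 2)⁻¹) := by
            refine sum_le_sum fun b hb => ?_
            have h3 : (((Icc (-((X / b ^ 2 : ℕ) : ℤ)) (X / b ^ 2 : ℕ)).erase 0).image
                (fun a => (b : ℤ) ^ 2 * a)).card ≤ 2 * (X / b ^ 2) := by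
              refine card_image_le.trans ?_
              have h0 : (0 : ℤ) ≤ ((X / b ^ 2 : ℕ) : ℤ) := Int.natCast_nonneg _
              rw [card_erase_of_mem (by rw [mem_Icc]; exact ⟨by linarith, h0⟩), Int.card_Icc]
              generalize X / b ^ 2 = q
              omega
            have h4 : ((X / b ^ 2 : ℕ) : ℝ) ≤ X / (b : ℝ) ^ 2 := by
              have := @Nat.cast_div_le ℝ _ _ _ X (b ^ 2)
              push_cast at this
              exact this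
            calc ((((Icc (-((X / b ^ 2 : ℕ) : ℤ)) (X / b ^ 2 : ℕ)).erase 0).image
                (fun a => (b : ℤ) ^ 2 * a)).card : ℝ) ≤ 2 * ((X / b ^ 2 : ℕ) : ℝ) := by
                  exact_mod_cast h3
              _ ≤ 2 * (X / (b : ℝ) ^ 2) := by linarith
              _ = _ := by rw [div_eq_mul_inv]; ring
        _ = 2 * X * ∑ b ∈ Ioc T X, ((b : ℝ) ^ 2)⁻¹ := by rw [mul_sum]
        _ ≤ 2 * X * ((T : ℝ)⁻¹ - (X : ℝ)⁻¹) :=
            mul_le_mul_of_nonneg_left (sum_Ioc_inv_sq_le_sub (by omega) hTX) (by positivity)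
        _ ≤ 2 * X * (T : ℝ)⁻¹ := by
            refine mul_le_mul_of_nonneg_left ?_ (by positivity)
            have : (0 : ℝ) ≤ (X : ℝ)⁻¹ := by positivity
            linarith
        _ = 2 / T * X := by rw [div_eq_mul_inv]; ring
  have hlim : Tendsto (fun X : ℕ => (Real.log X) ^ (-(1 / 100 : ℝ))) atTop (𝓝 0) :=
    (tendsto_rpow_neg_atTop (by norm_num)).comp
      (Real.tendsto_log_atTop.comp tendsto_natCast_atTop_atTop)
  rw [tendsto_order]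
  refine ⟨fun c hc => ?_, fun ε hε => ?_⟩
  · filter_upwards with X
    exact hc.trans_le (by positivity)
  · obtain ⟨T, hT⟩ := exists_nat_gt (4 / ε)
    have hT0 : (0 : ℝ) < T := lt_trans (by positivity) hT
    have hT1 : 1 ≤ T := by
      have : 0 < T := by exact_mod_cast hT0
      omega
    have h1 : (2 : ℝ) / T < ε / 2 := by
      rw [div_lt_iff₀ hε] at hT
      rw [div_lt_iff₀ hT0]
      linarith
    have h2 : Tendsto (fun X : ℕ => (∑ b ∈ Icc 1 T, C b) * (Real.log X) ^ (-(1 / 100 : ℝ)))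
        atTop (𝓝 0) := by
      have := hlim.const_mul (∑ b ∈ Icc 1 T, C b)
      rwa [mul_zero] at this
    have h3 := (tendsto_order.1 h2).2 (ε / 2) (by linarith)
    filter_upwards [h3, eventually_ge_atTop 3, eventually_ge_atTop T] with X hX1 hX2 hX3
    have hXp : (0 : ℝ) < X := by
      have : 0 < X := by omega
      exact_mod_cast this
    rw [div_lt_iff₀ hXp]
    refine (hmain T X hT1 hX2 hX3).trans_lt ?_
    rw [← add_mul]
    exact mul_lt_mul_of_pos_right (by linarith) hXp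

/-- scaling of one form -/
def lam (c : ℤ) (k : Fin 4) : ℤ := if k = 0 then c else 1

/-- scaling of one form -/
def sc (c : ℤ) (a : Fin 4 → ℤ) : Fin 4 → ℤ := fun k => lam c k * a k

lemma lam_ne {c : ℤ} (hc : c ≠ 0) (k : Fin 4) : lam c k ≠ 0 := by
  unfold lam; split_ifs
  · exact hc
  · exact one_ne_zero

lemma dt_sc (c : ℤ) (a b : Fin 4 → ℤ) (i k : Fin 4) :
    dt (sc c a) (sc c b) i k = lam c i * lam c k * dt a b i k := by
  unfold dt sc; ring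

lemma dt_ne {c : ℤ} (hc : c ≠ 0) {a b : Fin 4 → ℤ} (h : ∀ i k, i ≠ k → dt a b i k ≠ 0) :
    ∀ i k, i ≠ k → dt (sc c a) (sc c b) i k ≠ 0 := by
  intro i k hik
  rw [dt_sc]
  exact mul_ne_zero (mul_ne_zero (lam_ne hc i) (lam_ne hc k)) (h i k hik)

lemma lf_sc (c : ℤ) (a b : Fin 4 → ℤ) (x w : ℚ) (k : Fin 4) :
    (sc c a k : ℚ) * x + (sc c b k : ℚ) * w = lam c k * ((a k : ℚ) * x + (b k : ℚ) * w) := by
  unfold sc; push_cast; ring

lemma prod_sc (c : ℤ) (a b : Fin 4 → ℤ) (x w : ℚ) :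
    ∏ k, ((sc c a k : ℚ) * x + (sc c b k : ℚ) * w) =
      c * ∏ k, ((a k : ℚ) * x + (b k : ℚ) * w) := by
  rw [prod_congr rfl fun k _ => lf_sc c a b x w k, prod_mul_distrib]
  congr 1
  rw [Fin.prod_univ_four]
  simp [lam]

/-- the nonspecial points: almost all `d` -/
theorem dens_pt (h : FINQ) (a b : Fin 4 → ℤ) (hab : ∀ i k, i ≠ k → dt a b i k ≠ 0) :
    Tendsto (fun X : ℕ => ({d : ℤ | d.natAbs ≤ X ∧ d ≠ 0 ∧ Exq.Pt a b d}.ncard : ℝ) / X)
      atTop (𝓝 0) := by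
  refine dens_gen _ fun c hc => ?_
  have hc0 : ((c : ℤ) ^ 2 : ℤ) ≠ 0 := pow_ne_zero 2 (by exact_mod_cast (by omega : c ≠ 0))
  obtain ⟨C, hC⟩ := genq h (sc ((c : ℤ) ^ 2) a) (sc ((c : ℤ) ^ 2) b) (dt_ne hc0 hab)
  refine ⟨C, fun X hX => le_trans ?_ (hC X hX)⟩
  refine Nat.cast_le.2 (Set.ncard_le_ncard ?_ (Exq.fin_le X _))
  rintro d ⟨h1, h2, x, w, y, hy, h3, h4⟩
  have hcq : (c : ℚ) ≠ 0 := by exact_mod_cast (by omega : c ≠ 0)
  refine ⟨h1, h2, x, w, c * y, mul_ne_zero hcq hy, ?_, ?_⟩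
  · rw [prod_sc, ← h3]
    push_cast
    ring
  · intro i
    obtain ⟨k, l, hk, hl, h5⟩ := h4 i
    refine ⟨k, l, hk, hl, fun t ht => h5 t ?_⟩
    rw [lf_sc, lf_sc, dt_sc, dt_sc] at ht
    push_cast at ht
    have hm : (lam ((c : ℤ) ^ 2) i : ℚ) * lam ((c : ℤ) ^ 2) k * lam ((c : ℤ) ^ 2) l ≠ 0 := by
      have := mul_ne_zero (mul_ne_zero (lam_ne hc0 i) (lam_ne hc0 k)) (lam_ne hc0 l)
      exact_mod_cast this
    apply mul_left_cancel₀ hm
    linear_combination ht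

lemma q_sc (c : ℤ) (a b : Fin 4 → ℤ) : qA (sc c a) (sc c b) = c * qA a b ∧
    qB (sc c a) (sc c b) = c * qB a b ∧ qC (sc c a) (sc c b) = c * qC a b := by
  have l0 : lam c 0 = c := rfl
  have l1 : lam c 1 = 1 := rfl
  have l2 : lam c 2 = 1 := rfl
  have l3 : lam c 3 = 1 := rfl
  unfold qA qB qC
  simp only [dt_sc, l0, l1, l2, l3]
  refine ⟨by ring, by ring, by ring⟩

/-- all points with `y ≠ 0` -/
theorem dens_fin (h : FINQ) (a b : Fin 4 → ℤ) (hab : ∀ i k, i ≠ k → dt a b i k ≠ 0)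
    (hF : {p : ℚ × ℚ | p.1 ≠ 0 ∧ p.2 ≠ 0 ∧
      (qA a b : ℚ) * p.1 ^ 4 + (qB a b : ℚ) * p.2 ^ 4 + (qC a b : ℚ) = 0}.Finite) :
    Tendsto (fun X : ℕ => ({d : ℤ | d.natAbs ≤ X ∧ d ≠ 0 ∧ (crv a b d).ncard ≠ 4}.ncard : ℝ) / X)
      atTop (𝓝 0) := by
  refine dens_gen _ fun c hc => ?_
  have hc0 : ((c : ℤ) ^ 2 : ℤ) ≠ 0 := pow_ne_zero 2 (by exact_mod_cast (by omega : c ≠ 0))
  have hcq : (c : ℚ) ≠ 0 := by exact_mod_cast (by omega : c ≠ 0)
  obtain ⟨C, hC⟩ := genq2 h (sc ((c : ℤ) ^ 2) a) (sc ((c : ℤ) ^ 2) b) (dt_ne hc0 hab) (by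
    refine hF.subset ?_
    rintro ⟨s, t⟩ ⟨hs, ht, hst⟩
    refine ⟨hs, ht, ?_⟩
    rw [(q_sc _ a b).1, (q_sc _ a b).2.1, (q_sc _ a b).2.2] at hst
    push_cast at hst
    have h1 : (c : ℚ) ^ 2 * ((qA a b : ℚ) * s ^ 4 + (qB a b : ℚ) * t ^ 4 + (qC a b : ℚ)) = 0 := by
      linear_combination hst
    exact (mul_eq_zero.1 h1).resolve_left (pow_ne_zero 2 hcq))
  refine ⟨C, fun X hX => le_trans ?_ (hC X hX)⟩
  refine Nat.cast_le.2 (Set.ncard_le_ncard ?_ (Exq.fin_le X _))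
  rintro d ⟨h1, h2, h3⟩
  refine ⟨h1, h2, ?_⟩
  by_contra hcon
  apply h3
  refine Exq.crv_card hab ?_
  rintro ⟨x, w, y, hy, h4⟩
  apply hcon
  refine ⟨x, w, c * y, mul_ne_zero hcq hy, ?_⟩
  rw [prod_sc, ← h4]
  push_cast
  ring

end Dens

end Pool.Agent.H53.QT
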