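import Pool.Agent.H53.QT.Defs
import Pool.Graph.R_seed8.W762.RK2.EXP4a
import Pool.Graph.R_seed8.W262.RK.Bas

/-!
# Project QT: Fourier expansion of the conditions (EXPA4)
-/

set_option autoImplicit false

namespace Pool.Agent.H53.QT

open Finset Pool.Agent.W262.RK Pool.Agent.W262.TW Pool.Agent.W762.RK2

namespace Expa

open Classical in
/-- the indicator -/
noncomputable def indc (P : Prop) : ℂ := if P then 1 else 0

lemma rg_dvd {z Y d : ℕ} (h : Rg z d) (hY : d ≤ Y) : d ∣ PP z Y := by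
  have h0 : d ≠ 0 := h.1.ne_zero
  rw [← Nat.prod_primeFactors_of_squarefree h.1]
  unfold PP
  refine Finset.prod_dvd_prod_of_subset _ _ _ fun p hp => ?_
  have hp1 := Nat.prime_of_mem_primeFactors hp
  have hp2 := Nat.dvd_of_mem_primeFactors hp
  exact mem_PS.2 ⟨⟨h.2 p hp1 hp2, (Nat.le_of_dvd (Nat.pos_of_ne_zero h0) hp2).trans hY⟩, hp1⟩

lemma dvd_rg {z Y d : ℕ} (h : d ∣ PP z Y) : Rg z d :=
  ⟨(Pool.Agent.W262.RK.PP_squarefree z Y).squarefree_of_dvd h, fun _ hp hpd =>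
    (mem_PS.1 ((prime_dvd_PP hp).1 (hpd.trans h))).1.1⟩

lemma mem_TP {ι I : Type} [Fintype ι] [DecidableEq ι] (g : ι → I) (R : I → ℕ → Prop)
    (z Y : ℕ) (e : ι → ℕ) :
    e ∈ TP g (fun _ => Rg z) R Y ↔ e ∈ Tup ι z Y ∧ (∏ a, e a ≤ Y ∧
      ∀ i, R i (∏ a ∈ @Finset.filter _ (fun a => g a = i) (Classical.decPred _) univ, e a)) := by
  classical
  unfold TP
  rw [Finset.mem_filter, Fintype.mem_piFinset, Pool.Agent.W108.RK.mem_Tup]
  constructor
  · rintro ⟨h1, h2, h3, h4, h5⟩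
    refine ⟨⟨fun i => rg_dvd (h2 i) (Finset.mem_Icc.1 (h1 i)).2, h3⟩, h4, fun i => ?_⟩
    convert h5 i
  · rintro ⟨⟨h1, h3⟩, h4, h5⟩
    have hpos : ∀ a, 0 < e a := fun a => Nat.pos_of_ne_zero (dvd_rg (h1 a)).1.ne_zero
    refine ⟨fun a => Finset.mem_Icc.2 ⟨hpos a, ?_⟩, fun a => dvd_rg (h1 a), h3, h4, fun i => ?_⟩
    · exact (Nat.le_of_dvd (Finset.prod_pos fun i _ => hpos i)
        (Finset.dvd_prod_of_mem _ (Finset.mem_univ a))).trans h4
    · convert h5 i

lemma sum_TupC {z y : ℕ} {ι : Type} [Fintype ι] [DecidableEq ι] (F : (ι → ℕ) → ℂ) :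
    ∑ d ∈ Tup ι z y, F d = ∑ l : Pr z y → Option ι, F (Dl l) := by
  symm
  refine Finset.sum_bij (fun l _ => Dl l) (fun l _ => Dl_mem l) ?_ ?_ (fun _ _ => rfl)
  · intro l _ l' _ h
    funext p
    refine Option.ext fun i => ?_
    have h1 := congrFun (nb_inj (congrFun h i)) p
    exact decide_eq_decide.1 h1
  · intro d hd
    exact ⟨lab d, Finset.mem_univ _, Dl_lab hd⟩

lemma prod_pfC {z y : ℕ} (b : Pr z y → Bool) (f : ℕ → ℂ) :
    ∏ p ∈ (nb b).primeFactors, f p = ∏ p : Pr z y, if b p = true then f p else 1 := by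
  rw [nb_pf]
  unfold Ts
  rw [Finset.prod_map, Finset.prod_filter]
  rfl

lemma prod_mc {z Y : ℕ} {ι : Type} [Fintype ι] [DecidableEq ι] (b : ι → ℕ → ℂ)
    (m : Pr z Y → Option ι) :
    ∏ a, mc (b a) (Dl m a) = ∏ p : Pr z Y, (m p).elim 1 fun a => b a p := by
  have h1 : ∀ i, mc (b i) (Dl m i) = ∏ p : Pr z Y, if m p = some i then b i p else 1 := by
    intro i
    unfold mc Dl
    rw [prod_pfC _ fun p : ℕ => b i p]
    simp only [decide_eq_true_eq]
  rw [Finset.prod_congr rfl fun i _ => h1 i, Finset.prod_comm]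
  refine Finset.prod_congr rfl fun p _ => ?_
  cases h : m p with
  | none => simp
  | some j => simp

section Main

variable {z Y : ℕ}

/-- the size conditions -/
def SZ (Y : ℕ) (R : Fin 4 → ℕ → Prop) (D : Fin 4 → ℕ) : Prop := ∏ i, D i ≤ Y ∧ ∀ i, R i (D i)

/-- the symbol conditions -/
def SG (W N : ℕ) (κ : Fin 4 → ℤ) (c : Fin 4 → Fin 4 → ℤ) (D : Fin 4 → ℕ) : Prop :=
  ∀ i, ∀ p ∈ (D i).primeFactors, CD W N c (fun k => κ k * D k) i p

lemma cn_eq (z Y W N : ℕ) (κ : Fin 4 → ℤ) (c : Fin 4 → Fin 4 → ℤ) (R : Fin 4 → ℕ → Prop) :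
    (cn z Y W N κ c R : ℂ) = ∑ D ∈ Tup (Fin 4) z Y, indc (SZ Y R D) * indc (SG W N κ c D) := by
  classical
  have h1 : ∀ D : Fin 4 → ℕ, indc (SZ Y R D) * indc (SG W N κ c D) =
      if SZ Y R D ∧ SG W N κ c D then (1 : ℂ) else 0 := by
    intro D
    unfold indc
    by_cases h1 : SZ Y R D <;> by_cases h2 : SG W N κ c D <;> simp [h1, h2]
  rw [Finset.sum_congr rfl fun D _ => h1 D, ← Finset.sum_filter, Finset.sum_const, nsmul_eq_mul,
    mul_one]
  unfold cn
  congr 2
  ext D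
  rw [Finset.mem_filter, Finset.mem_filter, Fintype.mem_piFinset, Pool.Agent.W108.RK.mem_Tup]
  constructor
  · rintro ⟨h1, ⟨-, h2, h3, h4⟩, h5, h6⟩
    exact ⟨⟨fun i => rg_dvd (h2 i) (Finset.mem_Icc.1 (h1 i)).2, h3⟩, ⟨h4, h5⟩, h6⟩
  · rintro ⟨⟨h1, h3⟩, ⟨h4, h2⟩, h5⟩
    have hpos : ∀ a, 0 < D a := fun a => Nat.pos_of_ne_zero (dvd_rg (h1 a)).1.ne_zero
    have hI : ∀ a, D a ∈ Finset.Icc 1 Y := fun a => Finset.mem_Icc.2 ⟨hpos a,
      (Nat.le_of_dvd (Finset.prod_pos fun i _ => hpos i)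
        (Finset.dvd_prod_of_mem _ (Finset.mem_univ a))).trans h4⟩
    exact ⟨hI, ⟨hI, fun a => dvd_rg (h1 a), h3, h4⟩, h2, h5⟩

lemma indc_SG (W N : ℕ) (κ : Fin 4 → ℤ) (c : Fin 4 → Fin 4 → ℤ) (l : Pr z Y → Option (Fin 4)) :
    indc (SG W N κ c (Dl l)) = ∏ p, (l p).elim 1 fun i =>
      indc (CD W N c (fun k => κ k * Dl l k) i p) := by
  classical
  have h1 : SG W N κ c (Dl l) ↔ ∀ p : Pr z Y, ∀ i, l p = some i →
      CD W N c (fun k => κ k * Dl l k) i p := by
    unfold SG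
    constructor
    · intro h p i hp
      refine h i p (Nat.mem_primeFactors.2 ⟨Pr_prime p, ?_, nb_ne_zero _⟩)
      unfold Dl
      rw [dvd_nb]
      exact decide_eq_true hp
    · intro h i q hq
      have hq' : q ∈ Ts fun p => decide (l p = some i) := by
        rw [← nb_pf]
        exact hq
      unfold Ts at hq'
      rw [Finset.mem_map] at hq'
      obtain ⟨p, hp, hpq⟩ := hq'
      have h2 := h p i (of_decide_eq_true (Finset.mem_filter.1 hp).2)
      have h3 : (p : ℕ) = q := hpq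
      rwa [h3] at h2
  by_cases h : SG W N κ c (Dl l)
  · rw [indc, if_pos h]
    symm
    refine Finset.prod_eq_one fun p _ => ?_
    cases hp : l p with
    | none => rfl
    | some i =>
      show indc _ = 1
      rw [indc, if_pos (h1.1 h p i hp)]
  · rw [indc, if_neg h]
    rw [h1] at h
    push Not at h
    obtain ⟨p, i, hp, h2⟩ := h
    symm
    refine Finset.prod_eq_zero (Finset.mem_univ p) ?_
    rw [hp]
    show indc _ = 0
    rw [indc, if_neg h2]

/-- the types -/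
def fo (m : Pr z Y → Option Ix) (p : Pr z Y) : Option (Fin 4) := (m p).map gI

lemma Dl_fog {ι I : Type} [Fintype ι] [DecidableEq ι] [DecidableEq I] (g : ι → I)
    (m : Pr z Y → Option ι) (i : I) :
    ∏ a ∈ univ.filter (fun a : ι => g a = i), Dl m a = Dl (fun p => (m p).map g) i := by
  unfold Dl nb
  rw [Finset.prod_comm]
  refine Finset.prod_congr rfl fun p _ => ?_
  cases h : m p with
  | none => simp [h]
  | some j =>
    simp only [h, Option.map_some]
    by_cases hj : g j = i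
    · rw [Finset.prod_eq_single_of_mem j (Finset.mem_filter.2 ⟨Finset.mem_univ _, hj⟩)]
      · rw [if_pos (decide_eq_true rfl), if_pos (decide_eq_true (by rw [hj]))]
      · intro b _ hb
        rw [if_neg]
        intro h'
        exact hb (Option.some.inj (of_decide_eq_true h')).symm
    · rw [if_neg (fun h' => hj (Option.some.inj (of_decide_eq_true h')))]
      refine Finset.prod_eq_one fun b hb => ?_
      have hb' := (Finset.mem_filter.1 hb).2
      rw [if_neg]
      intro h'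
      have h2 := Option.some.inj (of_decide_eq_true h')
      exact hj (by rw [h2]; exact hb')

lemma Dl_fo (m : Pr z Y → Option Ix) (i : Fin 4) :
    ∏ a ∈ univ.filter (fun a : Ix => gI a = i), Dl m a = Dl (fo m) i := Dl_fog gI m i

lemma SZ_fo (R : Fin 4 → ℕ → Prop) (m : Pr z Y → Option Ix) :
    SZ Y R (Dl (fo m)) ↔ (∏ a, Dl m a ≤ Y ∧
      ∀ i, R i (∏ a ∈ @Finset.filter _ (fun a : Ix => gI a = i) (Classical.decPred _) univ,
        Dl m a)) := by
  unfold SZ
  refine and_congr ?_ (forall_congr' fun i => ?_)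
  · rw [prod_Dl, prod_Dl]
    have : (fun p => (fo m p).isSome) = fun p => (m p).isSome := by
      funext p
      unfold fo
      cases m p <;> rfl
    rw [this]
  · rw [← Dl_fo]
    have : univ.filter (fun a : Ix => gI a = i) =
      @Finset.filter _ (fun a : Ix => gI a = i) (Classical.decPred _) univ := by
      ext a
      simp
    rw [this]

lemma SK_eq {ι I : Type} [Fintype ι] [DecidableEq ι] [Fintype I] [DecidableEq I] (g : ι → I)
    (E : ι → I → ZMod 4) (m : Pr z Y → Option ι) :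
    ∏ a, ∏ b, (if g a = g b then (1 : ℂ) else sy (E a (g b)) (Dl m a) ((Dl m b : ℕ) : ℤ)) =
      ∏ p : Pr z Y, (m p).elim 1 fun a => ∏ k ∈ univ.erase (g a),
        ∏ b ∈ univ.filter (fun b => g b = k), sp (E a k) p ((Dl m b : ℕ) : ℤ) := by
  have h1 : ∀ a, ∏ b, (if g a = g b then (1 : ℂ) else
      sy (E a (g b)) (Dl m a) ((Dl m b : ℕ) : ℤ)) = ∏ p : Pr z Y, if m p = some a then
        ∏ k ∈ univ.erase (g a), ∏ b ∈ univ.filter (fun b => g b = k),
          sp (E a k) p ((Dl m b : ℕ) : ℤ) else 1 := by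
    intro a
    have h2 : ∀ b, (if g a = g b then (1 : ℂ) else
        sy (E a (g b)) (Dl m a) ((Dl m b : ℕ) : ℤ)) = ∏ q ∈ (Dl m a).primeFactors,
          if g a = g b then (1 : ℂ) else sp (E a (g b)) q ((Dl m b : ℕ) : ℤ) := by
      intro b
      split_ifs with h
      · simp
      · rfl
    rw [Finset.prod_congr rfl fun b _ => h2 b, Finset.prod_comm]
    unfold Dl
    rw [prod_pfC _ fun q : ℕ => ∏ b, if g a = g b then (1 : ℂ) else
      sp (E a (g b)) q ((nb (fun p : Pr z Y => decide (m p = some b)) : ℕ) : ℤ)]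
    refine Finset.prod_congr rfl fun p _ => ?_
    simp only [decide_eq_true_eq]
    split_ifs with hp
    · rw [← Finset.prod_fiberwise univ g, ← Finset.prod_erase_mul univ _ (Finset.mem_univ (g a))]
      have h3 : ∏ b ∈ univ.filter (fun b => g b = g a), (if g a = g b then (1 : ℂ) else
          sp (E a (g b)) p ((nb (fun p : Pr z Y => decide (m p = some b)) : ℕ) : ℤ)) = 1 := by
        refine Finset.prod_eq_one fun b hb => ?_
        rw [if_pos (Finset.mem_filter.1 hb).2.symm]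
      rw [h3, mul_one]
      refine Finset.prod_congr rfl fun k hk => Finset.prod_congr rfl fun b hb => ?_
      have hb2 := (Finset.mem_filter.1 hb).2
      rw [if_neg, hb2]
      intro h4
      exact (Finset.mem_erase.1 hk).1 (hb2.symm.trans h4.symm)
    · rfl
  rw [Finset.prod_congr rfl fun a _ => h1 a, Finset.prod_comm]
  refine Finset.prod_congr rfl fun p _ => ?_
  cases h : m p with
  | none => simp
  | some j => simp

/-! ### The characters -/

lemma q4_mul (p : ℕ) (a b : ℤ) : q4 p (a * b) = q4 p a * q4 p b := by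
  unfold q4
  split_ifs with h
  · push_cast
    exact map_mul _ _ _
  · simp

lemma sp_mul (e : ZMod 4) (p : ℕ) (a b : ℤ) : sp e p (a * b) = sp e p a * sp e p b := by
  unfold sp
  split_ifs
  · simp
  · rw [Pool.Agent.W108.RK.Jr_mul_left]
    push_cast
    rfl
  · exact q4_mul p a b
  · rw [q4_mul, map_mul]

lemma q4_one (h : CHI) {p : ℕ} (hp : p.Prime) (h4 : p % 4 = 1) : q4 p 1 = 1 := by
  have h1 := q4_mul p 1 1
  have hnd : ¬ (p : ℤ) ∣ 1 := by
    intro hd
    have := Int.natAbs_dvd_natAbs.2 hd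
    simp at this
    exact hp.one_lt.ne' this
  have h2 := ((h p hp h4).2.2.2.1 1 hnd).2.1
  rw [mul_one] at h1
  have h3 : q4 p 1 ≠ 0 := by
    intro h0
    rw [h0] at h2
    norm_num at h2
  have := mul_left_cancel₀ h3 ((mul_one _).trans h1)
  exact this.symm

lemma sp_one (h : CHI) {p : ℕ} (hp : p.Prime) (e : ZMod 4) (he : e = 0 ∨ e = 2 ∨ p % 4 = 1) :
    sp e p 1 = 1 := by
  unfold sp
  split_ifs with h0 h2 h1
  · rfl
  · rw [Pool.Agent.W108.RK.Jr_one_left]
    norm_num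
  · rw [q4_one h hp (by tauto)]
  · rw [q4_one h hp (by tauto)]
    simp

lemma sp_prod (h : CHI) {p : ℕ} (hp : p.Prime) (e : ZMod 4) (he : e = 0 ∨ e = 2 ∨ p % 4 = 1)
    {α : Type} (s : Finset α) (f : α → ℤ) : sp e p (∏ b ∈ s, f b) = ∏ b ∈ s, sp e p (f b) := by
  classical
  induction s using Finset.induction_on with
  | empty => simp [sp_one h hp e he]
  | insert a s ha ih => rw [Finset.prod_insert ha, Finset.prod_insert ha, sp_mul, ih]

/-- the local factor -/
noncomputable def Gq (W N : ℕ) (κ : Fin 4 → ℤ) (c : Fin 4 → Fin 4 → ℤ)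
    (l : Pr z Y → Option (Fin 4)) (p : Pr z Y) (x : Option Ix) : ℂ :=
  x.elim 1 fun a => bI W N κ c a p * ∏ k ∈ univ.erase (gI a), sp (eI a k) p ((Dl l k : ℕ) : ℤ)

lemma rhs_term (h : CHI) (W N : ℕ) (κ : Fin 4 → ℤ) (c : Fin 4 → Fin 4 → ℤ)
    (m : Pr z Y → Option Ix) :
    (∏ a, mc (bI W N κ c a) (Dl m a)) * SK KK (Dl m) = ∏ p, Gq W N κ c (fo m) p (m p) := by
  have h1 : SK KK (Dl m) = ∏ a : Ix, ∏ b : Ix, (if gI a = gI b then (1 : ℂ) else
    sy (eI a (gI b)) (Dl m a) ((Dl m b : ℕ) : ℤ)) := rfl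
  rw [h1, SK_eq gI eI m, prod_mc, ← Finset.prod_mul_distrib]
  refine Finset.prod_congr rfl fun p _ => ?_
  cases hm : m p with
  | none => simp [Gq]
  | some a =>
    simp only [Gq, Option.elim]
    by_cases hc : cl W N p = cI a
    · refine congrArg (fun t => bI W N κ c a p * t) ?_
      refine Finset.prod_congr rfl fun k _ => ?_
      rw [← Dl_fo, Nat.cast_prod, sp_prod h (Pr_prime p)]
      have hv := a.2
      by_cases h0 : cI a = 0
      · right; right
        rw [h0] at hc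
        unfold cl at hc
        split_ifs at hc with h5 h6
        · exact h5.2
        · exact absurd hc (by decide)
        · exact absurd hc (by decide)
      · rcases hv.2.2 h0 k with h5 | h5
        · exact Or.inl h5
        · exact Or.inr (Or.inl h5)
    · have : bI W N κ c a p = 0 := by
        unfold bI
        rw [if_neg hc]
      rw [this, zero_mul, zero_mul]

lemma sp_conj_mul (e : ZMod 4) (p : ℕ) (a b : ℤ) (t : ℂ) :
    sp e p a * t * sp e p b = sp e p (a * b) * t := by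
  rw [sp_mul]; ring

/-- the exponents of the indices of type `i` and class `cc` -/
def VE (i : Fin 4) (cc : Fin 3) : Finset Ex :=
  univ.filter (fun e => e i = 0 ∧ ∑ k, e k = 0 ∧ (cc ≠ 0 → ∀ k, e k = 0 ∨ e k = 2))

lemma sum_abs {ι : Type} [Fintype ι] [DecidableEq ι] (g : ι → Fin 4) (E : ι → Ex) (C : ι → Fin 3)
    (hv : ∀ a, E a (g a) = 0 ∧ ∑ k, E a k = 0 ∧ (C a ≠ 0 → ∀ k, E a k = 0 ∨ E a k = 2))
    (hinj : ∀ a b, g a = g b → E a = E b → C a = C b → a = b)
    (hsur : ∀ (i : Fin 4) (e : Ex) (cc : Fin 3),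
      (e i = 0 ∧ ∑ k, e k = 0 ∧ (cc ≠ 0 → ∀ k, e k = 0 ∨ e k = 2)) →
      ∃ a, g a = i ∧ E a = e ∧ C a = cc)
    (i : Fin 4) (cc : Fin 3) (F : Ex → ℂ) (G : ι → ℂ)
    (hG : ∀ a, g a = i → G a = if cc = C a then F (E a) else 0) :
    ∑ a ∈ univ.filter (fun a : ι => g a = i), G a = ∑ e ∈ VE i cc, F e := by
  rw [Finset.sum_congr rfl fun a ha => hG a (Finset.mem_filter.1 ha).2, ← Finset.sum_filter]
  refine Finset.sum_bij (fun a _ => E a) ?_ ?_ ?_ (fun _ _ => rfl)
  · intro a ha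
    have h1 := (Finset.mem_filter.1 ha).2
    have h2 := (Finset.mem_filter.1 (Finset.mem_filter.1 ha).1).2
    have hva := hv a
    refine Finset.mem_filter.2 ⟨Finset.mem_univ _, ?_, hva.2.1, ?_⟩
    · rw [← h2]; exact hva.1
    · intro h0; rw [h1] at h0; exact hva.2.2 h0
  · intro a ha b hb hab
    have h1 := (Finset.mem_filter.1 ha).2
    have h2 := (Finset.mem_filter.1 (Finset.mem_filter.1 ha).1).2
    have h3 := (Finset.mem_filter.1 hb).2
    have h4 := (Finset.mem_filter.1 (Finset.mem_filter.1 hb).1).2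
    exact hinj a b (h2.trans h4.symm) hab (h1.symm.trans h3)
  · intro e he
    have h1 := (Finset.mem_filter.1 he).2
    obtain ⟨a, ha1, ha2, ha3⟩ := hsur i e cc h1
    exact ⟨a, Finset.mem_filter.2 ⟨Finset.mem_filter.2 ⟨Finset.mem_univ _, ha1⟩, ha3.symm⟩, ha2⟩

lemma sum_Ix (i : Fin 4) (cc : Fin 3) (F : Ex → ℂ) (G : Ix → ℂ)
    (hG : ∀ a, gI a = i → G a = if cc = cI a then F (eI a) else 0) :
    ∑ a ∈ univ.filter (fun a : Ix => gI a = i), G a = ∑ e ∈ VE i cc, F e := by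
  refine sum_abs gI eI cI (fun a => a.2) ?_ ?_ i cc F G hG
  · intro a b h1 h2 h3
    exact Subtype.ext (Prod.ext h1 (Prod.ext h2 h3))
  · intro i e cc h
    exact ⟨⟨(i, e, cc), h⟩, rfl, rfl, rfl⟩

lemma sum_shift (V : Finset Ex) (ψ : Ex → ℂ) (v : Ex) (w : ℂ) (h1 : ∀ e ∈ V, e + v ∈ V)
    (h2 : ∀ e ∈ V, e - v ∈ V) (h3 : ∀ e ∈ V, ψ (e + v) = w * ψ e) (hw : w ≠ 1) :
    ∑ e ∈ V, ψ e = 0 := by
  have h4 : ∑ e ∈ V, ψ e = w * ∑ e ∈ V, ψ e := by
    rw [Finset.mul_sum]
    symm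
    refine Finset.sum_bij (fun e _ => e + v) h1 ?_ ?_ (fun e he => (h3 e he).symm)
    · intro a _ b _ hab
      exact add_right_cancel hab
    · intro b hb
      exact ⟨b - v, h2 b hb, sub_add_cancel b v⟩
  have h5 : (1 - w) * ∑ e ∈ V, ψ e = 0 := by linear_combination h4
  rcases mul_eq_zero.1 h5 with h6 | h6
  · exact absurd (sub_eq_zero.1 h6).symm hw
  · exact h6

lemma locsum (i : Fin 4) (H : ZMod 4 → Prop) [DecidablePred H] (h0 : H 0)
    (hadd : ∀ x y, H x → H y → H (x + y)) (hneg : ∀ x, H x → H (-x)) (g : ZMod 4) (hg : H g)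
    (hgen : ∀ x, H x → ∃ n : ℕ, x = n * g) (τ : Fin 4 → ZMod 4 → ℂ)
    (hτ : ∀ j, j ≠ i → ∀ x y, H x → H y → τ j (x + y) = τ j x * τ j y)
    (hτ0 : ∀ j, j ≠ i → τ j 0 = 1) (V : Finset Ex)
    (hV : ∀ e, e ∈ V ↔ e i = 0 ∧ ∑ k, e k = 0 ∧ ∀ k, H (e k)) :
    ∑ e ∈ V, ∏ j ∈ univ.erase i, τ j (e j) =
      V.card * indc (∀ k l, k ≠ i → l ≠ i → τ k g = τ l g) := by
  by_cases hc : ∀ k l, k ≠ i → l ≠ i → τ k g = τ l g
  · rw [indc, if_pos hc, mul_one]
    obtain ⟨k0, hk0⟩ : ∃ k0 : Fin 4, k0 ≠ i := exists_ne i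
    have hn : ∀ j, j ≠ i → ∀ n : ℕ, H (n * g) ∧ τ j (n * g) = (τ k0 g) ^ n := by
      intro j hj n
      induction n with
      | zero => simp [h0, hτ0 j hj]
      | succ n ih =>
        have e1 : ((n + 1 : ℕ) : ZMod 4) * g = n * g + g := by push_cast; ring
        rw [e1, hτ j hj _ _ ih.1 hg, ih.2, hc j k0 hj hk0, pow_succ]
        exact ⟨hadd _ _ ih.1 hg, rfl⟩
    have hagree : ∀ j, j ≠ i → ∀ x, H x → τ j x = τ k0 x := by
      intro j hj x hx
      obtain ⟨n, rfl⟩ := hgen x hx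
      rw [(hn j hj n).2, (hn k0 hk0 n).2]
    have key : ∀ s : Finset (Fin 4), ∀ e : Ex, (∀ k, H (e k)) →
        H (∑ k ∈ s, e k) ∧ ∏ j ∈ s, τ k0 (e j) = τ k0 (∑ k ∈ s, e k) := by
      intro s e he
      induction s using Finset.induction_on with
      | empty => simp [h0, hτ0 k0 hk0]
      | insert a s ha ih =>
        rw [Finset.sum_insert ha, Finset.prod_insert ha, ih.2, hτ k0 hk0 _ _ (he a) ih.1]
        exact ⟨hadd _ _ (he a) ih.1, rfl⟩
    rw [Finset.sum_congr rfl (g := fun _ => (1 : ℂ))]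
    · simp
    · intro e he
      obtain ⟨h1, h2, h3⟩ := (hV e).1 he
      rw [Finset.prod_congr rfl fun j hj => hagree j (Finset.mem_erase.1 hj).1 _ (h3 j),
        (key _ e h3).2]
      have h4 : ∑ k ∈ univ.erase i, e k = 0 := by
        have := Finset.sum_erase_add univ e (Finset.mem_univ i)
        rw [h1, add_zero] at this
        rw [this, h2]
      rw [h4, hτ0 k0 hk0]
  · rw [indc, if_neg hc, mul_zero]
    push Not at hc
    obtain ⟨k, l, hk, hl, hkl⟩ := hc
    have hkl' : k ≠ l := by rintro rfl; exact hkl rfl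
    set v : Ex := Pi.single k g - Pi.single l g with hv
    have hvk : v k = g := by simp [hv, Pi.single_eq_of_ne hkl']
    have hvl : v l = -g := by simp [hv, Pi.single_eq_of_ne hkl'.symm]
    have hvo : ∀ j, j ≠ k → j ≠ l → v j = 0 := by
      intro j h1 h2
      simp [hv, Pi.single_eq_of_ne h1, Pi.single_eq_of_ne h2]
    have hvH : ∀ j, H (v j) := by
      intro j
      by_cases h1 : j = k
      · rw [h1, hvk]; exact hg
      · by_cases h2 : j = l
        · rw [h2, hvl]; exact hneg _ hg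
        · rw [hvo j h1 h2]; exact h0
    have hvi : v i = 0 := hvo i (Ne.symm hk) (Ne.symm hl)
    have hvs : ∑ j, v j = 0 := by
      simp [hv, Finset.sum_sub_distrib]
    have hll : τ l g * τ l (-g) = 1 := by
      rw [← hτ l hl _ _ hg (hneg _ hg), add_neg_cancel, hτ0 l hl]
    refine sum_shift V _ v (τ k g * τ l (-g)) ?_ ?_ ?_ ?_
    · intro e he
      obtain ⟨h1, h2, h3⟩ := (hV e).1 he
      refine (hV _).2 ⟨by simp [h1, hvi], ?_, fun j => hadd _ _ (h3 j) (hvH j)⟩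
      simp only [Pi.add_apply, Finset.sum_add_distrib, h2, hvs, add_zero]
    · intro e he
      obtain ⟨h1, h2, h3⟩ := (hV e).1 he
      refine (hV _).2 ⟨by simp [h1, hvi], ?_, fun j => ?_⟩
      · simp only [Pi.sub_apply, Finset.sum_sub_distrib, h2, hvs, sub_zero]
      · rw [Pi.sub_apply, sub_eq_add_neg]
        exact hadd _ _ (h3 j) (hneg _ (hvH j))
    · intro e he
      obtain ⟨h1, h2, h3⟩ := (hV e).1 he
      have h5 : ∏ j ∈ univ.erase i, τ j ((e + v) j) =
          (∏ j ∈ univ.erase i, τ j (v j)) * ∏ j ∈ univ.erase i, τ j (e j) := by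
        rw [← Finset.prod_mul_distrib]
        refine Finset.prod_congr rfl fun j hj => ?_
        rw [Pi.add_apply, hτ j (Finset.mem_erase.1 hj).1 _ _ (h3 j) (hvH j), mul_comm]
      rw [h5]
      congr 1
      rw [← Finset.mul_prod_erase _ _ (Finset.mem_erase.2 ⟨hk, Finset.mem_univ k⟩),
        ← Finset.mul_prod_erase _ _ (Finset.mem_erase.2 ⟨hkl'.symm,
          Finset.mem_erase.2 ⟨hl, Finset.mem_univ l⟩⟩), hvk, hvl, Finset.prod_eq_one, mul_one]
      intro j hj
      have h6 := Finset.mem_erase.1 hj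
      have h7 := Finset.mem_erase.1 h6.2
      have h8 := Finset.mem_erase.1 h7.2
      rw [hvo j h7.1 h6.1, hτ0 j h8.1]
    · intro h9
      apply hkl
      have : τ k g * (τ l g * τ l (-g)) = τ l g := by
        rw [show τ k g * (τ l g * τ l (-g)) = τ l g * (τ k g * τ l (-g)) by ring, h9, mul_one]
      rw [hll, mul_one] at this
      exact this

lemma card_VE (i : Fin 4) (cc : Fin 3) : (VE i cc).card = if cc = 0 then 16 else 4 := by
  revert i cc
  decide +kernel

lemma sp_0 (p : ℕ) (n : ℤ) : sp 0 p n = 1 := by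
  unfold sp; rw [if_pos rfl]

lemma sp_2 (p : ℕ) (n : ℤ) : sp 2 p n = ((Jr n p : ℝ) : ℂ) := by
  unfold sp; rw [if_neg (by decide), if_pos rfl]

lemma sp_1 (p : ℕ) (n : ℤ) : sp 1 p n = q4 p n := by
  unfold sp; rw [if_neg (by decide), if_neg (by decide), if_pos rfl]

lemma sp_3 (p : ℕ) (n : ℤ) : sp 3 p n = (starRingEnd ℂ) (q4 p n) := by
  unfold sp; rw [if_neg (by decide), if_neg (by decide), if_neg (by decide)]

lemma mul_conj_one {t : ℂ} (ht : ‖t‖ = 1) : t * (starRingEnd ℂ) t = 1 := by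
  rw [Complex.mul_conj, Complex.normSq_eq_norm_sq, ht]
  norm_num

lemma conj_eq_cube {t : ℂ} (ht : ‖t‖ = 1) (h4 : t ^ 4 = 1) : (starRingEnd ℂ) t = t ^ 3 := by
  have h1 := mul_conj_one ht
  have h2 : t ≠ 0 := by
    intro h0; rw [h0] at ht; norm_num at ht
  have h3 : t * (starRingEnd ℂ) t = t * t ^ 3 := by
    rw [h1, ← h4]; ring
  exact mul_left_cancel₀ h2 h3

lemma sp_pow (h : CHI) {p : ℕ} (hp : p.Prime) (h4 : p % 4 = 1) {n : ℤ} (hn : ¬ (p : ℤ) ∣ n)
    (x : ZMod 4) : sp x p n = q4 p n ^ x.val := by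
  obtain ⟨h1, h2, h3⟩ := (h p hp h4).2.2.2.1 n hn
  have hx : x = 0 ∨ x = 1 ∨ x = 2 ∨ x = 3 := by
    revert x; decide
  rcases hx with rfl | rfl | rfl | rfl
  · rw [sp_0]
    rfl
  · rw [sp_1]
    have : (1 : ZMod 4).val = 1 := by decide
    rw [this, pow_one]
  · rw [sp_2]
    have : (2 : ZMod 4).val = 2 := by decide
    rw [this, h1]
  · rw [sp_3]
    have : (3 : ZMod 4).val = 3 := by decide
    rw [this, conj_eq_cube h3 h2]

lemma pow_val_add {t : ℂ} (ht : t ^ 4 = 1) (x y : ZMod 4) :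
    t ^ (x + y).val = t ^ x.val * t ^ y.val := by
  rw [ZMod.val_add, ← pow_add]
  exact (pow_eq_pow_mod _ ht).symm

/-- the local terms -/
noncomputable def ta (p : ℕ) (s : Fin 4 → ℤ) (c : Fin 4 → Fin 4 → ℤ) (i j : Fin 4) (x : ZMod 4) :
    ℂ := sp x p (s j) * (starRingEnd ℂ) (sp x p (c i j))

lemma loc0 (h : CHI) {p : ℕ} (hp : p.Prime) (h4 : p % 4 = 1) (s : Fin 4 → ℤ)
    (c : Fin 4 → Fin 4 → ℤ) (i : Fin 4) (hs : ∀ k, k ≠ i → ¬ (p : ℤ) ∣ s k)
    (hc : ∀ k, k ≠ i → ¬ (p : ℤ) ∣ c i k) :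
    ∑ e ∈ VE i 0, ∏ j ∈ univ.erase i, ta p s c i j (e j) = 16 * indc (C4 c s i p) := by
  have hcs : ∀ j, j ≠ i → q4 p (s j) ^ 4 = 1 ∧ ‖q4 p (s j)‖ = 1 := fun j hj =>
    ((h p hp h4).2.2.2.1 _ (hs j hj)).2
  have hcc : ∀ j, j ≠ i → q4 p (c i j) ^ 4 = 1 ∧ ‖q4 p (c i j)‖ = 1 := fun j hj =>
    ((h p hp h4).2.2.2.1 _ (hc j hj)).2
  have hta : ∀ j, j ≠ i → ∀ x, ta p s c i j x =
      (q4 p (s j) * (starRingEnd ℂ) (q4 p (c i j))) ^ x.val := by
    intro j hj x
    unfold ta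
    rw [sp_pow h hp h4 (hs j hj), sp_pow h hp h4 (hc j hj), map_pow, mul_pow]
  have ht4 : ∀ j, j ≠ i → (q4 p (s j) * (starRingEnd ℂ) (q4 p (c i j))) ^ 4 = 1 := by
    intro j hj
    rw [mul_pow, (hcs j hj).1, ← map_pow, (hcc j hj).1]
    simp
  have hcard : ((VE i 0).card : ℂ) = 16 := by
    rw [card_VE, if_pos rfl]; norm_num
  rw [locsum i (fun _ => True) trivial (fun _ _ _ _ => trivial) (fun _ _ => trivial) 1 trivial
    (fun x _ => ⟨x.val, by rw [mul_one, ZMod.natCast_zmod_val]⟩) (ta p s c i) ?_ ?_ (VE i 0) ?_,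
    hcard]
  · congr 1
    have hiff : (∀ k l, k ≠ i → l ≠ i → ta p s c i k 1 = ta p s c i l 1) ↔ C4 c s i p := by
      unfold C4
      refine forall_congr' fun k => forall_congr' fun l => forall_congr' fun hk =>
        forall_congr' fun hl => ?_
      have e1 : ta p s c i k 1 = q4 p (s k) * (starRingEnd ℂ) (q4 p (c i k)) := by
        unfold ta; rw [sp_1, sp_1]
      have e2 : ta p s c i l 1 = q4 p (s l) * (starRingEnd ℂ) (q4 p (c i l)) := by
        unfold ta; rw [sp_1, sp_1]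
      rw [e1, e2]
      have hk1 := mul_conj_one (hcc k hk).2
      have hl1 := mul_conj_one (hcc l hl).2
      constructor
      · intro h5
        linear_combination q4 p (c i k) * q4 p (c i l) * h5 - q4 p (s k) * q4 p (c i l) * hk1 +
          q4 p (s l) * q4 p (c i k) * hl1
      · intro h5
        linear_combination (starRingEnd ℂ) (q4 p (c i k)) * (starRingEnd ℂ) (q4 p (c i l)) * h5 -
          q4 p (s k) * (starRingEnd ℂ) (q4 p (c i k)) * hl1 +
          q4 p (s l) * (starRingEnd ℂ) (q4 p (c i l)) * hk1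
    rw [propext hiff]
  · intro j hj x y _ _
    rw [hta j hj, hta j hj, hta j hj, pow_val_add (ht4 j hj)]
  · intro j hj
    rw [hta j hj]
    simp
  · intro e
    unfold VE
    rw [Finset.mem_filter]
    simp

lemma Jr_sq {p : ℕ} (hp : p.Prime) {n : ℤ} (hn : ¬ (p : ℤ) ∣ n) : Jr n p * Jr n p = 1 := by
  have h1 : jacobiSym n p = 1 ∨ jacobiSym n p = -1 := by
    apply jacobiSym.eq_one_or_neg_one
    rw [Int.gcd_comm]
    have h3 : ¬ (p : ℕ) ∣ n.natAbs := by
      rwa [← Int.natCast_dvd]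
    exact hp.coprime_iff_not_dvd.mpr h3
  unfold Jr
  rcases h1 with h1 | h1 <;> rw [h1] <;> norm_num

lemma loc1 {p : ℕ} (hp : p.Prime) (s : Fin 4 → ℤ) (cc : Fin 3) (hcc : cc ≠ 0)
    (c : Fin 4 → Fin 4 → ℤ) (i : Fin 4) (hs : ∀ k, k ≠ i → ¬ (p : ℤ) ∣ s k)
    (hc : ∀ k, k ≠ i → ¬ (p : ℤ) ∣ c i k) :
    ∑ e ∈ VE i cc, ∏ j ∈ univ.erase i, ta p s c i j (e j) = 4 * indc (C2 c s i p) := by
  have e0 : ∀ j, ta p s c i j 0 = 1 := by
    intro j; unfold ta; rw [sp_0, sp_0]; simp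
  have e2 : ∀ j, ta p s c i j 2 = ((Jr (s j) p * Jr (c i j) p : ℝ) : ℂ) := by
    intro j; unfold ta; rw [sp_2, sp_2]; simp
  have e22 : ∀ j, j ≠ i → ta p s c i j 2 * ta p s c i j 2 = 1 := by
    intro j hj
    rw [e2, ← Complex.ofReal_mul]
    have h1 := Jr_sq hp (hs j hj)
    have h2 := Jr_sq hp (hc j hj)
    have h3 : Jr (s j) p * Jr (c i j) p * (Jr (s j) p * Jr (c i j) p) = 1 := by
      linear_combination (Jr (c i j) p * Jr (c i j) p) * h1 + h2
    rw [h3]
    norm_num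
  have hcard : ((VE i cc).card : ℂ) = 4 := by
    rw [card_VE, if_neg hcc]; norm_num
  rw [locsum i (fun x => x = 0 ∨ x = 2) (Or.inl rfl) (by decide) (by decide) 2 (Or.inr rfl)
    ?_ (ta p s c i) ?_ ?_ (VE i cc) ?_, hcard]
  · congr 1
    have hiff : (∀ k l, k ≠ i → l ≠ i → ta p s c i k 2 = ta p s c i l 2) ↔ C2 c s i p := by
      unfold C2
      refine forall_congr' fun k => forall_congr' fun l => forall_congr' fun hk =>
        forall_congr' fun hl => ?_
      rw [e2, e2, Complex.ofReal_inj]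
      have hk1 := Jr_sq hp (hc k hk)
      have hl1 := Jr_sq hp (hc l hl)
      constructor
      · intro h5
        linear_combination Jr (c i k) p * Jr (c i l) p * h5 - Jr (s k) p * Jr (c i l) p * hk1 +
          Jr (s l) p * Jr (c i k) p * hl1
      · intro h5
        linear_combination Jr (c i k) p * Jr (c i l) p * h5 -
          Jr (s k) p * Jr (c i k) p * hl1 + Jr (s l) p * Jr (c i l) p * hk1
    rw [propext hiff]
  · intro x hx
    rcases hx with rfl | rfl
    · exact ⟨0, by simp⟩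
    · exact ⟨1, by simp⟩
  · intro j hj x y hx hy
    rcases hx with rfl | rfl <;> rcases hy with rfl | rfl
    · rw [add_zero, e0, one_mul]
    · rw [zero_add, e0, one_mul]
    · rw [add_zero, e0, mul_one]
    · rw [e22 j hj]
      have : (2 : ZMod 4) + 2 = 0 := by decide
      rw [this, e0]
  · intro j _
    exact e0 j
  · intro e
    unfold VE
    rw [Finset.mem_filter]
    simp [hcc]

lemma loc (h : CHI) {p : ℕ} (hp : p.Prime) (W N : ℕ) (κ : Fin 4 → ℤ) (c : Fin 4 → Fin 4 → ℤ)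
    (D : Fin 4 → ℕ) (i : Fin 4) (hs : ∀ k, k ≠ i → ¬ (p : ℤ) ∣ κ k * D k)
    (hc : ∀ k, k ≠ i → ¬ (p : ℤ) ∣ c i k) :
    ∑ a ∈ univ.filter (fun a : Ix => gI a = i),
      bI W N κ c a p * ∏ k ∈ univ.erase (gI a), sp (eI a k) p ((D k : ℕ) : ℤ) =
      indc (CD W N c (fun k => κ k * D k) i p) := by
  set w : ℂ := if cl W N p = 0 then 1 / 16 else 1 / 4 with hw
  rw [sum_Ix i (cl W N p) (fun e => w * ∏ j ∈ univ.erase i,
    ta p (fun k => κ k * D k) c i j (e j))]
  · rw [← Finset.mul_sum]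
    unfold CD
    by_cases h0 : cl W N p = 0
    · rw [if_pos h0] at hw
      have h4 : p % 4 = 1 := by
        unfold cl at h0
        split_ifs at h0 with h5 h6
        · exact h5.2
        · exact absurd h0 (by decide)
        · exact absurd h0 (by decide)
      rw [if_pos h0, h0, loc0 h hp h4 _ c i hs hc, hw]
      ring
    · rw [if_neg h0] at hw
      rw [if_neg h0, loc1 hp _ _ h0 c i hs hc, hw]
      ring
  · intro a ha
    unfold bI
    rw [ha]
    by_cases h0 : cl W N p = cI a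
    · rw [if_pos h0, if_pos h0, mul_assoc, ← Finset.prod_mul_distrib]
      congr 1
      · rw [hw]
        unfold wI
        rw [h0]
        split_ifs <;> norm_num
      · refine Finset.prod_congr rfl fun k _ => ?_
        unfold ta
        rw [sp_conj_mul]
    · rw [if_neg h0, if_neg h0, zero_mul]

lemma sum_Gq (h : CHI) (W N : ℕ) (κ : Fin 4 → ℤ) (c : Fin 4 → Fin 4 → ℤ)
    (l : Pr z Y → Option (Fin 4)) (p : Pr z Y) (hκ : ∀ k, ¬ ((p : ℕ) : ℤ) ∣ κ k)
    (hc : ∀ i k, k ≠ i → ¬ ((p : ℕ) : ℤ) ∣ c i k) :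
    ∑ x ∈ univ.filter (fun x : Option Ix => x.map gI = l p), Gq W N κ c l p x =
      (l p).elim 1 fun i => indc (CD W N c (fun k => κ k * Dl l k) i p) := by
  rw [Finset.sum_filter, Fintype.sum_option]
  cases hx : l p with
  | none => simp [Gq]
  | some i =>
    rw [if_neg (by simp), zero_add]
    show _ = indc (CD W N c (fun k => κ k * Dl l k) i p)
    rw [← loc h (Pr_prime p) W N κ c (Dl l) i ?_ (hc i), Finset.sum_filter]
    · refine Finset.sum_congr rfl fun a _ => ?_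
      simp only [Option.map_some, Option.some.injEq]
      rfl
    · intro k hk h
      have hp := Pr_prime p
      rcases (Nat.prime_iff_prime_int.1 hp).dvd_or_dvd h with h | h
      · exact hκ k h
      · rw [Int.natCast_dvd_natCast] at h
        unfold Dl at h
        rw [dvd_nb] at h
        have h2 := of_decide_eq_true h
        rw [hx] at h2
        exact hk (Option.some.inj h2).symm

end Main

lemma fiber_assembly (h : CHI) (z Y W N : ℕ) (κ : Fin 4 → ℤ) (c : Fin 4 → Fin 4 → ℤ)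
    (R : Fin 4 → ℕ → Prop) (hκ : ∀ k, ∀ p : ℕ, p.Prime → (p : ℤ) ∣ κ k → p ≤ z)
    (hc : ∀ i k, i ≠ k → ∀ p : ℕ, p.Prime → (p : ℤ) ∣ c i k → p ≤ z) :
    ∑ l : Pr z Y → Option (Fin 4), indc (SZ Y R (Dl l)) * indc (SG W N κ c (Dl l)) =
      ∑ m : Pr z Y → Option Ix, indc (SZ Y R (Dl (fo m))) *
        ((∏ a, mc (bI W N κ c a) (Dl m a)) * SK KK (Dl m)) := by
  rw [← Finset.sum_fiberwise univ (fun (m : Pr z Y → Option Ix) => fo m)]
  refine Finset.sum_congr rfl fun l _ => ?_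
  have h1 : (univ.filter fun m : Pr z Y → Option Ix => fo m = l) =
      Fintype.piFinset (fun p => univ.filter (fun x : Option Ix => x.map gI = l p)) := by
    ext m
    simp only [Finset.mem_filter, Finset.mem_univ, true_and, Fintype.mem_piFinset, funext_iff]
    rfl
  have hk : ∀ p : Pr z Y, ∀ k, ¬ ((p : ℕ) : ℤ) ∣ κ k := by
    intro p k hd
    have h2 := (mem_PS.1 p.2).1.1
    have h3 := hκ k p (Pr_prime p) hd
    omega
  have hk2 : ∀ p : Pr z Y, ∀ i k, k ≠ i → ¬ ((p : ℕ) : ℤ) ∣ c i k := by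
    intro p i k hik hd
    have h2 := (mem_PS.1 p.2).1.1
    have h3 := hc i k hik.symm p (Pr_prime p) hd
    omega
  rw [indc_SG, Finset.prod_congr rfl fun p _ => (sum_Gq h W N κ c l p (hk p) (hk2 p)).symm,
    Finset.prod_univ_sum, ← h1, Finset.mul_sum]
  refine Finset.sum_congr rfl fun m hm => ?_
  have hm' : fo m = l := (Finset.mem_filter.1 hm).2
  rw [rhs_term h, hm']

end Expa

open Expa in
theorem expa4 (h : CHI) : EXPA4 := by
  intro z Y W N κ c R hz hκ hc
  classical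
  have hR : ∑ e ∈ TP gI (fun _ => Rg z) R Y, (∏ a, mc (bI W N κ c a) (e a)) * SK KK e =
      ∑ e ∈ Tup Ix z Y, indc (∏ a, e a ≤ Y ∧
      ∀ i, R i (∏ a ∈ @Finset.filter _ (fun a : Ix => gI a = i) (Classical.decPred _) univ,
        e a)) * ((∏ a, mc (bI W N κ c a) (e a)) * SK KK e) := by
    have h1 : TP gI (fun _ => Rg z) R Y = (Tup Ix z Y).filter
        (fun e => ∏ a, e a ≤ Y ∧
          ∀ i, R i (∏ a ∈ @Finset.filter _ (fun a : Ix => gI a = i) (Classical.decPred _) univ,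
            e a)) := by
      ext e
      rw [mem_TP, Finset.mem_filter]
    rw [h1, Finset.sum_filter]
    refine Finset.sum_congr rfl fun e _ => ?_
    unfold indc
    split_ifs <;> simp
  rw [hR, cn_eq, sum_TupC, sum_TupC, fiber_assembly h z Y W N κ c R hκ hc]
  refine Fintype.sum_congr _ _ fun m => ?_
  rw [propext (SZ_fo R m)]

end Pool.Agent.H53.QT

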