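import Pool.Agent.H53.QT.Defs
import Pool.Graph.R_seed8.Helper653.CubFermat

/-!
# Project QT: rational points, and the example `d y⁴ = x³ - x`
-/

set_option autoImplicit false

namespace Pool.Agent.H53.QT

open Finset

namespace Exq

lemma fin_le (X : ℕ) (P : ℤ → Prop) : {d : ℤ | d.natAbs ≤ X ∧ P d}.Finite := by
  refine (Set.finite_Icc (-(X : ℤ)) X).subset ?_
  rintro d ⟨h, -⟩
  rw [Set.mem_Icc]
  omega

/-- coprime coordinates -/
lemma scale {x w : ℚ} (h : x ≠ 0 ∨ w ≠ 0) : ∃ (r : ℚ) (x' w' : ℤ), r ≠ 0 ∧ IsCoprime x' w' ∧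
    x = r * x' ∧ w = r * w' := by
  by_cases hw : w = 0
  · have hx : x ≠ 0 := by
      rcases h with h | h
      · exact h
      · exact absurd hw h
    exact ⟨x, 1, 0, hx, isCoprime_one_left, by simp, by simp [hw]⟩
  · refine ⟨w / (x / w).den, (x / w).num, (x / w).den, ?_, ?_, ?_, ?_⟩
    · exact div_ne_zero hw (by exact_mod_cast (x / w).den_nz)
    · rw [Int.isCoprime_iff_gcd_eq_one]
      exact (x / w).reduced
    · have h1 : ((x / w).num : ℚ) = (x / w) * (x / w).den := (Rat.mul_den_eq_num _).symm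
      have h2 : ((x / w).den : ℚ) ≠ 0 := by exact_mod_cast (x / w).den_nz
      rw [h1]
      field_simp
    · have h2 : ((x / w).den : ℚ) ≠ 0 := by exact_mod_cast (x / w).den_nz
      push_cast
      field_simp

/-- `d y⁴` integral, `d` squarefree: `y` is integral -/
lemma int_y {d N : ℤ} (hd : Squarefree d) {y : ℚ} (h : (d : ℚ) * y ^ 4 = N) :
    ∃ y' : ℤ, y = y' := by
  have h2 : (y.den : ℚ) ≠ 0 := by exact_mod_cast y.den_nz
  have h1 : d * y.num ^ 4 = N * (y.den : ℤ) ^ 4 := by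
    have h3 : (d : ℚ) * (y.num : ℚ) ^ 4 = N * (y.den : ℚ) ^ 4 := by
      rw [← Rat.mul_den_eq_num y, ← h]
      ring
    exact_mod_cast h3
  have hc : IsCoprime ((y.den : ℤ) ^ 4) (y.num ^ 4) := by
    apply IsCoprime.pow
    rw [isCoprime_comm, Int.isCoprime_iff_gcd_eq_one]
    exact y.reduced
  have h4 : ((y.den : ℤ) ^ 4) ∣ d := hc.dvd_of_dvd_mul_right (Dvd.intro_left N h1.symm)
  have h5 : (y.den : ℤ) * (y.den : ℤ) ∣ d := by
    refine dvd_trans ?_ h4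
    exact ⟨(y.den : ℤ) ^ 2, by ring⟩
  have h6 := hd _ h5
  have h7 : y.den = 1 := by
    have := Int.isUnit_iff_natAbs_eq.1 h6
    simpa using this
  exact ⟨y.num, by
    have := Rat.mul_den_eq_num y
    rw [h7] at this
    simpa using this⟩

/-- a rational point whose type is not constant -/
def Pt (a b : Fin 4 → ℤ) (d : ℤ) : Prop := ∃ x w y : ℚ, y ≠ 0 ∧
  (d : ℚ) * y ^ 4 = ∏ k, ((a k : ℚ) * x + (b k : ℚ) * w) ∧
  ∀ i, ∃ k l, k ≠ i ∧ l ≠ i ∧ ∀ t : ℚ, ((a k : ℚ) * x + (b k : ℚ) * w) * (dt a b i l : ℤ) ≠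
    ((a l : ℚ) * x + (b l : ℚ) * w) * (dt a b i k : ℤ) * t ^ 4

lemma pt_bad {a b : Fin 4 → ℤ} {d : ℤ} (hd : Squarefree d) (h : Pt a b d) : Bad a b d := by
  obtain ⟨x, w, y, hy, h1, h2⟩ := h
  have hd0 : (d : ℚ) ≠ 0 := by exact_mod_cast hd.ne_zero
  have hxw : x ≠ 0 ∨ w ≠ 0 := by
    by_contra hc
    push Not at hc
    have h3 : (d : ℚ) * y ^ 4 ≠ 0 := mul_ne_zero hd0 (pow_ne_zero 4 hy)
    apply h3
    rw [h1]
    exact Finset.prod_eq_zero (Finset.mem_univ 0) (by rw [hc.1, hc.2]; ring)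
  obtain ⟨r, x', w', hr, hc, rfl, rfl⟩ := scale hxw
  have h3 : ∀ k, (a k : ℚ) * (r * x') + (b k : ℚ) * (r * w') =
      r * ((a k * x' + b k * w' : ℤ) : ℚ) := by
    intro k
    push_cast
    ring
  have h4 : (d : ℚ) * (y / r) ^ 4 = ((∏ k, (a k * x' + b k * w') : ℤ) : ℚ) := by
    have h5 : ∏ k : Fin 4, ((a k : ℚ) * (r * x') + (b k : ℚ) * (r * w')) =
        r ^ 4 * ((∏ k, (a k * x' + b k * w') : ℤ) : ℚ) := by
      rw [Finset.prod_congr rfl fun k _ => h3 k, Finset.prod_mul_distrib, Finset.prod_const,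
        Finset.card_univ, Fintype.card_fin, Int.cast_prod]
    rw [div_pow, ← mul_div_assoc, h1, h5]
    field_simp
  obtain ⟨y', hy'⟩ := int_y hd h4
  refine ⟨x', w', y', hc, ?_, ?_, ?_⟩
  · rintro rfl
    rw [Int.cast_zero, div_eq_zero_iff] at hy'
    rcases hy' with h | h
    · exact hy h
    · exact hr h
  · rw [hy'] at h4
    exact_mod_cast h4
  · intro i
    obtain ⟨k, l, hk, hl, h6⟩ := h2 i
    refine ⟨k, l, hk, hl, ?_⟩
    rintro ⟨u, v, hu, hv, huv⟩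
    apply h6 ((u / v : ℚ)⁻¹)
    have hu' : (u : ℚ) ≠ 0 := by exact_mod_cast hu
    have hv' : (v : ℚ) ≠ 0 := by exact_mod_cast hv
    have h7 : ((a k * x' + b k * w' : ℤ) : ℚ) * (dt a b i l : ℤ) * u ^ 4 =
        ((a l * x' + b l * w' : ℤ) : ℚ) * (dt a b i k : ℤ) * v ^ 4 := by exact_mod_cast huv
    rw [h3, h3]
    field_simp
    linear_combination h7

end Exq

/-- the rational points whose type is not constant -/
theorem genq (h : FINQ) : ∀ a b : Fin 4 → ℤ, (∀ i k, i ≠ k → dt a b i k ≠ 0) →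
    ∃ C : ℝ, ∀ X : ℕ, 3 ≤ X →
    ({d : ℤ | d.natAbs ≤ X ∧ Squarefree d ∧ ∃ x w y : ℚ, y ≠ 0 ∧
      (d : ℚ) * y ^ 4 = ∏ k, ((a k : ℚ) * x + (b k : ℚ) * w) ∧
      ∀ i, ∃ k l, k ≠ i ∧ l ≠ i ∧ ∀ t : ℚ, ((a k : ℚ) * x + (b k : ℚ) * w) * (dt a b i l : ℤ) ≠
        ((a l : ℚ) * x + (b l : ℚ) * w) * (dt a b i k : ℤ) * t ^ 4}.ncard : ℝ) ≤
      C * X * (Real.log X) ^ (-(1 / 100 : ℝ)) := by
  intro a b hab
  obtain ⟨C, hC⟩ := h a b hab
  refine ⟨C, fun X hX => le_trans ?_ (hC X hX)⟩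
  refine Nat.cast_le.2 (Set.ncard_le_ncard ?_ (Exq.fin_le X _))
  rintro d ⟨h1, h2, h3⟩
  exact ⟨h1, h2, Exq.pt_bad h2 h3⟩

namespace Exq

lemma fermat2 {t s : ℚ} (ht : t ≠ 0) (hs : s ≠ 0) (h : t ^ 4 + s ^ 4 = 2) : t ^ 4 = s ^ 4 := by
  have ht1 : (t.den : ℚ) ≠ 0 := by exact_mod_cast t.den_nz
  have hs1 : (s.den : ℚ) ≠ 0 := by exact_mod_cast s.den_nz
  set p : ℤ := t.num * s.den with hp
  set q : ℤ := s.num * t.den with hq
  set D : ℤ := t.den * s.den with hD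
  have hDq : (D : ℚ) ≠ 0 := by
    rw [hD]; push_cast; exact mul_ne_zero ht1 hs1
  have hpq : (p : ℚ) = t * D := by
    rw [hp, hD]
    push_cast
    rw [← Rat.mul_den_eq_num t]
    ring
  have hqq : (q : ℚ) = s * D := by
    rw [hq, hD]
    push_cast
    rw [← Rat.mul_den_eq_num s]
    ring
  have h1 : p ^ 4 + q ^ 4 = 2 * D ^ 4 := by
    have : (p : ℚ) ^ 4 + (q : ℚ) ^ 4 = 2 * (D : ℚ) ^ 4 := by
      rw [hpq, hqq]
      linear_combination (D : ℚ) ^ 4 * h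
    exact_mod_cast this
  have h2 : (2 * D ^ 2) ^ 4 - (2 * (p * q)) ^ 4 = (2 * (p ^ 4 - q ^ 4)) ^ 2 := by
    linear_combination (-4 * (p ^ 4 + q ^ 4) - 8 * D ^ 4) * h1
  rcases cub_fermat_sub _ _ _ h2 with h3 | h3
  · exfalso
    have h4 : p * q = 0 := by omega
    have h5 : (p : ℚ) * q = 0 := by exact_mod_cast h4
    rw [hpq, hqq] at h5
    rcases mul_eq_zero.1 h5 with h6 | h6
    · exact (mul_ne_zero ht hDq) h6
    · exact (mul_ne_zero hs hDq) h6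
  · have h4 : p ^ 4 - q ^ 4 = 0 := by omega
    have h5 : (p : ℚ) ^ 4 - (q : ℚ) ^ 4 = 0 := by exact_mod_cast h4
    rw [hpq, hqq] at h5
    have h6 : (D : ℚ) ^ 4 * (t ^ 4 - s ^ 4) = 0 := by linear_combination h5
    rcases mul_eq_zero.1 h6 with h7 | h7
    · exact absurd h7 (pow_ne_zero 4 hDq)
    · linear_combination h7

lemma ap {A B C t s : ℚ} (hA : A ≠ 0) (hB : B ≠ 0) (hC : C ≠ 0) (h : A + B = 2 * C)
    (h1 : A = C * t ^ 4) (h2 : B = C * s ^ 4) : A = B := by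
  have ht : t ≠ 0 := by
    rintro rfl
    apply hA
    rw [h1]; ring
  have hs : s ≠ 0 := by
    rintro rfl
    apply hB
    rw [h2]; ring
  have h3 : t ^ 4 + s ^ 4 = 2 := by
    have h4 : C * (t ^ 4 + s ^ 4) = C * 2 := by
      rw [mul_add, ← h1, ← h2, h]; ring
    exact mul_left_cancel₀ hC h4
  rw [h1, h2, fermat2 ht hs h3]

/-- the linear forms of `x³ - x` -/
def aa : Fin 4 → ℤ := ![1, 1, 1, 0]

/-- the linear forms of `x³ - x` -/
def bb : Fin 4 → ℤ := ![0, -1, 1, 1]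

lemma ab_ne : ∀ i k, i ≠ k → dt aa bb i k ≠ 0 := by decide

lemma pt_of {d : ℤ} (hd : Squarefree d) {x y : ℚ} (hy : y ≠ 0)
    (h : (d : ℚ) * y ^ 4 = x ^ 3 - x) : Pt aa bb d := by
  have hd0 : (d : ℚ) ≠ 0 := by exact_mod_cast hd.ne_zero
  have h0 : x * (x - 1) * (x + 1) ≠ 0 := by
    have : x * (x - 1) * (x + 1) = (d : ℚ) * y ^ 4 := by rw [h]; ring
    rw [this]
    exact mul_ne_zero hd0 (pow_ne_zero 4 hy)
  have hx0 : x ≠ 0 := by
    rintro rfl; simp at h0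
  have hx1 : x - 1 ≠ 0 := by
    intro h1; rw [h1] at h0; simp at h0
  have hx2 : x + 1 ≠ 0 := by
    intro h1; rw [h1] at h0; simp at h0
  have e0 : ((aa 0 : ℤ) : ℚ) * x + ((bb 0 : ℤ) : ℚ) * 1 = x := by simp [aa, bb]
  have e1 : ((aa 1 : ℤ) : ℚ) * x + ((bb 1 : ℤ) : ℚ) * 1 = x - 1 := by simp [aa, bb]; ring
  have e2 : ((aa 2 : ℤ) : ℚ) * x + ((bb 2 : ℤ) : ℚ) * 1 = x + 1 := by simp [aa, bb]
  have e3 : ((aa 3 : ℤ) : ℚ) * x + ((bb 3 : ℤ) : ℚ) * 1 = 1 := by simp [aa, bb]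
  refine ⟨x, 1, y, hy, ?_, ?_⟩
  · rw [Fin.prod_univ_four, e0, e1, e2, e3, h]
    ring
  · intro i
    by_contra hc
    push Not at hc
    fin_cases i
    · -- `i = 0`
      obtain ⟨t, ht⟩ := hc 1 3 (by decide) (by decide)
      obtain ⟨s, hs⟩ := hc 2 3 (by decide) (by decide)
      have c1 : dt aa bb 0 1 = -1 := by decide
      have c2 : dt aa bb 0 2 = 1 := by decide
      have c3 : dt aa bb 0 3 = 1 := by decide
      change _ * ((dt aa bb 0 3 : ℤ) : ℚ) = _ * ((dt aa bb 0 1 : ℤ) : ℚ) * t ^ 4 at ht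
      change _ * ((dt aa bb 0 3 : ℤ) : ℚ) = _ * ((dt aa bb 0 2 : ℤ) : ℚ) * s ^ 4 at hs
      rw [e1, e3, c1, c3] at ht
      rw [e2, e3, c2, c3] at hs
      push_cast at ht hs
      have := ap (A := 1 - x) (B := x + 1) (C := 1) (t := t) (s := s)
        (fun h => hx1 (by linear_combination -h)) hx2 one_ne_zero (by ring)
        (by linear_combination -ht) (by linear_combination hs)
      exact hx0 (by linear_combination -(1 / 2 : ℚ) * this)
    · -- `i = 1`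
      obtain ⟨t, ht⟩ := hc 0 2 (by decide) (by decide)
      obtain ⟨s, hs⟩ := hc 3 2 (by decide) (by decide)
      have c0 : dt aa bb 1 0 = 1 := by decide
      have c2 : dt aa bb 1 2 = 2 := by decide
      have c3 : dt aa bb 1 3 = 1 := by decide
      change _ * ((dt aa bb 1 2 : ℤ) : ℚ) = _ * ((dt aa bb 1 0 : ℤ) : ℚ) * t ^ 4 at ht
      change _ * ((dt aa bb 1 2 : ℤ) : ℚ) = _ * ((dt aa bb 1 3 : ℤ) : ℚ) * s ^ 4 at hs
      rw [e0, e2, c0, c2] at ht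
      rw [e3, e2, c3, c2] at hs
      push_cast at ht hs
      have := ap (A := x) (B := 1) (C := (x + 1) / 2) (t := t) (s := s)
        hx0 one_ne_zero (div_ne_zero hx2 two_ne_zero) (by ring)
        (by linear_combination (1 / 2 : ℚ) * ht) (by linear_combination (1 / 2 : ℚ) * hs)
      exact hx1 (by linear_combination this)
    · -- `i = 2`
      obtain ⟨t, ht⟩ := hc 0 1 (by decide) (by decide)
      obtain ⟨s, hs⟩ := hc 3 1 (by decide) (by decide)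
      have c0 : dt aa bb 2 0 = -1 := by decide
      have c1 : dt aa bb 2 1 = -2 := by decide
      have c3 : dt aa bb 2 3 = 1 := by decide
      change _ * ((dt aa bb 2 1 : ℤ) : ℚ) = _ * ((dt aa bb 2 0 : ℤ) : ℚ) * t ^ 4 at ht
      change _ * ((dt aa bb 2 1 : ℤ) : ℚ) = _ * ((dt aa bb 2 3 : ℤ) : ℚ) * s ^ 4 at hs
      rw [e0, e1, c0, c1] at ht
      rw [e3, e1, c3, c1] at hs
      push_cast at ht hs
      have := ap (A := -x) (B := 1) (C := (1 - x) / 2) (t := t) (s := s)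
        (neg_ne_zero.2 hx0) one_ne_zero
        (div_ne_zero (fun h => hx1 (by linear_combination -h)) two_ne_zero) (by ring)
        (by linear_combination (1 / 2 : ℚ) * ht) (by linear_combination -(1 / 2 : ℚ) * hs)
      exact hx2 (by linear_combination -this)
    · -- `i = 3`
      obtain ⟨t, ht⟩ := hc 1 0 (by decide) (by decide)
      obtain ⟨s, hs⟩ := hc 2 0 (by decide) (by decide)
      have c0 : dt aa bb 3 0 = -1 := by decide
      have c1 : dt aa bb 3 1 = -1 := by decide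
      have c2 : dt aa bb 3 2 = -1 := by decide
      change _ * ((dt aa bb 3 0 : ℤ) : ℚ) = _ * ((dt aa bb 3 1 : ℤ) : ℚ) * t ^ 4 at ht
      change _ * ((dt aa bb 3 0 : ℤ) : ℚ) = _ * ((dt aa bb 3 2 : ℤ) : ℚ) * s ^ 4 at hs
      rw [e0, e1, c0, c1] at ht
      rw [e0, e2, c0, c2] at hs
      push_cast at ht hs
      have := ap (A := x - 1) (B := x + 1) (C := x) (t := t) (s := s)
        hx1 hx2 hx0 (by ring) (by linear_combination -ht) (by linear_combination -hs)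
      exact absurd this (by intro h; have : (2 : ℚ) = 0 := by linear_combination -h
                            norm_num at this)

end Exq

/-- almost all the curves `d y⁴ = x³ - x` have no rational point with `y ≠ 0` -/
theorem exq (h : FINQ) : ∃ C : ℝ, ∀ X : ℕ, 3 ≤ X →
    ({d : ℤ | d.natAbs ≤ X ∧ Squarefree d ∧
      ∃ x y : ℚ, y ≠ 0 ∧ (d : ℚ) * y ^ 4 = x ^ 3 - x}.ncard : ℝ) ≤
      C * X * (Real.log X) ^ (-(1 / 100 : ℝ)) := by
  obtain ⟨C, hC⟩ := genq h Exq.aa Exq.bb Exq.ab_ne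
  refine ⟨C, fun X hX => le_trans ?_ (hC X hX)⟩
  refine Nat.cast_le.2 (Set.ncard_le_ncard ?_ (Exq.fin_le X _))
  rintro d ⟨h1, h2, x, y, h3, h4⟩
  exact ⟨h1, h2, Exq.pt_of h2 h3 h4⟩

end Pool.Agent.H53.QT
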