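import Pool.Agent.H53.QT.Exq

/-!
# Project QT: curves with exactly four rational points
-/

set_option autoImplicit false

namespace Pool.Agent.H53.QT

open Finset

/-- the first coefficient of the diagonal quartic -/
def qA (a b : Fin 4 → ℤ) : ℤ := dt a b 0 1 * dt a b 2 3

/-- the second coefficient of the diagonal quartic -/
def qB (a b : Fin 4 → ℤ) : ℤ := dt a b 0 2 * dt a b 3 1

/-- the third coefficient of the diagonal quartic -/
def qC (a b : Fin 4 → ℤ) : ℤ := dt a b 0 3 * dt a b 1 2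

/-- the rational points of the plane quartic `d y⁴ = ∏ k, (a k x + b k w)` -/
def crv (a b : Fin 4 → ℤ) (d : ℤ) : Set (Projectivization ℚ (Fin 3 → ℚ)) :=
  {P | (d : ℚ) * P.rep 2 ^ 4 = ∏ k, ((a k : ℚ) * P.rep 0 + (b k : ℚ) * P.rep 1)}

namespace Exq

lemma sum_eq (a b : Fin 4 → ℤ) : qA a b + qB a b + qC a b = 0 := by
  unfold qA qB qC dt
  ring

/-- the linear forms -/
def lf (a b : Fin 4 → ℤ) (x w : ℚ) (k : Fin 4) : ℚ := (a k : ℚ) * x + (b k : ℚ) * w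

/-- the indices -/
def k1 : Fin 4 → Fin 4 := ![1, 0, 3, 2]

/-- the indices -/
def k2 : Fin 4 → Fin 4 := ![2, 3, 0, 1]

/-- the indices -/
def k3 : Fin 4 → Fin 4 := ![3, 2, 1, 0]

lemma kne : ∀ i, k1 i ≠ i ∧ k2 i ≠ i ∧ k3 i ≠ i ∧ k1 i ≠ k3 i := by decide

lemma eqA (a b : Fin 4 → ℤ) (i : Fin 4) : qA a b = dt a b i (k1 i) * dt a b (k2 i) (k3 i) := by
  fin_cases i <;> simp [qA, dt, k1, k2, k3] <;> ring

lemma eqB (a b : Fin 4 → ℤ) (i : Fin 4) : qB a b = dt a b i (k2 i) * dt a b (k3 i) (k1 i) := by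
  fin_cases i <;> simp [qB, dt, k1, k2, k3] <;> ring

lemma eqC (a b : Fin 4 → ℤ) (i : Fin 4) : qC a b = dt a b i (k3 i) * dt a b (k1 i) (k2 i) := by
  fin_cases i <;> simp [qC, dt, k1, k2, k3] <;> ring

lemma sq_eq {d d' : ℤ} (hd : Squarefree d) (hd' : Squarefree d') {u v : ℚ} (hu : u ≠ 0)
    (hv : v ≠ 0) (h : (d : ℚ) * u ^ 4 = d' * v ^ 4) : d = d' := by
  have h1 : (d : ℚ) * (u / v) ^ 4 = (d' : ℤ) := by
    rw [div_pow, ← mul_div_assoc, h]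
    field_simp
  have h2 : (d' : ℚ) * (v / u) ^ 4 = (d : ℤ) := by
    rw [div_pow, ← mul_div_assoc, ← h]
    field_simp
  obtain ⟨n, hn⟩ := int_y hd h1
  obtain ⟨m, hm⟩ := int_y hd' h2
  have h3 : n * m = 1 := by
    have : (n : ℚ) * m = 1 := by
      rw [← hn, ← hm]
      field_simp
    exact_mod_cast this
  have h4 : n = 1 ∨ n = -1 := Int.isUnit_iff.1 (IsUnit.of_mul_eq_one _ h3)
  rw [hn] at h1
  have h5 : d * n ^ 4 = d' := by exact_mod_cast h1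
  rw [← h5]
  rcases h4 with rfl | rfl <;> ring

/-- the exceptional `d` of type `i` given by the point `(s, t)` of the diagonal quartic -/
def Di (a b : Fin 4 → ℤ) (i : Fin 4) (s : ℚ) : Set ℤ :=
  {d | Squarefree d ∧ ∃ x w y : ℚ, y ≠ 0 ∧ (d : ℚ) * y ^ 4 = ∏ k, lf a b x w k ∧
    lf a b x w (k1 i) * (dt a b i (k3 i) : ℤ) = lf a b x w (k3 i) * (dt a b i (k1 i) : ℤ) * s ^ 4}

lemma lf_ne {a b : Fin 4 → ℤ} {d : ℤ} (hd : Squarefree d) {x w y : ℚ} (hy : y ≠ 0)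
    (h : (d : ℚ) * y ^ 4 = ∏ k, lf a b x w k) (k : Fin 4) : lf a b x w k ≠ 0 := by
  have hd0 : (d : ℚ) ≠ 0 := by exact_mod_cast hd.ne_zero
  have h1 : ∏ k, lf a b x w k ≠ 0 := by
    rw [← h]; exact mul_ne_zero hd0 (pow_ne_zero 4 hy)
  exact (Finset.prod_ne_zero_iff.1 h1) k (Finset.mem_univ k)

lemma Di_sub {a b : Fin 4 → ℤ} (hab : ∀ i k, i ≠ k → dt a b i k ≠ 0) (i : Fin 4) (s : ℚ) :
    (Di a b i s).Subsingleton := by
  rintro d ⟨hd, x, w, y, hy, h1, h2⟩ d' ⟨hd', x', w', y', hy', h1', h2'⟩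
  have hne := lf_ne hd hy h1
  have hne' := lf_ne hd' hy' h1'
  have hi := kne i
  have c3 : ((dt a b i (k3 i) : ℤ) : ℚ) ≠ 0 := by exact_mod_cast hab _ _ hi.2.2.1.symm
  have c13 : ((dt a b (k1 i) (k3 i) : ℤ) : ℚ) ≠ 0 := by exact_mod_cast hab _ _ hi.2.2.2
  have h3 : lf a b x w (k1 i) * lf a b x' w' (k3 i) = lf a b x' w' (k1 i) * lf a b x w (k3 i) := by
    apply mul_left_cancel₀ c3
    linear_combination lf a b x' w' (k3 i) * h2 - lf a b x w (k3 i) * h2'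
  have h4 : x * w' = x' * w := by
    apply mul_left_cancel₀ c13
    unfold lf at h3
    unfold dt
    push_cast
    linear_combination h3
  have h5 : ∀ j, lf a b x' w' j = lf a b x' w' (k3 i) / lf a b x w (k3 i) * lf a b x w j := by
    intro j
    have h6 : lf a b x' w' j * lf a b x w (k3 i) = lf a b x' w' (k3 i) * lf a b x w j := by
      unfold lf
      linear_combination ((b j : ℚ) * a (k3 i) - a j * b (k3 i)) * h4
    have h7 := hne (k3 i)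
    field_simp
    linear_combination h6
  have h8 : (d' : ℚ) * y' ^ 4 = d * (lf a b x' w' (k3 i) / lf a b x w (k3 i) * y) ^ 4 := by
    rw [h1', Finset.prod_congr rfl fun j _ => h5 j, Finset.prod_mul_distrib, Finset.prod_const,
      Finset.card_univ, Fintype.card_fin, ← h1]
    ring
  exact (sq_eq hd' hd hy' (mul_ne_zero (div_ne_zero (hne' _) (hne _)) hy) h8).symm

lemma special {a b : Fin 4 → ℤ} (hab : ∀ i k, i ≠ k → dt a b i k ≠ 0) {d : ℤ}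
    (hd : Squarefree d) {x w y : ℚ} (hy : y ≠ 0) (h : (d : ℚ) * y ^ 4 = ∏ k, lf a b x w k)
    {i : Fin 4} (hi : ∀ k l, k ≠ i → l ≠ i → ∃ t : ℚ, lf a b x w k * (dt a b i l : ℤ) =
      lf a b x w l * (dt a b i k : ℤ) * t ^ 4) :
    ∃ s t : ℚ, s ≠ 0 ∧ t ≠ 0 ∧ (qA a b : ℚ) * s ^ 4 + (qB a b : ℚ) * t ^ 4 + (qC a b : ℚ) = 0 ∧
      d ∈ Di a b i s := by
  have hne := lf_ne hd hy h
  have hk := kne i
  have c3 : ((dt a b i (k3 i) : ℤ) : ℚ) ≠ 0 := by exact_mod_cast hab _ _ hk.2.2.1.symm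
  obtain ⟨s, hs⟩ := hi (k1 i) (k3 i) hk.1 hk.2.2.1
  obtain ⟨t, ht⟩ := hi (k2 i) (k3 i) hk.2.1 hk.2.2.1
  refine ⟨s, t, ?_, ?_, ?_, hd, x, w, y, hy, h, hs⟩
  · rintro rfl
    rw [zero_pow (by norm_num), mul_zero] at hs
    exact (mul_ne_zero (hne _) c3) hs
  · rintro rfl
    rw [zero_pow (by norm_num), mul_zero] at ht
    exact (mul_ne_zero (hne _) c3) ht
  · apply (mul_eq_zero.1 (?_ : lf a b x w (k3 i) * ((qA a b : ℚ) * s ^ 4 + (qB a b : ℚ) * t ^ 4 +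
      (qC a b : ℚ)) = 0)).resolve_left (hne _)
    have hpl : ((dt a b (k2 i) (k3 i) : ℤ) : ℚ) * lf a b x w (k1 i) +
        ((dt a b (k3 i) (k1 i) : ℤ) : ℚ) * lf a b x w (k2 i) +
        ((dt a b (k1 i) (k2 i) : ℤ) : ℚ) * lf a b x w (k3 i) = 0 := by
      unfold dt lf
      push_cast
      ring
    rw [eqA a b i, eqB a b i, eqC a b i]
    push_cast
    linear_combination ((dt a b i (k3 i) : ℤ) : ℚ) * hpl -
      ((dt a b (k2 i) (k3 i) : ℤ) : ℚ) * hs - ((dt a b (k3 i) (k1 i) : ℤ) : ℚ) * ht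

lemma one_le {X : ℕ} (hX : 3 ≤ X) : (1 : ℝ) ≤ X * (Real.log X) ^ (-(1 / 100 : ℝ)) := by
  have hX' : (3 : ℝ) ≤ X := by exact_mod_cast hX
  have h1 : 1 ≤ Real.log X := by
    rw [Real.le_log_iff_exp_le (by linarith)]
    exact (Real.exp_one_lt_d9.le.trans (by norm_num)).trans hX'
  have h2 : Real.log X ≤ X := (Real.log_le_sub_one_of_pos (by linarith)).trans (by linarith)
  have h3 : (Real.log X) ^ (-1 : ℝ) ≤ (Real.log X) ^ (-(1 / 100 : ℝ)) :=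
    Real.rpow_le_rpow_of_exponent_le h1 (by norm_num)
  have h4 : (X : ℝ)⁻¹ ≤ (Real.log X) ^ (-1 : ℝ) := by
    rw [Real.rpow_neg_one]
    exact inv_anti₀ (by linarith) h2
  calc (1 : ℝ) = X * (X : ℝ)⁻¹ := by field_simp
    _ ≤ X * (Real.log X) ^ (-(1 / 100 : ℝ)) :=
        mul_le_mul_of_nonneg_left (h4.trans h3) (by linarith)

/-- the points with `y = 0` -/
lemma crv_card {a b : Fin 4 → ℤ} (hab : ∀ i k, i ≠ k → dt a b i k ≠ 0) {d : ℤ}
    (h : ¬ ∃ x w y : ℚ, y ≠ 0 ∧ (d : ℚ) * y ^ 4 = ∏ k, ((a k : ℚ) * x + (b k : ℚ) * w)) :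
    (crv a b d).ncard = 4 := by
  have hv : ∀ k : Fin 4, (![-(b k : ℚ), (a k : ℚ), 0] : Fin 3 → ℚ) ≠ 0 := by
    intro k hk
    have h1 := congrFun hk 0
    have h2 := congrFun hk 1
    simp at h1 h2
    obtain ⟨l, hl⟩ := exists_ne k
    apply hab k l hl.symm
    unfold dt
    rw [h1, h2]
    ring
  let pt : Fin 4 → Projectivization ℚ (Fin 3 → ℚ) := fun k => Projectivization.mk ℚ _ (hv k)
  have hinj : Function.Injective pt := by
    intro k l hkl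
    by_contra hne
    rw [Projectivization.mk_eq_mk_iff'] at hkl
    obtain ⟨r, hr⟩ := hkl
    have h1 := congrFun hr 0
    have h2 := congrFun hr 1
    simp at h1 h2
    apply hab k l hne
    have h3 : ((dt a b k l : ℤ) : ℚ) = 0 := by
      unfold dt
      push_cast
      rw [← h2, ← h1]
      ring
    exact_mod_cast h3
  have hr : crv a b d = Set.range pt := by
    ext P
    constructor
    · intro hP
      have hP' : (d : ℚ) * P.rep 2 ^ 4 = ∏ k, ((a k : ℚ) * P.rep 0 + (b k : ℚ) * P.rep 1) := hP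
      have h2 : P.rep 2 = 0 := by
        by_contra h0
        exact h ⟨P.rep 0, P.rep 1, P.rep 2, h0, hP'⟩
      rw [h2, zero_pow (by norm_num), mul_zero] at hP'
      obtain ⟨k, -, hk⟩ := Finset.prod_eq_zero_iff.1 hP'.symm
      refine ⟨k, ?_⟩
      show Projectivization.mk ℚ _ (hv k) = P
      rw [← Projectivization.mk_rep P, Projectivization.mk_eq_mk_iff']
      have hnz := P.rep_nonzero
      have hx : P.rep 0 ≠ 0 ∨ P.rep 1 ≠ 0 := by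
        by_contra hc
        push Not at hc
        apply hnz
        funext j
        fin_cases j
        · exact hc.1
        · exact hc.2
        · exact h2
      have hak : (a k : ℚ) ≠ 0 ∨ (b k : ℚ) ≠ 0 := by
        by_contra hc
        push Not at hc
        apply hv k
        rw [hc.1, hc.2]
        funext j
        fin_cases j <;> simp
      rcases hx with hx | hx
      · refine ⟨-(b k : ℚ) / P.rep 0, ?_⟩
        funext j
        fin_cases j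
        · show -(b k : ℚ) / P.rep 0 * P.rep 0 = -(b k : ℚ)
          field_simp
        · show -(b k : ℚ) / P.rep 0 * P.rep 1 = (a k : ℚ)
          field_simp
          linear_combination -hk
        · show -(b k : ℚ) / P.rep 0 * P.rep 2 = 0
          rw [h2, mul_zero]
      · refine ⟨(a k : ℚ) / P.rep 1, ?_⟩
        funext j
        fin_cases j
        · show (a k : ℚ) / P.rep 1 * P.rep 0 = -(b k : ℚ)
          field_simp
          linear_combination hk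
        · show (a k : ℚ) / P.rep 1 * P.rep 1 = (a k : ℚ)
          field_simp
        · show (a k : ℚ) / P.rep 1 * P.rep 2 = 0
          rw [h2, mul_zero]
    · rintro ⟨k, rfl⟩
      have h1 : Projectivization.mk ℚ (pt k).rep (pt k).rep_nonzero =
          Projectivization.mk ℚ _ (hv k) := (pt k).mk_rep
      rw [Projectivization.mk_eq_mk_iff'] at h1
      obtain ⟨r, hr⟩ := h1
      have h2 : -(r * (b k : ℚ)) = (pt k).rep 0 := by
        rw [← hr]; simp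
      have h3 : r * (a k : ℚ) = (pt k).rep 1 := by
        rw [← hr]; simp
      have h4 : (0 : ℚ) = (pt k).rep 2 := by
        rw [← hr]; simp
      show (d : ℚ) * (pt k).rep 2 ^ 4 = ∏ j, ((a j : ℚ) * (pt k).rep 0 + (b j : ℚ) * (pt k).rep 1)
      rw [← h4, ← h2, ← h3]
      symm
      rw [zero_pow (by norm_num), mul_zero]
      exact Finset.prod_eq_zero (Finset.mem_univ k) (by ring)
  rw [hr, ← Set.image_univ, Set.ncard_image_of_injective _ hinj, Set.ncard_univ, Nat.card_eq_fintype_card,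
    Fintype.card_fin]

end Exq

open Exq in
/-- if the diagonal quartic `A s⁴ + B t⁴ + C = 0` has finitely many rational points then almost all
twists have no rational point with `y ≠ 0` -/
theorem genq2 (h : FINQ) : ∀ a b : Fin 4 → ℤ, (∀ i k, i ≠ k → dt a b i k ≠ 0) →
    {p : ℚ × ℚ | p.1 ≠ 0 ∧ p.2 ≠ 0 ∧
      (qA a b : ℚ) * p.1 ^ 4 + (qB a b : ℚ) * p.2 ^ 4 + (qC a b : ℚ) = 0}.Finite →
    ∃ C : ℝ, ∀ X : ℕ, 3 ≤ X →
    ({d : ℤ | d.natAbs ≤ X ∧ Squarefree d ∧ ∃ x w y : ℚ, y ≠ 0 ∧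
      (d : ℚ) * y ^ 4 = ∏ k, ((a k : ℚ) * x + (b k : ℚ) * w)}.ncard : ℝ) ≤
      C * X * (Real.log X) ^ (-(1 / 100 : ℝ)) := by
  intro a b hab hF
  obtain ⟨C, hC⟩ := genq h a b hab
  have hfin : (⋃ i : Fin 4, ⋃ p ∈ {p : ℚ × ℚ | p.1 ≠ 0 ∧ p.2 ≠ 0 ∧
      (qA a b : ℚ) * p.1 ^ 4 + (qB a b : ℚ) * p.2 ^ 4 + (qC a b : ℚ) = 0},
      Di a b i p.1).Finite :=
    Set.finite_iUnion fun i => hF.biUnion fun p _ => (Di_sub hab i p.1).finite
  set S := ⋃ i : Fin 4, ⋃ p ∈ {p : ℚ × ℚ | p.1 ≠ 0 ∧ p.2 ≠ 0 ∧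
      (qA a b : ℚ) * p.1 ^ 4 + (qB a b : ℚ) * p.2 ^ 4 + (qC a b : ℚ) = 0}, Di a b i p.1 with hS
  refine ⟨C + S.ncard, fun X hX => ?_⟩
  have h1 := hC X hX
  have h2 := one_le hX
  have hsub : {d : ℤ | d.natAbs ≤ X ∧ Squarefree d ∧ ∃ x w y : ℚ, y ≠ 0 ∧
      (d : ℚ) * y ^ 4 = ∏ k, ((a k : ℚ) * x + (b k : ℚ) * w)} ⊆
      {d : ℤ | d.natAbs ≤ X ∧ Squarefree d ∧ ∃ x w y : ℚ, y ≠ 0 ∧
      (d : ℚ) * y ^ 4 = ∏ k, ((a k : ℚ) * x + (b k : ℚ) * w) ∧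
      ∀ i, ∃ k l, k ≠ i ∧ l ≠ i ∧ ∀ t : ℚ, ((a k : ℚ) * x + (b k : ℚ) * w) * (dt a b i l : ℤ) ≠
        ((a l : ℚ) * x + (b l : ℚ) * w) * (dt a b i k : ℤ) * t ^ 4} ∪ S := by
    rintro d ⟨h3, h4, x, w, y, hy, h5⟩
    by_cases h6 : ∀ i, ∃ k l, k ≠ i ∧ l ≠ i ∧ ∀ t : ℚ,
        ((a k : ℚ) * x + (b k : ℚ) * w) * (dt a b i l : ℤ) ≠
        ((a l : ℚ) * x + (b l : ℚ) * w) * (dt a b i k : ℤ) * t ^ 4
    · exact Or.inl ⟨h3, h4, x, w, y, hy, h5, h6⟩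
    · right
      push Not at h6
      obtain ⟨i, hi⟩ := h6
      obtain ⟨s, t, hs, ht, h7, h8⟩ := special hab h4 hy h5 (i := i) hi
      rw [hS]
      exact Set.mem_iUnion.2 ⟨i, Set.mem_iUnion₂.2 ⟨(s, t), ⟨hs, ht, h7⟩, h8⟩⟩
  have h3 := Set.ncard_le_ncard hsub ((fin_le X _).union hfin)
  have h4 := h3.trans (Set.ncard_union_le _ _)
  have h5 : ({d : ℤ | d.natAbs ≤ X ∧ Squarefree d ∧ ∃ x w y : ℚ, y ≠ 0 ∧
      (d : ℚ) * y ^ 4 = ∏ k, ((a k : ℚ) * x + (b k : ℚ) * w)}.ncard : ℝ) ≤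
      ({d : ℤ | d.natAbs ≤ X ∧ Squarefree d ∧ ∃ x w y : ℚ, y ≠ 0 ∧
      (d : ℚ) * y ^ 4 = ∏ k, ((a k : ℚ) * x + (b k : ℚ) * w) ∧
      ∀ i, ∃ k l, k ≠ i ∧ l ≠ i ∧ ∀ t : ℚ, ((a k : ℚ) * x + (b k : ℚ) * w) * (dt a b i l : ℤ) ≠
        ((a l : ℚ) * x + (b l : ℚ) * w) * (dt a b i k : ℤ) * t ^ 4}.ncard : ℝ) + S.ncard := by
    exact_mod_cast h4
  refine h5.trans ?_
  have h6 : (S.ncard : ℝ) ≤ S.ncard * (X * (Real.log X) ^ (-(1 / 100 : ℝ))) :=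
    le_mul_of_one_le_right (Nat.cast_nonneg _) h2
  calc _ ≤ C * X * (Real.log X) ^ (-(1 / 100 : ℝ)) +
        S.ncard * (X * (Real.log X) ^ (-(1 / 100 : ℝ))) := add_le_add h1 h6
    _ = (C + S.ncard) * X * (Real.log X) ^ (-(1 / 100 : ℝ)) := by ring

/-- if the diagonal quartic `A s⁴ + B t⁴ + C = 0` has finitely many rational points then almost all
twists have exactly four rational points -/
theorem genq3 (h : FINQ) : ∀ a b : Fin 4 → ℤ, (∀ i k, i ≠ k → dt a b i k ≠ 0) →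
    {p : ℚ × ℚ | p.1 ≠ 0 ∧ p.2 ≠ 0 ∧
      (qA a b : ℚ) * p.1 ^ 4 + (qB a b : ℚ) * p.2 ^ 4 + (qC a b : ℚ) = 0}.Finite →
    ∃ C : ℝ, ∀ X : ℕ, 3 ≤ X →
    ({d : ℤ | d.natAbs ≤ X ∧ Squarefree d ∧ (crv a b d).ncard ≠ 4}.ncard : ℝ) ≤
      C * X * (Real.log X) ^ (-(1 / 100 : ℝ)) := by
  intro a b hab hF
  obtain ⟨C, hC⟩ := genq2 h a b hab hF
  refine ⟨C, fun X hX => le_trans ?_ (hC X hX)⟩
  refine Nat.cast_le.2 (Set.ncard_le_ncard ?_ (Exq.fin_le X _))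
  rintro d ⟨h1, h2, h3⟩
  refine ⟨h1, h2, ?_⟩
  by_contra hc
  exact h3 (Exq.crv_card hab hc)

/-- `d y⁴ = x³ w - x w³` has exactly four rational points for almost all `d` -/
theorem exq2 (h : FINQ) : ∃ C : ℝ, ∀ X : ℕ, 3 ≤ X →
    ({d : ℤ | d.natAbs ≤ X ∧ Squarefree d ∧
      {P : Projectivization ℚ (Fin 3 → ℚ) | (d : ℚ) * P.rep 2 ^ 4 =
        P.rep 0 ^ 3 * P.rep 1 - P.rep 0 * P.rep 1 ^ 3}.ncard ≠ 4}.ncard : ℝ) ≤
      C * X * (Real.log X) ^ (-(1 / 100 : ℝ)) := by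
  have hF : {p : ℚ × ℚ | p.1 ≠ 0 ∧ p.2 ≠ 0 ∧ (qA Exq.aa Exq.bb : ℚ) * p.1 ^ 4 +
      (qB Exq.aa Exq.bb : ℚ) * p.2 ^ 4 + (qC Exq.aa Exq.bb : ℚ) = 0}.Finite := by
    have hA : qA Exq.aa Exq.bb = -1 := by decide
    have hB : qB Exq.aa Exq.bb = -1 := by decide
    have hC : qC Exq.aa Exq.bb = 2 := by decide
    rw [hA, hB, hC]
    refine Set.Finite.subset (Set.toFinite ({(1, 1), (1, -1), (-1, 1), (-1, -1)} : Set (ℚ × ℚ))) ?_
    rintro ⟨s, t⟩ ⟨hs, ht, h1⟩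
    dsimp only at hs ht h1
    push_cast at h1
    have h2 : s ^ 4 + t ^ 4 = 2 := by linear_combination -h1
    have h3 := Exq.fermat2 hs ht h2
    have h4 : s ^ 4 = 1 := by linear_combination (1 / 2 : ℚ) * (h2 + h3)
    have h5 : t ^ 4 = 1 := by linear_combination (1 / 2 : ℚ) * (h2 - h3)
    have h6 : ∀ r : ℚ, r ^ 4 = 1 → r = 1 ∨ r = -1 := by
      intro r hr
      have h7 : (r - 1) * ((r + 1) * (r ^ 2 + 1)) = 0 := by linear_combination hr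
      rcases mul_eq_zero.1 h7 with h8 | h8
      · left; linear_combination h8
      · rcases mul_eq_zero.1 h8 with h9 | h9
        · right; linear_combination h9
        · exfalso; nlinarith [sq_nonneg r]
    rcases h6 s h4 with rfl | rfl <;> rcases h6 t h5 with rfl | rfl <;> simp
  obtain ⟨C, hC⟩ := genq3 h Exq.aa Exq.bb Exq.ab_ne hF
  refine ⟨C, fun X hX => le_trans (le_of_eq ?_) (hC X hX)⟩
  have h1 : ∀ d : ℤ, crv Exq.aa Exq.bb d = {P : Projectivization ℚ (Fin 3 → ℚ) |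
      (d : ℚ) * P.rep 2 ^ 4 = P.rep 0 ^ 3 * P.rep 1 - P.rep 0 * P.rep 1 ^ 3} := by
    intro d
    ext P
    unfold crv
    rw [Set.mem_ofPred_eq, Set.mem_ofPred_eq, Fin.prod_univ_four]
    have e : ((Exq.aa 0 : ℚ) * P.rep 0 + (Exq.bb 0 : ℚ) * P.rep 1) *
        ((Exq.aa 1 : ℚ) * P.rep 0 + (Exq.bb 1 : ℚ) * P.rep 1) *
        ((Exq.aa 2 : ℚ) * P.rep 0 + (Exq.bb 2 : ℚ) * P.rep 1) *
        ((Exq.aa 3 : ℚ) * P.rep 0 + (Exq.bb 3 : ℚ) * P.rep 1) =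
        P.rep 0 ^ 3 * P.rep 1 - P.rep 0 * P.rep 1 ^ 3 := by
      simp [Exq.aa, Exq.bb]
      ring
    rw [e]
  simp only [h1]

end Pool.Agent.H53.QT
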