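import Pool.Agent.H53.QT.Cnb

/-! # The final estimate (helper53) -/

set_option autoImplicit false

namespace Pool.Agent.H53.QT

open Finset Filter Pool.Agent.W262.RK Pool.Agent.W262.TW

lemma CF_CD {c : Fin 4 → Fin 4 → ℤ} {s : Fin 4 → ℤ} {i : Fin 4} {p : ℕ} (W N : ℕ)
    (h : CF c s i p) : CD W N c s i p := by
  unfold CD
  split_ifs with h0
  · exact h.2 (cl_zero h0).2
  · exact h.1

open Classical in
/-- small and large variables -/
lemma cF_le (z X W N V : ℕ) (κ : Fin 4 → ℤ) (c : Fin 4 → Fin 4 → ℤ) :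
    cF z X κ c (fun _ _ => True) ≤ ∑ i : Fin 4, cF z X κ c (fun k n => k ≠ i → n ≤ V) +
      ∑ I ∈ (univ : Finset (Finset (Fin 4))).filter (fun I => 2 ≤ I.card),
        cn z X W N κ c (fun k n => if k ∈ I then V < n else n ≤ V) := by
  set SF : (Fin 4 → ℕ → Prop) → Finset (Fin 4 → ℕ) := fun R =>
    (Fintype.piFinset (fun _ : Fin 4 => Icc 1 X)).filter (fun D => Tu z X D ∧ (∀ i, R i (D i)) ∧
      (∀ i, ∀ p ∈ (D i).primeFactors, CF c (fun k => κ k * D k) i p) ∧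
      NC4 c (fun k => κ k * D k)) with hSF
  set SN : (Fin 4 → ℕ → Prop) → Finset (Fin 4 → ℕ) := fun R =>
    (Fintype.piFinset (fun _ : Fin 4 => Icc 1 X)).filter (fun D => Tu z X D ∧ (∀ i, R i (D i)) ∧
      ∀ i, ∀ p ∈ (D i).primeFactors, CD W N c (fun k => κ k * D k) i p) with hSN
  have h1 : ∀ R, cF z X κ c R = (SF R).card := fun R => rfl
  have h2 : ∀ R, cn z X W N κ c R = (SN R).card := fun R => rfl
  have hsub : SF (fun _ _ => True) ⊆ (univ.biUnion fun i : Fin 4 =>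
      SF (fun k n => k ≠ i → n ≤ V)) ∪
      ((univ : Finset (Finset (Fin 4))).filter (fun I => 2 ≤ I.card)).biUnion fun I =>
        SN (fun k n => if k ∈ I then V < n else n ≤ V) := by
    intro D hD
    rw [hSF] at hD
    simp only [mem_filter] at hD
    obtain ⟨hD1, hD2, -, hD3, hD4⟩ := hD
    rw [mem_union, mem_biUnion, mem_biUnion]
    by_cases hI : 2 ≤ (univ.filter (fun k => V < D k)).card
    · right
      refine ⟨univ.filter (fun k => V < D k), mem_filter.2 ⟨mem_univ _, hI⟩, ?_⟩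
      rw [hSN]
      simp only [mem_filter]
      refine ⟨hD1, hD2, fun k => ?_, fun i p hp => CF_CD W N (hD3 i p hp)⟩
      by_cases hk : V < D k
      · simp [hk]
      · simp only [mem_univ, hk, and_false, if_false]; omega
    · left
      have h3 : (univ.filter (fun k => V < D k)).card ≤ 1 := by omega
      obtain ⟨i, hi⟩ : ∃ i : Fin 4, ∀ k, V < D k → k = i := by
        rcases (univ.filter (fun k => V < D k)).eq_empty_or_nonempty with h4 | ⟨i, hi⟩
        · refine ⟨0, fun k hk => ?_⟩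
          have : k ∈ univ.filter (fun k => V < D k) := mem_filter.2 ⟨mem_univ _, hk⟩
          rw [h4] at this
          exact absurd this (notMem_empty _)
        · exact ⟨i, fun k hk => card_le_one.1 h3 k (mem_filter.2 ⟨mem_univ _, hk⟩) i hi⟩
      refine ⟨i, mem_univ i, ?_⟩
      rw [hSF]
      simp only [mem_filter]
      refine ⟨hD1, hD2, fun k hk => ?_, hD3, hD4⟩
      by_contra h5
      exact hk (hi k (by omega))
  rw [h1]
  refine (card_le_card hsub).trans ((card_union_le _ _).trans ?_)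
  refine add_le_add ?_ ?_
  · refine card_biUnion_le.trans (le_of_eq ?_)
    exact sum_congr rfl fun i _ => (h1 (fun k n => k ≠ i → n ≤ V)).symm
  · refine card_biUnion_le.trans (le_of_eq ?_)
    exact sum_congr rfl fun I _ => (h2 (fun k n => if k ∈ I then V < n else n ≤ V)).symm

lemma E4_prime {z : ℕ} {e : ℤ} (he : e ∈ E4 z) (p : ℕ) (hp : p.Prime) (h : (p : ℤ) ∣ e) :
    p ≤ z := by
  unfold E4 at he
  rw [Finset.mem_union, Finset.mem_image, Finset.mem_image] at he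
  rcases he with ⟨n, hn, rfl⟩ | ⟨n, hn, rfl⟩
  · have h1 : p ∣ n := by exact_mod_cast h
    exact hp.dvd_primorial_iff.mp (hp.dvd_of_dvd_pow (h1.trans (Nat.dvd_of_mem_divisors hn)))
  · have h1 : p ∣ n := by
      rw [dvd_neg] at h
      exact_mod_cast h
    exact hp.dvd_primorial_iff.mp (hp.dvd_of_dvd_pow (h1.trans (Nat.dvd_of_mem_divisors hn)))

lemma one_le_XL {X : ℕ} (hX : 3 ≤ X) : (1 : ℝ) ≤ X * (Real.log X) ^ (-(1 / 100 : ℝ)) := by
  have hX' : (3 : ℝ) ≤ X := by exact_mod_cast hX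
  have h1 : 1 ≤ Real.log X := by
    rw [Real.le_log_iff_exp_le (by linarith)]
    exact (Real.exp_one_lt_d9.le.trans (by norm_num)).trans hX'
  have h2 : Real.log X ≤ X := (Real.log_le_sub_one_of_pos (by linarith)).trans (by linarith)
  have h3 : (Real.log X) ^ (-1 : ℝ) ≤ (Real.log X) ^ (-(1 / 100 : ℝ)) :=
    Real.rpow_le_rpow_of_exponent_le h1 (by norm_num)
  have h4 : (X : ℝ)⁻¹ ≤ (Real.log X) ^ (-1 : ℝ) := by
    rw [Real.rpow_neg_one]
    exact inv_anti₀ (by linarith) h2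
  calc (1 : ℝ) = X * (X : ℝ)⁻¹ := by field_simp
    _ ≤ X * (Real.log X) ^ (-(1 / 100 : ℝ)) :=
        mul_le_mul_of_nonneg_left (h4.trans h3) (by linarith)

/-- from large `X` to all `X` -/
lemma all_of_ev (F : ℕ → ℝ) (hF : ∀ X, 0 ≤ F X) (C : ℝ)
    (h : ∀ᶠ X : ℕ in atTop, F X ≤ C * X * (Real.log X) ^ (-(1 / 100 : ℝ))) :
    ∃ C : ℝ, ∀ X : ℕ, 3 ≤ X → F X ≤ C * X * (Real.log X) ^ (-(1 / 100 : ℝ)) := by
  obtain ⟨X0, hX0⟩ := eventually_atTop.1 h
  refine ⟨|C| + ∑ x ∈ range X0, F x, fun X hX => ?_⟩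
  have h1 := one_le_XL hX
  have h0 : (0 : ℝ) ≤ X * (Real.log X) ^ (-(1 / 100 : ℝ)) := by linarith
  have hS : 0 ≤ ∑ x ∈ range X0, F x := sum_nonneg fun x _ => hF x
  rw [mul_assoc]
  by_cases hX1 : X0 ≤ X
  · refine (hX0 X hX1).trans ?_
    rw [mul_assoc]
    refine mul_le_mul_of_nonneg_right ?_ h0
    have := le_abs_self C
    linarith
  · have h2 : F X ≤ ∑ x ∈ range X0, F x :=
      single_le_sum (f := F) (fun x _ => hF x) (mem_range.2 (by omega))
    calc F X ≤ (∑ x ∈ range X0, F x) * 1 := by linarith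
      _ ≤ (|C| + ∑ x ∈ range X0, F x) * (X * (Real.log X) ^ (-(1 / 100 : ℝ))) := by
          refine mul_le_mul ?_ h1 zero_le_one ?_
          · have := abs_nonneg C
            linarith
          · have := abs_nonneg C
            linarith

/-- the number of the tuples -/
theorem cntq (hCORE : CORE4) (hE : EXPA4) (hM : MERT4) (hS : SMTH) (hO : ONE4)
    (c : Fin 4 → Fin 4 → ℤ) (hc0 : ∀ i k, i ≠ k → c i k ≠ 0) :
    ∃ z0 : ℕ, ∀ z, z0 ≤ z → ∃ C : ℝ, ∀ X : ℕ, 3 ≤ X →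
      (((EE z).card * ∑ κ ∈ Fintype.piFinset (fun _ : Fin 4 => E4 z),
        cF z X κ c (fun _ _ => True) : ℕ) : ℝ) ≤ C * X * (Real.log X) ^ (-(1 / 100 : ℝ)) := by
  classical
  obtain ⟨z2, h2⟩ := hO c hc0
  refine ⟨z2 + 2 + ∑ i, ∑ k, (c i k).natAbs, fun z hz => ?_⟩
  have hc : ∀ i k, i ≠ k → ∀ p : ℕ, p.Prime → (p : ℤ) ∣ c i k → p ≤ z := by
    intro i k hik p hp hpd
    have s1 : (c i k).natAbs ≤ ∑ k, (c i k).natAbs :=
      single_le_sum (f := fun k => (c i k).natAbs) (fun _ _ => Nat.zero_le _) (mem_univ k)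
    have s2 : ∑ k, (c i k).natAbs ≤ ∑ i, ∑ k, (c i k).natAbs :=
      single_le_sum (f := fun i => ∑ k, (c i k).natAbs) (fun _ _ => Nat.zero_le _)
        (mem_univ i)
    have s3 : p ≤ (c i k).natAbs :=
      Nat.le_of_dvd (Int.natAbs_pos.2 (hc0 i k hik)) (Int.natCast_dvd.1 hpd)
    omega
  have hz2 : z2 ≤ z := by omega
  have hz3 : 2 ≤ z := by omega
  obtain ⟨B, C, hcn⟩ := cn_bound hCORE hE hM hS z hz3 c hc
  have hcFle := fun X V κ => cF_le z X (WW X) (NN X) V κ c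
  have hJ : ∀ I ∈ (univ : Finset (Finset (Fin 4))).filter (fun I => 2 ≤ I.card), 2 ≤ I.card :=
    fun I hI => (mem_filter.1 hI).2
  generalize (univ : Finset (Finset (Fin 4))).filter (fun I => 2 ≤ I.card) = J at hcFle hJ
  have hκ : ∀ κ ∈ Fintype.piFinset (fun _ : Fin 4 => E4 z), ∃ C' : ℝ, ∀ᶠ X : ℕ in atTop,
      (cF z X κ c (fun _ _ => True) : ℝ) ≤
        C' * (X * (Real.log X) ^ (-(1 / 100 : ℝ))) := by
    intro κ hκ
    obtain ⟨C', hC'⟩ := h2 z hz2 κ hκ B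
    have hκp : ∀ k, ∀ p : ℕ, p.Prime → (p : ℤ) ∣ κ k → p ≤ z := fun k p hp h =>
      E4_prime (Fintype.mem_piFinset.mp hκ k) p hp h
    refine ⟨4 * |C'| + (J.card : ℝ) * C, ?_⟩
    filter_upwards [hcn, eventually_ge_atTop 3, tL.eventually (eventually_ge_atTop 1)] with
      X ⟨V, hV1, hV2, hcnX⟩ hX3 hL1
    set L := Real.log (X : ℝ) with hL
    have hX0 : (0 : ℝ) ≤ X := Nat.cast_nonneg X
    have hLL : L ^ (-(1 / 5 : ℝ)) ≤ L ^ (-(1 / 100 : ℝ)) :=
      Real.rpow_le_rpow_of_exponent_le hL1 (by norm_num)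
    have hLp : 0 ≤ L ^ (-(1 / 5 : ℝ)) := Real.rpow_nonneg (by linarith) _
    have e1 : (cF z X κ c (fun _ _ => True) : ℝ) ≤
        ∑ i : Fin 4, (cF z X κ c (fun k n => k ≠ i → n ≤ V) : ℝ) +
        ∑ I ∈ J, (cn z X (WW X) (NN X) κ c (fun k n => if k ∈ I then V < n else n ≤ V) : ℝ) := by
      have := hcFle X V κ
      exact_mod_cast this
    have e2 : ∀ i : Fin 4, (cF z X κ c (fun k n => k ≠ i → n ≤ V) : ℝ) ≤
        |C'| * (X * L ^ (-(1 / 100 : ℝ))) := by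
      intro i
      calc (cF z X κ c (fun k n => k ≠ i → n ≤ V) : ℝ)
          ≤ C' * X * L ^ (-(1 / 5 : ℝ)) := hC' X V hX3 hV1 hV2 i
        _ = C' * (X * L ^ (-(1 / 5 : ℝ))) := by ring
        _ ≤ |C'| * (X * L ^ (-(1 / 5 : ℝ))) :=
            mul_le_mul_of_nonneg_right (le_abs_self _) (mul_nonneg hX0 hLp)
        _ ≤ _ := mul_le_mul_of_nonneg_left (mul_le_mul_of_nonneg_left hLL hX0) (abs_nonneg _)
    have e3 : ∀ I ∈ J,
        (cn z X (WW X) (NN X) κ c (fun k n => if k ∈ I then V < n else n ≤ V) : ℝ) ≤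
        C * (X * L ^ (-(1 / 100 : ℝ))) := by
      intro I hI
      refine (hcnX κ hκp I (hJ I hI)).trans (le_of_eq (by ring))
    calc (cF z X κ c (fun _ _ => True) : ℝ) ≤ _ := e1
      _ ≤ ∑ _i : Fin 4, |C'| * (X * L ^ (-(1 / 100 : ℝ))) +
          ∑ _I ∈ J, C * (X * L ^ (-(1 / 100 : ℝ))) :=
          add_le_add (sum_le_sum fun i _ => e2 i) (sum_le_sum e3)
      _ = _ := by
          rw [sum_const, sum_const, nsmul_eq_mul, nsmul_eq_mul, card_univ, Fintype.card_fin]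
          push_cast
          ring
  choose Cf hCf using hκ
  refine all_of_ev (fun X => (((EE z).card * ∑ κ ∈ Fintype.piFinset (fun _ : Fin 4 => E4 z),
        cF z X κ c (fun _ _ => True) : ℕ) : ℝ))
    (fun X => Nat.cast_nonneg _) ((EE z).card *
      ∑ κ : {κ // κ ∈ Fintype.piFinset (fun _ : Fin 4 => E4 z)}, Cf κ.1 κ.2) ?_
  have hall : ∀ᶠ X : ℕ in atTop, ∀ κ : {κ // κ ∈ Fintype.piFinset (fun _ : Fin 4 => E4 z)},
      (cF z X κ.1 c (fun _ _ => True) : ℝ) ≤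
        Cf κ.1 κ.2 * (X * (Real.log X) ^ (-(1 / 100 : ℝ))) := by
    rw [eventually_all]
    exact fun κ => hCf κ.1 κ.2
  filter_upwards [hall] with X hX
  have e3 : ∑ κ ∈ Fintype.piFinset (fun _ : Fin 4 => E4 z),
      cF z X κ c (fun _ _ => True) =
      ∑ κ : {κ // κ ∈ Fintype.piFinset (fun _ : Fin 4 => E4 z)},
        cF z X κ.1 c (fun _ _ => True) :=
    (sum_coe_sort (Fintype.piFinset (fun _ : Fin 4 => E4 z))
      (fun κ => cF z X κ c (fun _ _ => True))).symm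
  rw [e3]
  push_cast
  calc ((EE z).card : ℝ) * ∑ κ : {κ // κ ∈ Fintype.piFinset (fun _ : Fin 4 => E4 z)},
        (cF z X κ.1 c (fun _ _ => True) : ℝ)
      ≤ (EE z).card * ∑ κ : {κ // κ ∈ Fintype.piFinset (fun _ : Fin 4 => E4 z)},
        Cf κ.1 κ.2 * (X * (Real.log X) ^ (-(1 / 100 : ℝ))) :=
        mul_le_mul_of_nonneg_left (sum_le_sum fun κ _ => hX κ) (Nat.cast_nonneg _)
    _ = _ := by rw [← sum_mul]; ring

theorem finq (hCORE : CORE4) (hE : EXPA4) (hM : MERT4) (hS : SMTH) (hR : REDS4) (hO : ONE4) :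
    FINQ := by
  intro α β hdt
  obtain ⟨z1, h1⟩ := hR α β hdt
  obtain ⟨z2, h2⟩ := cntq hCORE hE hM hS hO (dt α β) hdt
  obtain ⟨C, hC⟩ := h2 (z1 + z2) (by omega)
  refine ⟨C, fun X hX => le_trans ?_ (hC X hX)⟩
  exact Nat.cast_le.2 (h1 (z1 + z2) (by omega) X)

end Pool.Agent.H53.QT
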