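import Pool.Agent.H53.QT.Wgt

/-! # Growth of the parameters (helper53) -/

set_option autoImplicit false

namespace Pool.Agent.H53.QT

open Finset Filter Pool.Agent.W262.RK Pool.Agent.W262.TW

lemma tL : Tendsto (fun X : ℕ => Real.log (X : ℝ)) atTop atTop :=
  Real.tendsto_log_atTop.comp tendsto_natCast_atTop_atTop

lemma growL : ∀ᶠ L : ℝ in atTop, 1 ≤ L ∧ 2 ≤ L ^ (1 / 20 : ℝ) ∧
    4 * L ^ (1 / 19 : ℝ) ≤ L ^ (1 / 18 : ℝ) := by
  have e1 : ∀ᶠ L : ℝ in atTop, 2 ≤ L ^ (1 / 20 : ℝ) :=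
    (tendsto_rpow_atTop (by norm_num : (0 : ℝ) < 1 / 20)).eventually (eventually_ge_atTop _)
  have e2 : ∀ᶠ L : ℝ in atTop, 4 ≤ L ^ (1 / 342 : ℝ) :=
    (tendsto_rpow_atTop (by norm_num : (0 : ℝ) < 1 / 342)).eventually (eventually_ge_atTop _)
  filter_upwards [e1, e2, eventually_ge_atTop 1] with L h1 h2 h3
  refine ⟨h3, h1, ?_⟩
  have h4 : L ^ (1 / 18 : ℝ) = L ^ (1 / 342 : ℝ) * L ^ (1 / 19 : ℝ) := by
    rw [← Real.rpow_add (by linarith)]
    norm_num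
  rw [h4]
  exact mul_le_mul_of_nonneg_right h2 (Real.rpow_nonneg (by linarith) _)

lemma grow : ∀ᶠ X : ℕ in atTop, 3 ≤ X ∧ 3 ≤ WW X ∧ 3 ≤ NN X ∧ WW X ≤ NN X ∧ NN X ≤ X ∧
    (MM X) ^ 4 ≤ NN X ∧
    1 / 20 * Real.log (Real.log X) - Real.log 2 ≤ Real.log (Real.log (WW X)) ∧
    Real.log (Real.log (NN X)) ≤ 1 / 18 * Real.log (Real.log X) ∧ 0 ≤ Real.log (Real.log X) := by
  filter_upwards [tL.eventually growL, eventually_ge_atTop 3] with X hX hX3
  obtain ⟨h1, h2, h3⟩ := hX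
  set L := Real.log (X : ℝ) with hL
  have hL0 : 0 < L := by linarith
  have hXpos : (0 : ℝ) < X := by positivity
  have hexp : Real.exp L = X := Real.exp_log hXpos
  have hfW : Real.exp (L ^ (1 / 20 : ℝ)) - 1 < WW X := by
    have := Nat.lt_floor_add_one (Real.exp (L ^ (1 / 20 : ℝ)))
    unfold WW
    linarith
  have hmono1 : L ^ (1 / 20 : ℝ) ≤ L ^ (1 / 18 : ℝ) :=
    Real.rpow_le_rpow_of_exponent_le h1 (by norm_num)
  have hmono2 : L ^ (1 / 18 : ℝ) ≤ L := by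
    calc L ^ (1 / 18 : ℝ) ≤ L ^ (1 : ℝ) := Real.rpow_le_rpow_of_exponent_le h1 (by norm_num)
      _ = L := Real.rpow_one L
  have hWN : WW X ≤ NN X := Nat.floor_mono (Real.exp_le_exp.2 hmono1)
  have hNX : NN X ≤ X := by
    have : NN X ≤ ⌊(X : ℝ)⌋₊ := by
      unfold NN
      refine Nat.floor_mono ?_
      calc Real.exp (Real.log (X : ℝ) ^ (1 / 18 : ℝ)) ≤ Real.exp L := Real.exp_le_exp.2 hmono2
        _ = X := hexp
    rwa [Nat.floor_natCast] at this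
  set t := L ^ (1 / 20 : ℝ) with ht
  have hexp1 : Real.exp (t / 2) ≤ Real.exp t - 1 := by
    have e1 : Real.exp t = Real.exp (t / 2) * Real.exp (t / 2) := by
      rw [← Real.exp_add]; ring_nf
    have e2 : t / 2 + 1 ≤ Real.exp (t / 2) := Real.add_one_le_exp _
    nlinarith
  have hW3 : 3 ≤ WW X := by
    have e1 : Real.exp 2 ≤ Real.exp t := Real.exp_le_exp.2 h2
    have e2 : (4 : ℝ) ≤ Real.exp 2 := by
      have := Real.exp_one_gt_d9
      have e3 : Real.exp 2 = Real.exp 1 * Real.exp 1 := by rw [← Real.exp_add]; norm_num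
      nlinarith
    have : (3 : ℝ) < WW X := by linarith
    exact_mod_cast this.le
  have hlW : t / 2 ≤ Real.log (WW X) := by
    rw [Real.le_log_iff_exp_le (by
      have : (3 : ℝ) ≤ WW X := by exact_mod_cast hW3
      linarith)]
    linarith
  refine ⟨hX3, hW3, hW3.trans hWN, hWN, hNX, ?_, ?_, ?_, Real.log_nonneg h1⟩
  · refine Nat.le_floor ?_
    push_cast
    have e1 : (MM X : ℝ) ≤ Real.exp (L ^ (1 / 19 : ℝ)) := Nat.floor_le (Real.exp_pos _).le
    calc (MM X : ℝ) ^ 4 ≤ (Real.exp (L ^ (1 / 19 : ℝ))) ^ 4 :=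
          pow_le_pow_left₀ (Nat.cast_nonneg _) e1 4
      _ = Real.exp (4 * L ^ (1 / 19 : ℝ)) := by
          rw [← Real.exp_nat_mul]; norm_num
      _ ≤ Real.exp (L ^ (1 / 18 : ℝ)) := Real.exp_le_exp.2 h3
  · have e1 : Real.log (t / 2) = 1 / 20 * Real.log L - Real.log 2 := by
      rw [Real.log_div (by linarith) (by norm_num), ht, Real.log_rpow hL0]
    rw [← e1]
    exact Real.log_le_log (by linarith) hlW
  · have e1 : Real.log (NN X) ≤ L ^ (1 / 18 : ℝ) := by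
      have e2 : (NN X : ℝ) ≤ Real.exp (L ^ (1 / 18 : ℝ)) := Nat.floor_le (Real.exp_pos _).le
      have e3 : (0 : ℝ) < NN X := by
        have : 0 < NN X := by omega
        exact_mod_cast this
      calc Real.log (NN X) ≤ Real.log (Real.exp (L ^ (1 / 18 : ℝ))) := Real.log_le_log e3 e2
        _ = _ := Real.log_exp _
    rw [← Real.log_rpow hL0]
    refine Real.log_le_log ?_ e1
    refine Real.log_pos ?_
    have : (3 : ℝ) ≤ NN X := by exact_mod_cast hW3.trans hWN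
    linarith

/-- the lower Mertens bound -/
lemma mertL (z : ℕ) : ∃ C : ℝ, 0 ≤ C ∧ ∀ Y : ℕ, 3 ≤ Y →
    Real.log (Real.log Y) - C ≤ ∑ p ∈ PS z Y, (1 : ℝ) / p := by
  obtain ⟨C, hC⟩ := Pool.Agent.Helper256.KM.mertens_inv
  have hC0 : 0 ≤ C := (abs_nonneg _).trans (hC 3 le_rfl)
  refine ⟨C + z, by positivity, fun Y hY => ?_⟩
  have h1 := (abs_le.1 (hC Y hY)).1
  have h2 : ∑ p ∈ (Icc 1 Y).filter Nat.Prime, (1 : ℝ) / p ≤
      ∑ p ∈ PS z Y, (1 : ℝ) / p + ∑ p ∈ Icc 1 z, (1 : ℝ) / p := by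
    rw [← sum_union_inter]
    have : (0 : ℝ) ≤ ∑ i ∈ PS z Y ∩ Icc 1 z, (1 : ℝ) / i := sum_nonneg fun _ _ => by positivity
    refine le_trans ?_ (le_add_of_nonneg_right this)
    refine sum_le_sum_of_subset_of_nonneg ?_ fun _ _ _ => by positivity
    intro p hp
    rw [mem_filter, mem_Icc] at hp
    unfold PS
    rw [mem_union, mem_filter, mem_Ioc, mem_Icc]
    by_cases h : z < p
    · exact Or.inl ⟨⟨h, hp.1.2⟩, hp.2⟩
    · exact Or.inr ⟨hp.1.1, by omega⟩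
  have h3 : ∑ p ∈ Icc 1 z, (1 : ℝ) / p ≤ z := by
    calc ∑ p ∈ Icc 1 z, (1 : ℝ) / p ≤ ∑ p ∈ Icc 1 z, (1 : ℝ) := by
          refine sum_le_sum fun p hp => ?_
          rw [mem_Icc] at hp
          have : (1 : ℝ) ≤ p := by exact_mod_cast hp.1
          rw [div_le_one (by linarith)]
          exact this
      _ = z := by simp
  linarith

end Pool.Agent.H53.QT
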