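import Pool.Agent.H53.QT.Dens

/-!
# Project QT: harmonic quadruples (helper53)
-/

set_option autoImplicit false

namespace Pool.Agent.H53.QT

open Finset Filter Topology

namespace Dens

lemma fourth_one {r : ℚ} (hr : r ^ 4 = 1) : r = 1 ∨ r = -1 := by
  have h7 : (r - 1) * ((r + 1) * (r ^ 2 + 1)) = 0 := by linear_combination hr
  rcases mul_eq_zero.1 h7 with h8 | h8
  · left; linear_combination h8
  · rcases mul_eq_zero.1 h8 with h9 | h9
    · right; linear_combination h9
    · exfalso; nlinarith [sq_nonneg r]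

lemma two_fourth {s t : ℚ} (hs : s ≠ 0) (ht : t ≠ 0) (h : s ^ 4 + t ^ 4 = 2) :
    s ^ 4 = 1 ∧ t ^ 4 = 1 := by
  have h3 := Exq.fermat2 hs ht h
  exact ⟨by linear_combination (1 / 2 : ℚ) * (h + h3), by linear_combination (1 / 2 : ℚ) * (h - h3)⟩

/-- harmonic quadruples: the diagonal quartic has only the trivial points -/
lemma harm_fin {A B C : ℤ} (hA : A ≠ 0) (hB : B ≠ 0) (hC : C ≠ 0) (h0 : A + B + C = 0)
    (h : A = B ∨ B = C ∨ C = A) :
    {p : ℚ × ℚ | p.1 ≠ 0 ∧ p.2 ≠ 0 ∧
      (A : ℚ) * p.1 ^ 4 + (B : ℚ) * p.2 ^ 4 + (C : ℚ) = 0}.Finite := by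
  refine Set.Finite.subset (Set.toFinite ({(1, 1), (1, -1), (-1, 1), (-1, -1)} : Set (ℚ × ℚ))) ?_
  rintro ⟨s, t⟩ ⟨hs, ht, h1⟩
  dsimp only at hs ht h1
  have hAq : (A : ℚ) ≠ 0 := by exact_mod_cast hA
  have hBq : (B : ℚ) ≠ 0 := by exact_mod_cast hB
  have hCq : (C : ℚ) ≠ 0 := by exact_mod_cast hC
  have h0q : (A : ℚ) + B + C = 0 := by exact_mod_cast h0
  have key : s ^ 4 = 1 ∧ t ^ 4 = 1 := by
    rcases h with h | h | h
    · have hq : (A : ℚ) = B := by exact_mod_cast h
      have h2 : s ^ 4 + t ^ 4 = 2 := by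
        have h3 : (A : ℚ) * (s ^ 4 + t ^ 4 - 2) = 0 := by
          linear_combination h1 - h0q + (t ^ 4 - 1) * hq
        have := (mul_eq_zero.1 h3).resolve_left hAq
        linear_combination this
      exact two_fourth hs ht h2
    · have hq : (B : ℚ) = C := by exact_mod_cast h
      have h2 : (t / s) ^ 4 + (1 / s) ^ 4 = 2 := by
        have h3 : (B : ℚ) * (t ^ 4 + 1 - 2 * s ^ 4) = 0 := by
          linear_combination h1 - s ^ 4 * h0q - (s ^ 4 - 1) * hq
        have h4 := (mul_eq_zero.1 h3).resolve_left hBq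
        field_simp
        linear_combination h4
      obtain ⟨h5, h6⟩ := two_fourth (div_ne_zero ht hs) (one_div_ne_zero hs) h2
      have h7 : s ^ 4 = 1 := by
        rw [div_pow, one_pow, div_eq_one_iff_eq (pow_ne_zero 4 hs)] at h6
        exact h6.symm
      refine ⟨h7, ?_⟩
      rw [div_pow, h7, div_one] at h5
      exact h5
    · have hq : (C : ℚ) = A := by exact_mod_cast h
      have h2 : (s / t) ^ 4 + (1 / t) ^ 4 = 2 := by
        have h3 : (A : ℚ) * (s ^ 4 + 1 - 2 * t ^ 4) = 0 := by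
          linear_combination h1 - t ^ 4 * h0q + (t ^ 4 - 1) * hq
        have h4 := (mul_eq_zero.1 h3).resolve_left hAq
        field_simp
        linear_combination h4
      obtain ⟨h5, h6⟩ := two_fourth (div_ne_zero hs ht) (one_div_ne_zero ht) h2
      have h7 : t ^ 4 = 1 := by
        rw [div_pow, one_pow, div_eq_one_iff_eq (pow_ne_zero 4 ht)] at h6
        exact h6.symm
      refine ⟨?_, h7⟩
      rw [div_pow, h7, div_one] at h5
      exact h5
  rcases fourth_one key.1 with rfl | rfl <;> rcases fourth_one key.2 with rfl | rfl <;> simp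

end Dens

end Pool.Agent.H53.QT
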