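import Pool.Agent.H53.QT.Defs
import Pool.Graph.R_seed8.W924.TW.LINK

/-!
Project QT: the terms with two large linked variables.
-/

set_option autoImplicit false

namespace Pool.Agent.H53.QT

open Finset Pool.Agent.W262.RK Pool.Agent.W262.TW Pool.Agent.W924.TW

namespace Lk

variable {ι I : Type} [Fintype ι] [DecidableEq ι]

/-- the conditions -/
def Q (g : ι → I) (P : ι → ℕ → Prop) (R : I → ℕ → Prop) (Y V0 : ℕ) (A : Finset ι)
    (e : ι → ℕ) : Prop :=
  (∀ a, P a (e a)) ∧ (∀ a b, a ≠ b → (e a).Coprime (e b)) ∧ ∏ a, e a ≤ Y ∧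
    (∀ i, R i (∏ a ∈ @Finset.filter _ (fun a => g a = i) (fun _ => Classical.propDecidable _) univ,
      e a)) ∧ ∀ a, a ∈ A ↔ V0 < e a

/-- the conditions for the other variables -/
def QO (g : ι → I) (P : ι → ℕ → Prop) (R : I → ℕ → Prop) (V0 : ℕ) (A : Finset ι) (a0 b0 : ι)
    (e : ι → ℕ) : Prop :=
  (∀ a, a ≠ a0 → a ≠ b0 → P a (e a)) ∧
  (∀ a b, a ≠ b → a ≠ a0 → a ≠ b0 → b ≠ a0 → b ≠ b0 → (e a).Coprime (e b)) ∧
  (∀ i, i ≠ g a0 → i ≠ g b0 →
    R i (∏ a ∈ @Finset.filter _ (fun a => g a = i) (fun _ => Classical.propDecidable _) univ,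
      e a)) ∧
  ∀ a, a ≠ a0 → a ≠ b0 → (a ∈ A ↔ V0 < e a)

/-- the conditions for one variable -/
def Q1 (g : ι → I) (P : ι → ℕ → Prop) (R : I → ℕ → Prop) (a0 b0 c : ι) (e : ι → ℕ)
    (m : ℕ) : Prop :=
  P c m ∧ (∀ a, a ≠ a0 → a ≠ b0 → m.Coprime (e a)) ∧
    R (g c) (m * ∏ a ∈ @Finset.filter _ (fun a => g a = g c)
      (fun _ => Classical.propDecidable _) univ, e a)

lemma Q_iff (g : ι → I) (P : ι → ℕ → Prop) (R : I → ℕ → Prop) (Y V0 : ℕ) (A : Finset ι)
    {a0 b0 : ι} (hg : g a0 ≠ g b0)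
    (ha0 : a0 ∈ A) (hb0 : b0 ∈ A) (e : ι → ℕ) (ha : e a0 = 1) (hb : e b0 = 1)
    (hP : 0 < ∏ a, e a) (m n : ℕ) :
    Q g P R Y V0 A (upd e a0 b0 m n) ↔ QO g P R V0 A a0 b0 e ∧ Q1 g P R a0 b0 a0 e m ∧
      Q1 g P R a0 b0 b0 e n ∧ m.Coprime n ∧ (V0 < m ∧ V0 < n ∧ m * n ≤ Y / ∏ a, e a) := by
  classical
  have hne : b0 ≠ a0 := fun h => hg (by rw [h])
  have e1 := upd_a e a0 b0 m n
  have e2 := upd_b e hne m n
  have e3 : ∀ c, c ≠ a0 → c ≠ b0 → upd e a0 b0 m n c = e c := fun c h h' => upd_c e h h' m n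
  have hprod := fun S : Finset ι => prod_upd2 S e hne ha hb m n
  have hY : m * (n * ∏ a, e a) ≤ Y ↔ m * n ≤ Y / ∏ a, e a := by
    rw [Nat.le_div_iff_mul_le hP, mul_assoc]
  unfold Q QO Q1
  simp only [hprod, mem_filter, mem_univ, true_and, if_true, hY]
  constructor
  · rintro ⟨h1, h2, h3, h4, h5⟩
    refine ⟨⟨fun a p q => ?_, fun a b hab p q p' q' => ?_, fun i p q => ?_, fun a p q => ?_⟩,
      ⟨?_, fun a p q => ?_, ?_⟩, ⟨?_, fun a p q => ?_, ?_⟩, ?_, ?_, ?_, h3⟩
    · have := h1 a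
      rwa [e3 a p q] at this
    · have := h2 a b hab
      rwa [e3 a p q, e3 b p' q'] at this
    · have := h4 i
      rwa [if_neg (fun h => p h.symm), if_neg (fun h => q h.symm), one_mul, one_mul] at this
    · have := h5 a
      rwa [e3 a p q] at this
    · have := h1 a0
      rwa [e1] at this
    · have := h2 a0 a (fun h => p h.symm)
      rwa [e1, e3 a p q] at this
    · have := h4 (g a0)
      rwa [if_pos rfl, if_neg (fun h => hg h.symm), one_mul] at this
    · have := h1 b0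
      rwa [e2] at this
    · have := h2 b0 a (fun h => q h.symm)
      rwa [e2, e3 a p q] at this
    · have := h4 (g b0)
      rwa [if_neg hg, if_pos rfl, one_mul] at this
    · have := h2 a0 b0 hne.symm
      rwa [e1, e2] at this
    · have := (h5 a0).1 ha0
      rwa [e1] at this
    · have := (h5 b0).1 hb0
      rwa [e2] at this
  · rintro ⟨⟨h1, h2, h3, h4⟩, ⟨h5, h6, h7⟩, ⟨h8, h9, h10⟩, h11, h12, h13, h14⟩
    refine ⟨fun a => ?_, fun a b hab => ?_, h14, fun i => ?_, fun a => ?_⟩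
    · by_cases p : a = a0
      · rw [p, e1]; exact h5
      by_cases q : a = b0
      · rw [q, e2]; exact h8
      rw [e3 a p q]; exact h1 a p q
    · by_cases p : a = a0
      · by_cases p' : b = a0
        · exact absurd (p.trans p'.symm) hab
        by_cases q' : b = b0
        · rw [p, q', e1, e2]; exact h11
        rw [p, e1, e3 b p' q']; exact h6 b p' q'
      by_cases q : a = b0
      · by_cases p' : b = a0
        · rw [q, p', e1, e2]; exact h11.symm
        by_cases q' : b = b0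
        · exact absurd (q.trans q'.symm) hab
        rw [q, e2, e3 b p' q']; exact h9 b p' q'
      by_cases p' : b = a0
      · rw [p', e1, e3 a p q]; exact (h6 a p q).symm
      by_cases q' : b = b0
      · rw [q', e2, e3 a p q]; exact (h9 a p q).symm
      rw [e3 a p q, e3 b p' q']; exact h2 a b hab p q p' q'
    · by_cases p : i = g a0
      · rw [p, if_pos rfl, if_neg (fun h => hg h.symm), one_mul]; exact h7
      by_cases q : i = g b0
      · rw [q, if_neg hg, if_pos rfl, one_mul]; exact h10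
      rw [if_neg (fun h => p h.symm), if_neg (fun h => q h.symm), one_mul, one_mul]
      exact h3 i p q
    · by_cases p : a = a0
      · rw [p, e1]; exact iff_of_true ha0 h12
      by_cases q : a = b0
      · rw [q, e2]; exact iff_of_true hb0 h13
      rw [e3 a p q]; exact h4 a p q

omit [Fintype ι] in
lemma norm_prod_le {s : Finset ι} {f : ι → ℂ} (h : ∀ a ∈ s, ‖f a‖ ≤ 1) : ‖∏ a ∈ s, f a‖ ≤ 1 := by
  rw [norm_prod]
  exact prod_le_one (fun _ _ => norm_nonneg _) h

lemma mc_norm' {b : ℕ → ℂ} (hb : ∀ p, ‖b p‖ ≤ 1) (n : ℕ) : ‖mc b n‖ ≤ 1 := by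
  unfold mc
  rw [norm_prod]
  exact prod_le_one (fun _ _ => norm_nonneg _) fun p _ => hb p

/-- the factor of one variable -/
noncomputable def UU (K : ι → ι → ℕ → ℕ → ℂ) (a0 b0 c : ι) (e : ι → ℕ) (m : ℕ) : ℂ :=
  K c c m m * ∏ d ∈ (univ.erase a0).erase b0, (K c d m (e d) * K d c (e d) m)

/-- the factor of the other variables -/
noncomputable def WO (K : ι → ι → ℕ → ℕ → ℂ) (a0 b0 : ι) (e : ι → ℕ) : ℂ :=
  ∏ a ∈ (univ.erase a0).erase b0, ∏ d ∈ (univ.erase a0).erase b0, K a d (e a) (e d)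

lemma SK_upd (K : ι → ι → ℕ → ℕ → ℂ) {a0 b0 : ι} (hne : b0 ≠ a0) (e : ι → ℕ) (m n : ℕ) :
    SK K (upd e a0 b0 m n) = K a0 b0 m n * K b0 a0 n m * UU K a0 b0 a0 e m *
      UU K a0 b0 b0 e n * WO K a0 b0 e := by
  have e1 := upd_a e a0 b0 m n
  have e2 := upd_b e hne m n
  have e3 : ∀ c ∈ (univ.erase a0).erase b0, upd e a0 b0 m n c = e c := fun c h =>
    upd_c e (mem_erase.1 (mem_erase.1 h).2).1 (mem_erase.1 h).1 m n
  have hb : b0 ∈ univ.erase a0 := mem_erase.2 ⟨hne, mem_univ b0⟩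
  have hrow : ∀ a, ∏ b, K a b (upd e a0 b0 m n a) (upd e a0 b0 m n b) =
      K a a0 (upd e a0 b0 m n a) m * (K a b0 (upd e a0 b0 m n a) n *
        ∏ b ∈ (univ.erase a0).erase b0, K a b (upd e a0 b0 m n a) (e b)) := by
    intro a
    rw [← mul_prod_erase univ _ (mem_univ a0), ← mul_prod_erase (univ.erase a0) _ hb, e1, e2]
    congr 2
    exact prod_congr rfl fun c hc => by rw [e3 c hc]
  unfold SK
  rw [← mul_prod_erase univ _ (mem_univ a0), ← mul_prod_erase (univ.erase a0) _ hb]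
  rw [hrow a0, hrow b0, prod_congr rfl (fun a _ => hrow a), e1, e2]
  have hrest : ∏ a ∈ (univ.erase a0).erase b0, (K a a0 (upd e a0 b0 m n a) m *
      (K a b0 (upd e a0 b0 m n a) n *
        ∏ b ∈ (univ.erase a0).erase b0, K a b (upd e a0 b0 m n a) (e b))) =
      (∏ a ∈ (univ.erase a0).erase b0, K a a0 (e a) m) *
        ((∏ a ∈ (univ.erase a0).erase b0, K a b0 (e a) n) * WO K a0 b0 e) := by
    unfold WO
    rw [← prod_mul_distrib, ← prod_mul_distrib]
    exact prod_congr rfl fun c hc => by rw [e3 c hc]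
  rw [hrest]
  unfold UU
  rw [prod_mul_distrib, prod_mul_distrib]
  ring

/-- the inner sum -/
lemma inner (g : ι → I) (K : ι → ι → ℕ → ℕ → ℂ) (P : ι → ℕ → Prop) (R : I → ℕ → Prop)
    {Y V0 : ℕ} (b : ι → ℕ → ℂ) {B : ℝ} (hB : 0 ≤ B)
    (hK : ∀ a c m n, ‖K a c m n‖ ≤ 1) (hb : ∀ a p, ‖b a p‖ ≤ 1) (A : Finset ι) {a0 b0 : ι}
    (ha0 : a0 ∈ A) (hb0 : b0 ∈ A) (hL : Linked g K P V0 Y B a0 b0)
    (e : ι → ℕ) (hea : e a0 = 1) (heb : e b0 = 1) (hP : 0 < ∏ a, e a) (hV0 : 2 ≤ V0) :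
    ‖∑ n ∈ Icc 1 Y, ∑ m ∈ Icc 1 Y, @ite ℂ (Q g P R Y V0 A (upd e a0 b0 m n))
      (Classical.propDecidable _)
      ((∏ a, mc (b a) (upd e a0 b0 m n a)) * SK K (upd e a0 b0 m n)) 0‖ ≤
      B * (Y * ∏ a, (1 / (e a : ℝ))) := by
  classical
  obtain ⟨hg, hcop, hbil⟩ := hL
  have hne : b0 ≠ a0 := fun h => hg (by rw [h])
  set T : ℕ := Y / ∏ a, e a with hT
  set α : ℕ → ℂ := fun m => if Q1 g P R a0 b0 a0 e m then
    mc (b a0) m * UU K a0 b0 a0 e m else 0 with hα
  set β : ℕ → ℂ := fun n => if Q1 g P R a0 b0 b0 e n then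
    mc (b b0) n * UU K a0 b0 b0 e n else 0 with hβ
  set c : ℂ := if QO g P R V0 A a0 b0 e then (∏ a ∈ (univ.erase a0).erase b0, mc (b a) (e a)) *
    WO K a0 b0 e else 0 with hc
  have hUU : ∀ d m, ‖UU K a0 b0 d e m‖ ≤ 1 := by
    intro d m
    unfold UU
    rw [norm_mul]
    refine mul_le_one₀ (hK _ _ _ _) (norm_nonneg _) (norm_prod_le fun a _ => ?_)
    rw [norm_mul]
    exact mul_le_one₀ (hK _ _ _ _) (norm_nonneg _) (hK _ _ _ _)
  have hα1 : ∀ m, ‖α m‖ ≤ 1 := by
    intro m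
    simp only [hα]
    split_ifs
    · rw [norm_mul]
      exact mul_le_one₀ (mc_norm' (hb a0) m) (norm_nonneg _) (hUU _ _)
    · simp
  have hβ1 : ∀ m, ‖β m‖ ≤ 1 := by
    intro m
    simp only [hβ]
    split_ifs
    · rw [norm_mul]
      exact mul_le_one₀ (mc_norm' (hb b0) m) (norm_nonneg _) (hUU _ _)
    · simp
  have hα2 : ∀ m, α m ≠ 0 → P a0 m := by
    intro m hm
    simp only [hα] at hm
    split_ifs at hm with h
    · exact h.1
    · exact absurd rfl hm
  have hβ2 : ∀ m, β m ≠ 0 → P b0 m := by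
    intro m hm
    simp only [hβ] at hm
    split_ifs at hm with h
    · exact h.1
    · exact absurd rfl hm
  have hc1 : ‖c‖ ≤ 1 := by
    simp only [hc]
    split_ifs
    · rw [norm_mul]
      refine mul_le_one₀ (norm_prod_le fun a _ => mc_norm' (hb a) _) (norm_nonneg _) ?_
      unfold WO
      exact norm_prod_le fun a _ => norm_prod_le fun d _ => hK _ _ _ _
    · simp
  -- the summand
  have hterm : ∀ m n : ℕ, @ite ℂ (Q g P R Y V0 A (upd e a0 b0 m n))
      (Classical.propDecidable _)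
      ((∏ a, mc (b a) (upd e a0 b0 m n a)) * SK K (upd e a0 b0 m n)) 0 =
      if V0 < m ∧ V0 < n ∧ m * n ≤ T then c * (α m * β n * (K a0 b0 m n * K b0 a0 n m)) else 0 := by
    intro m n
    have hQ := Q_iff g P R Y V0 A hg ha0 hb0 e hea heb hP m n
    by_cases hV : V0 < m ∧ V0 < n ∧ m * n ≤ T
    · rw [if_pos hV]
      by_cases hQ' : Q g P R Y V0 A (upd e a0 b0 m n)
      · rw [if_pos hQ']
        obtain ⟨k1, k2, k3, k4, -⟩ := hQ.1 hQ'
        simp only [hα, hβ, hc, if_pos k1, if_pos k2, if_pos k3]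
        have hm : ∏ a, mc (b a) (upd e a0 b0 m n a) = mc (b a0) m * (mc (b b0) n *
            ∏ a ∈ (univ.erase a0).erase b0, mc (b a) (e a)) := by
          rw [← mul_prod_erase univ _ (mem_univ a0), upd_a,
            ← mul_prod_erase (univ.erase a0) _ (mem_erase.2 ⟨hne, mem_univ b0⟩), upd_b e hne]
          congr 2
          refine prod_congr rfl fun k hk => ?_
          rw [upd_c e (mem_erase.1 (mem_erase.1 hk).2).1 (mem_erase.1 hk).1]
        rw [hm, SK_upd K hne]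
        ring
      · rw [if_neg hQ']
        by_cases k1 : QO g P R V0 A a0 b0 e
        · by_cases k2 : Q1 g P R a0 b0 a0 e m
          · by_cases k3 : Q1 g P R a0 b0 b0 e n
            · have k4 : ¬ m.Coprime n := fun k4 => hQ' (hQ.2 ⟨k1, k2, k3, k4, hV⟩)
              rw [hcop m n k2.1 k3.1 k4]
              ring
            · simp only [hβ, if_neg k3]
              ring
          · simp only [hα, if_neg k2]
            ring
        · simp only [hc, if_neg k1]
          ring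
    · rw [if_neg hV, if_neg fun h => hV (hQ.1 h).2.2.2.2]
  have hTY : T ≤ Y := Nat.div_le_self _ _
  have hsum : ∑ n ∈ Icc 1 Y, ∑ m ∈ Icc 1 Y, @ite ℂ (Q g P R Y V0 A (upd e a0 b0 m n))
      (Classical.propDecidable _)
      ((∏ a, mc (b a) (upd e a0 b0 m n a)) * SK K (upd e a0 b0 m n)) 0 =
      c * ∑ m ∈ Ioc V0 T, ∑ n ∈ (Ioc V0 T).filter (fun n => m * n ≤ T),
        α m * β n * (K a0 b0 m n * K b0 a0 n m) := by
    rw [sum_comm, mul_sum]
    have hstep : ∀ m ∈ Icc 1 Y, (∑ n ∈ Icc 1 Y, @ite ℂ (Q g P R Y V0 A (upd e a0 b0 m n))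
      (Classical.propDecidable _)
      ((∏ a, mc (b a) (upd e a0 b0 m n a)) * SK K (upd e a0 b0 m n)) 0) =
        ∑ n ∈ Icc 1 Y, if V0 < m ∧ V0 < n ∧ m * n ≤ T then
          c * (α m * β n * (K a0 b0 m n * K b0 a0 n m)) else 0 := by
      intro m _
      refine sum_congr rfl fun n _ => hterm m n
    rw [sum_congr rfl hstep]
    symm
    rw [← sum_subset (s₁ := Ioc V0 T) (s₂ := Icc 1 Y)]
    · refine sum_congr rfl fun m hm => ?_
      rw [mem_Ioc] at hm
      rw [mul_sum, sum_filter]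
      rw [← sum_subset (s₁ := Ioc V0 T) (s₂ := Icc 1 Y)]
      · refine sum_congr rfl fun n hn => ?_
        rw [mem_Ioc] at hn
        by_cases h : m * n ≤ T
        · rw [if_pos h, if_pos ⟨hm.1, hn.1, h⟩]
        · rw [if_neg h, if_neg fun h' => h h'.2.2]
      · intro n hn
        rw [mem_Ioc] at hn
        rw [mem_Icc]
        omega
      · intro n hn hn'
        rw [mem_Icc] at hn
        rw [mem_Ioc] at hn'
        rw [if_neg]
        rintro ⟨-, k1, k2⟩
        apply hn'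
        refine ⟨k1, le_trans ?_ k2⟩
        exact Nat.le_mul_of_pos_left n (by omega)
    · intro m hm
      rw [mem_Ioc] at hm
      rw [mem_Icc]
      omega
    · intro m hm hm'
      rw [mem_Icc] at hm
      rw [mem_Ioc] at hm'
      refine sum_eq_zero fun n hn => ?_
      rw [mem_Icc] at hn
      rw [if_neg]
      rintro ⟨k0, k1, k2⟩
      apply hm'
      refine ⟨k0, le_trans ?_ k2⟩
      exact Nat.le_mul_of_pos_right m (by omega)
  rw [hsum, norm_mul]
  have hprod : ∏ a, (1 / (e a : ℝ)) = 1 / ((∏ a, e a : ℕ) : ℝ) := by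
    rw [prod_div_distrib, prod_const_one]
    push_cast
    rfl
  have hTR : (T : ℝ) ≤ Y * ∏ a, (1 / (e a : ℝ)) := by
    rw [hprod, mul_one_div]
    exact Nat.cast_div_le
  have hbd : ‖∑ m ∈ Ioc V0 T, ∑ n ∈ (Ioc V0 T).filter (fun n => m * n ≤ T),
      α m * β n * (K a0 b0 m n * K b0 a0 n m)‖ ≤ B * (Y * ∏ a, (1 / (e a : ℝ))) := by
    rcases lt_or_ge T 2 with hT2 | hT2
    · rw [Ioc_eq_empty (by omega), sum_empty, norm_zero]
      exact mul_nonneg hB ((Nat.cast_nonneg T).trans hTR)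
    · exact (hbil T hT2 hTY α β hα1 hβ1 hα2 hβ2).trans (mul_le_mul_of_nonneg_left hTR hB)
  calc ‖c‖ * _ ≤ 1 * _ := mul_le_mul_of_nonneg_right hc1 (norm_nonneg _)
    _ = _ := one_mul _
    _ ≤ _ := hbd

end Lk

theorem link4 : LINK4 := by
  classical
  intro ι I _ _ g K P R Y V0 b B A a0 b0 hY hV0 hB hK hb ha0 hb0 hL
  have hg : g a0 ≠ g b0 := hL.1
  have hne : b0 ≠ a0 := fun h => hg (by rw [h])
  have hsum : ∑ e ∈ (TP g P R Y).filter (fun e => ∀ a, a ∈ A ↔ V0 < e a),
      (∏ a, mc (b a) (e a)) * SK K e =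
      ∑ e ∈ Fintype.piFinset (fun _ : ι => Icc 1 Y), @ite ℂ (Lk.Q g P R Y V0 A e)
        (Classical.propDecidable _) ((∏ a, mc (b a) (e a)) * SK K e) 0 := by
    rw [sum_filter]
    unfold TP
    rw [sum_filter]
    refine sum_congr rfl fun e _ => ?_
    unfold Lk.Q
    by_cases k1 : ∀ a, P a (e a)
    · by_cases k2 : ∀ a b, a ≠ b → (e a).Coprime (e b)
      · by_cases k3 : ∏ a, e a ≤ Y
        · by_cases k4 : ∀ i, R i (∏ a ∈ univ.filter (fun a => g a = i), e a)
          · by_cases k5 : ∀ a, a ∈ A ↔ V0 < e a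
            · rw [if_pos ⟨k1, k2, k3, k4⟩, if_pos k5, if_pos ⟨k1, k2, k3, k4, k5⟩]
            · rw [if_pos ⟨k1, k2, k3, k4⟩, if_neg k5, if_neg fun h => k5 h.2.2.2.2]
          · rw [if_neg fun h => k4 h.2.2.2, if_neg fun h => k4 h.2.2.2.1]
        · rw [if_neg fun h => k3 h.2.2.1, if_neg fun h => k3 h.2.2.1]
      · rw [if_neg fun h => k2 h.2.1, if_neg fun h => k2 h.2.1]
    · rw [if_neg fun h => k1 h.1, if_neg fun h => k1 h.1]
  rw [hsum, sum_update _ a0, sum_update _ b0, Function.update_of_ne hne]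
  set t : ι → Finset ℕ := Function.update (Function.update (fun _ : ι => Icc 1 Y) a0 {1}) b0 {1}
    with ht
  have hlogY : 1 ≤ Real.log Y := by
    rw [Real.le_log_iff_exp_le (by positivity)]
    have h3 : (3 : ℝ) ≤ Y := by exact_mod_cast hY
    linarith [Real.exp_one_lt_d9]
  have hlog0 : 0 ≤ Real.log Y := zero_le_one.trans hlogY
  have hmem : ∀ e ∈ Fintype.piFinset t, e a0 = 1 ∧ e b0 = 1 ∧ 0 < ∏ a, e a := by
    intro e he
    rw [Fintype.mem_piFinset] at he
    have k1 : e b0 = 1 := by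
      have := he b0
      rw [ht, Function.update_self, mem_singleton] at this
      exact this
    have k2 : e a0 = 1 := by
      have := he a0
      rw [ht, Function.update_of_ne hne.symm, Function.update_self, mem_singleton] at this
      exact this
    refine ⟨k2, k1, prod_pos fun a _ => ?_⟩
    by_cases p : a = a0
    · rw [p, k2]; exact one_pos
    by_cases q : a = b0
    · rw [q, k1]; exact one_pos
    have := he a
    rw [ht, Function.update_of_ne q, Function.update_of_ne p, mem_Icc] at this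
    exact this.1
  have hbd : ∀ e ∈ Fintype.piFinset t,
      ‖∑ n ∈ Icc 1 Y, ∑ m ∈ Icc 1 Y, @ite ℂ (Lk.Q g P R Y V0 A (upd e a0 b0 m n))
      (Classical.propDecidable _)
      ((∏ a, mc (b a) (upd e a0 b0 m n a)) * SK K (upd e a0 b0 m n)) 0‖ ≤
      B * (Y * ∏ a, (1 / (e a : ℝ))) := by
    intro e he
    obtain ⟨k1, k2, k3⟩ := hmem e he
    exact Lk.inner g K P R b hB hK hb A ha0 hb0 hL e k1 k2 k3 hV0
  have hharm : ∀ a, ∑ m ∈ t a, (1 / (m : ℝ)) ≤ 1 + Real.log Y := by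
    intro a
    by_cases q : a = b0
    · rw [ht, q, Function.update_self, sum_singleton]
      simp only [Nat.cast_one, div_one]
      linarith
    by_cases p : a = a0
    · rw [ht, Function.update_of_ne q, p, Function.update_self, sum_singleton]
      simp only [Nat.cast_one, div_one]
      linarith
    rw [ht, Function.update_of_ne q, Function.update_of_ne p]
    have h3 := harmonic_le_one_add_log Y
    rw [harmonic_eq_sum_Icc] at h3
    push_cast at h3
    simpa [one_div] using h3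
  have hprod : ∑ e ∈ Fintype.piFinset t, ∏ a, (1 / (e a : ℝ)) ≤
      (2 * Real.log Y) ^ Fintype.card ι := by
    calc ∑ e ∈ Fintype.piFinset t, ∏ a, (1 / (e a : ℝ)) = ∏ a, ∑ m ∈ t a, (1 / (m : ℝ)) :=
          (prod_univ_sum t (fun _ m => (1 / (m : ℝ)))).symm
      _ ≤ ∏ _a : ι, (2 * Real.log Y) := by
          refine prod_le_prod (fun a _ => sum_nonneg fun m _ => by positivity) fun a _ => ?_
          exact (hharm a).trans (by linarith)
      _ = (2 * Real.log Y) ^ Fintype.card ι := by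
          rw [prod_const, card_univ]
  refine (norm_sum_le _ _).trans ((sum_le_sum hbd).trans ?_)
  calc ∑ e ∈ Fintype.piFinset t, B * (Y * ∏ a, (1 / (e a : ℝ)))
      = (B * Y) * ∑ e ∈ Fintype.piFinset t, ∏ a, (1 / (e a : ℝ)) := by
        rw [mul_sum]
        exact sum_congr rfl fun e _ => by ring
    _ ≤ (B * Y) * (2 * Real.log Y) ^ Fintype.card ι :=
        mul_le_mul_of_nonneg_left hprod (by positivity)
    _ = B * (2 * Real.log Y) ^ Fintype.card ι * Y := by ring

end Pool.Agent.H53.QT
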