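import Pool.Agent.H53.QT.Bl4
import Pool.Graph.R_seed8.W262.TW.Full

/-!
# The linked indices (project QT)
-/

set_option autoImplicit false

namespace Pool.Agent.H53.QT

open Finset Pool.Agent.W262.RK Pool.Agent.W262.TW

lemma BIL_swap {k : ℕ → ℕ → ℂ} {Pa Pb : ℕ → Prop} {V0 Y : ℕ} {B : ℝ} (h : BIL k Pa Pb V0 Y B) :
    BIL (fun n m => k m n) Pb Pa V0 Y B := by
  intro T hT hTY α β hα hβ hα' hβ'
  have h1 := h T hT hTY β α hβ hα hβ' hα'
  have h2 : ∑ m ∈ Ioc V0 T, ∑ n ∈ (Ioc V0 T).filter (fun n => m * n ≤ T), α m * β n * k n m =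
      ∑ m ∈ Ioc V0 T, ∑ n ∈ (Ioc V0 T).filter (fun n => m * n ≤ T), β m * α n * k m n := by
    simp_rw [sum_filter]
    rw [sum_comm]
    refine sum_congr rfl fun n _ => sum_congr rfl fun m _ => ?_
    rw [mul_comm m n, mul_comm (α m) (β n)]
  rw [h2]
  exact h1

lemma Linked_symm {ι I : Type} {g : ι → I} {K : ι → ι → ℕ → ℕ → ℂ} {P : ι → ℕ → Prop} {V0 Y : ℕ}
    {B : ℝ} {a c : ι} (h : Linked g K P V0 Y B a c) : Linked g K P V0 Y B c a := by
  obtain ⟨h1, h2, h3⟩ := h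
  refine ⟨h1.symm, fun m n hm hn hmn => ?_, ?_⟩
  · rw [mul_comm]
    exact h2 n m hn hm fun h => hmn h.symm
  · have h4 := BIL_swap h3
    intro T hT hTY α β hα hβ hα' hβ'
    have h5 := h4 T hT hTY α β hα hβ hα' hβ'
    have h6 : (fun m n => K c a m n * K a c n m) = fun m n => K a c n m * K c a m n := by
      funext m n
      rw [mul_comm]
    simp only at h5 ⊢
    rw [show (∑ m ∈ Ioc V0 T, ∑ n ∈ (Ioc V0 T).filter (fun n => m * n ≤ T),
      α m * β n * (K c a m n * K a c n m)) = ∑ m ∈ Ioc V0 T,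
      ∑ n ∈ (Ioc V0 T).filter (fun n => m * n ≤ T), α m * β n * (K a c n m * K c a m n) from
      sum_congr rfl fun m _ => sum_congr rfl fun n _ => by rw [mul_comm (K c a m n)]]
    exact h5

lemma BIL_congr {k k' : ℕ → ℕ → ℂ} {Pa Pb : ℕ → Prop} {V0 Y : ℕ} {B : ℝ}
    (hk : ∀ m n, V0 < m → V0 < n → Pa m → Pb n → k m n = k' m n) (h : BIL k' Pa Pb V0 Y B) :
    BIL k Pa Pb V0 Y B := by
  intro T hT hTY α β hα hβ hα' hβ'
  have h1 := h T hT hTY α β hα hβ hα' hβ'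
  have h2 : ∑ m ∈ Ioc V0 T, ∑ n ∈ (Ioc V0 T).filter (fun n => m * n ≤ T), α m * β n * k m n =
      ∑ m ∈ Ioc V0 T, ∑ n ∈ (Ioc V0 T).filter (fun n => m * n ≤ T), α m * β n * k' m n := by
    refine sum_congr rfl fun m hm => sum_congr rfl fun n hn => ?_
    rw [mem_Ioc] at hm
    rw [mem_filter, mem_Ioc] at hn
    by_cases h3 : α m = 0
    · rw [h3]; ring
    by_cases h4 : β n = 0
    · rw [h4]; ring
    rw [hk m n hm.1 hn.1.1 (hα' m h3) (hβ' n h4)]
  rw [h2]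
  exact h1

lemma BIL_mono {k : ℕ → ℕ → ℂ} {Pa Pb Pa' Pb' : ℕ → Prop} {V0 Y : ℕ} {B B' : ℝ} (hB : B ≤ B')
    (ha : ∀ m, V0 < m → Pa m → Pa' m) (hb : ∀ m, V0 < m → Pb m → Pb' m)
    (h : BIL k Pa' Pb' V0 Y B) : BIL k Pa Pb V0 Y B' := by
  intro T hT hTY α β hα hβ hα' hβ'
  classical
  have h1 := h T hT hTY (fun m => if V0 < m then α m else 0) (fun m => if V0 < m then β m else 0)
    (fun m => by split_ifs; exacts [hα m, by simp])
    (fun m => by split_ifs; exacts [hβ m, by simp])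
    (fun m hm => by
      split_ifs at hm with h3
      · exact ha m h3 (hα' m hm)
      · exact absurd rfl hm)
    (fun m hm => by
      split_ifs at hm with h3
      · exact hb m h3 (hβ' m hm)
      · exact absurd rfl hm)
  have h2 : ∑ m ∈ Ioc V0 T, ∑ n ∈ (Ioc V0 T).filter (fun n => m * n ≤ T), α m * β n * k m n =
      ∑ m ∈ Ioc V0 T, ∑ n ∈ (Ioc V0 T).filter (fun n => m * n ≤ T),
        (if V0 < m then α m else 0) * (if V0 < n then β n else 0) * k m n := by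
    refine sum_congr rfl fun m hm => sum_congr rfl fun n hn => ?_
    rw [mem_Ioc] at hm
    rw [mem_filter, mem_Ioc] at hn
    rw [if_pos hm.1, if_pos hn.1.1]
  rw [h2]
  refine h1.trans ?_
  exact mul_le_mul_of_nonneg_right hB (Nat.cast_nonneg _)

/-- the Jacobi symbol -/
lemma BIL_Jr (hBLT : BLT) : ∃ (C : ℝ) (E : ℕ), 0 ≤ C ∧ ∀ V0 Y : ℕ, 2 ≤ V0 → 3 ≤ Y →
    BIL (fun m n => ((Jr m n : ℝ) : ℂ)) (fun m => Odd m ∧ Squarefree m)
      (fun n => Odd n ∧ Squarefree n) V0 Y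
      (C * (Real.log Y) ^ E * (V0 : ℝ) ^ (-(1 / 24 : ℝ))) := by
  obtain ⟨C, E, hC⟩ := hBLT
  refine ⟨4 * |C|, E, by positivity, ?_⟩
  intro V0 Y hV hY T hT hTY α β hα hβ hα' hβ'
  have hre : ∀ (z : ℂ), ‖z‖ ≤ 1 → |z.re| ≤ 1 ∧ |z.im| ≤ 1 := fun z hz =>
    ⟨(Complex.abs_re_le_norm z).trans hz, (Complex.abs_im_le_norm z).trans hz⟩
  have hT0 : (0 : ℝ) < T := by
    have : 0 < T := by omega
    exact_mod_cast this
  have hlT : Real.log T ≤ Real.log Y := Real.log_le_log hT0 (by exact_mod_cast hTY)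
  have hlT0 : 0 ≤ Real.log T := Real.log_natCast_nonneg T
  set W : ℝ := |C| * (Real.log Y) ^ E * T * (V0 : ℝ) ^ (-(1 / 24 : ℝ)) with hW
  have hb : ∀ a b : ℕ → ℝ, (∀ m, |a m| ≤ 1) → (∀ m, |b m| ≤ 1) →
      (∀ m, a m ≠ 0 → Odd m ∧ Squarefree m) → (∀ m, b m ≠ 0 → Odd m ∧ Squarefree m) →
      ‖((∑ m ∈ Ioc V0 T, ∑ n ∈ (Ioc V0 T).filter (fun n => m * n ≤ T), a m * b n * Jr m n : ℝ) : ℂ)‖
        ≤ W := by
    intro a b ha hb ha' hb'
    rw [Complex.norm_real, Real.norm_eq_abs]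
    refine (hC V0 T hV hT a b ha hb ha' hb').trans ?_
    rw [hW]
    gcongr
    exact le_abs_self C
  have hsplit : ∑ m ∈ Ioc V0 T, ∑ n ∈ (Ioc V0 T).filter (fun n => m * n ≤ T),
      α m * β n * ((Jr m n : ℝ) : ℂ) =
      ((∑ m ∈ Ioc V0 T, ∑ n ∈ (Ioc V0 T).filter (fun n => m * n ≤ T),
        (α m).re * (β n).re * Jr m n : ℝ) : ℂ) -
      ((∑ m ∈ Ioc V0 T, ∑ n ∈ (Ioc V0 T).filter (fun n => m * n ≤ T),
        (α m).im * (β n).im * Jr m n : ℝ) : ℂ) +
      Complex.I * (((∑ m ∈ Ioc V0 T, ∑ n ∈ (Ioc V0 T).filter (fun n => m * n ≤ T),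
        (α m).re * (β n).im * Jr m n : ℝ) : ℂ) +
      ((∑ m ∈ Ioc V0 T, ∑ n ∈ (Ioc V0 T).filter (fun n => m * n ≤ T),
        (α m).im * (β n).re * Jr m n : ℝ) : ℂ)) := by
    push_cast
    rw [← sum_sub_distrib, ← sum_add_distrib, mul_sum, ← sum_add_distrib]
    refine sum_congr rfl fun m _ => ?_
    rw [← sum_sub_distrib, ← sum_add_distrib, mul_sum, ← sum_add_distrib]
    refine sum_congr rfl fun n _ => ?_
    conv_lhs => rw [← Complex.re_add_im (α m), ← Complex.re_add_im (β n)]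
    linear_combination ((α m).im * (β n).im * (Jr m n : ℂ)) * Complex.I_sq
  simp only
  rw [hsplit]
  have s1 := hb (fun m => (α m).re) (fun n => (β n).re) (fun m => (hre _ (hα m)).1)
    (fun m => (hre _ (hβ m)).1) (fun m hm => hα' m fun h => hm (by simp [h]))
    (fun m hm => hβ' m fun h => hm (by simp [h]))
  have s2 := hb (fun m => (α m).im) (fun n => (β n).im) (fun m => (hre _ (hα m)).2)
    (fun m => (hre _ (hβ m)).2) (fun m hm => hα' m fun h => hm (by simp [h]))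
    (fun m hm => hβ' m fun h => hm (by simp [h]))
  have s3 := hb (fun m => (α m).re) (fun n => (β n).im) (fun m => (hre _ (hα m)).1)
    (fun m => (hre _ (hβ m)).2) (fun m hm => hα' m fun h => hm (by simp [h]))
    (fun m hm => hβ' m fun h => hm (by simp [h]))
  have s4 := hb (fun m => (α m).im) (fun n => (β n).re) (fun m => (hre _ (hα m)).2)
    (fun m => (hre _ (hβ m)).1) (fun m hm => hα' m fun h => hm (by simp [h]))
    (fun m hm => hβ' m fun h => hm (by simp [h]))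
  refine (norm_add_le _ _).trans ?_
  rw [norm_mul, Complex.norm_I, one_mul]
  have t1 := norm_sub_le
    ((∑ m ∈ Ioc V0 T, ∑ n ∈ (Ioc V0 T).filter (fun n => m * n ≤ T),
        (α m).re * (β n).re * Jr m n : ℝ) : ℂ)
    ((∑ m ∈ Ioc V0 T, ∑ n ∈ (Ioc V0 T).filter (fun n => m * n ≤ T),
        (α m).im * (β n).im * Jr m n : ℝ) : ℂ)
  have t2 := norm_add_le
    ((∑ m ∈ Ioc V0 T, ∑ n ∈ (Ioc V0 T).filter (fun n => m * n ≤ T),
        (α m).re * (β n).im * Jr m n : ℝ) : ℂ)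
    ((∑ m ∈ Ioc V0 T, ∑ n ∈ (Ioc V0 T).filter (fun n => m * n ≤ T),
        (α m).im * (β n).re * Jr m n : ℝ) : ℂ)
  have hfin : 4 * W = 4 * |C| * (Real.log Y) ^ E * (V0 : ℝ) ^ (-(1 / 24 : ℝ)) * T := by
    rw [hW]; ring
  rw [← hfin]
  linarith

/-! ## The kernels -/

lemma sy_zero (m : ℕ) (n : ℤ) : sy 0 m n = 1 := by
  unfold sy
  refine prod_eq_one fun p _ => ?_
  unfold sp
  rw [if_pos rfl]

lemma Jr_prod_right (s : Finset ℕ) (a : ℤ) (hs : ∀ p ∈ s, p.Prime) :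
    Jr a (∏ p ∈ s, p) = ∏ p ∈ s, Jr a p := by
  classical
  induction s using Finset.induction_on with
  | empty => simp [Jr]
  | insert p s hp ih =>
    rw [prod_insert hp, prod_insert hp, ← ih fun q hq => hs q (mem_insert_of_mem hq)]
    unfold Jr
    haveI : NeZero p := ⟨(hs p (mem_insert_self p s)).ne_zero⟩
    haveI : NeZero (∏ q ∈ s, q) :=
      ⟨prod_ne_zero_iff.2 fun q hq => (hs q (mem_insert_of_mem hq)).ne_zero⟩
    rw [jacobiSym.mul_right]
    push_cast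
    rfl

lemma sy_two {m : ℕ} (hm : Squarefree m) (n : ℤ) : sy 2 m n = ((Jr n m : ℝ) : ℂ) := by
  unfold sy
  have h1 : ∀ p ∈ m.primeFactors, sp 2 p n = ((Jr n p : ℝ) : ℂ) := by
    intro p _
    unfold sp
    rw [if_neg (by decide), if_pos rfl]
  rw [prod_congr rfl h1]
  conv_rhs => rw [← Nat.prod_primeFactors_of_squarefree hm,
    Jr_prod_right _ _ fun p hp => Nat.prime_of_mem_primeFactors hp]
  push_cast
  rfl

lemma Jr_zero_of {m n : ℕ} (hm : m ≠ 0) (h : ¬ m.Coprime n) : Jr (n : ℤ) m = 0 := by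
  unfold Jr
  haveI : NeZero m := ⟨hm⟩
  have : jacobiSym (n : ℤ) m = 0 := by
    rw [jacobiSym.eq_zero_iff_not_coprime]
    rw [Int.gcd_natCast_natCast]
    intro h'
    exact h (by rw [Nat.coprime_comm]; exact h')
  rw [this]
  norm_num

lemma mod_four {m : ℕ} (hm : Squarefree m) (h4 : ∀ p : ℕ, p.Prime → p ∣ m → p % 4 = 1) :
    m % 4 = 1 := by
  have h1 : ((m : ℕ) : ZMod 4) = 1 := by
    rw [← Nat.prod_primeFactors_of_squarefree hm]
    push_cast
    refine prod_eq_one fun p hp => ?_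
    have h2 := h4 p (Nat.prime_of_mem_primeFactors hp) (Nat.dvd_of_mem_primeFactors hp)
    have h3 : ((p : ℕ) : ZMod 4) = ((1 : ℕ) : ZMod 4) := by
      rw [ZMod.natCast_eq_natCast_iff]
      show p % 4 = 1 % 4
      rw [h2]
    rw [h3]
    norm_num
  have h2 : ((m : ℕ) : ZMod 4) = ((1 : ℕ) : ZMod 4) := by rw [h1]; norm_num
  rw [ZMod.natCast_eq_natCast_iff] at h2
  have h3 : m % 4 = 1 % 4 := h2
  omega

lemma sp_add_two {e : ZMod 4} (he : e = 1 ∨ e = 3) {p : ℕ} (hp : p.Prime) (h4 : p % 4 = 1)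
    (n : ℤ) : sp e p n * sp 2 p n = sp (e + 2) p n := by
  obtain ⟨-, -, c3, c4, -⟩ := chi p hp h4
  have h2 : sp 2 p n = ((Jr n p : ℝ) : ℂ) := by
    unfold sp
    rw [if_neg (by decide), if_pos rfl]
  have h1 : sp 1 p n = q4 p n := by
    unfold sp
    rw [if_neg (by decide), if_neg (by decide), if_pos rfl]
  have h3 : sp 3 p n = (starRingEnd ℂ) (q4 p n) := by
    unfold sp
    rw [if_neg (by decide), if_neg (by decide), if_neg (by decide)]
  by_cases hd : (p : ℤ) ∣ n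
  · have h0 := c3 n hd
    rcases he with rfl | rfl
    · rw [show (1 : ZMod 4) + 2 = 3 by decide, h1, h3, h0]
      simp
    · rw [show (3 : ZMod 4) + 2 = 1 by decide, h1, h3, h0]
      simp
  · obtain ⟨d1, d2, d3⟩ := c4 n hd
    have hconj : q4 p n * (starRingEnd ℂ) (q4 p n) = 1 := by
      rw [Complex.mul_conj', d3]
      norm_num
    have hq0 : q4 p n ≠ 0 := by
      intro h
      rw [h] at d3
      simp at d3
    have h5 : (starRingEnd ℂ) (q4 p n) = q4 p n ^ 3 := by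
      apply mul_left_cancel₀ hq0
      rw [hconj, ← d2]
      ring
    rcases he with rfl | rfl
    · rw [show (1 : ZMod 4) + 2 = 3 by decide, h1, h3, h2, ← d1, h5]
      ring
    · rw [show (3 : ZMod 4) + 2 = 1 by decide, h1, h3, h2, ← d1, h5]
      calc q4 p n ^ 3 * q4 p n ^ 2 = q4 p n ^ 4 * q4 p n := by ring
        _ = q4 p n := by rw [d2, one_mul]

lemma sy_add_two {e : ZMod 4} (he : e = 1 ∨ e = 3) {m : ℕ}
    (h4 : ∀ p : ℕ, p.Prime → p ∣ m → p % 4 = 1) (n : ℤ) :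
    sy e m n * sy 2 m n = sy (e + 2) m n := by
  unfold sy
  rw [← prod_mul_distrib]
  refine prod_congr rfl fun p hp => ?_
  exact sp_add_two he (Nat.prime_of_mem_primeFactors hp)
    (h4 p (Nat.prime_of_mem_primeFactors hp) (Nat.dvd_of_mem_primeFactors hp)) n

lemma rg_odd {z m : ℕ} (hz : 2 ≤ z) (h : Rg z m) : Odd m ∧ Squarefree m := by
  refine ⟨?_, h.1⟩
  rw [← Nat.not_even_iff_odd, even_iff_two_dvd]
  intro h2
  have := h.2 2 Nat.prime_two h2
  omega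

lemma cl_zero {W N p : ℕ} (h : cl W N p = 0) : p ≤ W ∧ p % 4 = 1 := by
  unfold cl at h
  split_ifs at h with h1 h2
  · exact h1
  · exact absurd h (by decide)
  · exact absurd h (by decide)

lemma cl_two {W N p : ℕ} (h : cl W N p = 2) : N < p := by
  unfold cl at h
  split_ifs at h with h1 h2
  · exact absurd h (by decide)
  · exact h2
  · exact absurd h (by decide)

lemma KK_ne {a c : Ix} (h : gI a ≠ gI c) (m n : ℕ) : KK a c m n = sy (eI a (gI c)) m (n : ℤ) := by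
  unfold KK
  rw [if_neg h]

theorem linkedI : ∃ (C1 : ℝ) (E : ℕ), ∀ (z W N M V0 Y : ℕ), 2 ≤ z → 2 ≤ V0 → 3 ≤ Y → M ^ 4 ≤ N →
    ∀ a c : Ix, LkI a c → Linked gI KK (PM z W N M) V0 Y
      (C1 * (Real.log Y) ^ E * (V0 : ℝ) ^ (-(1 / 24 : ℝ))) a c := by
  obtain ⟨C, E, hC0, hJ⟩ := BIL_Jr blt_all
  obtain ⟨C', hC'⟩ := bl4
  refine ⟨C + |C'|, E + 1, ?_⟩
  intro z W N M V0 Y hz hV0 hY hMN
  have hlY : 1 ≤ Real.log Y := by
    have hYr : (3 : ℝ) ≤ Y := by exact_mod_cast hY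
    rw [Real.le_log_iff_exp_le (by linarith)]
    have := Real.exp_one_lt_d9
    linarith
  have hw0 : (0 : ℝ) ≤ (V0 : ℝ) ^ (-(1 / 24 : ℝ)) := by positivity
  have hp1 : (Real.log Y) ^ E ≤ (Real.log Y) ^ (E + 1) :=
    pow_le_pow_right₀ hlY (Nat.le_succ E)
  have hp2 : Real.log Y ≤ (Real.log Y) ^ (E + 1) := by
    calc Real.log Y = (Real.log Y) ^ 1 := (pow_one _).symm
      _ ≤ _ := pow_le_pow_right₀ hlY (by omega)
  have hb1 : C * (Real.log Y) ^ E * (V0 : ℝ) ^ (-(1 / 24 : ℝ)) ≤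
      (C + |C'|) * (Real.log Y) ^ (E + 1) * (V0 : ℝ) ^ (-(1 / 24 : ℝ)) := by
    have := abs_nonneg C'
    gcongr
    linarith
  have hb2 : C' * Real.log Y * (V0 : ℝ) ^ (-(1 / 24 : ℝ)) ≤
      (C + |C'|) * (Real.log Y) ^ (E + 1) * (V0 : ℝ) ^ (-(1 / 24 : ℝ)) := by
    have := le_abs_self C'
    have := abs_nonneg C'
    gcongr
    linarith
  -- the case (2, 0)
  have hA : ∀ a c : Ix, gI a ≠ gI c → eI a (gI c) = 2 → eI c (gI a) = 0 →
      Linked gI KK (PM z W N M) V0 Y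
      ((C + |C'|) * (Real.log Y) ^ (E + 1) * (V0 : ℝ) ^ (-(1 / 24 : ℝ))) a c := by
    intro a c hac h2 h0
    have hk : ∀ m n : ℕ, PM z W N M a m → PM z W N M c n →
        KK a c m n * KK c a n m = ((Jr (n : ℤ) m : ℝ) : ℂ) := by
      intro m n hm hn
      rw [KK_ne hac, KK_ne hac.symm, h2, h0, sy_zero, mul_one, sy_two hm.1.1.1]
    refine ⟨hac, fun m n hm hn hmn => ?_, ?_⟩
    · rw [hk m n hm hn, Jr_zero_of hm.1.1.1.ne_zero hmn]
      norm_num
    · refine BIL_congr (k' := fun m n => ((Jr (n : ℤ) m : ℝ) : ℂ))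
        (fun m n _ _ hm hn => hk m n hm hn) ?_
      exact BIL_swap (BIL_mono hb1 (fun m _ h => rg_odd hz h.1.1) (fun m _ h => rg_odd hz h.1.1)
        (hJ V0 Y hV0 hY))
  rintro a c ⟨hac, ⟨h2, h0⟩ | ⟨h0, h2⟩ | ⟨hc0, hc2, he⟩⟩
  · exact hA a c hac h2 h0
  · exact Linked_symm (hA c a hac.symm h2 h0)
  · have h4m : ∀ m, PM z W N M a m → ∀ p : ℕ, p.Prime → p ∣ m → p % 4 = 1 := by
      intro m hm p hp hpm
      exact (cl_zero ((hm.1.2 p hp hpm).trans hc0)).2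
    have hf : eI c (gI a) = 0 ∨ eI c (gI a) = 2 := c.2.2.2 (by
      show cI c ≠ 0
      rw [hc2]; decide) _
    obtain ⟨e', he', hk⟩ : ∃ e' : ZMod 4, (e' = 1 ∨ e' = 3) ∧ ∀ m n : ℕ, PM z W N M a m →
        PM z W N M c n → KK a c m n * KK c a n m = sy e' m (n : ℤ) := by
      rcases hf with hf | hf
      · refine ⟨eI a (gI c), he, fun m n hm hn => ?_⟩
        rw [KK_ne hac, KK_ne hac.symm, hf, sy_zero, mul_one]
      · refine ⟨eI a (gI c) + 2, ?_, fun m n hm hn => ?_⟩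
        · rcases he with h | h
          · right; rw [h]; decide
          · left; rw [h]; decide
        · rw [KK_ne hac, KK_ne hac.symm, hf, sy_two hn.1.1.1]
          have hrec : Jr (m : ℤ) n = Jr (n : ℤ) m := by
            unfold Jr
            rw [jacobiSym.quadratic_reciprocity_one_mod_four (mod_four hm.1.1.1 (h4m m hm))
              (rg_odd hz hn.1.1).1]
          rw [hrec, ← sy_two hm.1.1.1, sy_add_two he (h4m m hm)]
    refine ⟨hac, fun m n hm hn hmn => ?_, ?_⟩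
    · rw [hk m n hm hn]
      unfold sy
      obtain ⟨p, hp, hpm, hpn⟩ := Nat.Prime.not_coprime_iff_dvd.1 hmn
      refine prod_eq_zero (Nat.mem_primeFactors.2 ⟨hp, hpm, hm.1.1.1.ne_zero⟩) ?_
      have h0 := (chi p hp (h4m m hm p hp hpm)).2.2.1 (n : ℤ) (Int.natCast_dvd_natCast.2 hpn)
      rcases he' with h | h
      · rw [h]
        unfold sp
        rw [if_neg (by decide), if_neg (by decide), if_pos rfl, h0]
      · rw [h]
        unfold sp
        rw [if_neg (by decide), if_neg (by decide), if_neg (by decide), h0, map_zero]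
    · refine BIL_congr (k' := fun m n => sy e' m (n : ℤ))
        (fun m n _ _ hm hn => hk m n hm hn) ?_
      refine BIL_mono hb2 (fun m _ hm => ⟨hm.1.1.1, h4m m hm, hm.2 hc0⟩) (fun n hn1 hn => ?_)
        (hC' M N V0 e' he' hV0 hMN Y hY)
      have hn2 : n ≠ 1 := by omega
      obtain ⟨p, hp, hpn⟩ := Nat.exists_prime_and_dvd hn2
      have hNp := cl_two ((hn.1.2 p hp hpn).trans hc2)
      exact hNp.trans_le (Nat.le_of_dvd (by omega) hpn)

end Pool.Agent.H53.QT
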