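import Pool.Agent.H53.QT.Defs
import Pool.Graph.R_pool_sql_team_seeded_f0cf7b00.H912R3.GM.Mert4

/-!
# Primes `≡ 1` and `≡ 3` modulo `4` (project QT, part MERT4)
-/

set_option autoImplicit false

namespace Pool.Agent.H53.QT

open Finset Pool.Agent.W262.RK Pool.Agent.W262.TW Pool.Agent.H912R3.GM

theorem Jr_neg_one_eq {p : ℕ} (hp : p.Prime) :
    Jr (-1) p = psr p + (if p = 2 then 1 else 0) := by
  rcases hp.eq_two_or_odd' with rfl | ho
  · have h1 : jacobiSym (-1) 2 = 1 := by norm_num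
    have h2 : psr 2 = 0 := by
      have := psr_even 1
      simpa using this
    unfold Jr
    rw [h1, h2]
    simp
  · have h2 : p ≠ 2 := by
      rintro rfl
      exact absurd ho (by decide)
    unfold Jr psr
    rw [jacobiSym.at_neg_one ho, if_neg h2, add_zero]

theorem mert4 : MERT4 := by
  intro z
  obtain ⟨C, hC0, hC⟩ := psr_primes
  refine ⟨2 * C + 1, fun y _ => ?_⟩
  have e1 : ∑ p ∈ PS z y, Jr (-1) p / (p : ℝ) =
      ∑ p ∈ PS z y, psr p / (p : ℝ) + ∑ p ∈ PS z y, (if p = 2 then (1 : ℝ) else 0) / p := by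
    rw [← sum_add_distrib]
    refine sum_congr rfl fun p hp => ?_
    rw [Jr_neg_one_eq (mem_filter.1 hp).2, add_div]
  have e2 : |∑ p ∈ PS z y, (if p = 2 then (1 : ℝ) else 0) / p| ≤ 1 := by
    have h1 : ∑ p ∈ PS z y, (if p = 2 then (1 : ℝ) else 0) / p =
        ∑ p ∈ PS z y, (if p = 2 then (1 / 2 : ℝ) else 0) := by
      refine sum_congr rfl fun p _ => ?_
      split_ifs with h
      · subst h; norm_num
      · simp
    rw [h1, sum_ite_eq']
    split_ifs <;> norm_num
  have e3 : |∑ p ∈ PS z y, psr p / (p : ℝ)| ≤ 2 * C := by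
    rcases le_or_gt z y with h | h
    · have h1 : (Icc 1 y).filter Nat.Prime = (Icc 1 z).filter Nat.Prime ∪ PS z y := by
        ext p
        simp only [PS, mem_filter, mem_union, mem_Icc, mem_Ioc]
        constructor
        · rintro ⟨⟨a, b⟩, c⟩
          rcases le_or_gt p z with h' | h'
          · exact Or.inl ⟨⟨a, h'⟩, c⟩
          · exact Or.inr ⟨⟨h', b⟩, c⟩
        · rintro (⟨⟨a, b⟩, c⟩ | ⟨⟨a, b⟩, c⟩)
          · exact ⟨⟨a, b.trans h⟩, c⟩
          · exact ⟨⟨by omega, b⟩, c⟩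
      have h2 : Disjoint ((Icc 1 z).filter Nat.Prime) (PS z y) := by
        rw [disjoint_left]
        intro p h3 h4
        simp only [PS, mem_filter, mem_Icc, mem_Ioc] at h3 h4
        omega
      have h3 : ∑ p ∈ (Icc 1 y).filter Nat.Prime, psr p / (p : ℝ) =
          ∑ p ∈ (Icc 1 z).filter Nat.Prime, psr p / (p : ℝ) + ∑ p ∈ PS z y, psr p / (p : ℝ) := by
        rw [h1, sum_union h2]
      have h4 := abs_le.1 (hC y)
      have h5 := abs_le.1 (hC z)
      rw [abs_le]
      constructor <;> linarith [h4.1, h4.2, h5.1, h5.2]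
    · have h1 : PS z y = ∅ := by
        unfold PS
        rw [Ioc_eq_empty_of_le h.le, filter_empty]
      rw [h1, sum_empty, abs_zero]
      positivity
  rw [e1]
  exact (abs_add_le _ _).trans (add_le_add e3 e2)

end Pool.Agent.H53.QT
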