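import Pool.Agent.H53.QT.Defs
import Pool.Graph.R_seed8.W578.TW.UBQ
import Pool.Graph.R_seed8.W397.TW.Triv
import Pool.Graph.R_seed8.W554.TW.Prs

/-! # ONE4: one large variable (helper61) -/

set_option autoImplicit false

namespace Pool.Agent.H53.QT

open Finset Pool.Agent.W262.RK Pool.Agent.W262.TW

namespace One

open Classical in
/-- rough numbers all of whose prime factors satisfy `G` -/
lemma count_le : ∃ C : ℝ, 0 ≤ C ∧ ∀ (z Y : ℕ) (G : ℕ → Prop) (w : ℕ → ℝ), 3 ≤ Y →
    (∀ p ∈ PS z Y, 0 ≤ w p ∧ (G p → 1 ≤ w p)) →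
    ∀ S : Finset ℕ, (∀ n ∈ S, n ∈ Icc 1 Y ∧ Rg z n ∧ ∀ p ∈ n.primeFactors, G p) →
    (S.card : ℝ) ≤ C * (Y / Real.log Y) * Real.exp (∑ p ∈ PS z Y, w p / p) := by
  obtain ⟨C, hC⟩ := Pool.Agent.W397.TW.triv Unit
  refine ⟨|C|, abs_nonneg _, fun z Y G w hY hw S hS => ?_⟩
  set b : Unit → ℕ → ℝ := fun _ p => if G p then 1 else 0 with hb
  have hb01 : ∀ a p, 0 ≤ b a p ∧ b a p ≤ 1 := by
    intro a p
    simp only [hb]
    split_ifs <;> norm_num
  have h1 := hC z Y 1 b univ hY le_rfl hb01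
  have hlY : 0 ≤ (Y : ℝ) / Real.log Y := by
    have : 0 ≤ Real.log Y := Real.log_nonneg (by exact_mod_cast (by omega : 1 ≤ Y))
    positivity
  have hinj : Function.Injective (fun (n : ℕ) (_ : Unit) => n) := fun a b h => congrFun h ()
  calc (S.card : ℝ) = ∑ n ∈ S, (1 : ℝ) := by simp
    _ = ∑ e ∈ S.image (fun (n : ℕ) (_ : Unit) => n), (1 : ℝ) := by
        rw [sum_image (fun a _ b _ h => hinj h)]
    _ = ∑ e ∈ S.image (fun (n : ℕ) (_ : Unit) => n), ∏ a, mf (b a) (e a) := by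
        refine sum_congr rfl fun e he => ?_
        obtain ⟨n, hn, rfl⟩ := mem_image.1 he
        symm
        apply prod_eq_one
        intro a _
        unfold mf
        apply prod_eq_one
        intro p hp
        simp only [hb]
        rw [if_pos ((hS n hn).2.2 p hp)]
    _ ≤ ∑ e ∈ (TT (fun a : Unit => a) z Y 0).filter
          (fun e => ∀ a, a ∉ (univ : Finset Unit) → e a ≤ 1), ∏ a, mf (b a) (e a) := by
        refine sum_le_sum_of_subset_of_nonneg ?_ fun e _ _ =>
          prod_nonneg fun a _ => Pool.Agent.W397.TW.mf_nonneg (hb01 a) _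
        intro e he
        obtain ⟨n, hn, rfl⟩ := mem_image.1 he
        rw [mem_filter, Pool.Agent.W397.TW.mem_TT']
        obtain ⟨h2, h3, h4⟩ := hS n hn
        refine ⟨⟨fun _ => h2, fun _ => h3, fun a c hac => absurd (Subsingleton.elim a c) hac, ?_,
          ?_⟩, fun a ha => absurd (mem_univ a) ha⟩
        · simpa using (mem_Icc.1 h2).2
        · intro i
          exact prod_pos fun _ _ => (mem_Icc.1 h2).1
    _ ≤ _ := h1
    _ = C * (Y / Real.log Y) * Real.exp (∑ p ∈ PS z Y, b () p / p) := by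
        simp
    _ ≤ |C| * (Y / Real.log Y) * Real.exp (∑ p ∈ PS z Y, w p / p) := by
        apply mul_le_mul
        · exact mul_le_mul_of_nonneg_right (le_abs_self C) hlY
        · apply Real.exp_le_exp.2
          refine sum_le_sum fun p hp => ?_
          apply div_le_div_of_nonneg_right _ (Nat.cast_nonneg p)
          simp only [hb]
          split_ifs with h
          · exact (hw p hp).2 h
          · exact (hw p hp).1
        · positivity
        · positivity

lemma Jr_mul (a b : ℤ) (n : ℕ) : Jr (a * b) n = Jr a n * Jr b n := by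
  unfold Jr
  rw [jacobiSym.mul_left]
  push_cast
  ring

lemma Jr_le (a : ℤ) (n : ℕ) : -1 ≤ Jr a n ∧ Jr a n ≤ 1 := by
  unfold Jr
  rcases jacobiSym.trichotomy a n with h | h | h <;> rw [h] <;> norm_num

lemma Jr_sq {a : ℤ} {p : ℕ} (hp : p.Prime) (h : ¬ (p : ℤ) ∣ a) : Jr a p * Jr a p = 1 := by
  unfold Jr
  rcases Pool.Agent.W554.TW.jac_unit hp h with h | h <;> rw [h] <;> norm_num

lemma Jr_neg_one {p : ℕ} (hp : p.Prime) (h2 : 2 < p) :
    (p % 4 = 1 ∧ Jr (-1) p = 1) ∨ (p % 4 = 3 ∧ Jr (-1) p = -1) := by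
  have hodd : Odd p := hp.odd_of_ne_two (by omega)
  have h1 := jacobiSym.at_neg_one hodd
  unfold Jr
  rw [h1]
  have : p % 4 = 1 ∨ p % 4 = 3 := by
    obtain ⟨k, hk⟩ := hodd
    omega
  rcases this with h | h
  · left
    refine ⟨h, ?_⟩
    rw [ZMod.χ₄_nat_one_mod_four h]; norm_num
  · right
    refine ⟨h, ?_⟩
    rw [ZMod.χ₄_nat_three_mod_four h]; norm_num

/-- the parameters: `A = s k * c i l`, `B = s l * c i k`; a nonsquare `q` such that the weights are
controlled by `Jr q` -/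
lemma exists_q (h1 : CHI) {A B : ℤ} (hA : A ≠ 0) (hB : B ≠ 0) (hF : ¬ F4 A B) :
    ∃ q : ℤ, q.natAbs ≤ A.natAbs * B.natAbs * B.natAbs ∧ ¬ IsSquare q ∧
      ((∀ p : ℕ, p.Prime → ¬ (p : ℤ) ∣ A → ¬ (p : ℤ) ∣ B → Jr A p = Jr B p → Jr q p = 1) ∨
       (¬ IsSquare (-q) ∧ ∀ p : ℕ, p.Prime → ¬ (p : ℤ) ∣ A → ¬ (p : ℤ) ∣ B → p % 4 = 1 →
          q4 p A = q4 p B → Jr q p = 1)) := by
  by_cases hsq : IsSquare (A * B)
  · obtain ⟨t, ht⟩ := hsq
    have ht0 : t ≠ 0 := by
      rintro rfl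
      rw [mul_zero] at ht
      rcases mul_eq_zero.1 ht with h | h
      · exact hA h
      · exact hB h
    have key : ∀ m : ℤ, (t * B) * (t * B) = m ^ 4 → False := by
      intro m hm
      apply hF
      refine ⟨B, m, hB, ?_, ?_⟩
      · rintro rfl
        have : t * B ≠ 0 := mul_ne_zero ht0 hB
        apply this
        have : (t * B) * (t * B) = 0 := by rw [hm]; norm_num
        rcases mul_eq_zero.1 this with h | h <;> exact h
      · calc A * B ^ 4 = (A * B) * B ^ 3 := by ring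
          _ = B * ((t * B) * (t * B)) := by rw [ht]; ring
          _ = B * m ^ 4 := by rw [hm]
    refine ⟨t * B, ?_, ?_, Or.inr ⟨?_, ?_⟩⟩
    · rw [Int.natAbs_mul]
      have h3 : t.natAbs * t.natAbs = A.natAbs * B.natAbs := by
        rw [← Int.natAbs_mul, ← Int.natAbs_mul, ht]
      have h4 : 0 < t.natAbs := Int.natAbs_pos.2 ht0
      have h5 : t.natAbs ≤ A.natAbs * B.natAbs := by
        rw [← h3]; nlinarith
      exact Nat.mul_le_mul_right _ h5
    · rintro ⟨m, hm⟩
      exact key m (by rw [hm]; ring)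
    · rintro ⟨m, hm⟩
      exact key m (by
        calc (t * B) * (t * B) = (-(t * B)) * (-(t * B)) := by ring
          _ = m ^ 4 := by rw [hm]; ring)
    · intro p hp hpA hpB hp4 hq
      obtain ⟨c1, -, -, c4, -⟩ := h1 p hp hp4
      have hpt : ¬ (p : ℤ) ∣ t := by
        intro h
        have : (p : ℤ) ∣ A * B := by rw [ht]; exact Dvd.dvd.mul_right h t
        rcases (Nat.prime_iff_prime_int.1 hp).dvd_or_dvd this with h | h
        · exact hpA h
        · exact hpB h
      have hpq : ¬ (p : ℤ) ∣ t * B := by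
        intro h
        rcases (Nat.prime_iff_prime_int.1 hp).dvd_or_dvd h with h | h
        · exact hpt h
        · exact hpB h
      have e1 : q4 p (t * B) ^ 2 = q4 p B ^ 4 := by
        calc q4 p (t * B) ^ 2 = q4 p ((t * B) * (t * B)) := by rw [c1 (t * B) (t * B), sq]
          _ = q4 p (A * (B * (B * B))) := by
            congr 1
            calc (t * B) * (t * B) = (t * t) * (B * B) := by ring
              _ = A * (B * (B * B)) := by rw [← ht]; ring
          _ = q4 p A * (q4 p B * (q4 p B * q4 p B)) := by rw [c1, c1, c1]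
          _ = q4 p B ^ 4 := by rw [hq]; ring
      rw [(c4 B hpB).2.1, (c4 _ hpq).1] at e1
      exact_mod_cast e1
  · refine ⟨A * B, ?_, hsq, Or.inl ?_⟩
    · rw [Int.natAbs_mul]
      have : 0 < B.natAbs := Int.natAbs_pos.2 hB
      nlinarith [Nat.zero_le (A.natAbs * B.natAbs)]
    · intro p hp hpA hpB h
      rw [Jr_mul, h, Jr_sq hp hpB]

/-- the sum of the weights -/
lemma weight (h2 : MERT4) (z : ℕ) (hz : 2 ≤ z) : ∃ C : ℝ, 0 ≤ C ∧ ∀ (q : ℤ) (G : ℕ → Prop),
    ¬ IsSquare q → ((∀ p : ℕ, p.Prime → z < p → G p → Jr q p = 1) ∨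
      (¬ IsSquare (-q) ∧ ∀ p : ℕ, p.Prime → z < p → G p → p % 4 = 1 → Jr q p = 1)) →
    ∃ w : ℕ → ℝ, ∀ Y : ℕ, 3 ≤ Y → (∀ p ∈ PS z Y, 0 ≤ w p ∧ (G p → 1 ≤ w p)) ∧
      ∑ p ∈ PS z Y, w p / p ≤ 3 / 4 * Real.log (Real.log Y) +
        Real.log (Real.log (q.natAbs + 3)) + C := by
  obtain ⟨C0, hC0, hM⟩ := Pool.Agent.W554.TW.mert
  obtain ⟨C1, hC1⟩ := Pool.Agent.W578.TW.UBQ.ubq z hz
  obtain ⟨C2, hC2⟩ := h2 z
  have hC2' : 0 ≤ C2 := (abs_nonneg _).trans (hC2 3 le_rfl)
  refine ⟨C0 + |C1| + C2, by positivity, fun q G hq hG => ?_⟩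
  have hl3 : 1 ≤ Real.log 3 := by
    rw [Real.le_log_iff_exp_le (by norm_num)]
    have := Real.exp_one_lt_d9
    linarith
  have hlq : 0 ≤ Real.log (Real.log ((q.natAbs : ℝ) + 3)) := by
    apply Real.log_nonneg
    exact hl3.trans (Real.log_le_log (by norm_num)
      (by have : (0 : ℝ) ≤ q.natAbs := Nat.cast_nonneg _; linarith))
  have habs : C1 ≤ |C1| := le_abs_self _
  have habs0 : 0 ≤ |C1| := abs_nonneg _
  rcases hG with hG | ⟨hq', hG⟩
  · refine ⟨fun p => 1 / 2 + 1 / 2 * Jr q p, fun Y hY => ⟨fun p hp => ?_, ?_⟩⟩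
    · obtain ⟨hpp, hzp⟩ := Pool.Agent.W554.TW.PS_prime hp
      have := Jr_le q p
      refine ⟨by linarith, fun h => ?_⟩
      have h3 := hG p hpp hzp h
      show (1 : ℝ) ≤ 1 / 2 + 1 / 2 * Jr q p
      rw [h3]; norm_num
    · have hlY : 0 ≤ Real.log (Real.log Y) := by
        apply Real.log_nonneg
        exact hl3.trans (Real.log_le_log (by norm_num) (by exact_mod_cast hY))
      calc ∑ p ∈ PS z Y, (1 / 2 + 1 / 2 * Jr q p) / (p : ℝ)
          = 1 / 2 * ∑ p ∈ PS z Y, 1 / (p : ℝ) + 1 / 2 * ∑ p ∈ PS z Y, Jr q p / (p : ℝ) := by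
            rw [mul_sum, mul_sum, ← sum_add_distrib]
            refine sum_congr rfl fun p _ => ?_
            ring
        _ ≤ _ := by
            have a1 := hM z Y hY
            have a2 := hC1 q hq Y
            linarith
  · refine ⟨fun p => 1 - (1 + Jr (-1) p) * (1 - Jr q p) / 4, fun Y hY => ⟨fun p hp => ?_, ?_⟩⟩
    · obtain ⟨hpp, hzp⟩ := Pool.Agent.W554.TW.PS_prime hp
      have := Jr_le q p
      beta_reduce
      rcases Jr_neg_one hpp (by omega) with ⟨h4, h⟩ | ⟨h4, h⟩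
      · rw [h]
        refine ⟨by linarith, fun hg => ?_⟩
        rw [hG p hpp hzp hg h4]; norm_num
      · rw [h]
        refine ⟨by norm_num, fun hg => by norm_num⟩
    · have hlY : 0 ≤ Real.log (Real.log Y) := by
        apply Real.log_nonneg
        exact hl3.trans (Real.log_le_log (by norm_num) (by exact_mod_cast hY))
      calc ∑ p ∈ PS z Y, (1 - (1 + Jr (-1) p) * (1 - Jr q p) / 4) / (p : ℝ)
          = 3 / 4 * ∑ p ∈ PS z Y, 1 / (p : ℝ) + (-1 / 4) * ∑ p ∈ PS z Y, Jr (-1) p / (p : ℝ) +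
            1 / 4 * ∑ p ∈ PS z Y, Jr q p / (p : ℝ) +
            1 / 4 * ∑ p ∈ PS z Y, Jr (-q) p / (p : ℝ) := by
            rw [mul_sum, mul_sum, mul_sum, mul_sum, ← sum_add_distrib, ← sum_add_distrib,
              ← sum_add_distrib]
            refine sum_congr rfl fun p _ => ?_
            have : Jr (-q) p = Jr (-1) p * Jr q p := by
              rw [← Jr_mul]; congr 1; ring
            rw [this]
            ring
        _ ≤ _ := by
            have a1 := hM z Y hY
            have a2 := hC1 q hq Y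
            have a3 := hC1 (-q) hq' Y
            rw [Int.natAbs_neg] at a3
            have a4 := (abs_le.1 (hC2 Y hY)).1
            linarith

open Classical in
/-- the number of the values of the large variable -/
lemma fiber_le (h1 : CHI) (h2 : MERT4) (z : ℕ) (hz : 2 ≤ z) : ∃ C : ℝ, 0 ≤ C ∧ ∀ (A B : ℤ),
    A ≠ 0 → B ≠ 0 → ¬ F4 A B → ∀ (Y : ℕ) (S : Finset ℕ), 3 ≤ Y →
    (∀ n ∈ S, n ∈ Icc 1 Y ∧ Rg z n ∧ ∀ p ∈ n.primeFactors, ¬ (p : ℤ) ∣ A ∧ ¬ (p : ℤ) ∣ B ∧
      Jr A p = Jr B p ∧ (p % 4 = 1 → q4 p A = q4 p B)) →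
    (S.card : ℝ) ≤ C * (Y * (Real.log Y) ^ (-(1 / 4 : ℝ)) *
      Real.log ((A.natAbs * B.natAbs * B.natAbs : ℕ) + 3)) := by
  obtain ⟨C1, hC1, hcount⟩ := count_le
  obtain ⟨C2, hC2, hw⟩ := weight h2 z hz
  refine ⟨C1 * Real.exp C2, by positivity, fun A B hA hB hF Y S hY hS => ?_⟩
  obtain ⟨q, hqs, hq, hq'⟩ := exists_q h1 hA hB hF
  set G : ℕ → Prop := fun p => ¬ (p : ℤ) ∣ A ∧ ¬ (p : ℤ) ∣ B ∧
      Jr A p = Jr B p ∧ (p % 4 = 1 → q4 p A = q4 p B) with hG
  obtain ⟨w, hw⟩ := hw q G hq (by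
    rcases hq' with h | ⟨h, h'⟩
    · exact Or.inl fun p hp _ hg => h p hp hg.1 hg.2.1 hg.2.2.1
    · exact Or.inr ⟨h, fun p hp _ hg h4 => h' p hp hg.1 hg.2.1 h4 (hg.2.2.2 h4)⟩)
  obtain ⟨hw1, hw2⟩ := hw Y hY
  have h3 := hcount z Y G w hY hw1 S hS
  have hl3 : 1 ≤ Real.log 3 := by
    rw [Real.le_log_iff_exp_le (by norm_num)]
    have := Real.exp_one_lt_d9
    linarith
  have hlY : 1 ≤ Real.log Y :=
    hl3.trans (Real.log_le_log (by norm_num) (by exact_mod_cast hY))
  have hlY0 : 0 < Real.log Y := by linarith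
  have hlq1 : 1 ≤ Real.log ((q.natAbs : ℝ) + 3) := hl3.trans (Real.log_le_log (by norm_num)
      (by have : (0 : ℝ) ≤ q.natAbs := Nat.cast_nonneg _; linarith))
  have hlq2 : Real.log ((q.natAbs : ℝ) + 3) ≤
      Real.log ((A.natAbs * B.natAbs * B.natAbs : ℕ) + 3) := by
    apply Real.log_le_log (by positivity)
    have : (q.natAbs : ℝ) ≤ (A.natAbs * B.natAbs * B.natAbs : ℕ) := by exact_mod_cast hqs
    linarith
  have e1 : Real.exp (∑ p ∈ PS z Y, w p / p) ≤ (Real.log Y) ^ (3 / 4 : ℝ) *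
      Real.log ((A.natAbs * B.natAbs * B.natAbs : ℕ) + 3) * Real.exp C2 := by
    calc Real.exp (∑ p ∈ PS z Y, w p / p) ≤ Real.exp (3 / 4 * Real.log (Real.log Y) +
          Real.log (Real.log (q.natAbs + 3)) + C2) := Real.exp_le_exp.2 hw2
      _ = (Real.log Y) ^ (3 / 4 : ℝ) * Real.log (q.natAbs + 3) * Real.exp C2 := by
          rw [Real.exp_add, Real.exp_add, Real.exp_log (by linarith),
            Real.rpow_def_of_pos hlY0, mul_comm (3 / 4 : ℝ)]
      _ ≤ _ := by
          have : 0 ≤ (Real.log Y) ^ (3 / 4 : ℝ) := by positivity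
          have h0 := (Real.exp_pos C2).le
          gcongr
  have e2 : (Real.log Y) ^ (3 / 4 : ℝ) / Real.log Y = (Real.log Y) ^ (-(1 / 4 : ℝ)) := by
    rw [← Real.rpow_sub_one hlY0.ne']
    norm_num
  calc (S.card : ℝ) ≤ C1 * (Y / Real.log Y) * Real.exp (∑ p ∈ PS z Y, w p / p) := h3
    _ ≤ C1 * (Y / Real.log Y) * ((Real.log Y) ^ (3 / 4 : ℝ) *
      Real.log ((A.natAbs * B.natAbs * B.natAbs : ℕ) + 3) * Real.exp C2) := by
        apply mul_le_mul_of_nonneg_left e1
        positivity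
    _ = _ := by
        rw [← e2]; ring

/-- the bound for the parameters -/
lemma log_param (P : ℝ) (hP : 0 ≤ P) (B' : ℕ) : ∃ C : ℝ, 0 ≤ C ∧ ∀ (L V : ℝ) (q : ℕ), 1 ≤ L →
    0 ≤ V → V ≤ L ^ B' → (q : ℝ) ≤ P * V ^ 3 →
    Real.log ((q : ℝ) + 3) ≤ C * L ^ (1 / 80 : ℝ) := by
  have hlog0 : 0 ≤ Real.log (P + 3) := Real.log_nonneg (by linarith)
  refine ⟨Real.log (P + 3) + 240 * B', by positivity, fun L V q hL hV0 hV hq => ?_⟩
  have hLp : 1 ≤ L ^ (1 / 80 : ℝ) := Real.one_le_rpow hL (by norm_num)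
  have hLB : 1 ≤ L ^ (3 * B') := one_le_pow₀ hL
  have h1 : (q : ℝ) + 3 ≤ (P + 3) * L ^ (3 * B') := by
    have h2 : V ^ 3 ≤ L ^ (3 * B') := by
      calc V ^ 3 ≤ (L ^ B') ^ 3 := pow_le_pow_left₀ hV0 hV 3
        _ = L ^ (3 * B') := by rw [← pow_mul, mul_comm]
    have h3 : P * V ^ 3 ≤ P * L ^ (3 * B') := mul_le_mul_of_nonneg_left h2 hP
    nlinarith
  have hL0 : 0 < L := by linarith
  calc Real.log ((q : ℝ) + 3) ≤ Real.log ((P + 3) * L ^ (3 * B')) :=
        Real.log_le_log (by positivity) h1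
    _ = Real.log (P + 3) + 3 * B' * Real.log L := by
        rw [Real.log_mul (by positivity) (by positivity), Real.log_pow]
        push_cast; ring
    _ ≤ Real.log (P + 3) * L ^ (1 / 80 : ℝ) + 3 * B' * (L ^ (1 / 80 : ℝ) / (1 / 80)) := by
        have h4 := Real.log_le_rpow_div hL0.le (ε := 1 / 80) (by norm_num)
        have h5 : (3 * B' : ℝ) * Real.log L ≤ 3 * B' * (L ^ (1 / 80 : ℝ) / (1 / 80)) :=
          mul_le_mul_of_nonneg_left h4 (by positivity)
        nlinarith
    _ = _ := by ring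

/-- the threshold -/
lemma thr (B' : ℕ) : ∃ X0 : ℕ, 3 ≤ X0 ∧ ∀ X : ℕ, X0 ≤ X →
    (Real.log X) ^ (3 * B') ≤ 1 / 4 * (X : ℝ) ^ (1 / 2 : ℝ) := by
  have h := isLittleO_log_rpow_rpow_atTop (s := 1 / 2) ((3 * B' : ℕ) : ℝ) (by norm_num)
  have h2 := (h.def (c := 1 / 4) (by norm_num))
  have h3 := (tendsto_natCast_atTop_atTop (R := ℝ)).eventually h2
  obtain ⟨N, hN⟩ := Filter.eventually_atTop.1 h3
  refine ⟨max N 3, le_max_right _ _, fun X hX => ?_⟩
  have h4 := hN X ((le_max_left _ _).trans hX)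
  have hX3 : 3 ≤ X := (le_max_right _ _).trans hX
  have hl : 0 ≤ Real.log X := Real.log_nonneg (by exact_mod_cast (by omega : 1 ≤ X))
  rw [Real.rpow_natCast] at h4
  rw [Real.norm_of_nonneg (by positivity), Real.norm_of_nonneg (by positivity)] at h4
  exact h4

lemma E4_ne {z : ℕ} {x : ℤ} (hx : x ∈ E4 z) : x ≠ 0 ∧ x.natAbs ≤ primorial z ^ 3 ∧
    x.natAbs ∣ primorial z ^ 3 := by
  unfold E4 at hx
  rw [mem_union, mem_image, mem_image] at hx
  have hpos : 0 < primorial z ^ 3 := pow_pos (primorial_pos z) 3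
  rcases hx with ⟨n, hn, rfl⟩ | ⟨n, hn, rfl⟩
  · have h1 := Nat.mem_divisors.1 hn
    have h2 := Nat.le_of_dvd hpos h1.1
    have h3 := Nat.pos_of_dvd_of_pos h1.1 hpos
    exact ⟨by exact_mod_cast h3.ne', by simpa using h2, by simpa using h1.1⟩
  · have h1 := Nat.mem_divisors.1 hn
    have h2 := Nat.le_of_dvd hpos h1.1
    have h3 := Nat.pos_of_dvd_of_pos h1.1 hpos
    exact ⟨by rw [neg_ne_zero]; exact_mod_cast h3.ne', by simpa using h2, by simpa using h1.1⟩

lemma E4_prime {z p : ℕ} {x : ℤ} (hx : x ∈ E4 z) (hp : p.Prime) (hz : z < p) :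
    ¬ (p : ℤ) ∣ x := by
  intro h
  have h1 : p ∣ primorial z ^ 3 := (Int.natCast_dvd.1 h).trans (E4_ne hx).2.2
  have h2 := hp.dvd_of_dvd_pow h1
  have h3 := hp.dvd_primorial_iff.1 h2
  omega

open Classical in
/-- the fibers -/
lemma fib (hCHI : CHI) {z X V : ℕ} {κ : Fin 4 → ℤ} {c : Fin 4 → Fin 4 → ℤ} (i : Fin 4)
    (hκ : ∀ k, κ k ∈ E4 z) (hc : ∀ i k, i ≠ k → ∀ p : ℕ, p.Prime → z < p → ¬ (p : ℤ) ∣ c i k)
    (hc0 : ∀ i k, i ≠ k → c i k ≠ 0)
    (u : Fin 4 → ℕ) (hu : u ∈ Fintype.piFinset (fun k : Fin 4 => if k = i then {1} else Icc 1 V))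
    (F : Finset (Fin 4 → ℕ))
    (hF : ∀ D ∈ F, Function.update D i 1 = u ∧ Tu z X D ∧
      (∀ p ∈ (D i).primeFactors, CF c (fun k => κ k * D k) i p) ∧ NC4 c (fun k => κ k * D k)) :
    F = ∅ ∨ ∃ A B : ℤ, A ≠ 0 ∧ B ≠ 0 ∧ ¬ F4 A B ∧
      (∃ k l, k ≠ i ∧ l ≠ i ∧ A = κ k * u k * c i l ∧ B = κ l * u l * c i k) ∧
      ∀ n ∈ F.image (fun D => D i), n ∈ Icc 1 (X / ∏ k, u k) ∧ Rg z n ∧
      ∀ p ∈ n.primeFactors, ¬ (p : ℤ) ∣ A ∧ ¬ (p : ℤ) ∣ B ∧
      Jr A p = Jr B p ∧ (p % 4 = 1 → q4 p A = q4 p B) := by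
  rcases F.eq_empty_or_nonempty with h | ⟨D0, hD0⟩
  · exact Or.inl h
  right
  rw [Fintype.mem_piFinset] at hu
  have hupd : ∀ D ∈ F, ∀ k, k ≠ i → D k = u k := by
    intro D hD k hk
    rw [← (hF D hD).1, Function.update_of_ne hk]
  have hupos : ∀ k, k ≠ i → u k ≠ 0 := by
    intro k hk
    have := hu k
    rw [if_neg hk, mem_Icc] at this
    omega
  have hui : u i = 1 := by
    have := hu i
    rw [if_pos rfl, mem_singleton] at this
    exact this
  obtain ⟨-, -, -, hNC⟩ := hF D0 hD0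
  obtain ⟨k, l, hk, hl, hkl⟩ := hNC i
  simp only [hupd D0 hD0 k hk, hupd D0 hD0 l hl] at hkl
  refine ⟨κ k * u k * c i l, κ l * u l * c i k, ?_, ?_, hkl, ⟨k, l, hk, hl, rfl, rfl⟩, ?_⟩
  · exact mul_ne_zero (mul_ne_zero (E4_ne (hκ k)).1 (by exact_mod_cast hupos k hk))
      (hc0 i l hl.symm)
  · exact mul_ne_zero (mul_ne_zero (E4_ne (hκ l)).1 (by exact_mod_cast hupos l hl))
      (hc0 i k hk.symm)
  · intro n hn
    obtain ⟨D, hD, rfl⟩ := mem_image.1 hn
    obtain ⟨h1, ⟨hT1, hT2, hT3, hT4⟩, h3, -⟩ := hF D hD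
    refine ⟨?_, hT2 i, ?_⟩
    · rw [mem_Icc]
      refine ⟨(mem_Icc.1 (hT1 i)).1, ?_⟩
      have hprod : ∏ k, D k = D i * ∏ k, u k := by
        rw [← mul_prod_erase univ D (mem_univ i), ← mul_prod_erase univ u (mem_univ i), hui,
          one_mul]
        congr 1
        exact prod_congr rfl fun k hk => hupd D hD k (ne_of_mem_erase hk)
      have hpos : 0 < ∏ k, u k := by
        apply prod_pos
        intro k _
        by_cases hki : k = i
        · rw [hki, hui]; norm_num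
        · exact Nat.pos_of_ne_zero (hupos k hki)
      rw [Nat.le_div_iff_mul_le hpos, ← hprod]
      exact hT4
    · intro p hp
      have hpp := Nat.prime_of_mem_primeFactors hp
      have hpd := Nat.dvd_of_mem_primeFactors hp
      have hpz : z < p := (hT2 i).2 p hpp hpd
      have hpZ := Nat.prime_iff_prime_int.1 hpp
      have hpu : ∀ k, k ≠ i → ¬ (p : ℤ) ∣ (u k : ℤ) := by
        intro k hk h
        rw [Int.natCast_dvd_natCast, ← hupd D hD k hk] at h
        have h5 := Nat.dvd_gcd hpd h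
        have h6 : Nat.gcd (D i) (D k) = 1 := hT3 i k hk.symm
        rw [h6] at h5
        exact hpp.one_lt.ne' (Nat.dvd_one.1 h5)
      have hpA : ∀ k l, k ≠ i → l ≠ i → ¬ (p : ℤ) ∣ κ k * u k * c i l := by
        intro k l hk hl h
        rcases hpZ.dvd_or_dvd h with h | h
        · rcases hpZ.dvd_or_dvd h with h | h
          · exact E4_prime (hκ k) hpp hpz h
          · exact hpu k hk h
        · exact hc i l hl.symm p hpp hpz h
      refine ⟨hpA k l hk hl, hpA l k hl hk, ?_, ?_⟩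
      · have h7 := (h3 p hp).1 k l hk hl
        simp only [hupd D hD k hk, hupd D hD l hl] at h7
        rw [Jr_mul, Jr_mul (κ l * u l)]
        exact h7
      · intro h4
        have h7 := (h3 p hp).2 h4 k l hk hl
        simp only [hupd D hD k hk, hupd D hD l hl] at h7
        have hchi := (hCHI p hpp h4).1
        rw [hchi, hchi (κ l * u l)]
        exact h7

open Classical in
lemma cF_ex (z X : ℕ) (κ : Fin 4 → ℤ) (c : Fin 4 → Fin 4 → ℤ) (R : Fin 4 → ℕ → Prop) :
    ∃ F : Finset (Fin 4 → ℕ), F.card = cF z X κ c R ∧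
      F ⊆ Fintype.piFinset (fun _ => Icc 1 X) ∧ ∀ D ∈ F, Tu z X D ∧ (∀ i, R i (D i)) ∧
    (∀ i, ∀ p ∈ (D i).primeFactors, CF c (fun k => κ k * D k) i p) ∧
    NC4 c (fun k => κ k * D k) :=
  ⟨_, rfl, filter_subset _ _, fun _ hD => (mem_filter.1 hD).2⟩

/-- the sum over the small variables -/
lemma sum_u (i : Fin 4) (V : ℕ) : ∑ u ∈ Fintype.piFinset
      (fun k : Fin 4 => if k = i then ({1} : Finset ℕ) else Icc 1 V), 1 / ((∏ k, u k : ℕ) : ℝ) ≤
    (1 + Real.log V) ^ 3 := by
  have h1 : ∑ u ∈ Fintype.piFinset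
      (fun k : Fin 4 => if k = i then ({1} : Finset ℕ) else Icc 1 V), 1 / ((∏ k, u k : ℕ) : ℝ) =
      ∏ k : Fin 4, ∑ n ∈ (if k = i then ({1} : Finset ℕ) else Icc 1 V), 1 / (n : ℝ) := by
    rw [prod_univ_sum]
    refine sum_congr rfl fun u _ => ?_
    push_cast
    rw [prod_div_distrib, prod_const_one]
  have h2 : ∑ n ∈ Icc 1 V, 1 / (n : ℝ) ≤ 1 + Real.log V := by
    have := harmonic_le_one_add_log V
    rw [harmonic_eq_sum_Icc] at this
    push_cast at this
    simpa [one_div] using this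
  have h0 : 0 ≤ ∑ n ∈ Icc 1 V, 1 / (n : ℝ) := sum_nonneg fun _ _ => by positivity
  rw [h1, ← mul_prod_erase univ _ (mem_univ i), if_pos rfl, sum_singleton]
  have h3 : ∏ k ∈ univ.erase i, ∑ n ∈ (if k = i then ({1} : Finset ℕ) else Icc 1 V),
      1 / (n : ℝ) = (∑ n ∈ Icc 1 V, 1 / (n : ℝ)) ^ 3 := by
    rw [prod_congr rfl (g := fun _ => ∑ n ∈ Icc 1 V, 1 / (n : ℝ))]
    · rw [prod_const, card_erase_of_mem (mem_univ i), card_univ, Fintype.card_fin]
    · intro k hk
      rw [if_neg (ne_of_mem_erase hk)]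
  rw [h3]
  norm_num
  have := pow_le_pow_left₀ h0 h2 3
  simpa [one_div] using this

end One

open Classical in
theorem one4 (h1 : CHI) (h2 : MERT4) : ONE4 := by
  intro c hc
  set Cc : ℕ := ∑ i, ∑ k, (c i k).natAbs with hCc
  have hcc : ∀ i k, (c i k).natAbs ≤ Cc := by
    intro i k
    have s1 : (c i k).natAbs ≤ ∑ k, (c i k).natAbs :=
      single_le_sum (f := fun k => (c i k).natAbs) (fun _ _ => Nat.zero_le _) (mem_univ k)
    have s2 : ∑ k, (c i k).natAbs ≤ Cc :=
      single_le_sum (f := fun i => ∑ k, (c i k).natAbs) (fun _ _ => Nat.zero_le _) (mem_univ i)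
    exact s1.trans s2
  refine ⟨2 + Cc, fun z hz κ hκ B' => ?_⟩
  rw [Fintype.mem_piFinset] at hκ
  have hcp : ∀ i k, i ≠ k → ∀ p : ℕ, p.Prime → z < p → ¬ (p : ℤ) ∣ c i k := by
    intro i k hik p hp hzp hd
    have h1 := Nat.le_of_dvd (Int.natAbs_pos.2 (hc i k hik)) (Int.natCast_dvd.1 hd)
    have h3 := hcc i k
    omega
  obtain ⟨C1, hC1, hfib⟩ := One.fiber_le h1 h2 z (by omega)
  set P : ℝ := ((primorial z : ℝ) ^ 3 * Cc) ^ 3 with hP
  obtain ⟨C2, hC2, hlogq⟩ := One.log_param P (by positivity) B'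
  obtain ⟨C3, hC3, hlogV⟩ := One.log_param 1 (by norm_num) B'
  obtain ⟨X0, hX03, hX0⟩ := One.thr B'
  refine ⟨2 * C1 * C2 * (2 * C3) ^ 3 + (X0 : ℝ) ^ 4 * (X0 : ℝ) ^ (1 / 5 : ℝ), ?_⟩
  intro X V hX hV hVX i
  have hX3 : (3 : ℝ) ≤ X := by exact_mod_cast hX
  have hl3 : 1 ≤ Real.log 3 := by
    rw [Real.le_log_iff_exp_le (by norm_num)]
    have := Real.exp_one_lt_d9
    linarith
  have hL1 : 1 ≤ Real.log X := hl3.trans (Real.log_le_log (by norm_num) hX3)
  have hL0 : 0 < Real.log X := by linarith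
  rw [add_mul, add_mul]
  rcases Nat.lt_or_ge X X0 with hlt | hge
  · -- small `X`
    have hcard : cF z X κ c (fun k n => k ≠ i → n ≤ V) ≤ X ^ 4 := by
      obtain ⟨F, hFc, hFs, -⟩ := One.cF_ex z X κ c (fun k n => k ≠ i → n ≤ V)
      rw [← hFc]
      refine (card_le_card hFs).trans ?_
      rw [Fintype.card_piFinset]
      simp
    have hcard' : (cF z X κ c (fun k n => k ≠ i → n ≤ V) : ℝ) ≤ (X0 : ℝ) ^ 4 := by
      calc (cF z X κ c (fun k n => k ≠ i → n ≤ V) : ℝ) ≤ (X : ℝ) ^ 4 := by exact_mod_cast hcard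
        _ ≤ _ := by
          have : (X : ℝ) ≤ X0 := by exact_mod_cast hlt.le
          gcongr
    have hpow : 1 ≤ (X0 : ℝ) ^ (1 / 5 : ℝ) * (Real.log X) ^ (-(1 / 5 : ℝ)) := by
      have hlX : Real.log X ≤ X0 := by
        have := Real.log_le_self (x := (X : ℝ)) (by positivity)
        have h' : (X : ℝ) ≤ X0 := by exact_mod_cast hlt.le
        linarith
      rw [Real.rpow_neg hL0.le, ← div_eq_mul_inv, one_le_div (by positivity)]
      exact Real.rpow_le_rpow hL0.le hlX (by norm_num)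
    have hA : 0 ≤ 2 * C1 * C2 * (2 * C3) ^ 3 * X * (Real.log X) ^ (-(1 / 5 : ℝ)) := by positivity
    have hB : (X0 : ℝ) ^ 4 ≤ (X0 : ℝ) ^ 4 * (X0 : ℝ) ^ (1 / 5 : ℝ) * X *
        (Real.log X) ^ (-(1 / 5 : ℝ)) := by
      calc (X0 : ℝ) ^ 4 = (X0 : ℝ) ^ 4 * 1 * 1 := by ring
        _ ≤ (X0 : ℝ) ^ 4 * ((X0 : ℝ) ^ (1 / 5 : ℝ) * (Real.log X) ^ (-(1 / 5 : ℝ))) * X := by
            have h01 : (1 : ℝ) ≤ X := by linarith
            gcongr
        _ = _ := by ring
    linarith
  · have hmain : (cF z X κ c (fun k n => k ≠ i → n ≤ V) : ℝ) ≤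
        2 * C1 * C2 * (2 * C3) ^ 3 * X * (Real.log X) ^ (-(1 / 5 : ℝ)) := by
      obtain ⟨F, hFc, hFs, hFm⟩ := One.cF_ex z X κ c (fun k n => k ≠ i → n ≤ V)
      rw [← hFc]
      set L := Real.log X with hLdef
      have hV1 : (1 : ℝ) ≤ V := by exact_mod_cast hV
      have hV0 : (0 : ℝ) ≤ V := by linarith
      have hV3 : (V : ℝ) ^ 3 ≤ 1 / 4 * (X : ℝ) ^ (1 / 2 : ℝ) := by
        refine le_trans ?_ (hX0 X hge)
        calc (V : ℝ) ^ 3 ≤ (L ^ B') ^ 3 := pow_le_pow_left₀ hV0 hVX 3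
          _ = L ^ (3 * B') := by rw [← pow_mul, mul_comm]
      set R : ℝ := (X : ℝ) ^ (1 / 2 : ℝ) with hR
      have hR1 : 1 ≤ R := Real.one_le_rpow (by linarith) (by norm_num)
      have hRR : R * R = X := by
        rw [hR, ← Real.rpow_add (by linarith)]
        norm_num
      set U : Finset (Fin 4 → ℕ) := Fintype.piFinset
        (fun k : Fin 4 => if k = i then ({1} : Finset ℕ) else Icc 1 V) with hU
      have hmaps : Set.MapsTo (fun D : Fin 4 → ℕ => Function.update D i 1) F U := by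
        intro D hD
        rw [mem_coe] at hD
        rw [mem_coe, hU, Fintype.mem_piFinset]
        obtain ⟨⟨hT1, -, -, -⟩, hR', -, -⟩ := hFm D hD
        intro k
        by_cases hk : k = i
        · subst hk
          simp
        · beta_reduce
          rw [Function.update_of_ne hk, if_neg hk, mem_Icc]
          exact ⟨(mem_Icc.1 (hT1 k)).1, hR' k hk⟩
      set M : ℝ := C1 * (2 * L ^ (-(1 / 4 : ℝ))) * (C2 * L ^ (1 / 80 : ℝ)) with hM
      have hM0 : 0 ≤ M := by positivity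
      have hu : ∀ u ∈ U, ((F.filter (fun D => Function.update D i 1 = u)).card : ℝ) ≤
          M * X * (1 / ((∏ k, u k : ℕ) : ℝ)) := by
        intro u hu
        set Fu := F.filter (fun D => Function.update D i 1 = u) with hFu
        rcases One.fib h1 (X := X) i hκ hcp hc u hu Fu (by
          intro D hD
          rw [hFu, mem_filter] at hD
          obtain ⟨hT, -, hCF, hNC⟩ := hFm D hD.1
          exact ⟨hD.2, hT, hCF i, hNC⟩) with h | ⟨A, B, hA, hB, hF4, ⟨k, l, hk, hl, hAe, hBe⟩, hS⟩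
        · rw [h, card_empty, Nat.cast_zero]
          positivity
        · have hinj : Set.InjOn (fun D : Fin 4 → ℕ => D i) Fu := by
            intro D hD D' hD' hDD
            rw [mem_coe, hFu, mem_filter] at hD hD'
            funext k
            by_cases hk : k = i
            · rw [hk]; exact hDD
            · have e1 := congrFun hD.2 k
              have e2 := congrFun hD'.2 k
              rw [Function.update_of_ne hk] at e1 e2
              rw [e1, e2]
          rw [← card_image_of_injOn hinj]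
          have hu' := hu
          rw [hU, Fintype.mem_piFinset] at hu'
          have hui : u i = 1 := by
            have := hu' i
            rw [if_pos rfl, mem_singleton] at this
            exact this
          have huk : ∀ k, k ≠ i → 1 ≤ u k ∧ u k ≤ V := by
            intro k hk
            have := hu' k
            rw [if_neg hk, mem_Icc] at this
            exact this
          have hpos : 0 < ∏ k, u k := by
            apply prod_pos
            intro k _
            by_cases hki : k = i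
            · rw [hki, hui]; norm_num
            · exact (huk k hki).1
          have hle : ∏ k, u k ≤ V ^ 3 := by
            rw [← mul_prod_erase univ u (mem_univ i), hui, one_mul]
            calc ∏ k ∈ univ.erase i, u k ≤ V ^ (univ.erase i).card :=
                  prod_le_pow_card _ _ _ fun k hk => (huk k (ne_of_mem_erase hk)).2
              _ = V ^ 3 := by
                  rw [card_erase_of_mem (mem_univ i), card_univ, Fintype.card_fin]
          set Q : ℕ := ∏ k, u k with hQ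
          have hQ0 : (0 : ℝ) < Q := by exact_mod_cast hpos
          have hQR : (Q : ℝ) ≤ 1 / 4 * R := by
            refine le_trans ?_ hV3
            exact_mod_cast hle
          set Y : ℕ := X / Q with hY
          have hY3 : 3 ≤ Y := by
            rw [hY, Nat.le_div_iff_mul_le hpos]
            have : ((3 * Q : ℕ) : ℝ) ≤ X := by
              push_cast
              nlinarith
            exact_mod_cast this
          have hYR : R ≤ Y := by
            have h5 : X < Q * (Y + 1) := Nat.lt_mul_div_succ X hpos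
            have h6 : (X : ℝ) < Q * (Y + 1) := by exact_mod_cast h5
            have h7 : (Q : ℝ) * (Y + 1) ≤ 1 / 4 * R * (Y + 1) :=
              mul_le_mul_of_nonneg_right hQR (by positivity)
            have h8 : R * (4 * R) < R * (Y + 1) := by nlinarith
            have h9 : 4 * R < Y + 1 := lt_of_mul_lt_mul_left h8 (by linarith)
            linarith
          have hlogY : L / 2 ≤ Real.log Y := by
            have : Real.log R ≤ Real.log Y := Real.log_le_log (by linarith) hYR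
            rw [hR, Real.log_rpow (by linarith)] at this
            linarith
          have hpow : (Real.log Y) ^ (-(1 / 4 : ℝ)) ≤ 2 * L ^ (-(1 / 4 : ℝ)) := by
            calc (Real.log Y) ^ (-(1 / 4 : ℝ)) ≤ (L / 2) ^ (-(1 / 4 : ℝ)) :=
                  Real.rpow_le_rpow_of_nonpos (by positivity) hlogY (by norm_num)
              _ = (1 / 2 : ℝ) ^ (-(1 / 4 : ℝ)) * L ^ (-(1 / 4 : ℝ)) := by
                  rw [← Real.mul_rpow (by norm_num) hL0.le]
                  congr 1; ring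
              _ ≤ (1 / 2 : ℝ) ^ (-1 : ℝ) * L ^ (-(1 / 4 : ℝ)) := by
                  apply mul_le_mul_of_nonneg_right _ (by positivity)
                  exact Real.rpow_le_rpow_of_exponent_ge (by norm_num) (by norm_num) (by norm_num)
              _ = 2 * L ^ (-(1 / 4 : ℝ)) := by
                  rw [Real.rpow_neg_one]; norm_num
          have hYX : (Y : ℝ) ≤ X * (1 / (Q : ℝ)) := by
            rw [mul_one_div]
            exact Nat.cast_div_le
          have hABq : ((A.natAbs * B.natAbs * B.natAbs : ℕ) : ℝ) ≤ P * (V : ℝ) ^ 3 := by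
            have hb : ∀ k l, k ≠ i → (κ k * u k * c i l).natAbs ≤ primorial z ^ 3 * Cc * V := by
              intro k l hk
              rw [Int.natAbs_mul, Int.natAbs_mul, Int.natAbs_natCast]
              calc (κ k).natAbs * u k * (c i l).natAbs ≤ primorial z ^ 3 * V * Cc :=
                    Nat.mul_le_mul (Nat.mul_le_mul (One.E4_ne (hκ k)).2.1 (huk k hk).2) (hcc i l)
                _ = _ := by ring
            have hA' : A.natAbs ≤ primorial z ^ 3 * Cc * V := by rw [hAe]; exact hb k l hk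
            have hB' : B.natAbs ≤ primorial z ^ 3 * Cc * V := by rw [hBe]; exact hb l k hl
            calc ((A.natAbs * B.natAbs * B.natAbs : ℕ) : ℝ)
                ≤ ((primorial z ^ 3 * Cc * V * (primorial z ^ 3 * Cc * V) *
                  (primorial z ^ 3 * Cc * V) : ℕ) : ℝ) := by
                  exact_mod_cast Nat.mul_le_mul (Nat.mul_le_mul hA' hB') hB'
              _ = P * (V : ℝ) ^ 3 := by
                  rw [hP]; push_cast; ring
          have hlq := hlogq L V _ hL1 hV0 hVX hABq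
          have hlq0 : 0 ≤ Real.log (((A.natAbs * B.natAbs * B.natAbs : ℕ) : ℝ) + 3) := by
            apply Real.log_nonneg
            have : (0 : ℝ) ≤ ((A.natAbs * B.natAbs * B.natAbs : ℕ) : ℝ) := Nat.cast_nonneg _
            linarith
          have h10 := hfib A B hA hB hF4 Y (Fu.image (fun D => D i)) hY3 hS
          have hlY0 : 0 < Real.log Y := by linarith
          calc (((Fu.image (fun D => D i)).card : ℕ) : ℝ) ≤
                C1 * (Y * (Real.log Y) ^ (-(1 / 4 : ℝ)) *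
                  Real.log ((A.natAbs * B.natAbs * B.natAbs : ℕ) + 3)) := h10
            _ ≤ C1 * (X * (1 / (Q : ℝ)) * (2 * L ^ (-(1 / 4 : ℝ))) *
                (C2 * L ^ (1 / 80 : ℝ))) := by
                apply mul_le_mul_of_nonneg_left _ hC1
                apply mul_le_mul _ hlq hlq0 (by positivity)
                exact mul_le_mul hYX hpow (by positivity) (by positivity)
            _ = M * X * (1 / (Q : ℝ)) := by
                rw [hM]; ring
      have hlV := hlogV L V V hL1 hV0 hVX (by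
        rw [one_mul]
        calc (V : ℝ) = V ^ 1 := by ring
          _ ≤ V ^ 3 := pow_le_pow_right₀ hV1 (by norm_num))
      have hlV' : 1 + Real.log V ≤ 2 * C3 * L ^ (1 / 80 : ℝ) := by
        have h11 : Real.log V ≤ Real.log ((V : ℝ) + 3) := Real.log_le_log (by linarith) (by linarith)
        have h12 : 1 ≤ Real.log ((V : ℝ) + 3) :=
          hl3.trans (Real.log_le_log (by norm_num) (by linarith))
        linarith
      have hlV0 : 0 ≤ 1 + Real.log V := by
        have := Real.log_nonneg hV1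
        linarith
      calc (F.card : ℝ) = ∑ u ∈ U, ((F.filter (fun D => Function.update D i 1 = u)).card : ℝ) := by
            rw [card_eq_sum_card_fiberwise hmaps]
            push_cast
            rfl
        _ ≤ ∑ u ∈ U, M * X * (1 / ((∏ k, u k : ℕ) : ℝ)) := sum_le_sum hu
        _ = M * X * ∑ u ∈ U, 1 / ((∏ k, u k : ℕ) : ℝ) := by rw [mul_sum]
        _ ≤ M * X * (1 + Real.log V) ^ 3 :=
            mul_le_mul_of_nonneg_left (One.sum_u i V) (by positivity)
        _ ≤ M * X * (2 * C3 * L ^ (1 / 80 : ℝ)) ^ 3 := by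
            apply mul_le_mul_of_nonneg_left _ (by positivity)
            exact pow_le_pow_left₀ hlV0 hlV' 3
        _ = 2 * C1 * C2 * (2 * C3) ^ 3 * X * (L ^ (-(1 / 4 : ℝ)) * L ^ (1 / 80 : ℝ) *
              (L ^ (1 / 80 : ℝ)) ^ 3) := by
            rw [hM]; ring
        _ = 2 * C1 * C2 * (2 * C3) ^ 3 * X * L ^ (-(1 / 5 : ℝ)) := by
            congr 1
            rw [← Real.rpow_natCast, ← Real.rpow_mul hL0.le, ← Real.rpow_add hL0,
              ← Real.rpow_add hL0]
            norm_num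
    have hB : 0 ≤ (X0 : ℝ) ^ 4 * (X0 : ℝ) ^ (1 / 5 : ℝ) * X * (Real.log X) ^ (-(1 / 5 : ℝ)) := by
      positivity
    linarith

end Pool.Agent.H53.QT
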