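import Pool.Agent.H53.QT.Expa4
import Pool.Graph.R_seed8.W500.TW.Reds

/-!
# Project QT: reduction of the twists with a point of nonconstant type to tuples (REDS4)
-/

set_option autoImplicit false

namespace Pool.Agent.H53.QT

open Finset Pool.Agent.W262.RK Pool.Agent.W262.TW

namespace Red

lemma mem_E4 {z : ℕ} {x : ℤ} : x ∈ E4 z ↔ x.natAbs ∣ primorial z ^ 3 := by
  unfold E4
  have h0 : primorial z ^ 3 ≠ 0 := pow_ne_zero 3 (primorial_pos z).ne'
  simp only [Finset.mem_union, Finset.mem_image, Nat.mem_divisors]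
  constructor
  · rintro (⟨n, hn, rfl⟩ | ⟨n, hn, rfl⟩)
    · simpa using hn.1
    · simpa using hn.1
  · intro h
    rcases Int.natAbs_eq x with hx | hx
    · exact Or.inl ⟨x.natAbs, ⟨h, h0⟩, hx.symm⟩
    · exact Or.inr ⟨x.natAbs, ⟨h, h0⟩, hx.symm⟩

lemma E4_ne {z : ℕ} {x : ℤ} (h : x ∈ E4 z) : x ≠ 0 := by
  rintro rfl
  rw [mem_E4, Int.natAbs_zero, zero_dvd_iff] at h
  exact (pow_ne_zero 3 (primorial_pos z).ne') h

lemma E4_prime {z : ℕ} {x : ℤ} (h : x ∈ E4 z) {p : ℕ} (hp : p.Prime) (hz : z < p) :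
    ¬ p ∣ x.natAbs := by
  intro hd
  rw [mem_E4] at h
  have h1 := hp.dvd_of_dvd_pow (hd.trans h)
  unfold primorial at h1
  rw [hp.prime.dvd_finsetProd_iff] at h1
  obtain ⟨q, hq, hpq⟩ := h1
  simp only [Finset.mem_filter, Finset.mem_range] at hq
  rw [Nat.prime_dvd_prime_iff_eq hp hq.2] at hpq
  omega

lemma split4 (z n : ℕ) (hn : n ≠ 0) : ∃ m M t : ℕ, m ∣ primorial z ^ 3 ∧ M ≠ 0 ∧
    (∀ p : ℕ, p.Prime → p ∣ M → z < p) ∧ (∀ p, M.factorization p ≤ 3) ∧ t ≠ 0 ∧
    n = m * M * t ^ 4 := by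
  set v : ℕ → ℕ := fun p => n.factorization p with hv
  have hprime : ∀ p ∈ n.primeFactors, p.Prime := fun p hp => Nat.prime_of_mem_primeFactors hp
  have hM0 : (∏ p ∈ n.primeFactors.filter (fun p => ¬ p ≤ z), p ^ (v p % 4)) ≠ 0 :=
    Finset.prod_ne_zero_iff.2 fun p hp =>
      pow_ne_zero _ (hprime p (Finset.mem_filter.1 hp).1).ne_zero
  refine ⟨∏ p ∈ n.primeFactors.filter (fun p => p ≤ z), p ^ (v p % 4),
    ∏ p ∈ n.primeFactors.filter (fun p => ¬ p ≤ z), p ^ (v p % 4),
    ∏ p ∈ n.primeFactors, p ^ (v p / 4), ?_, hM0, ?_, ?_, ?_, ?_⟩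
  · unfold primorial
    rw [← Finset.prod_pow]
    refine dvd_trans (Finset.prod_dvd_prod_of_dvd _ (fun p => p ^ 3) fun p _ => ?_) ?_
    · exact pow_dvd_pow p (by omega)
    · apply Finset.prod_dvd_prod_of_subset
      intro p hp
      simp only [Finset.mem_filter, Nat.mem_primeFactors, Finset.mem_range] at hp ⊢
      exact ⟨by omega, hp.1.1⟩
  · intro p hp hd
    rw [hp.prime.dvd_finsetProd_iff] at hd
    obtain ⟨q, hq, hpq⟩ := hd
    rw [Finset.mem_filter] at hq
    have := hp.dvd_of_dvd_pow hpq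
    rw [Nat.prime_dvd_prime_iff_eq hp (hprime q hq.1)] at this
    omega
  · intro p
    rw [Nat.factorization_prod (fun q hq =>
      pow_ne_zero _ (hprime q (Finset.mem_filter.1 hq).1).ne_zero), Finsupp.finsetSum_apply]
    have h1 : ∀ q ∈ n.primeFactors.filter (fun p => ¬ p ≤ z),
        (q ^ (v q % 4)).factorization p = if q = p then v q % 4 else 0 := by
      intro q hq
      have hq1 := hprime q (Finset.mem_filter.1 hq).1
      rw [hq1.factorization_pow, Finsupp.single_apply]
    rw [Finset.sum_congr rfl h1, Finset.sum_ite_eq']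
    split_ifs <;> omega
  · exact Finset.prod_ne_zero_iff.2 fun p hp => pow_ne_zero _ (hprime p hp).ne_zero
  · rw [Finset.prod_filter_mul_prod_filter_not, ← Finset.prod_pow, ← Finset.prod_mul_distrib]
    conv_lhs => rw [← Nat.prod_factorization_pow_eq_self hn]
    rw [Finsupp.prod, Nat.support_factorization]
    refine Finset.prod_congr rfl fun p _ => ?_
    rw [← pow_mul, ← pow_add]
    congr 1
    show n.factorization p = v p % 4 + v p / 4 * 4
    rw [hv]
    simp only
    omega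

lemma decomp4 (z : ℕ) (n : ℤ) (hn : n ≠ 0) : ∃ κ ∈ E4 z, ∃ M : ℕ, M ≠ 0 ∧
    (∀ p : ℕ, p.Prime → p ∣ M → z < p) ∧ (∀ p, M.factorization p ≤ 3) ∧ ∃ t : ℤ, t ≠ 0 ∧
    n = κ * M * t ^ 4 := by
  obtain ⟨m, M, t, h1, h2, h3, h4, h5, h6⟩ := split4 z n.natAbs (Int.natAbs_ne_zero.2 hn)
  rcases Int.natAbs_eq n with h | h
  · refine ⟨m, ?_, M, h2, h3, h4, t, by exact_mod_cast h5, ?_⟩
    · rw [mem_E4]; simpa using h1
    · rw [h, h6]; push_cast; ring
  · refine ⟨-m, ?_, M, h2, h3, h4, t, by exact_mod_cast h5, ?_⟩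
    · rw [mem_E4]; simpa using h1
    · rw [h, h6]; push_cast; ring

/-- uniqueness of the rough part -/
lemma rough_unique4 {z : ℕ} {a b : ℕ} {D P : ℕ} {y T : ℕ} (ha : a ≠ 0) (hb : b ≠ 0)
    (ha' : ∀ p : ℕ, p.Prime → z < p → ¬ p ∣ a) (hb' : ∀ p : ℕ, p.Prime → z < p → ¬ p ∣ b)
    (hD : Rg z D) (hP : Rg z P) (hy : y ≠ 0) (hT : T ≠ 0)
    (h : a * D * y ^ 4 = b * P * T ^ 4) : D = P := by
  have hD0 : D ≠ 0 := hD.1.ne_zero
  have hP0 : P ≠ 0 := hP.1.ne_zero
  apply Nat.eq_of_factorization_eq hD0 hP0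
  intro p
  by_cases hp : p.Prime
  · by_cases hz : z < p
    · have h1 := congrArg (fun n => n.factorization p) h
      rw [Nat.factorization_mul (mul_ne_zero ha hD0) (pow_ne_zero 4 hy),
        Nat.factorization_mul ha hD0, Nat.factorization_pow,
        Nat.factorization_mul (mul_ne_zero hb hP0) (pow_ne_zero 4 hT),
        Nat.factorization_mul hb hP0, Nat.factorization_pow] at h1
      simp only [Finsupp.coe_add, Pi.add_apply, Finsupp.coe_smul, Pi.smul_apply, smul_eq_mul] at h1
      rw [Nat.factorization_eq_zero_of_not_dvd (ha' p hp hz),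
        Nat.factorization_eq_zero_of_not_dvd (hb' p hp hz)] at h1
      have h2 := hD.1.natFactorization_le_one p
      have h3 := hP.1.natFactorization_le_one p
      omega
    · rw [Nat.factorization_eq_zero_of_not_dvd, Nat.factorization_eq_zero_of_not_dvd]
      · intro hd; exact hz (hP.2 p hp hd)
      · intro hd; exact hz (hD.2 p hp hd)
  · rw [Nat.factorization_eq_zero_of_not_prime _ hp, Nat.factorization_eq_zero_of_not_prime _ hp]

lemma cop_of4 {α β : Fin 4 → ℤ} {x w : ℤ} (hxw : IsCoprime x w) {p : ℕ} (hp : p.Prime)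
    {i k : Fin 4} (hc : ¬ (p : ℤ) ∣ dt α β i k) (hi : (p : ℤ) ∣ α i * x + β i * w)
    (hk : (p : ℤ) ∣ α k * x + β k * w) : False := by
  have hpp : Prime (p : ℤ) := Nat.prime_iff_prime_int.mp hp
  have h1 : (p : ℤ) ∣ dt α β i k * w := by
    have : dt α β i k * w = α i * (α k * x + β k * w) - α k * (α i * x + β i * w) := by
      unfold dt; ring
    rw [this]
    exact dvd_sub (Dvd.dvd.mul_left hk _) (Dvd.dvd.mul_left hi _)
  have h2 : (p : ℤ) ∣ dt α β i k * x := by
    have : dt α β i k * x = β k * (α i * x + β i * w) - β i * (α k * x + β k * w) := by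
      unfold dt; ring
    rw [this]
    exact dvd_sub (Dvd.dvd.mul_left hi _) (Dvd.dvd.mul_left hk _)
  have h1' := (hpp.dvd_or_dvd h1).resolve_left hc
  have h2' := (hpp.dvd_or_dvd h2).resolve_left hc
  exact hpp.not_isUnit (hxw.isUnit_of_dvd' h2' h1')

lemma Jr_mod {p : ℕ} {a b : ℤ} (h : (p : ℤ) ∣ a - b) : Jr a p = Jr b p := by
  unfold Jr
  rw [jacobiSym.mod_left' (Int.ModEq.symm ((Int.modEq_iff_dvd).mpr h))]

lemma Jr_four {p : ℕ} (hp : p.Prime) {t : ℤ} (ht : ¬ (p : ℤ) ∣ t) : Jr (t ^ 4) p = 1 := by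
  have h1 := Expa.Jr_sq hp ht
  have e : t ^ 4 = t * t * (t * t) := by ring
  rw [e, Pool.Agent.W108.RK.Jr_mul_left, Pool.Agent.W108.RK.Jr_mul_left, h1, mul_one]

lemma q4_four (h : CHI) {p : ℕ} (hp : p.Prime) (h4 : p % 4 = 1) {t : ℤ} (ht : ¬ (p : ℤ) ∣ t) :
    q4 p (t ^ 4) = 1 := by
  have h1 := ((h p hp h4).2.2.2.1 t ht).2.1
  have e : t ^ 4 = t * t * (t * t) := by ring
  rw [e, Expa.q4_mul, Expa.q4_mul, ← h1]
  ring

end Red

open Red in
theorem reds4 (h : CHI) : REDS4 := by
  intro α β hcc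
  refine ⟨2 + ∑ i, ∑ k, (dt α β i k).natAbs, fun z hz X => ?_⟩
  have hnd : ∀ i k, i ≠ k → ∀ p : ℕ, z < p → ¬ (p : ℤ) ∣ dt α β i k := by
    intro i k hik p hp hd
    have h1 : (dt α β i k).natAbs ≤ ∑ i, ∑ k, (dt α β i k).natAbs :=
      (Finset.single_le_sum (f := fun k => (dt α β i k).natAbs) (fun _ _ => Nat.zero_le _)
        (Finset.mem_univ k)).trans
      (Finset.single_le_sum (f := fun i => ∑ k, (dt α β i k).natAbs) (fun _ _ => Nat.zero_le _)
        (Finset.mem_univ i))
    have h2 := Nat.le_of_dvd (Int.natAbs_pos.mpr (hcc i k hik)) (Int.natCast_dvd.mp hd)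
    omega
  classical
  set F : (Fin 4 → ℤ) → Finset (Fin 4 → ℕ) := fun κ =>
    (Fintype.piFinset (fun _ : Fin 4 => Icc 1 X)).filter (fun D => Tu z X D ∧
    (∀ i : Fin 4, (fun (_ : Fin 4) (_ : ℕ) => True) i (D i)) ∧
    (∀ i, ∀ p ∈ (D i).primeFactors, CF (dt α β) (fun k => κ k * D k) i p) ∧
    NC4 (dt α β) (fun k => κ k * D k)) with hF
  set S : Finset (ℤ × (Σ _ : Fin 4 → ℤ, Fin 4 → ℕ)) :=
    (EE z) ×ˢ ((Fintype.piFinset (fun _ : Fin 4 => E4 z)).sigma F) with hS
  have hsub : {d : ℤ | d.natAbs ≤ X ∧ Squarefree d ∧ Bad α β d} ⊆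
      ((S.image (fun q => q.1 * ((∏ k, q.2.2 k : ℕ) : ℤ)) : Finset ℤ) : Set ℤ) := by
    rintro d ⟨hdX, hdsf, x, w, y, hxw, hy, hd, hNC⟩
    have hd0 : d ≠ 0 := hdsf.ne_zero
    have hX0 : ∀ k, α k * x + β k * w ≠ 0 := by
      intro k hk
      have h1 : d * y ^ 4 = 0 := by
        rw [hd]; exact Finset.prod_eq_zero (Finset.mem_univ k) hk
      rcases mul_eq_zero.mp h1 with h | h
      · exact hd0 h
      · exact hy (pow_eq_zero_iff (by norm_num) |>.mp h)
    choose κ hκ D hD0 hDz hD3 t ht hX using fun k => decomp4 z _ (hX0 k)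
    obtain ⟨d0, hd0E, D', hD', hdd⟩ := Pool.Agent.W500.TW.decomp_sf z d hdsf
    have hDX : ∀ i : Fin 4, ∀ p : ℕ, p ∣ D i → (p : ℤ) ∣ α i * x + β i * w := by
      intro i p hp
      rw [hX i]
      exact Dvd.dvd.mul_right (Dvd.dvd.mul_left (by exact_mod_cast hp) _) _
    have hcop : ∀ i j, i ≠ j → (D i).Coprime (D j) := by
      intro i j hij
      apply Nat.coprime_of_dvd
      intro p hp h1 h2
      exact cop_of4 hxw hp (hnd i j hij p (hDz i p hp h1)) (hDX i p h1) (hDX j p h2)
    have hD : ∀ k, Rg z (D k) := by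
      intro k
      refine ⟨?_, hDz k⟩
      rw [Nat.squarefree_iff_factorization_le_one (hD0 k)]
      intro p
      by_cases hp : p.Prime
      · by_cases hpd : p ∣ D k
        · have hpz := hDz k p hp hpd
          have h1 := congrArg Int.natAbs hd
          rw [Int.natAbs_mul, Int.natAbs_pow, show (∏ k, (α k * x + β k * w)).natAbs =
            ∏ k, (α k * x + β k * w).natAbs from map_prod Int.natAbsHom _ _] at h1
          have h2 := congrArg (fun n => n.factorization p) h1
          rw [Nat.factorization_mul (Int.natAbs_ne_zero.2 hd0)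
            (pow_ne_zero 4 (Int.natAbs_ne_zero.2 hy)), Nat.factorization_pow,
            Nat.factorization_prod (fun j _ => Int.natAbs_ne_zero.2 (hX0 j)),
            Finsupp.finsetSum_apply, Finset.sum_eq_single k] at h2
          · simp only [Finsupp.coe_add, Pi.add_apply, Finsupp.coe_smul, Pi.smul_apply,
              smul_eq_mul] at h2
            have h3 : (α k * x + β k * w).natAbs = (κ k).natAbs * D k * (t k).natAbs ^ 4 := by
              rw [hX k, Int.natAbs_mul, Int.natAbs_mul, Int.natAbs_pow, Int.natAbs_natCast]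
            rw [h3, Nat.factorization_mul (mul_ne_zero (Int.natAbs_ne_zero.2 (E4_ne (hκ k)))
              (hD0 k)) (pow_ne_zero 4 (Int.natAbs_ne_zero.2 (ht k))),
              Nat.factorization_mul (Int.natAbs_ne_zero.2 (E4_ne (hκ k))) (hD0 k),
              Nat.factorization_pow] at h2
            simp only [Finsupp.coe_add, Pi.add_apply, Finsupp.coe_smul, Pi.smul_apply,
              smul_eq_mul] at h2
            rw [Nat.factorization_eq_zero_of_not_dvd (E4_prime (hκ k) hp hpz)] at h2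
            have h4 := (Int.squarefree_natAbs.mpr hdsf).natFactorization_le_one p
            have h5 := hD3 k p
            omega
          · intro j _ hjk
            apply Nat.factorization_eq_zero_of_not_dvd
            intro hdj
            exact cop_of4 hxw hp (hnd k j hjk.symm p hpz) (hDX k p hpd)
              (Int.natCast_dvd.2 hdj)
          · intro h6
            exact absurd (Finset.mem_univ k) h6
        · rw [Nat.factorization_eq_zero_of_not_dvd hpd]
          exact Nat.zero_le _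
      · rw [Nat.factorization_eq_zero_of_not_prime _ hp]
        exact Nat.zero_le _
    have hP : Rg z (∏ k, D k) := Pool.Agent.W500.TW.Rg_prod D hD hcop
    have hDP : D' = ∏ k, D k := by
      have h1 : d0 * D' * y ^ 4 = (∏ k, κ k) * (∏ k, D k : ℕ) * (∏ k, t k) ^ 4 := by
        rw [← hdd, hd, Finset.prod_congr rfl (fun k _ => hX k), Finset.prod_mul_distrib,
          Finset.prod_mul_distrib, Finset.prod_pow]
        push_cast
        ring
      have h2 := congrArg Int.natAbs h1
      rw [Int.natAbs_mul, Int.natAbs_mul, Int.natAbs_mul, Int.natAbs_mul, Int.natAbs_pow,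
        Int.natAbs_pow, Int.natAbs_natCast, Int.natAbs_natCast] at h2
      refine rough_unique4 (Int.natAbs_ne_zero.mpr (Pool.Agent.W500.TW.EE_ne hd0E))
        (Int.natAbs_ne_zero.mpr (Finset.prod_ne_zero_iff.mpr fun k _ => E4_ne (hκ k)))
        (fun p hp hz => Pool.Agent.W500.TW.EE_prime hd0E hp hz) ?_ hD' hP
        (Int.natAbs_ne_zero.mpr hy)
        (Int.natAbs_ne_zero.mpr (Finset.prod_ne_zero_iff.mpr fun k _ => ht k)) h2
      intro p hp hz hpd
      have h3 : (p : ℤ) ∣ ∏ k, κ k := Int.natCast_dvd.mpr hpd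
      rw [(Nat.prime_iff_prime_int.mp hp).dvd_finsetProd_iff] at h3
      obtain ⟨k, _, hk⟩ := h3
      exact E4_prime (hκ k) hp hz (Int.natCast_dvd.mp hk)
    have hPX : ∏ k, D k ≤ X := by
      rw [← hDP]
      refine le_trans ?_ hdX
      rw [hdd, Int.natAbs_mul, Int.natAbs_natCast]
      exact Nat.le_mul_of_pos_left _ (Int.natAbs_pos.mpr (Pool.Agent.W500.TW.EE_ne hd0E))
    have hDpos : ∀ k, 1 ≤ D k := fun k => Nat.one_le_iff_ne_zero.mpr (hD0 k)
    have hDle : ∀ k, D k ≤ X := fun k =>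
      (Nat.le_of_dvd (Finset.prod_pos fun k _ => hDpos k)
        (Finset.dvd_prod_of_mem D (Finset.mem_univ k))).trans hPX
    rw [Finset.coe_image]
    refine ⟨⟨d0, ⟨κ, D⟩⟩, ?_, ?_⟩
    · rw [Finset.mem_coe, hS, Finset.mem_product, Finset.mem_sigma]
      refine ⟨hd0E, Fintype.mem_piFinset.mpr hκ, ?_⟩
      rw [hF]
      have hmem : ∀ k, D k ∈ Icc 1 X := fun k => Finset.mem_Icc.2 ⟨hDpos k, hDle k⟩
      refine Finset.mem_filter.2 ⟨Fintype.mem_piFinset.2 hmem, ⟨hmem, hD, hcop, hPX⟩,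
        fun _ => trivial, ?_, ?_⟩
      · intro i p hp
        have hpp : p.Prime := Nat.prime_of_mem_primeFactors hp
        have hpd : p ∣ D i := Nat.dvd_of_mem_primeFactors hp
        have hz : z < p := (hD i).2 p hpp hpd
        have hci : ∀ k, k ≠ i → ¬ (p : ℤ) ∣ dt α β i k := fun k hk => hnd i k hk.symm p hz
        have hpt : ∀ k, k ≠ i → ¬ (p : ℤ) ∣ t k := by
          intro k hk h
          refine cop_of4 hxw hpp (hci k hk) (hDX i p hpd) ?_
          rw [hX k]
          exact Dvd.dvd.mul_left (Dvd.dvd.pow h (by norm_num)) _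
        have hmod : ∀ k l, (p : ℤ) ∣ κ k * D k * t k ^ 4 * dt α β i l -
            κ l * D l * t l ^ 4 * dt α β i k := by
          intro k l
          rw [← hX k, ← hX l]
          have : (α k * x + β k * w) * dt α β i l - (α l * x + β l * w) * dt α β i k =
              dt α β k l * (α i * x + β i * w) := by
            unfold dt; ring
          rw [this]
          exact Dvd.dvd.mul_left (hDX i p hpd) _
        refine ⟨?_, fun h4 => ?_⟩
        · intro k l hk hl
          have h1 := Jr_mod (hmod k l)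
          rw [Pool.Agent.W108.RK.Jr_mul_left, Pool.Agent.W108.RK.Jr_mul_left,
            Pool.Agent.W108.RK.Jr_mul_left _ (dt α β i k),
            Pool.Agent.W108.RK.Jr_mul_left _ (t l ^ 4), Jr_four hpp (hpt k hk),
            Jr_four hpp (hpt l hl), mul_one, mul_one] at h1
          exact h1
        · intro k l hk hl
          have h1 := (h p hpp h4).2.1 _ _ (hmod k l)
          rw [Expa.q4_mul, Expa.q4_mul, Expa.q4_mul _ _ (dt α β i k),
            Expa.q4_mul _ _ (t l ^ 4), q4_four h hpp h4 (hpt k hk),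
            q4_four h hpp h4 (hpt l hl), mul_one, mul_one] at h1
          exact h1
      · intro i
        obtain ⟨k, l, hk, hl, hns⟩ := hNC i
        refine ⟨k, l, hk, hl, ?_⟩
        rintro ⟨u, v, hu, hv, huv⟩
        apply hns
        refine ⟨u * t l, v * t k, mul_ne_zero hu (ht l), mul_ne_zero hv (ht k), ?_⟩
        simp only at huv
        simp only [hX k, hX l]
        linear_combination (t k * t l) ^ 4 * huv
    · simp only
      rw [← hDP, hdd]
  calc {d : ℤ | d.natAbs ≤ X ∧ Squarefree d ∧ Bad α β d}.ncard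
      ≤ ((S.image (fun q => q.1 * ((∏ k, q.2.2 k : ℕ) : ℤ)) : Finset ℤ) : Set ℤ).ncard :=
        Set.ncard_le_ncard hsub (Finset.finite_toSet _)
    _ = (S.image (fun q => q.1 * ((∏ k, q.2.2 k : ℕ) : ℤ))).card := Set.ncard_coe_finset _
    _ ≤ S.card := Finset.card_image_le
    _ = (EE z).card * ∑ κ ∈ Fintype.piFinset (fun _ : Fin 4 => E4 z), (F κ).card := by
        rw [hS, Finset.card_product, Finset.card_sigma]
    _ = _ := by
        refine congrArg (fun t => (EE z).card * t) (Finset.sum_congr rfl fun κ _ => ?_)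
        rw [hF]
        unfold cF
        congr 1
        ext D
        simp only [Finset.mem_filter]

end Pool.Agent.H53.QT
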