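import Pool.Agent.H53.QT.Defs
import Pool.Graph.R_seed8.Helper256.KM.Mertens

/-!
# Smooth numbers (project QT, part SMTH)
-/

set_option autoImplicit false

namespace Pool.Agent.H53.QT

open Finset Pool.Agent.W262.RK Pool.Agent.W262.TW

/-- sums over squarefree smooth numbers -/
theorem sum_sqf_le (F : Finset ℕ) (S : Finset ℕ) (f : ℕ → ℝ) (hf : ∀ p, 0 ≤ f p)
    (hF : ∀ n ∈ F, Squarefree n) (hS : ∀ n ∈ F, n.primeFactors ⊆ S) :
    ∑ n ∈ F, ∏ p ∈ n.primeFactors, f p ≤ ∏ p ∈ S, (1 + f p) := by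
  classical
  rw [Finset.prod_one_add]
  have h1 : ∑ n ∈ F, ∏ p ∈ n.primeFactors, f p =
      ∑ T ∈ F.image Nat.primeFactors, ∏ p ∈ T, f p := by
    rw [sum_image]
    intro a ha b hb h
    rw [← Nat.prod_primeFactors_of_squarefree (hF a ha),
      ← Nat.prod_primeFactors_of_squarefree (hF b hb), h]
  rw [h1]
  refine sum_le_sum_of_subset_of_nonneg ?_ fun T _ _ => prod_nonneg fun p _ => hf p
  intro T hT
  obtain ⟨n, hn, rfl⟩ := mem_image.1 hT
  exact mem_powerset.2 (hS n hn)

theorem smth : SMTH := by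
  intro A
  obtain ⟨C0, hC0⟩ := Pool.Agent.Helper256.KM.mertens_inv
  have hC00 : 0 ≤ C0 := (abs_nonneg _).trans (hC0 3 le_rfl)
  obtain ⟨k, hk⟩ : ∃ k, k = 380 * (A + 1) := ⟨_, rfl⟩
  refine ⟨Real.exp (3 * (C0 + 1)) * k.factorial, fun X hX => ?_⟩
  obtain ⟨L, hLdef⟩ : ∃ L, L = Real.log X := ⟨_, rfl⟩
  have hX3 : (3 : ℝ) ≤ X := by exact_mod_cast hX
  have hL : 1 < L := by
    rw [hLdef, Real.lt_log_iff_exp_lt (by linarith)]
    have := Real.exp_one_lt_d9
    linarith
  have hL0 : 0 < L := by linarith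
  obtain ⟨u, hu⟩ : ∃ u, u = L ^ (1 / 20 : ℝ) := ⟨_, rfl⟩
  obtain ⟨v, hv⟩ : ∃ v, v = L ^ (1 / 380 : ℝ) := ⟨_, rfl⟩
  have hu1 : 1 ≤ u := by rw [hu]; exact Real.one_le_rpow hL.le (by norm_num)
  have hv1 : 1 ≤ v := by rw [hv]; exact Real.one_le_rpow hL.le (by norm_num)
  have hu0 : 0 < u := by linarith
  have hvL : v ^ 380 = L := by
    rw [hv, ← Real.rpow_natCast, ← Real.rpow_mul hL0.le]
    norm_num
  have huv : L ^ (1 / 19 : ℝ) = u * v := by
    rw [hu, hv, ← Real.rpow_add hL0]
    norm_num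
  have hWW : ((WW X : ℕ) : ℝ) ≤ Real.exp u := by
    unfold WW
    rw [← hLdef, ← hu]
    exact Nat.floor_le (Real.exp_pos _).le
  have hWW2 : 2 ≤ WW X := by
    unfold WW
    rw [← hLdef, ← hu]
    refine Nat.le_floor ?_
    have h1 := Real.add_one_le_exp u
    push_cast
    linarith
  -- one term
  have hterm : ∀ n ∈ (Icc 1 X).filter (fun n => Squarefree n ∧ MM X < n ∧
      ∀ p ∈ n.primeFactors, p ≤ WW X),
      1 / (n : ℝ) ≤ Real.exp (-v) * ∏ p ∈ n.primeFactors, (Real.exp 1 / p) := by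
    intro n hn
    rw [mem_filter, mem_Icc] at hn
    obtain ⟨⟨hn1, hn2⟩, hsq, hM, hp⟩ := hn
    have hn0 : (0 : ℝ) < n := by exact_mod_cast hn1
    have hM' : Real.exp (u * v) < n := by
      unfold MM at hM
      rw [← hLdef, huv] at hM
      exact (Nat.floor_lt (Real.exp_pos _).le).1 hM
    have hlog : u * v < Real.log n := by rwa [Real.lt_log_iff_exp_lt hn0]
    have h1 : (1 : ℝ) ≤ Real.exp (-v) * Real.exp (Real.log n / u) := by
      rw [← Real.exp_add, Real.one_le_exp_iff]
      have : v ≤ Real.log n / u := by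
        rw [le_div_iff₀ hu0]
        linarith
      linarith
    have hnp : (n : ℝ) = ∏ p ∈ n.primeFactors, (p : ℝ) := by
      conv_lhs => rw [← Nat.prod_primeFactors_of_squarefree hsq]
      push_cast
      rfl
    have h2 : Real.exp (Real.log n / u) ≤ ∏ p ∈ n.primeFactors, Real.exp 1 := by
      have h3 : Real.log n = ∑ p ∈ n.primeFactors, Real.log p := by
        conv_lhs => rw [hnp]
        rw [Real.log_prod]
        intro p hp'
        have := (Nat.prime_of_mem_primeFactors hp').pos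
        positivity
      rw [h3, sum_div, Real.exp_sum]
      refine prod_le_prod (fun p _ => (Real.exp_pos _).le) fun p hp' => ?_
      rw [Real.exp_le_exp, div_le_one hu0]
      have hp0 : (0 : ℝ) < p := by exact_mod_cast (Nat.prime_of_mem_primeFactors hp').pos
      rw [Real.log_le_iff_le_exp hp0]
      refine le_trans ?_ hWW
      exact_mod_cast hp p hp'
    have h4 : ∏ p ∈ n.primeFactors, (Real.exp 1 / (p : ℝ)) =
        (∏ p ∈ n.primeFactors, Real.exp 1) / n := by
      rw [prod_div_distrib, ← hnp]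
    rw [h4, ← mul_div_assoc]
    refine div_le_div_of_nonneg_right ?_ hn0.le
    exact h1.trans (mul_le_mul_of_nonneg_left h2 (Real.exp_pos _).le)
  have hsum := sum_le_sum hterm
  rw [← mul_sum] at hsum
  -- the product
  obtain ⟨N, hN⟩ : ∃ N, N = WW X + 1 := ⟨_, rfl⟩
  have hN3 : 3 ≤ N := by omega
  have hprod := sum_sqf_le ((Icc 1 X).filter (fun n => Squarefree n ∧ MM X < n ∧
      ∀ p ∈ n.primeFactors, p ≤ WW X)) ((Icc 1 N).filter Nat.Prime)
      (fun p => Real.exp 1 / (p : ℝ)) (fun p => by positivity)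
      (fun n hn => (mem_filter.1 hn).2.1)
      (by
        intro n hn p hp
        have h1 := (mem_filter.1 hn).2.2.2 p hp
        have h2 := Nat.prime_of_mem_primeFactors hp
        rw [mem_filter, mem_Icc]
        exact ⟨⟨h2.one_lt.le, by omega⟩, h2⟩)
  have hprod2 : ∏ p ∈ (Icc 1 N).filter Nat.Prime, (1 + Real.exp 1 / (p : ℝ)) ≤
      Real.exp (Real.exp 1 * (Real.log (Real.log N) + C0)) := by
    have h1 : ∏ p ∈ (Icc 1 N).filter Nat.Prime, (1 + Real.exp 1 / (p : ℝ)) ≤
        ∏ p ∈ (Icc 1 N).filter Nat.Prime, Real.exp (Real.exp 1 / (p : ℝ)) := by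
      refine prod_le_prod (fun p _ => by positivity) fun p _ => ?_
      have := Real.add_one_le_exp (Real.exp 1 / (p : ℝ))
      linarith
    refine h1.trans ?_
    rw [← Real.exp_sum, Real.exp_le_exp]
    have h2 : ∑ p ∈ (Icc 1 N).filter Nat.Prime, Real.exp 1 / (p : ℝ) =
        Real.exp 1 * ∑ p ∈ (Icc 1 N).filter Nat.Prime, (1 : ℝ) / p := by
      rw [mul_sum]
      refine sum_congr rfl fun p _ => ?_
      ring
    rw [h2]
    refine mul_le_mul_of_nonneg_left ?_ (Real.exp_pos _).le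
    have := (abs_le.1 (hC0 N hN3)).2
    linarith
  -- log log N
  have hNr : (N : ℝ) ≤ Real.exp (2 * u) := by
    rw [hN]
    push_cast
    have h1 : Real.exp u + 1 ≤ Real.exp u * Real.exp u := by
      have h2 := Real.add_one_le_exp u
      nlinarith
    calc ((WW X : ℕ) : ℝ) + 1 ≤ Real.exp u + 1 := by linarith
      _ ≤ Real.exp u * Real.exp u := h1
      _ = Real.exp (2 * u) := by rw [← Real.exp_add]; ring_nf
  have hN0 : (0 : ℝ) < N := by rw [hN]; positivity
  have hlN : Real.log N ≤ 2 * u := by rwa [Real.log_le_iff_le_exp hN0]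
  have hlN0 : 0 < Real.log N := by
    refine Real.log_pos ?_
    have : (3 : ℝ) ≤ N := by exact_mod_cast hN3
    linarith
  have hllN : Real.log (Real.log N) ≤ 1 + Real.log L / 20 := by
    have h1 : Real.log (Real.log N) ≤ Real.log (2 * u) := Real.log_le_log hlN0 hlN
    have h2 : Real.log (2 * u) = Real.log 2 + Real.log L / 20 := by
      rw [Real.log_mul (by norm_num) hu0.ne', hu, Real.log_rpow hL0]
      ring
    have h3 : Real.log 2 ≤ 1 := by
      have := Real.log_two_lt_d9
      linarith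
    linarith
  have hlL : 0 < Real.log L := Real.log_pos hL
  have hexp : Real.exp (Real.exp 1 * (Real.log (Real.log N) + C0)) ≤
      Real.exp (3 * (C0 + 1)) * L := by
    have he : Real.exp 1 ≤ 3 := by
      have := Real.exp_one_lt_d9
      linarith
    have he0 : 0 < Real.exp 1 := Real.exp_pos _
    have h1 : Real.exp 1 * (Real.log (Real.log N) + C0) ≤ 3 * (C0 + 1) + Real.log L := by
      have h2 : Real.exp 1 * (Real.log (Real.log N) + C0) ≤
          Real.exp 1 * (1 + Real.log L / 20 + C0) :=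
        mul_le_mul_of_nonneg_left (by linarith) he0.le
      have h3 : Real.exp 1 * (1 + Real.log L / 20 + C0) ≤ 3 * (1 + Real.log L / 20 + C0) :=
        mul_le_mul_of_nonneg_right he (by positivity)
      linarith
    calc Real.exp (Real.exp 1 * (Real.log (Real.log N) + C0))
        ≤ Real.exp (3 * (C0 + 1) + Real.log L) := Real.exp_le_exp.2 h1
      _ = Real.exp (3 * (C0 + 1)) * L := by rw [Real.exp_add, Real.exp_log hL0]
  -- conclusion
  have hfin : Real.exp (-v) * L * L ^ A ≤ k.factorial := by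
    have h1 : v ^ k / k.factorial ≤ Real.exp v := Real.pow_div_factorial_le_exp v (by linarith) k
    have h2 : v ^ k = L * L ^ A := by
      rw [hk, pow_mul, hvL, pow_succ]
      ring
    have h3 : (0 : ℝ) < k.factorial := by exact_mod_cast Nat.factorial_pos k
    rw [div_le_iff₀ h3, h2] at h1
    have h4 : Real.exp (-v) * L * L ^ A = Real.exp (-v) * (L * L ^ A) := by ring
    rw [h4]
    calc Real.exp (-v) * (L * L ^ A) ≤ Real.exp (-v) * (Real.exp v * k.factorial) :=
          mul_le_mul_of_nonneg_left h1 (Real.exp_pos _).le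
      _ = k.factorial := by
          rw [← mul_assoc, ← Real.exp_add, neg_add_cancel, Real.exp_zero, one_mul]
  have hLA : 0 < L ^ A := by positivity
  rw [← hLdef, le_div_iff₀ hLA]
  calc (∑ n ∈ (Icc 1 X).filter (fun n => Squarefree n ∧ MM X < n ∧
        ∀ p ∈ n.primeFactors, p ≤ WW X), 1 / (n : ℝ)) * L ^ A
      ≤ (Real.exp (-v) * (Real.exp (3 * (C0 + 1)) * L)) * L ^ A := by
        refine mul_le_mul_of_nonneg_right ?_ hLA.le
        refine hsum.trans (mul_le_mul_of_nonneg_left ?_ (Real.exp_pos _).le)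
        exact hprod.trans (hprod2.trans hexp)
    _ = Real.exp (3 * (C0 + 1)) * (Real.exp (-v) * L * L ^ A) := by ring
    _ ≤ Real.exp (3 * (C0 + 1)) * k.factorial :=
        mul_le_mul_of_nonneg_left hfin (Real.exp_pos _).le

end Pool.Agent.H53.QT
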