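import Pool.Agent.H53.QT.Fin
import Pool.Agent.H53.QT.Chi
import Pool.Agent.H53.QT.Core4
import Pool.Agent.H53.QT.Expa4
import Pool.Agent.H53.QT.Mert4
import Pool.Agent.H53.QT.Smth
import Pool.Agent.H53.QT.Reds4
import Pool.Agent.H53.QT.One4
import Pool.Agent.H53.QT.Dens

/-! # Project QT: all parts together -/

set_option autoImplicit false

namespace Pool.Agent.H53.QT

theorem finq_all : FINQ := finq core4 (expa4 chi) mert4 smth (reds4 chi) (one4 chi mert4)

end Pool.Agent.H53.QT
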