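import Pool.Agent.H53.QT.Grow

/-! # The exponent of the logarithm (helper53) -/

set_option autoImplicit false

namespace Pool.Agent.H53.QT

open Finset Filter Pool.Agent.W262.RK Pool.Agent.W262.TW

lemma jr_neg_one {p : ℕ} (hp : p.Prime) (h2 : 2 < p) :
    (if p % 4 = 1 then (1 : ℝ) else 0) = (1 + Jr (-1) p) / 2 := by
  have hodd : p % 2 = 1 := Nat.odd_iff.1 (hp.odd_of_ne_two (by omega))
  have h1 : jacobiSym (-1) p = ZMod.χ₄ p := jacobiSym.at_neg_one (Nat.odd_iff.2 hodd)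
  unfold Jr
  rw [h1]
  rcases (by omega : p % 4 = 1 ∨ p % 4 = 3) with h | h
  · rw [ZMod.χ₄_nat_one_mod_four h, if_pos h]; norm_num
  · rw [ZMod.χ₄_nat_three_mod_four h, if_neg (by omega)]; norm_num

/-- restriction of a sum over primes -/
lemma ps_restr {z W X : ℕ} (hWX : W ≤ X) (f : ℕ → ℝ) :
    ∑ p ∈ PS z X, (if p ≤ W then f p else 0) = ∑ p ∈ PS z W, f p := by
  rw [← sum_filter]
  refine sum_congr ?_ fun _ _ => rfl
  unfold PS
  ext p
  rw [mem_filter, mem_filter, mem_filter, mem_Ioc, mem_Ioc]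
  constructor
  · rintro ⟨⟨⟨h1, h2⟩, h3⟩, h4⟩; exact ⟨⟨h1, h4⟩, h3⟩
  · rintro ⟨⟨h1, h2⟩, h3⟩; exact ⟨⟨⟨h1, h2.trans hWX⟩, h3⟩, h2⟩

lemma mbound (hM : MERT4) (z : ℕ) (hz : 2 ≤ z) : ∃ C : ℝ, 0 ≤ C ∧ ∀ᶠ X : ℕ in atTop,
    ∀ (κ : Fin 4 → ℤ) (c : Fin 4 → Fin 4 → ℤ) (A : Finset Ix),
    (∀ a ∈ A, ∀ b ∈ A, ¬ LkI a b) → (∃ a ∈ A, ∃ b ∈ A, gI a ≠ gI b) →
    ∑ p ∈ PS z X, (∑ a ∈ A, ‖bI (WW X) (NN X) κ c a p‖) / p ≤
      (1 - 1 / 80) * Real.log (Real.log X) + C := by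
  obtain ⟨C1, hC1, hU⟩ := Pool.Agent.W554.TW.mert
  obtain ⟨C2, hC2, hL⟩ := mertL z
  obtain ⟨C3, hC3⟩ := hM z
  have hC30 : 0 ≤ C3 := (abs_nonneg _).trans (hC3 3 le_rfl)
  have hl2 : 0 ≤ Real.log 2 := Real.log_nonneg (by norm_num)
  refine ⟨4 * C1 + (C2 + C3 + Real.log 2) / 4, by positivity, ?_⟩
  filter_upwards [grow] with X hX κ c A hA hA2
  obtain ⟨hX3, hW3, hN3, hWN, hNX, -, hllW, hllN, hll⟩ := hX
  set W := WW X with hW
  set N := NN X with hN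
  have hUX := hU z X hX3
  have hUN := hU z N hN3
  have hLW := hL W hW3
  have hJW := (abs_le.1 (hC3 W hW3)).1
  rcases comb4 A hA hA2 with ⟨h0, h1, h2⟩ | h2
  · have e1 : ∑ p ∈ PS z X, (∑ a ∈ A, ‖bI W N κ c a p‖) / (p : ℝ) ≤
        ∑ p ∈ PS z X, (1 : ℝ) / p - 1 / 2 * ∑ p ∈ PS z W, ((1 + Jr (-1) p) / 2) / (p : ℝ) := by
      have e2 : ∑ p ∈ PS z W, ((1 + Jr (-1) p) / 2) / (p : ℝ) =
          ∑ p ∈ PS z W, (if p % 4 = 1 then (1 : ℝ) else 0) / (p : ℝ) := by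
        refine sum_congr rfl fun p hp => ?_
        unfold PS at hp
        rw [mem_filter, mem_Ioc] at hp
        rw [jr_neg_one hp.2 (by omega)]
      rw [e2, ← ps_restr (hWN.trans hNX) (fun p => (if p % 4 = 1 then (1 : ℝ) else 0) / (p : ℝ)),
        mul_sum, ← sum_sub_distrib]
      refine sum_le_sum fun p hp => ?_
      have hp0 : (0 : ℝ) ≤ p := Nat.cast_nonneg p
      calc (∑ a ∈ A, ‖bI W N κ c a p‖) / (p : ℝ) ≤
          (1 - (if p ≤ W ∧ p % 4 = 1 then 1 / 2 else 0)) / (p : ℝ) :=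
            div_le_div_of_nonneg_right (wsum1 W N κ c A p h0 h1 h2) hp0
        _ = _ := by
            by_cases h3 : p ≤ W
            · by_cases h4 : p % 4 = 1
              · simp only [h3, h4, and_self, if_true]; ring
              · simp only [h3, h4, and_false, if_true, if_false]; ring
            · simp only [h3, false_and, if_false]; ring
    have e3 : ∑ p ∈ PS z W, ((1 + Jr (-1) p) / 2) / (p : ℝ) =
        1 / 2 * ∑ p ∈ PS z W, (1 : ℝ) / p + 1 / 2 * ∑ p ∈ PS z W, Jr (-1) p / (p : ℝ) := by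
      rw [mul_sum, mul_sum, ← sum_add_distrib]
      refine sum_congr rfl fun p _ => ?_
      ring
    rw [e3] at e1
    linarith
  · have e1 : ∑ p ∈ PS z X, (∑ a ∈ A, ‖bI W N κ c a p‖) / (p : ℝ) ≤
        1 / 2 * ∑ p ∈ PS z X, (1 : ℝ) / p + 7 / 2 * ∑ p ∈ PS z N, (1 : ℝ) / (p : ℝ) := by
      rw [← ps_restr hNX (fun p => (1 : ℝ) / (p : ℝ)), mul_sum, mul_sum, ← sum_add_distrib]
      refine sum_le_sum fun p hp => ?_
      have hp0 : (0 : ℝ) ≤ p := Nat.cast_nonneg p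
      calc (∑ a ∈ A, ‖bI W N κ c a p‖) / (p : ℝ) ≤
          (1 / 2 + (if p ≤ N then 7 / 2 else 0)) / (p : ℝ) :=
            div_le_div_of_nonneg_right (wsum2 W N hWN κ c A p h2) hp0
        _ = _ := by
            by_cases h3 : p ≤ N
            · simp only [h3, if_true]; ring
            · simp only [h3, if_false]; ring
    linarith

end Pool.Agent.H53.QT
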