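import Pool.Agent.H53.QT.Bl4
import Pool.Agent.H53.QT.Comb4
import Pool.Agent.H53.QT.Lnk
import Pool.Graph.R_seed8.W262.TW.Full

/-! # The weights of the unlinked sets (helper53) -/

set_option autoImplicit false

namespace Pool.Agent.H53.QT

open Finset Filter Pool.Agent.W262.RK Pool.Agent.W262.TW

lemma cnt0 : (univ.filter (fun a : Ix => cI a = 0)).card ≤ 64 := by decide +kernel

lemma cnt1 : (univ.filter (fun a : Ix => cI a = 1)).card ≤ 16 := by decide +kernel

lemma cnt2 : (univ.filter (fun a : Ix => cI a = 2)).card ≤ 16 := by decide +kernel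

lemma cnt_le (A : Finset Ix) (j : Fin 3) :
    (A.filter (fun a => cI a = j)).card ≤ (univ.filter (fun a : Ix => cI a = j)).card :=
  card_le_card (filter_subset_filter _ (subset_univ A))

lemma wI_nonneg (a : Ix) : 0 ≤ wI a := by
  unfold wI; split_ifs <;> norm_num

lemma wI_le (a : Ix) : wI a ≤ 1 := by
  unfold wI; split_ifs <;> norm_num

lemma bI_le (W N : ℕ) (κ : Fin 4 → ℤ) (c : Fin 4 → Fin 4 → ℤ) (a : Ix) (p : ℕ) :
    ‖bI W N κ c a p‖ ≤ if cl W N p = cI a then wI a else 0 := by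
  unfold bI
  split_ifs with h
  · rw [norm_mul]
    have h1 : ‖((wI a : ℝ) : ℂ)‖ = wI a := by
      rw [Complex.norm_real, Real.norm_of_nonneg (wI_nonneg a)]
    rw [h1]
    have h2 : ‖∏ k ∈ univ.erase (gI a), (sp (eI a k) p (κ k) *
        (starRingEnd ℂ) (sp (eI a k) p (c (gI a) k)))‖ ≤ 1 := by
      rw [norm_prod]
      refine prod_le_one (fun _ _ => norm_nonneg _) fun k _ => ?_
      rw [norm_mul, RCLike.norm_conj]
      exact mul_le_one₀ (sp_norm_le _ _ _) (norm_nonneg _) (sp_norm_le _ _ _)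
    calc wI a * _ ≤ wI a * 1 := mul_le_mul_of_nonneg_left h2 (wI_nonneg a)
      _ = wI a := mul_one _
  · simp

lemma bI_norm (W N : ℕ) (κ : Fin 4 → ℤ) (c : Fin 4 → Fin 4 → ℤ) (a : Ix) (p : ℕ) :
    ‖bI W N κ c a p‖ ≤ 1 := by
  refine (bI_le W N κ c a p).trans ?_
  split_ifs
  · exact wI_le a
  · norm_num

/-- the sum of the weights of a class -/
lemma wsum (W N : ℕ) (κ : Fin 4 → ℤ) (c : Fin 4 → Fin 4 → ℤ) (A : Finset Ix) (p : ℕ) :
    ∑ a ∈ A, ‖bI W N κ c a p‖ ≤ ((A.filter (fun a => cI a = cl W N p)).card : ℝ) *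
      (if cl W N p = 0 then 1 / 16 else 1 / 4) := by
  refine (sum_le_sum fun a _ => bI_le W N κ c a p).trans ?_
  have h1 : ∑ a ∈ A, (if cl W N p = cI a then wI a else 0) =
      ∑ a ∈ A.filter (fun a => cI a = cl W N p), wI a := by
    rw [sum_filter]
    refine sum_congr rfl fun a _ => ?_
    by_cases h : cl W N p = cI a
    · rw [if_pos h, if_pos h.symm]
    · rw [if_neg h, if_neg (fun h' => h h'.symm)]
  rw [h1]
  have h2 : ∀ a ∈ A.filter (fun a => cI a = cl W N p),
      wI a = (if cl W N p = 0 then (1 / 16 : ℝ) else 1 / 4) := by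
    intro a ha
    rw [mem_filter] at ha
    unfold wI
    rw [ha.2]
  rw [sum_congr rfl h2, sum_const, nsmul_eq_mul]

/-- pointwise bounds, first case -/
lemma wsum1 (W N : ℕ) (κ : Fin 4 → ℤ) (c : Fin 4 → Fin 4 → ℤ) (A : Finset Ix) (p : ℕ)
    (h0 : (A.filter (fun a => cI a = 0)).card ≤ 8) (h1 : (A.filter (fun a => cI a = 1)).card ≤ 4)
    (h2 : (A.filter (fun a => cI a = 2)).card ≤ 4) :
    ∑ a ∈ A, ‖bI W N κ c a p‖ ≤ 1 - (if p ≤ W ∧ p % 4 = 1 then 1 / 2 else 0) := by
  refine (wsum W N κ c A p).trans ?_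
  have h0' : ((A.filter (fun a => cI a = 0)).card : ℝ) ≤ 8 := by exact_mod_cast h0
  have h1' : ((A.filter (fun a => cI a = 1)).card : ℝ) ≤ 4 := by exact_mod_cast h1
  have h2' : ((A.filter (fun a => cI a = 2)).card : ℝ) ≤ 4 := by exact_mod_cast h2
  unfold cl
  by_cases h : p ≤ W ∧ p % 4 = 1
  · simp only [if_pos h, if_true]
    linarith
  · simp only [if_neg h]
    by_cases h' : N < p
    · simp only [if_pos h']
      rw [if_neg (by decide)]
      linarith
    · simp only [if_neg h']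
      rw [if_neg (by decide)]
      linarith

/-- pointwise bounds, second case -/
lemma wsum2 (W N : ℕ) (hWN : W ≤ N) (κ : Fin 4 → ℤ) (c : Fin 4 → Fin 4 → ℤ) (A : Finset Ix) (p : ℕ)
    (h2 : (A.filter (fun a => cI a = 2)).card ≤ 2) :
    ∑ a ∈ A, ‖bI W N κ c a p‖ ≤ 1 / 2 + (if p ≤ N then 7 / 2 else 0) := by
  refine (wsum W N κ c A p).trans ?_
  have h0' : ((A.filter (fun a => cI a = 0)).card : ℝ) ≤ 64 := by
    exact_mod_cast (cnt_le A 0).trans cnt0
  have h1' : ((A.filter (fun a => cI a = 1)).card : ℝ) ≤ 16 := by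
    exact_mod_cast (cnt_le A 1).trans cnt1
  have h2' : ((A.filter (fun a => cI a = 2)).card : ℝ) ≤ 2 := by exact_mod_cast h2
  unfold cl
  by_cases h : p ≤ W ∧ p % 4 = 1
  · simp only [if_pos h, if_true]
    rw [if_pos (h.1.trans hWN)]
    linarith
  · simp only [if_neg h]
    by_cases h' : N < p
    · simp only [if_pos h']
      rw [if_neg (by decide), if_neg (by omega)]
      linarith
    · simp only [if_neg h']
      rw [if_neg (by decide), if_pos (by omega)]
      linarith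

end Pool.Agent.H53.QT
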